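import Pool.Agent.Lib.MP_01b126_co.Cnt.CDefs

/-!
# MP_01b126_co, COUNTING, C1: Anclin's lemma

If three triangulations agree on all positions before `s`, then they have at most two different
edges at `s`.
-/

namespace Pool.Agent.MP01b126

namespace Anclin

theorem det_aff (o u v x y z w : Pt) :
    det (aff o u v x - aff o u v y) (aff o u v z - aff o u v w) = det u v * det (x - y) (z - w) := by
  simp only [det, aff, Prod.fst_sub, Prod.snd_sub, Prod.fst_add, Prod.snd_add, Prod.smul_fst,
    Prod.smul_snd, smul_eq_mul]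
  ring

theorem cross_aff {o u v : Pt} (hd : det u v = 1) (a b c d : Pt) :
    Cross (aff o u v a) (aff o u v b) (aff o u v c) (aff o u v d) ↔ Cross a b c d := by
  unfold Cross
  simp only [det_aff, hd, one_mul]

theorem exists_aff {o u v : Pt} (hd : det u v = 1) (z : Pt) : ∃ w, z = aff o u v w := by
  refine ⟨(det (z - o) v, det u (z - o)), ?_⟩
  have := expand hd (z - o)
  unfold aff
  simp only
  rw [add_assoc, ← this]
  abel

theorem cross_refl {s a b c d : Pt} (h : Cross a b c d) :
    Cross (s - a) (s - b) (s - c) (s - d) := by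
  obtain ⟨h1, h2⟩ := h
  have e : ∀ x y z w : Pt, det ((s - x) - (s - y)) ((s - z) - (s - w)) = det (x - y) (z - w) := by
    intro x y z w
    simp only [det, Prod.fst_sub, Prod.snd_sub]
    ring
  exact ⟨by rw [e, e]; exact h1, by rw [e, e]; exact h2⟩

/-- the crossing lemma in standard coordinates, case `x < D`, position `(1,1)` -/
theorem cross_A {p q : Pt} {y D : ℤ} (hy : 0 ≤ y) (hD : 2 * y + 1 < D)
    (h1 : p.1 + q.1 = 1) (h2 : p.2 + q.2 = 1) (hp : p.2 ≤ 0) :
    Cross p q (0, 0) (1, 0) ∨ Cross p q (-y, -D) (y + 1, D) := by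
  obtain ⟨p1, p2⟩ := p
  obtain ⟨q1, q2⟩ := q
  simp only at h1 h2 hp
  obtain rfl : q1 = 1 - p1 := by linarith
  obtain rfl : q2 = 1 - p2 := by linarith
  by_cases c1 : p1 ≤ p2
  · right
    obtain ⟨t, ht, rfl⟩ : ∃ t : ℤ, 0 ≤ t ∧ p1 = p2 - t := ⟨p2 - p1, by linarith, by ring⟩
    obtain ⟨r, hr, rfl⟩ : ∃ r : ℤ, 0 ≤ r ∧ p2 = -r := ⟨-p2, by linarith, by ring⟩
    obtain ⟨k, hk, rfl⟩ : ∃ k : ℤ, 0 ≤ k ∧ D = 2 * y + 2 + k := ⟨D - (2 * y + 2), by linarith, by ring⟩
    have n1 := mul_nonneg hr hy
    have n2 := mul_nonneg hr hk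
    have n3 := mul_nonneg ht hy
    have n4 := mul_nonneg ht hk
    constructor
    · apply mul_neg_of_neg_of_pos
      · simp only [det, Prod.fst_sub, Prod.snd_sub]
        nlinarith
      · simp only [det, Prod.fst_sub, Prod.snd_sub]
        nlinarith
    · apply mul_neg_of_pos_of_neg
      · simp only [det, Prod.fst_sub, Prod.snd_sub]
        nlinarith
      · simp only [det, Prod.fst_sub, Prod.snd_sub]
        nlinarith
  by_cases c2 : 1 ≤ p1 + p2
  · right
    obtain ⟨r, hr, rfl⟩ : ∃ r : ℤ, 0 ≤ r ∧ p2 = -r := ⟨-p2, by linarith, by ring⟩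
    obtain ⟨t, ht, rfl⟩ : ∃ t : ℤ, 0 ≤ t ∧ p1 = 1 + r + t := ⟨p1 - 1 - r, by linarith, by ring⟩
    obtain ⟨k, hk, rfl⟩ : ∃ k : ℤ, 0 ≤ k ∧ D = 2 * y + 2 + k := ⟨D - (2 * y + 2), by linarith, by ring⟩
    have n1 := mul_nonneg hr hy
    have n2 := mul_nonneg hr hk
    have n3 := mul_nonneg ht hy
    have n4 := mul_nonneg ht hk
    constructor
    · apply mul_neg_of_pos_of_neg
      · simp only [det, Prod.fst_sub, Prod.snd_sub]
        nlinarith
      · simp only [det, Prod.fst_sub, Prod.snd_sub]
        nlinarith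
    · apply mul_neg_of_neg_of_pos
      · simp only [det, Prod.fst_sub, Prod.snd_sub]
        nlinarith
      · simp only [det, Prod.fst_sub, Prod.snd_sub]
        nlinarith
  · left
    push Not at c1 c2
    have hp2 : p2 < 0 := by omega
    constructor
    · apply mul_neg_of_pos_of_neg
      · simp only [det, Prod.fst_sub, Prod.snd_sub]
        nlinarith
      · simp only [det, Prod.fst_sub, Prod.snd_sub]
        nlinarith
    · apply mul_neg_of_neg_of_pos
      · simp only [det, Prod.fst_sub, Prod.snd_sub]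
        linarith
      · simp only [det, Prod.fst_sub, Prod.snd_sub]
        linarith

/-- the crossing lemma in standard coordinates, case `x > D`, position `(2,1)` -/
theorem cross_B {p q : Pt} {y D : ℤ} (hD2 : 2 ≤ D) (hD : D < 2 * y + 1) (hyD : y < D)
    (h1 : p.1 + q.1 = 2) (h2 : p.2 + q.2 = 1) (hp : p.2 ≤ 0) :
    Cross p q (0, 0) (1, 0) ∨ Cross p q (-y, -D) (y + 1, D) := by
  obtain ⟨p1, p2⟩ := p
  obtain ⟨q1, q2⟩ := q
  simp only at h1 h2 hp
  obtain rfl : q1 = 2 - p1 := by linarith
  obtain rfl : q2 = 1 - p2 := by linarith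
  obtain ⟨k, hk, hyk⟩ : ∃ k : ℤ, 0 ≤ k ∧ y = 1 + k := ⟨y - 1, by omega, by ring⟩
  obtain ⟨j, hj, hDj⟩ : ∃ j : ℤ, 0 ≤ j ∧ D = y + 1 + j := ⟨D - y - 1, by omega, by ring⟩
  subst hDj
  subst hyk
  obtain ⟨r, hr, rfl⟩ : ∃ r : ℤ, 0 ≤ r ∧ p2 = -r := ⟨-p2, by linarith, by ring⟩
  have n1 := mul_nonneg hr hk
  have n2 := mul_nonneg hr hj
  by_cases c1 : p1 ≤ 2 * -r
  · right
    obtain ⟨t, ht, rfl⟩ : ∃ t : ℤ, 0 ≤ t ∧ p1 = 2 * -r - t := ⟨2 * -r - p1, by linarith, by ring⟩
    have n3 := mul_nonneg ht hk
    have n4 := mul_nonneg ht hj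
    constructor
    · apply mul_neg_of_neg_of_pos
      · simp only [det, Prod.fst_sub, Prod.snd_sub]
        nlinarith
      · simp only [det, Prod.fst_sub, Prod.snd_sub]
        nlinarith
    · apply mul_neg_of_pos_of_neg
      · simp only [det, Prod.fst_sub, Prod.snd_sub]
        nlinarith
      · simp only [det, Prod.fst_sub, Prod.snd_sub]
        nlinarith
  by_cases c2 : 1 ≤ p1
  · right
    obtain ⟨t, ht, rfl⟩ : ∃ t : ℤ, 0 ≤ t ∧ p1 = 1 + t := ⟨p1 - 1, by linarith, by ring⟩
    have n3 := mul_nonneg ht hk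
    have n4 := mul_nonneg ht hj
    constructor
    · apply mul_neg_of_pos_of_neg
      · simp only [det, Prod.fst_sub, Prod.snd_sub]
        nlinarith
      · simp only [det, Prod.fst_sub, Prod.snd_sub]
        nlinarith
    · apply mul_neg_of_neg_of_pos
      · simp only [det, Prod.fst_sub, Prod.snd_sub]
        nlinarith
      · simp only [det, Prod.fst_sub, Prod.snd_sub]
        nlinarith
  · left
    push Not at c1 c2
    have hr2 : 0 < r := by omega
    constructor
    · apply mul_neg_of_pos_of_neg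
      · simp only [det, Prod.fst_sub, Prod.snd_sub]
        nlinarith
      · simp only [det, Prod.fst_sub, Prod.snd_sub]
        nlinarith
    · apply mul_neg_of_neg_of_pos
      · simp only [det, Prod.fst_sub, Prod.snd_sub]
        linarith
      · simp only [det, Prod.fst_sub, Prod.snd_sub]
        linarith

theorem lexPos_or {v : Pt} (h : v ≠ 0) : LexPos v ∨ LexPos (-v) := by
  obtain ⟨v1, v2⟩ := v
  unfold LexPos
  simp only [Prod.fst_neg, Prod.snd_neg]
  by_contra hc
  push Not at hc
  apply h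
  have h1 : v1 = 0 := by omega
  have h2 : v2 = 0 := by
    have a1 := hc.1.2 h1
    have a2 := hc.2.2 (by omega)
    omega
  rw [h1, h2]
  rfl

theorem lexPos_neg {v : Pt} (h : LexPos v) (h' : LexPos (-v)) : False := by
  unfold LexPos at h h'
  simp only [Prod.fst_neg, Prod.snd_neg] at h h'
  omega

/-- the conclusion from a position at which every primitive segment crosses one of the two
candidates -/
theorem no_pos {m n : ℕ} {T T' : Pt → Pt → Prop} (h : IsTri m n T) (h' : IsTri m n T')
    {s a d a' d' r : Pt}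
    (hag : ∀ a b, LexPos (s - (a + b)) → (T a b ↔ T' a b))
    (k : T a (a + d)) (hs : a + (a + d) = s) (k' : T' a' (a' + d')) (hs' : a' + (a' + d') = s)
    (hdr : det d (r - a - a) = 1)
    {D l1 l2 l3 : ℤ} (hD : 0 < D) (hl1 : 0 ≤ l1) (hl2 : 0 ≤ l2) (hl3 : 0 ≤ l3)
    (hl : l1 + l2 + l3 = 2 * D) (hr : D • r = l1 • a + l2 • (a + d) + l3 • (a' + d'))
    (hcr : ∀ p q, p + q = r → Cross p q a (a + d) ∨ Cross p q a' (a' + d')) : False := by
  -- a position before `s` at which every segment crosses a candidate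
  have hmain : ∀ ρ : Pt, LexPos (s - ρ) → InR2 m n ρ → ¬ (Even ρ.1 ∧ Even ρ.2) →
      (∀ p q, p + q = ρ → Cross p q a (a + d) ∨ Cross p q a' (a' + d')) → False := by
    intro ρ h1 h2 h3 h4
    obtain ⟨p, q, hpq, hsum⟩ := h.full' h2 h3
    have hpq' : T' p q := (hag p q (by rw [hsum]; exact h1)).1 hpq
    rcases h4 p q hsum with hc | hc
    · exact h.ncr _ _ _ _ hpq k hc
    · exact h'.ncr _ _ _ _ hpq' k' hc
  have hrs : s - r ≠ 0 := by
    intro h0
    have : r = a + (a + d) := by rw [hs]; exact (sub_eq_zero.1 h0).symm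
    rw [this, show a + (a + d) - a - a = d by abel, det_self] at hdr
    exact absurd hdr (by norm_num)
  have hodd : ∀ ρ : Pt, (det d (ρ - a - a) = 1 ∨ det d (ρ - a - a) = -1) →
      ¬ (Even ρ.1 ∧ Even ρ.2) := by
    rintro ρ h1 ⟨⟨u, hu⟩, ⟨v, hv⟩⟩
    unfold det at h1
    simp only [Prod.fst_sub, Prod.snd_sub] at h1
    rw [hu, hv] at h1
    have : (d.1 * (v + v - a.2 - a.2) - d.2 * (u + u - a.1 - a.1)) =
      2 * (d.1 * (v - a.2) - d.2 * (u - a.1)) := by ring
    rw [this] at h1
    omega
  rcases lexPos_or hrs with hlt | hlt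
  · refine hmain r hlt ?_ (hodd r (Or.inl hdr)) hcr
    exact comb hD hl1 hl2 hl3 hl hr (h.inR _ _ k) (h.inR' k) (h'.inR' k')
  · refine hmain (s + s - r) ?_ ?_ (hodd _ (Or.inr ?_)) ?_
    · rw [show s - (s + s - r) = -(s - r) by abel]
      exact hlt
    · refine comb (x := a + d) (y := a) (z := a') hD hl1 hl2 hl3 hl ?_ (h.inR' k) (h.inR _ _ k)
        (h'.inR _ _ k')
      have e1 : D • (s + s - r) = (l1 + l2 + l3) • s - D • r := by
        rw [hl]; module
      rw [e1, hr]
      have e2 : (l1 + l2 + l3) • s = l1 • (a + (a + d)) + l2 • (a + (a + d)) +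
          l3 • (a' + (a' + d')) := by
        rw [hs, hs']; module
      rw [e2]
      module
    · have e1 : s + s - r - a - a = (2 : ℤ) • d - (r - a - a) := by
        rw [← hs]; module
      rw [e1, det_sub_right, det_smul_right, det_self, hdr]
      norm_num
    · intro p q hpq
      have e1 : (s - p) + (s - q) = r := by
        rw [show (s - p) + (s - q) = s + s - (p + q) by abel, hpq]; abel
      have ea : s - a = a + d := by rw [← hs]; abel
      have ead : s - (a + d) = a := by rw [← hs]; abel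
      have ea' : s - a' = a' + d' := by rw [← hs']; abel
      have ead' : s - (a' + d') = a' := by rw [← hs']; abel
      rcases hcr _ _ e1 with hc | hc
      · left
        have := cross_refl (s := s) hc
        rw [ea, ead, sub_sub_cancel, sub_sub_cancel] at this
        exact this.swap'
      · right
        have := cross_refl (s := s) hc
        rw [ea', ead', sub_sub_cancel, sub_sub_cancel] at this
        exact this.swap'

/-- two candidates at the same position: the determinant of the directions is at most two -/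
theorem det_le {m n : ℕ} {T T' : Pt → Pt → Prop} (h : IsTri m n T) (h' : IsTri m n T')
    {s a d a' d' : Pt}
    (hag : ∀ a b, LexPos (s - (a + b)) → (T a b ↔ T' a b))
    (k : T a (a + d)) (hs : a + (a + d) = s) (k' : T' a' (a' + d')) (hs' : a' + (a' + d') = s) :
    det d d' ≤ 2 := by
  by_contra hgt
  push Not at hgt
  have hpd : Prim d := by have := h.prim _ _ k; rwa [add_sub_cancel_left] at this
  have hpd' : Prim d' := by have := h'.prim _ _ k'; rwa [add_sub_cancel_left] at this
  obtain ⟨e0, he0⟩ := hpd.exists_det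
  -- the determinant is even
  have hdd : d' = d + (2 : ℤ) • (a - a') := by
    have e1 : a' + (a' + d') = a + (a + d) := by rw [hs, hs']
    have e2 : d' = a + (a + d) - a' - a' := by rw [← e1]; abel
    rw [e2]; module
  obtain ⟨D, hDdef⟩ : ∃ D, D = det d (a - a') := ⟨_, rfl⟩
  have hdet : det d d' = 2 * D := by
    rw [hdd, det_add_right, det_self, det_smul_right, hDdef]; ring
  have hD2 : 2 ≤ D := by omega
  have hDpos : 0 < D := by omega
  -- normalise the transversal vector
  obtain ⟨x0, hx0⟩ : ∃ x0, x0 = det d' e0 := ⟨_, rfl⟩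
  obtain ⟨e, hedef⟩ : ∃ e, e = e0 + (x0 / (2 * D)) • d := ⟨_, rfl⟩
  have hde : det d e = 1 := by
    rw [hedef, det_add_right, det_smul_right, det_self, he0]; ring
  obtain ⟨x, hx⟩ : ∃ x, x = det d' e := ⟨_, rfl⟩
  have hxm : x = x0 % (2 * D) := by
    rw [hx, hedef, det_add_right, det_smul_right, ← hx0, det_swap d' d, hdet]
    have := Int.emod_add_mul_ediv x0 (2 * D)
    linarith
  have hx1 : 0 ≤ x := by rw [hxm]; exact Int.emod_nonneg _ (by omega)
  have hx2 : x < 2 * D := by rw [hxm]; exact Int.emod_lt_of_pos _ (by omega)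
  have hd' : d' = x • d + (2 * D) • e := by
    have := expand hde d'
    rw [← hx, hdet] at this
    exact this
  have hxodd : ¬ Even x := by
    rintro ⟨z, hz⟩
    apply hpd'.not_even
    rw [hd', hz]
    refine ⟨⟨z * d.1 + D * e.1, ?_⟩, ⟨z * d.2 + D * e.2, ?_⟩⟩
    · simp only [Prod.fst_add, Prod.smul_fst, smul_eq_mul]; ring
    · simp only [Prod.snd_add, Prod.smul_snd, smul_eq_mul]; ring
  obtain ⟨y, hy⟩ : ∃ y, x = 2 * y + 1 := Int.not_even_iff_odd.1 hxodd
  have hxD : x ≠ D := by
    intro hxD
    obtain ⟨u, v, huv⟩ := hpd'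
    rw [hd', hxD] at huv
    simp only [Prod.fst_add, Prod.smul_fst, Prod.snd_add, Prod.smul_snd, smul_eq_mul] at huv
    have : D * (u * (d.1 + 2 * e.1) + v * (d.2 + 2 * e.2)) = 1 := by linarith
    have hu : D ∣ 1 := ⟨_, this.symm⟩
    have := Int.le_of_dvd (by norm_num) hu
    omega
  have ea' : a' = a + (-y) • d + (-D) • e := by
    have e1 : (2 : ℤ) • a' = (2 : ℤ) • (a + (-y) • d + (-D) • e) := by
      have e2 : a' + a' = a + a + d - d' := by
        have : a' + (a' + d') = a + (a + d) := by rw [hs, hs']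
        have e3 : a' + a' = a' + (a' + d') - d' := by abel
        rw [e3, this]; abel
      rw [two_smul, e2, hd', hy]
      module
    have e4 := sub_eq_zero.2 e1
    rw [← smul_sub, smul_eq_zero] at e4
    rcases e4 with e4 | e4
    · exact absurd e4 (by norm_num)
    · exact sub_eq_zero.1 e4
  have ead' : a' + d' = a + (y + 1) • d + D • e := by
    rw [ea', hd', hy]; module
  have fa : a = aff a d e (0, 0) := by simp [aff]
  have fad : a + d = aff a d e (1, 0) := by simp [aff]
  have fa' : a' = aff a d e (-y, -D) := by rw [ea']; rfl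
  have fad' : a' + d' = aff a d e (y + 1, D) := by rw [ead']; rfl
  -- coordinates of a pair of points
  have hco : ∀ p q : Pt, ∃ p' q' : Pt, p = aff a d e p' ∧ q = aff a d e q' ∧
      det (p + q - a - a) e = p'.1 + q'.1 ∧ det d (p + q - a - a) = p'.2 + q'.2 := by
    intro p q
    obtain ⟨p', hp'⟩ := exists_aff (o := a) hde p
    obtain ⟨q', hq'⟩ := exists_aff (o := a) hde q
    have e1 : p + q - a - a = (p'.1 + q'.1) • d + (p'.2 + q'.2) • e := by
      rw [hp', hq']; unfold aff; module
    refine ⟨p', q', hp', hq', ?_, ?_⟩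
    · rw [e1, det_add_left, det_smul_left, det_smul_left, det_self, hde]; ring
    · rw [e1, det_add_right, det_smul_right, det_smul_right, det_self, hde]; ring
  have hfrom : ∀ p' q' : Pt, Cross p' q' (0, 0) (1, 0) ∨ Cross p' q' (-y, -D) (y + 1, D) →
      Cross (aff a d e p') (aff a d e q') a (a + d) ∨
        Cross (aff a d e p') (aff a d e q') a' (a' + d') := by
    rintro p' q' (hc | hc)
    · left
      have := (cross_aff (o := a) hde p' q' (0, 0) (1, 0)).2 hc
      rwa [← fa, ← fad] at this
    · right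
      have := (cross_aff (o := a) hde p' q' (-y, -D) (y + 1, D)).2 hc
      rwa [← fa', ← fad'] at this
  by_cases hlt : x < D
  · refine no_pos h h' hag k hs k' hs' (r := a + a + d + e) ?_ (D := D) (l1 := D + y)
      (l2 := D - (y + 1)) (l3 := 1) hDpos (by omega) (by omega) (by norm_num) (by ring) ?_ ?_
    · rw [show a + a + d + e - a - a = d + e by abel, det_add_right, det_self, hde]; ring
    · rw [ead']; module
    · intro p q hpq
      obtain ⟨p', q', rfl, rfl, c1, c2⟩ := hco p q
      rw [hpq, show a + a + d + e - a - a = d + e by abel] at c1 c2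
      rw [det_add_left, hde, det_self] at c1
      rw [det_add_right, hde, det_self] at c2
      apply hfrom
      by_cases hp : p'.2 ≤ 0
      · exact cross_A (by omega) (by omega) (by omega) (by omega) hp
      · rcases cross_A (p := q') (q := p') (y := y) (D := D) (by omega) (by omega) (by omega)
          (by omega) (by omega) with hc | hc
        · exact Or.inl hc.swap
        · exact Or.inr hc.swap
  · refine no_pos h h' hag k hs k' hs' (r := a + a + (2 : ℤ) • d + e) ?_ (D := D) (l1 := y)
      (l2 := 2 * D - y - 1) (l3 := 1) hDpos (by omega) (by omega) (by norm_num) (by ring) ?_ ?_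
    · rw [show a + a + (2 : ℤ) • d + e - a - a = (2 : ℤ) • d + e by abel, det_add_right,
        det_smul_right, det_self, hde]; ring
    · rw [ead']; module
    · intro p q hpq
      obtain ⟨p', q', rfl, rfl, c1, c2⟩ := hco p q
      rw [hpq, show a + a + (2 : ℤ) • d + e - a - a = (2 : ℤ) • d + e by abel] at c1 c2
      rw [det_add_left, det_smul_left, hde, det_self] at c1
      rw [det_add_right, det_smul_right, hde, det_self] at c2
      apply hfrom
      by_cases hp : p'.2 ≤ 0
      · exact cross_B hD2 (by omega) (by omega) (by omega) (by omega) hp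
      · rcases cross_B (p := q') (q := p') (y := y) (D := D) hD2 (by omega) (by omega) (by omega)
          (by omega) (by omega) with hc | hc
        · exact Or.inl hc.swap
        · exact Or.inr hc.swap

/-- two candidates at the same position: equal or the determinant is `± 2` -/
theorem det_eq {m n : ℕ} {T T' : Pt → Pt → Prop} (h : IsTri m n T) (h' : IsTri m n T')
    {s a d a' d' : Pt}
    (hag : ∀ a b, LexPos (s - (a + b)) → (T a b ↔ T' a b))
    (hd : LexPos d) (hd' : LexPos d')
    (k : T a (a + d)) (hs : a + (a + d) = s) (k' : T' a' (a' + d')) (hs' : a' + (a' + d') = s) :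
    d = d' ∨ det d (a - a') = 1 ∨ det d (a - a') = -1 := by
  have h1 := det_le h h' hag k hs k' hs'
  have h2 := det_le h' h (fun a b hab => (hag a b hab).symm) k' hs' k hs
  rw [det_swap d' d] at h2
  have hdd : d' = d + (2 : ℤ) • (a - a') := by
    have e1 : a' + (a' + d') = a + (a + d) := by rw [hs, hs']
    have e2 : d' = a + (a + d) - a' - a' := by rw [← e1]; abel
    rw [e2]; module
  have hdet : det d d' = 2 * det d (a - a') := by
    rw [hdd, det_add_right, det_self, det_smul_right]; ring
  rw [hdet] at h1 h2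
  have hpd : Prim d := by have := h.prim _ _ k; rwa [add_sub_cancel_left] at this
  have hpd' : Prim d' := by have := h'.prim _ _ k'; rwa [add_sub_cancel_left] at this
  by_cases h0 : det d (a - a') = 0
  · left
    rw [h0, mul_zero] at hdet
    rcases hpd.eq_or_neg hpd' hdet with e | e
    · exact e.symm
    · exfalso
      rw [e] at hd'
      exact lexPos_neg hd hd'
  · right
    omega

end Anclin

open Anclin in
/-- Anclin's lemma: at most two candidates -/
theorem two_cand {m n : ℕ} {T1 T2 T3 : Pt → Pt → Prop} (h1 : IsTri m n T1) (h2 : IsTri m n T2)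
    (h3 : IsTri m n T3) {s d1 d2 d3 : Pt}
    (e2 : ∀ a b, LexPos (s - (a + b)) → (T1 a b ↔ T2 a b))
    (e3 : ∀ a b, LexPos (s - (a + b)) → (T1 a b ↔ T3 a b))
    (k1 : HasDir T1 s d1) (k2 : HasDir T2 s d2) (k3 : HasDir T3 s d3) :
    d1 = d2 ∨ d1 = d3 ∨ d2 = d3 := by
  obtain ⟨p1, a1, t1, s1⟩ := k1
  obtain ⟨p2, a2, t2, s2⟩ := k2
  obtain ⟨p3, a3, t3, s3⟩ := k3
  rcases det_eq h1 h2 e2 p1 p2 t1 s1 t2 s2 with e | e12
  · exact Or.inl e
  rcases det_eq h1 h3 e3 p1 p3 t1 s1 t3 s3 with e | e13
  · exact Or.inr (Or.inl e)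
  rcases det_eq h2 h3 (fun a b hab => (e2 a b hab).symm.trans (e3 a b hab)) p2 p3 t2 s2 t3 s3
    with e | e23
  · exact Or.inr (Or.inr e)
  exfalso
  have hd2 : d2 = d1 + (2 : ℤ) • (a1 - a2) := by
    have e1 : a2 + (a2 + d2) = a1 + (a1 + d1) := by rw [s1, s2]
    have e2 : d2 = a1 + (a1 + d1) - a2 - a2 := by rw [← e1]; abel
    rw [e2]; module
  have key : det d2 (a2 - a3) = det d1 (a1 - a3) - det d1 (a1 - a2) +
      2 * det (a1 - a2) (a1 - a3) := by
    rw [hd2]
    simp only [det, Prod.fst_sub, Prod.snd_sub, Prod.fst_add, Prod.snd_add, Prod.smul_fst,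
      Prod.smul_snd, smul_eq_mul]
    ring
  omega

end Pool.Agent.MP01b126
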