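import Pool.Agent.Lib.MP_01b126_co.Model
import Pool.Agent.Lib.MP_01b126_co.Cone

/-!
# MP_01b126_co, COUNTING: trapezoids of width two and their refilling

The shape with parameters `l`, `a` in standard coordinates is the convex lattice polygon with corners
`(0,1)`, `(a,1)`, `(2l-1-a,-1)`, `(-1,-1)`. Its lattice points off the two walls are `(k,0)`,
`0 ≤ k < l`.
-/

namespace Pool.Agent.MP01b126

/-- symmetric primitive non-crossing edge relations -/
structure Pre (E : Pt → Pt → Prop) : Prop where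
  symm : ∀ a b, E a b → E b a
  prim : ∀ a b, E a b → Prim (b - a)
  ncr : ∀ a b c d, E a b → E c d → ¬ Cross a b c d

theorem IsTri.pre {m n : ℕ} {E : Pt → Pt → Prop} (h : IsTri m n E) : Pre E :=
  ⟨h.symm, h.prim, h.ncr⟩

/-- closed shape, lattice points -/
def InS (l a : ℕ) (z : Pt) : Prop :=
  (z.2 = 1 ∧ 0 ≤ z.1 ∧ z.1 ≤ a) ∨ (z.2 = 0 ∧ 0 ≤ z.1 ∧ z.1 < l) ∨
    (z.2 = -1 ∧ -1 ≤ z.1 ∧ z.1 ≤ 2 * l - 1 - a)

/-- interior positions (doubled midpoints) -/
def PosS (l a : ℕ) (s : Pt) : Prop :=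
  (s.2 = 0 ∧ Odd s.1 ∧ 0 < s.1 ∧ s.1 < 2 * l - 1) ∨
  (s.2 = 1 ∧ 0 ≤ s.1 ∧ s.1 ≤ l - 1 + a) ∨
  (s.2 = -1 ∧ -1 ≤ s.1 ∧ s.1 ≤ 3 * l - 2 - a)

/-- the boundary of the shape consists of edges -/
structure BdS (l a : ℕ) (E : Pt → Pt → Prop) : Prop where
  hl : 1 ≤ l
  ha : a ≤ 2 * l
  left : E (0, 1) (-1, -1)
  right : E ((a : ℤ), 1) (2 * l - 1 - a, -1)
  top : ∀ j : ℤ, 0 ≤ j → j < a → E (j, 1) (j + 1, 1)
  bot : ∀ j : ℤ, -1 ≤ j → j < 2 * l - 1 - a → E (j, -1) (j + 1, -1)

/-- fillings of the shape -/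
structure Fil (l a : ℕ) (F : Pt → Pt → Prop) : Prop where
  symm : ∀ x y, F x y → F y x
  prim : ∀ x y, F x y → Prim (y - x)
  ncr : ∀ x y z w, F x y → F z w → ¬ Cross x y z w
  ins : ∀ x y, F x y → InS l a x
  pos : ∀ x y, F x y → PosS l a (x + y)
  full : ∀ s, PosS l a s → ∃ x y, F x y ∧ x + y = s

section real

/-- a lattice point strictly inside a primitive segment is impossible -/
theorem no_inner {p q z : Pt} (hp : Prim (q - p)) {t : ℝ} (h0 : 0 < t) (h1 : t < 1)
    (e1 : (z.1 : ℝ) = p.1 + t * (q.1 - p.1)) (e2 : (z.2 : ℝ) = p.2 + t * (q.2 - p.2)) : False := by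
  have hd : det (q - p) (z - p) = 0 := by
    have : ((det (q - p) (z - p) : ℤ) : ℝ) = 0 := by
      unfold det
      simp only [Prod.fst_sub, Prod.snd_sub]
      push_cast
      rw [e1, e2]; ring
    exact_mod_cast this
  obtain ⟨k, hk⟩ := hp.eq_smul hd
  have k1 : (z.1 : ℝ) - p.1 = k * (q.1 - p.1) := by
    have := congrArg Prod.fst hk
    simp only [Prod.fst_sub, Prod.smul_fst, smul_eq_mul] at this
    exact_mod_cast this
  have k2 : (z.2 : ℝ) - p.2 = k * (q.2 - p.2) := by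
    have := congrArg Prod.snd hk
    simp only [Prod.snd_sub, Prod.smul_snd, smul_eq_mul] at this
    exact_mod_cast this
  have h3 : ((k : ℝ) - t) * (q.1 - p.1) = 0 := by linarith
  have h4 : ((k : ℝ) - t) * (q.2 - p.2) = 0 := by linarith
  have hkt : (k : ℝ) = t := by
    rcases mul_eq_zero.mp h3 with h | h
    · linarith
    rcases mul_eq_zero.mp h4 with h' | h'
    · linarith
    exfalso
    apply hp.ne_zero
    ext
    · have : (q.1 : ℝ) - p.1 = ((q.1 - p.1 : ℤ) : ℝ) := by push_cast; ring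
      rw [this] at h
      simpa using (by exact_mod_cast h : q.1 - p.1 = 0)
    · have : (q.2 : ℝ) - p.2 = ((q.2 - p.2 : ℤ) : ℝ) := by push_cast; ring
      rw [this] at h'
      simpa using (by exact_mod_cast h' : q.2 - p.2 = 0)
  rw [← hkt] at h0 h1
  have a1 : 0 < k := by exact_mod_cast h0
  have a2 : k < 1 := by exact_mod_cast h1
  omega

/-- an edge cannot pass through a point of another edge, unless they are parallel -/
theorem barrier {E : Pt → Pt → Prop} (hE : Pre E) {p q s w : Pt} (h1 : E p q) (h2 : E s w)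
    {t r : ℝ} (t0 : 0 < t) (t1 : t < 1) (r0 : 0 ≤ r) (r1 : r ≤ 1)
    (e1 : (p.1 : ℝ) + t * (q.1 - p.1) = s.1 + r * (w.1 - s.1))
    (e2 : (p.2 : ℝ) + t * (q.2 - p.2) = s.2 + r * (w.2 - s.2))
    (hd : det (w - s) (q - p) ≠ 0) : False := by
  rcases r0.eq_or_lt with r0 | r0
  · apply no_inner (hE.prim _ _ h1) t0 t1 (z := s)
    · rw [e1, ← r0]; ring
    · rw [e2, ← r0]; ring
  rcases r1.eq_or_lt with r1 | r1
  · apply no_inner (hE.prim _ _ h1) t0 t1 (z := w)
    · rw [e1, r1]; ring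
    · rw [e2, r1]; ring
  apply hE.ncr _ _ _ _ h1 h2
  have hD : (det (w - s) (q - p) : ℝ) ≠ 0 := by exact_mod_cast hd
  have hD2 : 0 < (det (w - s) (q - p) : ℝ) ^ 2 := by positivity
  have a1 : (det (q - p) (s - p) : ℝ) = r * det (w - s) (q - p) := by
    unfold det
    simp only [Prod.fst_sub, Prod.snd_sub]
    push_cast
    linear_combination (q.2 - p.2 : ℝ) * e1 - (q.1 - p.1 : ℝ) * e2
  have a2 : (det (q - p) (w - p) : ℝ) = (r - 1) * det (w - s) (q - p) := by
    unfold det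
    simp only [Prod.fst_sub, Prod.snd_sub]
    push_cast
    linear_combination (q.2 - p.2 : ℝ) * e1 - (q.1 - p.1 : ℝ) * e2
  have a3 : (det (w - s) (p - s) : ℝ) = - t * det (w - s) (q - p) := by
    unfold det
    simp only [Prod.fst_sub, Prod.snd_sub]
    push_cast
    linear_combination (-(w.2 - s.2 : ℝ)) * e1 + (w.1 - s.1 : ℝ) * e2
  have a4 : (det (w - s) (q - s) : ℝ) = (1 - t) * det (w - s) (q - p) := by
    unfold det
    simp only [Prod.fst_sub, Prod.snd_sub]
    push_cast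
    linear_combination (-(w.2 - s.2 : ℝ)) * e1 + (w.1 - s.1 : ℝ) * e2
  constructor
  · have : ((det (q - p) (s - p) * det (q - p) (w - p) : ℤ) : ℝ) < 0 := by
      push_cast
      rw [a1, a2]
      have : r * (det (w - s) (q - p) : ℝ) * ((r - 1) * det (w - s) (q - p)) =
        - (r * (1 - r) * (det (w - s) (q - p) : ℝ) ^ 2) := by ring
      rw [this]
      have : 0 < r * (1 - r) * (det (w - s) (q - p) : ℝ) ^ 2 :=
        mul_pos (mul_pos r0 (by linarith)) hD2
      linarith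
    exact_mod_cast this
  · have : ((det (w - s) (p - s) * det (w - s) (q - s) : ℤ) : ℝ) < 0 := by
      push_cast
      rw [a3, a4]
      have : - t * (det (w - s) (q - p) : ℝ) * ((1 - t) * det (w - s) (q - p)) =
        - (t * (1 - t) * (det (w - s) (q - p) : ℝ) ^ 2) := by ring
      rw [this]
      have : 0 < t * (1 - t) * (det (w - s) (q - p) : ℝ) ^ 2 :=
        mul_pos (mul_pos t0 (by linarith)) hD2
      linarith
    exact_mod_cast this

end real

end Pool.Agent.MP01b126
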