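import Pool.Agent.Lib.MP_01b126_co.Cert
import Pool.Agent.Lib.MP_01b126_co.Cnt.Shape

/-!
# MP_01b126_co, COUNTING: refilling a trapezoid
-/

namespace Pool.Agent.MP01b126

/-- coordinates in the frame `o, d, u` -/
def unaff (o d u z : Pt) : Pt := (det (z - o) u, det d (z - o))

theorem aff_unaff {o d u : Pt} (hd : det d u = 1) (z : Pt) : aff o d u (unaff o d u z) = z := by
  have := expand hd (z - o)
  unfold aff unaff
  simp only
  rw [add_assoc, ← this]
  abel

theorem unaff_aff {o d u : Pt} (hd : det d u = 1) (x : Pt) : unaff o d u (aff o d u x) = x := by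
  unfold aff unaff
  have e : o + x.1 • d + x.2 • u - o = x.1 • d + x.2 • u := by abel
  rw [e]
  ext
  · simp only
    rw [det_add_left, det_smul_left, det_smul_left, det_self, hd]; ring
  · simp only
    rw [det_add_right, det_smul_right, det_smul_right, det_self, hd]; ring

theorem aff_inj {o d u : Pt} (hd : det d u = 1) {x y : Pt} (h : aff o d u x = aff o d u y) :
    x = y := by
  rw [← unaff_aff (o := o) hd x, h, unaff_aff hd]

theorem prim_aff_iff {o d u : Pt} (hd : det d u = 1) {a b : Pt} :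
    Prim (aff o d u b - aff o d u a) ↔ Prim (b - a) := by
  refine ⟨fun h => ?_, prim_aff (Or.inl hd)⟩
  obtain ⟨v, hv⟩ := h.exists_det
  have e : v = aff o d u (det v u, det d v) - aff o d u 0 := by
    unfold aff
    simp only [Prod.fst_zero, Prod.snd_zero, zero_smul, add_zero]
    have := expand hd v
    rw [add_assoc, ← this]; abel
  rw [e, det_aff, hd, mul_one] at hv
  exact prim_of_det hv

theorem Pre.pull {E : Pt → Pt → Prop} (hE : Pre E) {o d u : Pt} (hd : det d u = 1) :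
    Pre (fun x y => E (aff o d u x) (aff o d u y)) where
  symm _ _ h := hE.symm _ _ h
  prim _ _ h := (prim_aff_iff hd).mp (hE.prim _ _ h)
  ncr _ _ _ _ h h' hc := hE.ncr _ _ _ _ h h' ((cross_aff (Or.inl hd) _ _ _ _).mpr hc)

/-- the four side functions of the shape, real version -/
def gR (l a : ℕ) (i : Fin 4) (x r : ℝ) : ℝ :=
  match i with
  | 0 => 1 - r
  | 1 => 1 + r
  | 2 => 2 * x - r + 1
  | 3 => (2 * l - 1) + (2 * a - 2 * l + 1) * r - 2 * x

/-- the four side functions of the shape, integer version -/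
def gZ (l a : ℕ) (i : Fin 4) (z : Pt) : ℤ :=
  match i with
  | 0 => 1 - z.2
  | 1 => 1 + z.2
  | 2 => 2 * z.1 - z.2 + 1
  | 3 => (2 * l - 1) + (2 * a - 2 * l + 1) * z.2 - 2 * z.1

theorem gR_cast (l a : ℕ) (i : Fin 4) (z : Pt) : gR l a i z.1 z.2 = (gZ l a i z : ℤ) := by
  fin_cases i <;> simp [gR, gZ]

theorem gR_lin (l a : ℕ) (i : Fin 4) (x r x' r' t : ℝ) :
    gR l a i (x + t * (x' - x)) (r + t * (r' - r)) =
      gR l a i x r + t * (gR l a i x' r' - gR l a i x r) := by
  fin_cases i <;> simp [gR] <;> ring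

theorem inS_iff {l a : ℕ} {z : Pt} : InS l a z ↔ ∀ i, 0 ≤ gZ l a i z := by
  constructor
  · intro h i
    obtain ⟨z1, z2⟩ := z
    unfold InS at h
    simp only at h
    rcases h with ⟨h0, h1, h2⟩ | ⟨h0, h1, h2⟩ | ⟨h0, h1, h2⟩ <;> subst h0 <;>
      fin_cases i <;> simp [gZ] <;> omega
  · intro h
    obtain ⟨z1, z2⟩ := z
    have h0 := h 0
    have h1 := h 1
    have h2 := h 2
    have h3 := h 3
    simp only [gZ] at h0 h1 h2 h3
    unfold InS
    simp only
    have hz : z2 = 1 ∨ z2 = 0 ∨ z2 = -1 := by omega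
    rcases hz with rfl | rfl | rfl
    · left; refine ⟨rfl, by omega, by omega⟩
    · right; left; refine ⟨rfl, by omega, by omega⟩
    · right; right; refine ⟨rfl, by omega, by omega⟩

/-- a segment of an edge does not touch the boundary from inside -/
theorem bd_touch {l a : ℕ} {E : Pt → Pt → Prop} (hE : Pre E) (hB : BdS l a E) {p q : Pt}
    (hpq : E p q) {t : ℝ} (t0 : 0 < t) (t1 : t < 1)
    (hnn : ∀ i, 0 ≤ gR l a i (p.1 + t * (q.1 - p.1)) (p.2 + t * (q.2 - p.2)))
    {i : Fin 4} (hi : gR l a i (p.1 + t * (q.1 - p.1)) (p.2 + t * (q.2 - p.2)) = 0)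
    (hne : gZ l a i p ≠ gZ l a i q) : False := by
  set X : ℝ := p.1 + t * (q.1 - p.1) with hX
  set R : ℝ := p.2 + t * (q.2 - p.2) with hR
  have n0 := hnn 0
  have n1 := hnn 1
  have n2 := hnn 2
  have n3 := hnn 3
  simp only [gR] at n0 n1 n2 n3
  have hdiv : ∀ (x r : ℝ) (w : Pt), x = w.1 → r = w.2 → X = x → R = r → False := by
    intro x r w e1 e2 e3 e4
    exact no_inner (hE.prim _ _ hpq) t0 t1 (z := w) (by rw [← e1, ← e3]) (by rw [← e2, ← e4])
  fin_cases i
  · -- top
    simp only [gR] at hi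
    have hR1 : R = 1 := by simpa using (sub_eq_zero.mp hi).symm
    have hx0 : 0 ≤ X := by rw [hR1] at n2; linarith
    have hxa : X ≤ a := by rw [hR1] at n3; linarith
    set j := ⌊X⌋ with hj
    have j1 : (j : ℝ) ≤ X := Int.floor_le X
    have j2 : X < j + 1 := Int.lt_floor_add_one X
    rcases j1.eq_or_lt with hj' | hj'
    · exact hdiv X 1 (j, 1) hj'.symm (by simp) rfl hR1
    have j0 : 0 ≤ j := Int.floor_nonneg.mpr hx0
    have ja : j < a := by
      have : (j : ℝ) < a := lt_of_lt_of_le hj' hxa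
      exact_mod_cast this
    apply barrier hE hpq (hB.top j j0 ja) t0 t1 (r := X - j) (by linarith) (by linarith)
    · rw [← hX]; push_cast; ring
    · rw [← hR, hR1]; push_cast; ring
    · simp only [gZ] at hne
      simp only [det, Prod.fst_sub, Prod.snd_sub]
      intro h0
      apply hne
      have : q.2 - p.2 = 0 := by linarith
      show 1 - p.2 = 1 - q.2
      linarith
  · -- bottom
    simp only [gR] at hi
    have hi' : 1 + R = 0 := by simpa using hi
    have hR1 : R = -1 := by linarith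
    have hx0 : -1 ≤ X := by rw [hR1] at n2; linarith
    have hxa : X ≤ 2 * l - 1 - a := by rw [hR1] at n3; linarith
    set j := ⌊X⌋ with hj
    have j1 : (j : ℝ) ≤ X := Int.floor_le X
    have j2 : X < j + 1 := Int.lt_floor_add_one X
    rcases j1.eq_or_lt with hj' | hj'
    · exact hdiv X (-1) (j, -1) hj'.symm (by simp) rfl hR1
    have j0 : -1 ≤ j := by
      rw [hj]; apply Int.le_floor.mpr; push_cast; exact hx0
    have ja : j < 2 * l - 1 - a := by
      have : (j : ℝ) < ((2 * l - 1 - a : ℤ) : ℝ) := by push_cast; exact lt_of_lt_of_le hj' hxa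
      exact_mod_cast this
    apply barrier hE hpq (hB.bot j j0 ja) t0 t1 (r := X - j) (by linarith) (by linarith)
    · rw [← hX]; push_cast; ring
    · rw [← hR, hR1]; push_cast; ring
    · simp only [gZ] at hne
      simp only [det, Prod.fst_sub, Prod.snd_sub]
      intro h0
      apply hne
      have : q.2 - p.2 = 0 := by linarith
      show 1 + p.2 = 1 + q.2
      linarith
  · -- left
    simp only [gR] at hi
    have hi' : 2 * X - R + 1 = 0 := by simpa using hi
    apply barrier hE hpq hB.left t0 t1 (r := (1 - R) / 2) (by linarith) (by linarith)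
    · rw [← hX]; push_cast; linarith
    · rw [← hR]; push_cast; ring
    · simp only [gZ] at hne
      simp only [det, Prod.fst_sub, Prod.snd_sub]
      intro h0
      apply hne
      show 2 * p.1 - p.2 + 1 = 2 * q.1 - q.2 + 1
      linarith
  · -- right
    simp only [gR] at hi
    have hi' : (2 * l - 1) + (2 * a - 2 * l + 1) * R - 2 * X = 0 := by simpa using hi
    apply barrier hE hpq hB.right t0 t1 (r := (1 - R) / 2) (by linarith) (by linarith)
    · rw [← hX]; push_cast
      linear_combination (-1/2) * hi'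
    · rw [← hR]; push_cast; ring
    · simp only [gZ] at hne
      simp only [det, Prod.fst_sub, Prod.snd_sub]
      intro h0
      apply hne
      show (2 * l - 1) + (2 * a - 2 * l + 1) * p.2 - 2 * p.1 =
        (2 * l - 1) + (2 * a - 2 * l + 1) * q.2 - 2 * q.1
      linarith

/-- an edge with a point strictly inside the shape ends inside the shape -/
theorem exit_in {l a : ℕ} {E : Pt → Pt → Prop} (hE : Pre E) (hB : BdS l a E) {p q : Pt}
    (hpq : E p q) {t : ℝ} (t0 : 0 < t) (t1 : t < 1)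
    (hp : ∀ i, 0 < gR l a i (p.1 + t * (q.1 - p.1)) (p.2 + t * (q.2 - p.2))) : InS l a q := by
  rw [inS_iff]
  by_contra hc
  push Not at hc
  obtain ⟨i0, hi0⟩ := hc
  set G : Fin 4 → ℝ → ℝ := fun i τ => gR l a i (p.1 + τ * (q.1 - p.1)) (p.2 + τ * (q.2 - p.2))
    with hG
  set f : ℝ → ℝ := fun τ => min (min (G 0 τ) (G 1 τ)) (min (G 2 τ) (G 3 τ)) with hf
  have hGc : ∀ i, Continuous (G i) := by
    intro i
    have : G i = fun τ => gR l a i p.1 p.2 + τ * (gR l a i q.1 q.2 - gR l a i p.1 p.2) := by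
      funext τ; exact gR_lin l a i _ _ _ _ τ
    rw [this]
    fun_prop
  have hfc : Continuous f := by
    have h0 := hGc 0
    have h1 := hGc 1
    have h2 := hGc 2
    have h3 := hGc 3
    rw [hf]
    exact (h0.min h1).min (h2.min h3)
  have hft : 0 < f t := by
    simp only [hf, hG, lt_min_iff]
    exact ⟨⟨hp 0, hp 1⟩, ⟨hp 2, hp 3⟩⟩
  have hle : ∀ i τ, f τ ≤ G i τ := by
    intro i τ
    fin_cases i
    · exact (min_le_left _ _).trans (min_le_left _ _)
    · exact (min_le_left _ _).trans (min_le_right _ _)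
    · exact (min_le_right _ _).trans (min_le_left _ _)
    · exact (min_le_right _ _).trans (min_le_right _ _)
  have hex : ∀ τ, ∃ i, f τ = G i τ := by
    intro τ
    rcases min_choice (min (G 0 τ) (G 1 τ)) (min (G 2 τ) (G 3 τ)) with h | h
    · rcases min_choice (G 0 τ) (G 1 τ) with h' | h'
      · exact ⟨0, by simp only [hf]; rw [h, h']⟩
      · exact ⟨1, by simp only [hf]; rw [h, h']⟩
    · rcases min_choice (G 2 τ) (G 3 τ) with h' | h'
      · exact ⟨2, by simp only [hf]; rw [h, h']⟩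
      · exact ⟨3, by simp only [hf]; rw [h, h']⟩
  have hf1 : f 1 < 0 := by
    refine lt_of_le_of_lt (hle i0 1) ?_
    have : G i0 1 = (gZ l a i0 q : ℤ) := by
      simp only [hG]
      rw [← gR_cast]
      congr 1 <;> ring
    rw [this]
    exact_mod_cast hi0
  obtain ⟨τ, hτ, hτ0⟩ := intermediate_value_Icc' t1.le (hfc.continuousOn (s := Set.Icc t 1))
    (show (0 : ℝ) ∈ Set.Icc (f 1) (f t) from ⟨hf1.le, hft.le⟩)
  have hτt : t < τ := by
    rcases hτ.1.eq_or_lt with h | h
    · rw [← h] at hτ0; linarith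
    · exact h
  have hτ1 : τ < 1 := by
    rcases hτ.2.eq_or_lt with h | h
    · rw [h] at hτ0; linarith
    · exact h
  obtain ⟨i, hi⟩ := hex τ
  apply bd_touch hE hB hpq (lt_trans t0 hτt) hτ1 (i := i)
  · intro j
    have := hle j τ
    rw [hτ0] at this
    exact this
  · show G i τ = 0
    rw [← hi, hτ0]
  · intro he
    have e1 : G i τ = gR l a i p.1 p.2 + τ * (gR l a i q.1 q.2 - gR l a i p.1 p.2) :=
      gR_lin l a i _ _ _ _ τ
    have e2 : G i t = gR l a i p.1 p.2 + t * (gR l a i q.1 q.2 - gR l a i p.1 p.2) :=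
      gR_lin l a i _ _ _ _ t
    rw [gR_cast, gR_cast, he, sub_self, mul_zero, add_zero] at e1 e2
    have h3 : 0 < G i t := hp i
    have h4 : G i τ = 0 := by rw [← hi, hτ0]
    rw [e2, ← e1, h4] at h3
    exact lt_irrefl _ h3

theorem mid_pos {l a : ℕ} {p q : Pt} (hpr : Prim (q - p)) (hp : InS l a p) (hq : InS l a q)
    (hs : ∀ i, 0 < gZ l a i p + gZ l a i q) : PosS l a (p + q) := by
  rw [inS_iff] at hp hq
  have s0 := hs 0
  have s1 := hs 1
  have s2 := hs 2
  have s3 := hs 3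
  obtain ⟨p1, p2⟩ := p
  obtain ⟨q1, q2⟩ := q
  simp only [gZ] at s0 s1 s2 s3
  unfold PosS
  simp only [Prod.mk_add_mk]
  have hz : p2 + q2 = 0 ∨ p2 + q2 = 1 ∨ p2 + q2 = -1 := by omega
  have hne := hpr.not_even
  simp only [Prod.mk_sub_mk] at hne
  rcases hz with h | h | h
  · left
    have h2 : q2 = - p2 := by omega
    subst h2
    have e : (2 * (a : ℤ) - 2 * l + 1) * p2 + (2 * (a : ℤ) - 2 * l + 1) * (- p2) = 0 := by ring
    have hodd : Odd (p1 + q1) := by
      rw [← Int.not_even_iff_odd]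
      intro he
      apply hne
      refine ⟨?_, ⟨-p2, by ring⟩⟩
      have : q1 - p1 = (p1 + q1) - 2 * p1 := by ring
      rw [this]
      exact he.sub (even_two_mul p1)
    refine ⟨h, hodd, ?_, ?_⟩
    · obtain ⟨k, hk⟩ := hodd
      omega
    · omega
  · right; left
    have h2 : q2 = 1 - p2 := by omega
    subst h2
    have e : (2 * (a : ℤ) - 2 * l + 1) * p2 + (2 * (a : ℤ) - 2 * l + 1) * (1 - p2) =
      2 * (a : ℤ) - 2 * l + 1 := by ring
    refine ⟨h, by omega, by omega⟩
  · right; right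
    have h2 : q2 = -1 - p2 := by omega
    subst h2
    have e : (2 * (a : ℤ) - 2 * l + 1) * p2 + (2 * (a : ℤ) - 2 * l + 1) * (-1 - p2) =
      - (2 * (a : ℤ) - 2 * l + 1) := by ring
    refine ⟨h, by omega, by omega⟩

/-- an edge with a point strictly inside the shape is an inner edge of the shape -/
theorem inner_edge {l a : ℕ} {E : Pt → Pt → Prop} (hE : Pre E) (hB : BdS l a E) {p q : Pt}
    (hpq : E p q) {t : ℝ} (t0 : 0 < t) (t1 : t < 1)
    (hp : ∀ i, 0 < gR l a i (p.1 + t * (q.1 - p.1)) (p.2 + t * (q.2 - p.2))) :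
    InS l a p ∧ InS l a q ∧ PosS l a (p + q) := by
  have hq := exit_in hE hB hpq t0 t1 hp
  have hp' : InS l a p := by
    apply exit_in hE hB (hE.symm _ _ hpq) (t := 1 - t) (by linarith) (by linarith)
    intro i
    have := hp i
    have e1 : (q.1 : ℝ) + (1 - t) * (p.1 - q.1) = p.1 + t * (q.1 - p.1) := by ring
    have e2 : (q.2 : ℝ) + (1 - t) * (p.2 - q.2) = p.2 + t * (q.2 - p.2) := by ring
    rw [e1, e2]; exact this
  refine ⟨hp', hq, mid_pos (hE.prim _ _ hpq) hp' hq ?_⟩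
  intro i
  have h1 := hp i
  rw [gR_lin, gR_cast, gR_cast] at h1
  have h2 := inS_iff.mp hp' i
  have h3 := inS_iff.mp hq i
  by_contra hc
  push Not at hc
  have h4 : gZ l a i p = 0 := by omega
  have h5 : gZ l a i q = 0 := by omega
  rw [h4, h5] at h1
  simp at h1

/-- an edge whose position is interior lies in the shape -/
theorem pos_in {l a : ℕ} {E : Pt → Pt → Prop} (hE : Pre E) (hB : BdS l a E) {p q : Pt}
    (hpq : E p q) (hs : PosS l a (p + q)) : InS l a p ∧ InS l a q := by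
  have hha := hB.ha
  have key : ∀ i, 0 < gZ l a i p + gZ l a i q := by
    intro i
    obtain ⟨p1, p2⟩ := p
    obtain ⟨q1, q2⟩ := q
    unfold PosS at hs
    simp only [Prod.mk_add_mk] at hs
    rcases hs with ⟨h, _, h1, h2⟩ | ⟨h, h1, h2⟩ | ⟨h, h1, h2⟩
    · have h3 : q2 = - p2 := by omega
      subst h3
      have e : (2 * (a : ℤ) - 2 * l + 1) * p2 + (2 * (a : ℤ) - 2 * l + 1) * (- p2) = 0 := by ring
      fin_cases i <;> simp only [gZ] <;> omega
    · have h3 : q2 = 1 - p2 := by omega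
      subst h3
      have e : (2 * (a : ℤ) - 2 * l + 1) * p2 + (2 * (a : ℤ) - 2 * l + 1) * (1 - p2) =
        2 * (a : ℤ) - 2 * l + 1 := by ring
      fin_cases i <;> simp only [gZ] <;> omega
    · have h3 : q2 = -1 - p2 := by omega
      subst h3
      have e : (2 * (a : ℤ) - 2 * l + 1) * p2 + (2 * (a : ℤ) - 2 * l + 1) * (-1 - p2) =
        - (2 * (a : ℤ) - 2 * l + 1) := by ring
      fin_cases i <;> simp only [gZ] <;> omega
  have := inner_edge hE hB hpq (t := 1 / 2) (by norm_num) (by norm_num) ?_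
  · exact ⟨this.1, this.2.1⟩
  intro i
  rw [gR_lin, gR_cast, gR_cast]
  have h1 : (0 : ℝ) < ((gZ l a i p + gZ l a i q : ℤ) : ℝ) := by exact_mod_cast key i
  push_cast at h1
  linarith


/-- the crossing point of two crossing segments -/
theorem cross_param {p q x y : Pt} (h : Cross p q x y) : ∃ t r : ℝ, 0 < t ∧ t < 1 ∧ 0 < r ∧ r < 1 ∧
    (p.1 : ℝ) + t * (q.1 - p.1) = x.1 + r * (y.1 - x.1) ∧
    (p.2 : ℝ) + t * (q.2 - p.2) = x.2 + r * (y.2 - x.2) := by
  obtain ⟨h1, h2⟩ := h
  set D1 := det (q - p) (x - p) with hD1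
  set D2 := det (q - p) (y - p) with hD2
  set D3 := det (y - x) (p - x) with hD3
  set D4 := det (y - x) (q - x) with hD4
  have e1 : D3 - D4 = D2 - D1 := by
    rw [hD1, hD2, hD3, hD4]
    simp only [det, Prod.fst_sub, Prod.snd_sub]; ring
  have i1 : (D2 - D1) * p.1 + D3 * (q.1 - p.1) = (D2 - D1) * x.1 - D1 * (y.1 - x.1) := by
    rw [hD1, hD2, hD3]
    simp only [det, Prod.fst_sub, Prod.snd_sub]; ring
  have i2 : (D2 - D1) * p.2 + D3 * (q.2 - p.2) = (D2 - D1) * x.2 - D1 * (y.2 - x.2) := by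
    rw [hD1, hD2, hD3]
    simp only [det, Prod.fst_sub, Prod.snd_sub]; ring
  have hne : (D2 - D1 : ℤ) ≠ 0 := by
    intro h0
    have : D2 = D1 := by linarith
    rw [this] at h1
    nlinarith [mul_self_nonneg D1]
  have hneR : ((D2 : ℝ) - D1) ≠ 0 := by exact_mod_cast hne
  have pos : 0 < ((D2 : ℝ) - D1) ^ 2 := by positivity
  have h1R : (D1 : ℝ) * D2 < 0 := by exact_mod_cast h1
  have h2R : (D3 : ℝ) * D4 < 0 := by exact_mod_cast h2
  have e1R : (D3 : ℝ) - D4 = D2 - D1 := by exact_mod_cast e1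
  refine ⟨D3 / (D2 - D1), - D1 / (D2 - D1), ?_, ?_, ?_, ?_, ?_, ?_⟩
  · have : (D3 : ℝ) / (D2 - D1) = D3 * (D2 - D1) / (D2 - D1) ^ 2 := by field_simp
    rw [this]
    apply div_pos _ pos
    rw [← e1R]; nlinarith [mul_self_nonneg (D3 : ℝ)]
  · have : (1 : ℝ) - D3 / (D2 - D1) = - D4 * (D2 - D1) / (D2 - D1) ^ 2 := by
      field_simp; linarith
    have h3 : 0 < (1 : ℝ) - D3 / (D2 - D1) := by
      rw [this]
      apply div_pos _ pos
      rw [← e1R]; nlinarith [mul_self_nonneg (D4 : ℝ)]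
    linarith
  · have : -(D1 : ℝ) / (D2 - D1) = - D1 * (D2 - D1) / (D2 - D1) ^ 2 := by field_simp
    rw [this]
    apply div_pos _ pos
    nlinarith [mul_self_nonneg (D1 : ℝ)]
  · have : (1 : ℝ) - (- D1 / (D2 - D1)) = D2 * (D2 - D1) / (D2 - D1) ^ 2 := by
      field_simp; ring
    have h3 : 0 < (1 : ℝ) - (- D1 / (D2 - D1)) := by
      rw [this]
      apply div_pos _ pos
      nlinarith [mul_self_nonneg (D2 : ℝ)]
    linarith
  · have i1R : ((D2 : ℝ) - D1) * p.1 + D3 * (q.1 - p.1) =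
      (D2 - D1) * x.1 - D1 * (y.1 - x.1) := by exact_mod_cast i1
    field_simp
    linarith
  · have i2R : ((D2 : ℝ) - D1) * p.2 + D3 * (q.2 - p.2) =
      (D2 - D1) * x.2 - D1 * (y.2 - x.2) := by exact_mod_cast i2
    field_simp
    linarith

theorem g_collinear {l a : ℕ} {i : Fin 4} {x y p : Pt} (hx : gZ l a i x = 0)
    (hy : gZ l a i y = 0) (hp : gZ l a i p = 0) : det (y - x) (p - x) = 0 := by
  fin_cases i
  · simp only [gZ] at hx hy hp
    simp only [det, Prod.fst_sub, Prod.snd_sub]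
    have h1 : y.2 - x.2 = 0 := by linarith
    have h2 : p.2 - x.2 = 0 := by linarith
    rw [h1, h2]; ring
  · simp only [gZ] at hx hy hp
    simp only [det, Prod.fst_sub, Prod.snd_sub]
    have h1 : y.2 - x.2 = 0 := by linarith
    have h2 : p.2 - x.2 = 0 := by linarith
    rw [h1, h2]; ring
  · simp only [gZ] at hx hy hp
    simp only [det, Prod.fst_sub, Prod.snd_sub]
    have h1 : y.2 - x.2 = 2 * (y.1 - x.1) := by linarith
    have h2 : p.2 - x.2 = 2 * (p.1 - x.1) := by linarith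
    rw [h1, h2]; ring
  · simp only [gZ] at hx hy hp
    simp only [det, Prod.fst_sub, Prod.snd_sub]
    have h1 : 2 * (y.1 - x.1) = (2 * a - 2 * l + 1) * (y.2 - x.2) := by linarith
    have h2 : 2 * (p.1 - x.1) = (2 * a - 2 * l + 1) * (p.2 - x.2) := by linarith
    have : 2 * ((y.1 - x.1) * (p.2 - x.2) - (y.2 - x.2) * (p.1 - x.1)) = 0 := by
      linear_combination (p.2 - x.2) * h1 - (y.2 - x.2) * h2
    omega

/-- an edge crossing a segment of the shape is an inner edge of the shape -/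
theorem cross_in {l a : ℕ} {E : Pt → Pt → Prop} (hE : Pre E) (hB : BdS l a E) {p q x y : Pt}
    (hpq : E p q) (hx : InS l a x) (hy : InS l a y) (hc : Cross p q x y) :
    InS l a p ∧ InS l a q ∧ PosS l a (p + q) := by
  obtain ⟨t, r, t0, t1, r0, r1, e1, e2⟩ := cross_param hc
  rw [inS_iff] at hx hy
  have val : ∀ i, gR l a i (p.1 + t * (q.1 - p.1)) (p.2 + t * (q.2 - p.2)) =
      (1 - r) * (gZ l a i x : ℤ) + r * (gZ l a i y : ℤ) := by
    intro i
    rw [e1, e2, gR_lin, gR_cast, gR_cast]; ring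
  have nn : ∀ i, 0 ≤ gR l a i (p.1 + t * (q.1 - p.1)) (p.2 + t * (q.2 - p.2)) := by
    intro i
    rw [val]
    have h1 : (0 : ℝ) ≤ (gZ l a i x : ℤ) := by exact_mod_cast hx i
    have h2 : (0 : ℝ) ≤ (gZ l a i y : ℤ) := by exact_mod_cast hy i
    have h3 : 0 ≤ 1 - r := by linarith
    positivity
  by_cases hall : ∀ i, 0 < gR l a i (p.1 + t * (q.1 - p.1)) (p.2 + t * (q.2 - p.2))
  · exact inner_edge hE hB hpq t0 t1 hall
  exfalso
  push Not at hall
  obtain ⟨i, hi⟩ := hall
  have hi0 := le_antisymm hi (nn i)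
  have hz := val i
  rw [hi0] at hz
  have h1 : (0 : ℝ) ≤ (gZ l a i x : ℤ) := by exact_mod_cast hx i
  have h2 : (0 : ℝ) ≤ (gZ l a i y : ℤ) := by exact_mod_cast hy i
  have hx0 : gZ l a i x = 0 := by
    by_contra hne
    have : (1 : ℝ) ≤ (gZ l a i x : ℤ) := by
      have := hx i
      have h5 : 1 ≤ gZ l a i x := by omega
      exact_mod_cast h5
    have h4 : 0 < (1 - r) * ((gZ l a i x : ℤ) : ℝ) := mul_pos (by linarith) (by linarith)
    have h5 : 0 ≤ r * ((gZ l a i y : ℤ) : ℝ) := mul_nonneg r0.le h2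
    linarith
  have hy0 : gZ l a i y = 0 := by
    by_contra hne
    have : (1 : ℝ) ≤ (gZ l a i y : ℤ) := by
      have := hy i
      have h5 : 1 ≤ gZ l a i y := by omega
      exact_mod_cast h5
    have h4 : 0 < r * ((gZ l a i y : ℤ) : ℝ) := mul_pos r0 (by linarith)
    have h5 : 0 ≤ (1 - r) * ((gZ l a i x : ℤ) : ℝ) := mul_nonneg (by linarith) h1
    linarith
  apply bd_touch hE hB hpq t0 t1 nn hi0
  intro he
  have hp0 : gZ l a i p = 0 := by
    have := hi0
    rw [gR_lin, gR_cast, gR_cast, he, sub_self, mul_zero, add_zero] at this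
    rw [he]; exact_mod_cast this
  have := g_collinear hx0 hy0 hp0
  have h6 := hc.2
  rw [this] at h6
  simp at h6

theorem aff_add {o d u x y : Pt} :
    aff o d u x + aff o d u y = o + o + (x + y).1 • d + (x + y).2 • u := by
  unfold aff
  simp only [Prod.fst_add, Prod.snd_add, add_smul]
  abel

theorem BdS.walls {l a : ℕ} {E : Pt → Pt → Prop} (hE : Pre E) (hB : BdS l a E) {z : Pt}
    (hz : InS l a z) (hz2 : z.2 ≠ 0) : ∃ w, E z w := by
  obtain ⟨z1, z2⟩ := z
  unfold InS at hz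
  simp only at hz hz2
  rcases hz with ⟨rfl, h1, h2⟩ | ⟨h0, _⟩ | ⟨rfl, h1, h2⟩
  · rcases h2.eq_or_lt with h | h
    · subst h; exact ⟨_, hB.right⟩
    · exact ⟨_, hB.top z1 h1 h⟩
  · exact absurd h0 hz2
  · rcases h2.eq_or_lt with h | h
    · subst h; exact ⟨_, hE.symm _ _ hB.right⟩
    · exact ⟨_, hB.bot z1 h1 h⟩

/-- REFILL: replacing the inner edges of a trapezoid by a filling gives a triangulation -/
theorem refill_isTri {m n : ℕ} {E F : Pt → Pt → Prop} {o d u : Pt} {l a : ℕ}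
    (h : IsTri m n E) (hd : det d u = 1)
    (hb : BdS l a (fun x y => E (aff o d u x) (aff o d u y))) (hF : Fil l a F) :
    IsTri m n (fun x y => (E x y ∧ ¬ ∃ s, PosS l a s ∧ x + y = o + o + s.1 • d + s.2 • u) ∨
      ∃ p q, F p q ∧ x = aff o d u p ∧ y = aff o d u q) := by
  have hP : Pre (fun x y => E (aff o d u x) (aff o d u y)) := h.pre.pull hd
  have EF : ∀ x y p q, E x y → (¬ ∃ s, PosS l a s ∧ x + y = o + o + s.1 • d + s.2 • u) →
      F p q → ¬ Cross x y (aff o d u p) (aff o d u q) := by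
    intro x y p q hxy hn hpq hc
    rw [← aff_unaff (o := o) hd x, ← aff_unaff (o := o) hd y, cross_aff (Or.inl hd)] at hc
    have h3 := cross_in hP hb (p := unaff o d u x) (q := unaff o d u y)
      (by simp only [aff_unaff hd]; exact hxy) (hF.ins _ _ hpq)
      (hF.ins _ _ (hF.symm _ _ hpq)) hc
    apply hn
    refine ⟨_, h3.2.2, ?_⟩
    rw [← aff_add, aff_unaff hd, aff_unaff hd]
  have wallR : ∀ z, InS l a z → z.2 ≠ 0 → InR m n (aff o d u z) := by
    intro z hz hz2
    obtain ⟨w, hw⟩ := hb.walls hP hz hz2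
    exact h.inR _ _ hw
  have allR : ∀ z, InS l a z → InR m n (aff o d u z) := by
    intro z hz
    by_cases hz2 : z.2 = 0
    · obtain ⟨k, z2⟩ := z
      simp only at hz2
      subst hz2
      unfold InS at hz
      simp only at hz
      have hk : 0 ≤ k ∧ k < l := by omega
      have hha := hb.ha
      obtain ⟨j, hj0, hja, hj1, hj2⟩ : ∃ j : ℤ, 0 ≤ j ∧ j ≤ a ∧ -1 ≤ 2 * k - j ∧
          2 * k - j ≤ 2 * l - 1 - a := by
        by_cases hc : 2 * k ≤ 2 * (l : ℤ) - 1 - a
        · exact ⟨0, le_refl _, by positivity, by omega, by omega⟩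
        · exact ⟨2 * k - (2 * l - 1 - a), by omega, by omega, by omega, by omega⟩
      have r1 := wallR (j, 1) (Or.inl ⟨rfl, hj0, hja⟩) (by simp)
      have r2 := wallR (2 * k - j, -1) (Or.inr (Or.inr ⟨rfl, hj1, hj2⟩)) (by simp)
      have e1 : (aff o d u (j, 1)).1 + (aff o d u (2 * k - j, -1)).1 =
          2 * (aff o d u (k, 0)).1 := by
        simp only [aff, Prod.fst_add, Prod.smul_fst, smul_eq_mul]; ring
      have e2 : (aff o d u (j, 1)).2 + (aff o d u (2 * k - j, -1)).2 =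
          2 * (aff o d u (k, 0)).2 := by
        simp only [aff, Prod.snd_add, Prod.smul_snd, smul_eq_mul]; ring
      obtain ⟨a1, a2, a3, a4⟩ := r1
      obtain ⟨b1, b2, b3, b4⟩ := r2
      refine ⟨by omega, by omega, by omega, by omega⟩
    · exact wallR z hz hz2
  refine ⟨?_, ?_, ?_, ?_, ?_⟩
  · rintro x y (⟨h1, h2⟩ | ⟨p, q, h1, rfl, rfl⟩)
    · left
      refine ⟨h.symm _ _ h1, ?_⟩
      rintro ⟨s, hs, hs2⟩
      exact h2 ⟨s, hs, by rw [add_comm, hs2]⟩
    · right
      exact ⟨q, p, hF.symm _ _ h1, rfl, rfl⟩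
  · rintro x y (⟨h1, h2⟩ | ⟨p, q, h1, rfl, rfl⟩)
    · exact h.inR _ _ h1
    · exact allR _ (hF.ins _ _ h1)
  · rintro x y (⟨h1, h2⟩ | ⟨p, q, h1, rfl, rfl⟩)
    · exact h.prim _ _ h1
    · exact prim_aff (Or.inl hd) (hF.prim _ _ h1)
  · rintro x y z w (⟨h1, h2⟩ | ⟨p, q, h1, rfl, rfl⟩) (⟨h3, h4⟩ | ⟨p', q', h3, rfl, rfl⟩)
    · exact h.ncr _ _ _ _ h1 h3
    · exact EF _ _ _ _ h1 h2 h3
    · intro hc
      exact EF _ _ _ _ h3 h4 h1 hc.symm
    · rw [cross_aff (Or.inl hd)]
      exact hF.ncr _ _ _ _ h1 h3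
  · intro s h1 h2 h3 h4 h5
    obtain ⟨x, y, hxy, hs⟩ := h.full s h1 h2 h3 h4 h5
    by_cases hc : ∃ s, PosS l a s ∧ x + y = o + o + s.1 • d + s.2 • u
    · obtain ⟨s', hs', e⟩ := hc
      obtain ⟨p, q, hpq, hpq'⟩ := hF.full s' hs'
      refine ⟨aff o d u p, aff o d u q, Or.inr ⟨p, q, hpq, rfl, rfl⟩, ?_⟩
      rw [aff_add, hpq', ← e, hs]
    · exact ⟨x, y, Or.inl ⟨hxy, hc⟩, hs⟩

end Pool.Agent.MP01b126
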