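import Pool.Agent.Lib.MP_01b126_co.Cone
import Pool.Agent.Lib.MP_01b126_co.Run
import Pool.Agent.Lib.MP_01b126_co.Cnt.Refill

/-!
# MP_01b126_co, COUNTING: local structure around middle vertices of strips of width two
-/

namespace Pool.Agent.MP01b126

/-- linear part of `aff` -/
def lin (d u δ : Pt) : Pt := δ.1 • d + δ.2 • u

theorem aff_add_lin (o d u x δ : Pt) : aff o d u (x + δ) = aff o d u x + lin d u δ := by
  unfold aff lin
  simp only [Prod.fst_add, Prod.snd_add, add_smul]
  abel

theorem aff_sub_lin (o d u x y : Pt) : aff o d u x - aff o d u y = lin d u (x - y) := by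
  have := aff_add_lin o d u y (x - y)
  rw [add_sub_cancel] at this
  rw [this]; abel

theorem det_lin {d u : Pt} (hd : det d u = 1) (x y : Pt) :
    det (lin d u x) (lin d u y) = det x y := by
  unfold lin
  rw [det_add_left, det_add_right, det_add_right, det_smul_left, det_smul_left, det_smul_right,
    det_smul_right, det_smul_left, det_smul_left, det_smul_right, det_smul_right, det_self,
    det_self, hd, det_swap u d, hd]
  unfold det
  ring

theorem lin_smul (d u : Pt) (k : ℤ) (x : Pt) : lin d u (k • x) = k • lin d u x := by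
  unfold lin
  simp only [Prod.smul_fst, Prod.smul_snd, smul_eq_mul, smul_add, mul_smul]

theorem lin_add (d u x y : Pt) : lin d u (x + y) = lin d u x + lin d u y := by
  unfold lin
  simp only [Prod.fst_add, Prod.snd_add, add_smul]
  abel

theorem lin_sub (d u x y : Pt) : lin d u (x - y) = lin d u x - lin d u y := by
  unfold lin
  simp only [Prod.fst_sub, Prod.snd_sub, sub_smul]
  abel

theorem lin_neg (d u x : Pt) : lin d u (-x) = - lin d u x := by
  unfold lin
  simp only [Prod.fst_neg, Prod.snd_neg, neg_smul]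
  abel

theorem tr_pull {E : Pt → Pt → Prop} {o d u : Pt} (hd : det d u = 1) {x y z : Pt} :
    Tr (fun x y => E (aff o d u x) (aff o d u y)) x y z ↔
      Tr E (aff o d u x) (aff o d u y) (aff o d u z) := by
  unfold Tr
  simp only [det_aff, hd, mul_one]

theorem Pre.uniq {E : Pt → Pt → Prop} (h : Pre E) {a b c d : Pt} (h1 : Tr E a b c)
    (h2 : Tr E a b d) : c = d := by
  have key : ∀ c d : Pt, Tr E a b c → Tr E a b d → ∀ k : ℤ, 0 < k → d = c + k • (b - a) →
      False := by
    intro c d h1 h2 k hk hd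
    have := cross_of_apex (a := a) h1.det' hk
    have e1 : a + (b - a) = b := by abel
    have e2 : a + (c - a) = c := by abel
    rw [e1, e2, ← hd] at this
    exact h.ncr _ _ _ _ h1.2.1 (h.symm _ _ h2.2.2.1) this
  have h0 : det (b - a) (d - c) = 0 := by
    have e : d - c = (d - a) - (c - a) := by abel
    rw [e, det_sub_right, h1.det', h2.det', sub_self]
  obtain ⟨k, hk⟩ := (h.prim _ _ h1.1).eq_smul h0
  rcases lt_trichotomy k 0 with hlt | rfl | hgt
  · exact absurd (key d c h2 h1 (-k) (by omega) (by rw [neg_smul, ← hk]; abel)) id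
  · rw [zero_smul] at hk
    exact (sub_eq_zero.mp hk).symm
  · exact absurd (key c d h1 h2 k hgt (by rw [← hk]; abel)) id

theorem Pre.mid {E : Pt → Pt → Prop} (h : Pre E) {a b c d : Pt} (h1 : E a b) (h2 : E c d)
    (hs : a + b = c + d) : (c = a ∧ d = b) ∨ (c = b ∧ d = a) := by
  rcases same_mid (h.prim _ _ h1) (h.prim _ _ h2) hs with h3 | h3 | h3
  · exact Or.inl h3
  · exact Or.inr h3
  · exact absurd h3 (h.ncr _ _ _ _ h1 h2)

/-- frame invariant properties of a triangulation -/
structure Cpx (R : Pt → Prop) (E : Pt → Pt → Prop) : Prop extends Pre E where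
  inR : ∀ a b, E a b → R a
  apex : ∀ a b z, E a b → R z → 0 < det (b - a) (z - a) → ∃ w, Tr E a b w
  sail : ∀ y w e : Pt, det w e = 1 → ∀ i j k : ℤ, E y (y + e + i • w) → E y (y + e + j • w) →
    i ≤ k → k ≤ j → E y (y + e + k • w)
  fin : {e : Pt × Pt | E e.1 e.2}.Finite
  conv : ∀ x y z, R x → R y → x + y = z + z → R z

theorem IsTri.cpx {m n : ℕ} {E : Pt → Pt → Prop} (h : IsTri m n E) : Cpx (InR m n) E where
  toPre := h.pre
  inR := h.inR
  apex _ _ _ h1 h2 h3 := h.apex_exists h1 h2 h3
  sail _ _ _ hd _ _ _ h1 h2 h3 h4 := h.sail hd h1 h2 h3 h4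
  fin := h.edges_finite
  conv := by
    rintro ⟨x1, x2⟩ ⟨y1, y2⟩ ⟨z1, z2⟩ ⟨h1, h2, h3, h4⟩ ⟨g1, g2, g3, g4⟩ e
    simp only [Prod.mk_add_mk, Prod.mk.injEq] at e
    simp only at *
    refine ⟨?_, ?_, ?_, ?_⟩ <;> simp only <;> omega

theorem Cpx.pull {R : Pt → Prop} {E : Pt → Pt → Prop} (h : Cpx R E) {o d u : Pt}
    (hd : det d u = 1) :
    Cpx (fun x => R (aff o d u x)) (fun x y => E (aff o d u x) (aff o d u y)) where
  toPre := h.toPre.pull hd
  inR _ _ hab := h.inR _ _ hab
  apex a b z h1 h2 h3 := by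
    have h4 : 0 < det (aff o d u b - aff o d u a) (aff o d u z - aff o d u a) := by
      rw [det_aff, hd, mul_one]; exact h3
    obtain ⟨w, hw⟩ := h.apex _ _ _ h1 h2 h4
    refine ⟨unaff o d u w, ?_⟩
    rw [tr_pull hd, aff_unaff hd]
    exact hw
  sail y w e hdet i j k h1 h2 h3 h4 := by
    have key : ∀ t : ℤ, aff o d u (y + e + t • w) =
        aff o d u y + lin d u e + t • lin d u w := by
      intro t
      rw [aff_add_lin, aff_add_lin, lin_smul]
    simp only [key] at h1 h2 ⊢
    exact h.sail _ _ _ (by rw [det_lin hd]; exact hdet) _ _ _ h1 h2 h3 h4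
  fin := by
    have hinj : Function.Injective (fun e : Pt × Pt => (aff o d u e.1, aff o d u e.2)) := by
      rintro ⟨a, b⟩ ⟨a', b'⟩ he
      simp only [Prod.mk.injEq] at he
      rw [aff_inj hd he.1, aff_inj hd he.2]
    exact h.fin.preimage (f := fun e : Pt × Pt => (aff o d u e.1, aff o d u e.2)) hinj.injOn
  conv x y z hx hy he := by
    apply h.conv _ _ _ hx hy
    unfold aff
    have e1 := congrArg Prod.fst he
    have e2 := congrArg Prod.snd he
    simp only [Prod.fst_add, Prod.snd_add] at e1 e2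
    have e3 : x.1 • d + y.1 • d = z.1 • d + z.1 • d := by rw [← add_smul, e1, add_smul]
    have e4 : x.2 • u + y.2 • u = z.2 • u + z.2 • u := by rw [← add_smul, e2, add_smul]
    calc o + x.1 • d + x.2 • u + (o + y.1 • d + y.2 • u)
        = o + o + (x.1 • d + y.1 • d) + (x.2 • u + y.2 • u) := by abel
      _ = o + o + (z.1 • d + z.1 • d) + (z.2 • u + z.2 • u) := by rw [e3, e4]
      _ = o + z.1 • d + z.2 • u + (o + z.1 • d + z.2 • u) := by abel

/-- the conditions of `Good` at one vertex, in the direction `d` -/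
structure Mid0 (E : Pt → Pt → Prop) (W : ℕ) (v d : Pt) : Prop where
  prim : Prim d
  row : ∀ q, E v q → det d (q - v) = -1 ∨ det d (q - v) = 0 ∨ det d (q - v) = 1
  star : ∀ q, E v q → ∃ c, Tr E v q c
  stop : ∀ q, E v q → det d (q - v) ≠ 0 → ¬ E q (q + (q - v))
  stop' : ∀ p q, E p q → (p + q = v + v + d ∨ p + q = v + v - d) → det d (q - v) ≠ 0 →
    ¬ E q (q + (q - p))
  wall : ∀ q, E v q → det d (q - v) ≠ 0 → ∀ j : ℤ, -W ≤ j → j < W →
    E (q + j • d) (q + (j + 1) • d)

/-- a middle vertex -/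
structure Mid (E : Pt → Pt → Prop) (W : ℕ) (v d : Pt) : Prop extends Mid0 E W v d where
  ne : ∃ q, E v q

theorem Mid0.neg {E : Pt → Pt → Prop} {W : ℕ} {v d : Pt} (hs : ∀ a b, E a b → E b a)
    (h : Mid0 E W v d) : Mid0 E W v (-d) where
  prim := h.prim.neg
  row q hq := by
    rw [det_neg_left]
    rcases h.row q hq with h1 | h1 | h1 <;> rw [h1] <;> simp
  star := h.star
  stop q hq hn := by
    rw [det_neg_left] at hn
    exact h.stop q hq (by intro h0; rw [h0] at hn; simp at hn)
  stop' p q hpq he hn := by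
    rw [det_neg_left] at hn
    refine h.stop' p q hpq ?_ (by intro h0; rw [h0] at hn; simp at hn)
    rcases he with he | he
    · right; rw [he]; abel
    · left; rw [he]; abel
  wall q hq hn j h1 h2 := by
    rw [det_neg_left] at hn
    have := h.wall q hq (by intro h0; rw [h0] at hn; simp at hn) (-(j + 1)) (by omega) (by omega)
    have e1 : q + -(j + 1) • d = q + (j + 1) • -d := by rw [smul_neg, neg_smul]
    have e2 : q + (-(j + 1) + 1) • d = q + j • -d := by
      rw [smul_neg, ← neg_smul]; congr 2; ring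
    rw [e1, e2] at this
    exact hs _ _ this

theorem Mid.neg {E : Pt → Pt → Prop} {W : ℕ} {v d : Pt} (hs : ∀ a b, E a b → E b a)
    (h : Mid E W v d) : Mid E W v (-d) := ⟨h.toMid0.neg hs, h.ne⟩

/-- `Mid0` in standard coordinates -/
structure MidS0 (G : Pt → Pt → Prop) (W : ℕ) (k : ℤ) : Prop where
  row : ∀ x y, G (k, 0) (x, y) → y = -1 ∨ y = 0 ∨ y = 1
  star : ∀ q, G (k, 0) q → ∃ c, Tr G (k, 0) q c
  stop : ∀ x y, G (k, 0) (x, y) → y ≠ 0 → ¬ G (x, y) (2 * x - k, 2 * y)
  stop' : ∀ x' y' x y, G (x', y') (x, y) → y' + y = 0 → (x' + x = 2 * k + 1 ∨ x' + x = 2 * k - 1) →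
    y ≠ 0 → ¬ G (x, y) (2 * x - x', 2 * y - y')
  wall : ∀ x y, G (k, 0) (x, y) → y ≠ 0 → ∀ j : ℤ, -W ≤ j → j < W → G (x + j, y) (x + j + 1, y)

theorem Mid0.std {E : Pt → Pt → Prop} {W : ℕ} {o d u : Pt} (hd : det d u = 1) {k : ℤ}
    (h : Mid0 E W (o + k • d) d) : MidS0 (fun x y => E (aff o d u x) (aff o d u y)) W k := by
  have hk : aff o d u (k, 0) = o + k • d := by unfold aff; simp
  have hdet : ∀ x y : ℤ, det d (aff o d u (x, y) - (o + k • d)) = y := by
    intro x y
    have : aff o d u (x, y) - (o + k • d) = (x - k) • d + y • u := by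
      unfold aff
      simp only [sub_smul]
      abel
    rw [this, det_add_right, det_smul_right, det_smul_right, det_self, hd]
    ring
  refine ⟨?_, ?_, ?_, ?_, ?_⟩
  · intro x y hxy
    simp only [hk] at hxy
    have := h.row _ hxy
    rwa [hdet] at this
  · intro q hq
    simp only [hk] at hq
    obtain ⟨c, hc⟩ := h.star _ hq
    refine ⟨unaff o d u c, ?_⟩
    rw [tr_pull hd, aff_unaff hd, hk]
    exact hc
  · intro x y hxy hy
    simp only [hk] at hxy
    have := h.stop _ hxy (by rw [hdet]; exact hy)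
    have e : aff o d u (x, y) + (aff o d u (x, y) - (o + k • d)) =
        aff o d u (2 * x - k, 2 * y) := by
      unfold aff
      simp only [sub_smul, two_mul, add_smul]
      abel
    rwa [e] at this
  · intro x' y' x y hxy h1 h2 hy
    have hs : aff o d u (x', y') + aff o d u (x, y) = o + k • d + (o + k • d) + d ∨
        aff o d u (x', y') + aff o d u (x, y) = o + k • d + (o + k • d) - d := by
      rw [aff_add]
      simp only [Prod.mk_add_mk, h1, zero_smul, add_zero]
      rcases h2 with h2 | h2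
      · left; rw [h2]; simp only [add_smul, two_mul, one_smul]; abel
      · right; rw [h2]; simp only [sub_smul, add_smul, two_mul, one_smul]; abel
    have := h.stop' _ _ hxy hs (by rw [hdet]; exact hy)
    have e : aff o d u (x, y) + (aff o d u (x, y) - aff o d u (x', y')) =
        aff o d u (2 * x - x', 2 * y - y') := by
      unfold aff
      simp only [sub_smul, two_mul, add_smul]
      abel
    rwa [e] at this
  · intro x y hxy hy j h1 h2
    simp only [hk] at hxy
    have := h.wall _ hxy (by rw [hdet]; exact hy) j h1 h2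
    have e1 : ∀ i : ℤ, aff o d u (x, y) + i • d = aff o d u (x + i, y) := by
      intro i; unfold aff; simp only [add_smul]; abel
    rw [e1, e1, ← add_assoc] at this
    exact this

section std

variable {R : Pt → Prop} {G : Pt → Pt → Prop} {W : ℕ} {k : ℤ}

/-- every neighbour has a face on its right as well -/
theorem Cpx.star' (hG : Cpx R G) {v : Pt} (hs : ∀ q, G v q → ∃ c, Tr G v q c) {q : Pt}
    (hq : G v q) : ∃ c, Tr G v c q := by
  have hfin : {q | G v q}.Finite := by
    refine (hG.fin.image Prod.snd).subset ?_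
    intro q hq
    exact ⟨(v, q), hq, rfl⟩
  have : Finite {q // G v q} := hfin.to_subtype
  choose f hf using hs
  let g : {q // G v q} → {q // G v q} := fun q => ⟨f q.1 q.2, hG.symm _ _ (hf q.1 q.2).2.2.1⟩
  have hinj : Function.Injective g := by
    rintro ⟨a, ha⟩ ⟨b, hb⟩ hab
    simp only [g, Subtype.mk.injEq] at hab
    have h1 := hf a ha
    have h2 := hf b hb
    rw [← hab] at h2
    exact Subtype.ext (hG.toPre.uniq h1.rot' h2.rot')
  obtain ⟨⟨c, hc⟩, hc'⟩ := Finite.injective_iff_surjective.mp hinj ⟨q, hq⟩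
  simp only [g, Subtype.mk.injEq] at hc'
  refine ⟨c, ?_⟩
  have := hf c hc
  rwa [hc'] at this

theorem Cpx.row0 (hG : Cpx R G) {x : ℤ} (h : G (k, 0) (x, 0)) : x = k + 1 ∨ x = k - 1 := by
  have := hG.prim _ _ h
  unfold Prim at this
  simp only [Prod.mk_sub_mk, sub_zero] at this
  rw [isCoprime_zero_right, Int.isUnit_iff] at this
  omega

/-- there is a neighbour in the upper row -/
theorem MidS0.top (h : MidS0 G W k) (hG : Cpx R G) (hne : ∃ q, G (k, 0) q) :
    ∃ x, G (k, 0) (x, 1) := by
  have case0 : ∀ x, G (k, 0) (x, 0) → ∃ x, G (k, 0) (x, 1) := by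
    intro x hx
    rcases hG.row0 hx with rfl | rfl
    · obtain ⟨⟨c1, c2⟩, hc⟩ := h.star _ hx
      have := hc.det'
      simp only [det, Prod.mk_sub_mk] at this
      have h2 : c2 = 1 := by linarith
      subst h2
      exact ⟨c1, hG.symm _ _ hc.2.2.1⟩
    · obtain ⟨⟨c1, c2⟩, hc⟩ := hG.star' h.star hx
      have := hc.det'
      simp only [det, Prod.mk_sub_mk] at this
      have h2 : c2 = 1 := by linarith
      subst h2
      exact ⟨c1, hc.1⟩
  by_cases hb : ∃ x, G (k, 0) (x, -1)
  · have hfin : {x : ℤ | G (k, 0) (x, -1)}.Finite := by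
      refine (hG.fin.image (fun e : Pt × Pt => e.2.1)).subset ?_
      intro x hx
      exact ⟨((k, 0), (x, -1)), hx, rfl⟩
    obtain ⟨x, hx, hmax⟩ := hfin.exists_maximal hb
    obtain ⟨⟨c1, c2⟩, hc⟩ := h.star _ hx
    have hdet := hc.det'
    simp only [det, Prod.mk_sub_mk] at hdet
    have hc' := hG.symm _ _ hc.2.2.1
    rcases h.row _ _ hc' with h2 | h2 | h2
    · subst h2
      have h3 : c1 = x + 1 := by linarith
      subst h3
      have := hmax hc' (by omega)
      omega
    · subst h2
      exact case0 _ hc'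
    · subst h2
      exact ⟨c1, hc'⟩
  · obtain ⟨⟨x, y⟩, hq⟩ := hne
    rcases h.row _ _ hq with h2 | h2 | h2
    · subst h2; exact absurd ⟨x, hq⟩ hb
    · subst h2; exact case0 _ hq
    · subst h2; exact ⟨x, hq⟩

/-- RIGHT STEP: the structure between two consecutive middle points -/
theorem MidS0.right_step (h : MidS0 G W k) (hG : Cpx R G) (hW : 1 ≤ W) (hne : ∃ q, G (k, 0) q) :
    ∃ α β : ℤ, G (k, 0) (α, 1) ∧ G (k, 0) (β, -1) ∧ G (k + 1, 0) (α, 1) ∧ G (k + 1, 0) (β, -1) ∧
      (∀ x, G (k, 0) (x, 1) → x ≤ α) ∧ (∀ x, G (k, 0) (x, -1) → x ≤ β) ∧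
      (G (k, 0) (k + 1, 0) ∨ (α + β = 2 * k + 1 ∧ G (α, 1) (β, -1))) := by
  have hfin : {x : ℤ | G (k, 0) (x, 1)}.Finite := by
    refine (hG.fin.image (fun e : Pt × Pt => e.2.1)).subset ?_
    intro x hx
    exact ⟨((k, 0), (x, 1)), hx, rfl⟩
  obtain ⟨α, hα, hmax⟩ := hfin.exists_maximal (h.top hG hne)
  have hα : G (k, 0) (α, 1) := hα
  have hmax' : ∀ x, G (k, 0) (x, 1) → x ≤ α := by
    intro x hx
    by_contra hc
    push Not at hc
    have := hmax hx hc.le
    omega
  obtain ⟨⟨c1, c2⟩, hc⟩ := hG.star' h.star hα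
  have hdet := hc.det'
  simp only [det, Prod.mk_sub_mk] at hdet
  rcases h.row _ _ hc.1 with h2 | h2 | h2
  · -- a flip
    subst h2
    have e : c1 = 2 * k + 1 - α := by linarith
    subst e
    have hβ := hc.1
    have hfl := hG.symm _ _ hc.2.1
    have w1 := h.wall _ _ hα (by norm_num) 0 (by omega) (by omega)
    have w2 := h.wall _ _ hβ (by norm_num) 0 (by omega) (by omega)
    simp only [add_zero] at w1 w2
    have hR : R (k + 1, 0) := by
      apply hG.conv (α + 1, 1) (2 * k + 1 - α, -1)
      · exact hG.inR _ _ (hG.symm _ _ w1)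
      · exact hG.inR _ _ w2
      · simp only [Prod.mk_add_mk, Prod.mk.injEq]
        constructor <;> ring
    obtain ⟨⟨z1, z2⟩, hz⟩ := hG.apex _ _ (k + 1, 0) hfl hR (by
      simp only [det, Prod.mk_sub_mk]; ring_nf; norm_num)
    have hzd := hz.det'
    simp only [det, Prod.mk_sub_mk] at hzd
    -- `z = (k+1,0) + t (2k+1-2α, -2)`
    obtain ⟨t, ht⟩ : ∃ t : ℤ, z2 = -2 * t := by
      have h3 : 2 * ((k - α) * (z2 - 1) + (z1 - α)) = 1 - (z2 - 1) := by linarith
      exact ⟨(k - α) * (z2 - 1) + (z1 - α) - 1, by linarith⟩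
    subst ht
    have e1 : z1 = k + 1 + t * (2 * k + 1 - 2 * α) := by linarith
    subst e1
    have ht0 : t = 0 := by
      rcases lt_trichotomy t 0 with hlt | h0 | hgt
      · exfalso
        apply hG.ncr _ _ _ _ (hG.symm _ _ hz.2.1) w1
        constructor
        · simp only [det, Prod.mk_sub_mk]
          have a1 : ((2 * k + 1 - α - (k + 1 + t * (2 * k + 1 - 2 * α))) * (1 - -2 * t) -
            (-1 - -2 * t) * (α - (k + 1 + t * (2 * k + 1 - 2 * α)))) = -1 := by ring
          have a2 : ((2 * k + 1 - α - (k + 1 + t * (2 * k + 1 - 2 * α))) * (1 - -2 * t) -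
            (-1 - -2 * t) * (α + 1 - (k + 1 + t * (2 * k + 1 - 2 * α)))) = - 2 * t := by ring
          rw [a1, a2]; linarith
        · simp only [det, Prod.mk_sub_mk]
          ring_nf
          nlinarith
      · exact h0
      · exfalso
        apply hG.ncr _ _ _ _ (hG.symm _ _ hz.2.2.1) w2
        constructor
        · simp only [det, Prod.mk_sub_mk]
          have a1 : ((k + 1 + t * (2 * k + 1 - 2 * α) - α) * (-1 - 1) -
            (-2 * t - 1) * (2 * k + 1 - α - α)) = -1 := by ring
          have a2 : ((k + 1 + t * (2 * k + 1 - 2 * α) - α) * (-1 - 1) -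
            (-2 * t - 1) * (2 * k + 1 - α + 1 - α)) = 2 * t := by ring
          rw [a1, a2]; linarith
        · simp only [det, Prod.mk_sub_mk]
          ring_nf
          nlinarith
    subst ht0
    have e3 : ((k + 1 + 0 * (2 * k + 1 - 2 * α), -2 * 0) : Pt) = (k + 1, 0) := by
      simp
    rw [e3] at hz
    refine ⟨α, 2 * k + 1 - α, hα, hβ, hz.2.2.1, hG.symm _ _ hz.2.1, hmax', ?_, Or.inr ⟨by ring, hfl⟩⟩
    intro x hx
    by_contra hcon
    push Not at hcon
    apply hG.ncr _ _ _ _ hfl hx
    constructor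
    · simp only [det, Prod.mk_sub_mk]
      have a1 : ((2 * k + 1 - α - α) * (0 - 1) - (-1 - 1) * (k - α)) = -1 := by ring
      have a2 : ((2 * k + 1 - α - α) * (-1 - 1) - (-1 - 1) * (x - α)) =
        2 * (x - (2 * k + 1 - α)) := by ring
      rw [a1, a2]; linarith
    · simp only [det, Prod.mk_sub_mk]
      have a1 : ((x - k) * (1 - 0) - (-1 - 0) * (α - k)) = x + α - 2 * k := by ring
      have a2 : ((x - k) * (-1 - 0) - (-1 - 0) * (2 * k + 1 - α - k)) =
        - (x - (2 * k + 1 - α)) := by ring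
      rw [a1, a2]
      nlinarith
  · -- the row edge
    subst h2
    have e : c1 = k + 1 := by linarith
    subst e
    obtain ⟨⟨b1, b2⟩, hb⟩ := hG.star' h.star hc.1
    have hbd := hb.det'
    simp only [det, Prod.mk_sub_mk] at hbd
    have h3 : b2 = -1 := by linarith
    subst h3
    refine ⟨α, b1, hα, hb.1, hc.2.1, hG.symm _ _ hb.2.1, hmax', ?_, Or.inl hc.1⟩
    intro x hx
    by_contra hcon
    push Not at hcon
    apply hG.ncr _ _ _ _ hb.2.1 hx
    constructor
    · simp only [det, Prod.mk_sub_mk]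
      have a1 : ((k + 1 - b1) * (0 - -1) - (0 - -1) * (k - b1)) = 1 := by ring
      have a2 : ((k + 1 - b1) * (-1 - -1) - (0 - -1) * (x - b1)) = - (x - b1) := by ring
      rw [a1, a2]; linarith
    · simp only [det, Prod.mk_sub_mk]
      have a1 : ((x - k) * (-1 - 0) - (-1 - 0) * (b1 - k)) = - (x - b1) := by ring
      have a2 : ((x - k) * (0 - 0) - (-1 - 0) * (k + 1 - k)) = 1 := by ring
      rw [a1, a2]; linarith
  · exfalso
    subst h2
    have e : c1 = α + 1 := by linarith
    subst e
    have := hmax' _ hc.1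
    omega

/-- point reflection of the frame -/
theorem MidS0.rot (h : MidS0 G W k) (hG : Cpx R G) :
    MidS0 (fun x y => G (2 * k - x.1, -x.2) (2 * k - y.1, -y.2)) W k := by
  have hk : ((2 * k - k, -0) : Pt) = (k, 0) := by
    simp only [Prod.mk.injEq]; constructor <;> ring
  refine ⟨?_, ?_, ?_, ?_, ?_⟩
  · intro x y hxy
    simp only [hk] at hxy
    rcases h.row _ _ hxy with h1 | h1 | h1 <;> omega
  · rintro ⟨q1, q2⟩ hq
    simp only [hk] at hq
    obtain ⟨⟨c1, c2⟩, hc⟩ := h.star _ hq
    refine ⟨(2 * k - c1, -c2), ?_⟩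
    obtain ⟨t1, t2, t3, t4⟩ := hc
    simp only [det, Prod.mk_sub_mk] at t4
    have e : ((2 * k - (2 * k - c1), - - c2) : Pt) = (c1, c2) := by
      simp only [Prod.mk.injEq]; constructor <;> ring
    refine ⟨by simp only [hk]; exact t1, by simp only [e]; exact t2,
      by simp only [hk, e]; exact t3, ?_⟩
    simp only [det, Prod.mk_sub_mk]
    linarith
  · intro x y hxy hy
    simp only [hk] at hxy
    have := h.stop _ _ hxy (by omega)
    have e : ((2 * (2 * k - x) - k, 2 * -y) : Pt) = (2 * k - (2 * x - k), -(2 * y)) := by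
      simp only [Prod.mk.injEq]; constructor <;> ring
    rw [e] at this
    exact this
  · intro x' y' x y hxy h1 h2 hy
    simp only at hxy
    have := h.stop' _ _ _ _ hxy (by omega) (by omega) (by omega)
    have e : ((2 * (2 * k - x) - (2 * k - x'), 2 * -y - -y') : Pt) =
        (2 * k - (2 * x - x'), -(2 * y - y')) := by
      simp only [Prod.mk.injEq]; constructor <;> ring
    rw [e] at this
    exact this
  · intro x y hxy hy j h1 h2
    simp only [hk] at hxy
    have := h.wall _ _ hxy (by omega) (-(j + 1)) (by omega) (by omega)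
    have e1 : ((2 * k - x + -(j + 1), -y) : Pt) = (2 * k - (x + j + 1), -y) :=
      Prod.ext (by simp only; ring) rfl
    have e2 : ((2 * k - x + -(j + 1) + 1, -y) : Pt) = (2 * k - (x + j), -y) :=
      Prod.ext (by simp only; ring) rfl
    rw [e1, e2] at this
    exact hG.symm _ _ this

theorem Cpx.rot (hG : Cpx R G) : Cpx (fun x => R (2 * k - x.1, -x.2))
    (fun x y => G (2 * k - x.1, -x.2) (2 * k - y.1, -y.2)) := by
  have hd : det ((-1, 0) : Pt) ((0, -1) : Pt) = 1 := by simp [det]
  have := hG.pull (o := (2 * k, 0)) hd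
  have e : ∀ x : Pt, aff (2 * k, 0) (-1, 0) (0, -1) x = (2 * k - x.1, -x.2) := by
    intro x
    unfold aff
    ext
    · simp only [Prod.fst_add, Prod.smul_fst, smul_eq_mul]; linarith
    · simp only [Prod.snd_add, Prod.smul_snd, smul_eq_mul]; linarith
  simp only [e] at this
  exact this

/-- LEFT STEP -/
theorem MidS0.left_step (h : MidS0 G W k) (hG : Cpx R G) (hW : 1 ≤ W) (hne : ∃ q, G (k, 0) q) :
    ∃ α β : ℤ, G (k, 0) (α, 1) ∧ G (k, 0) (β, -1) ∧ G (k - 1, 0) (α, 1) ∧ G (k - 1, 0) (β, -1) ∧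
      (∀ x, G (k, 0) (x, 1) → α ≤ x) ∧ (∀ x, G (k, 0) (x, -1) → β ≤ x) ∧
      (G (k, 0) (k - 1, 0) ∨ (α + β = 2 * k - 1 ∧ G (α, 1) (β, -1))) := by
  have hk : ((2 * k - k, -0) : Pt) = (k, 0) := by
    simp only [Prod.mk.injEq]; constructor <;> ring
  have hk1 : ((2 * k - (k + 1), -0) : Pt) = (k - 1, 0) := by
    simp only [Prod.mk.injEq]; constructor <;> ring
  have hne' : ∃ q : Pt, G (2 * k - k, -0) (2 * k - q.1, -q.2) := by
    obtain ⟨⟨q1, q2⟩, hq⟩ := hne
    refine ⟨(2 * k - q1, -q2), ?_⟩
    simp only [hk]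
    have e : ((2 * k - (2 * k - q1), - - q2) : Pt) = (q1, q2) := by
      simp only [Prod.mk.injEq]; constructor <;> ring
    rw [e]
    exact hq
  obtain ⟨β, α, h1, h2, h3, h4, h5, h6, h7⟩ := (h.rot hG).right_step (hG.rot (k := k)) hW hne'
  simp only [hk, hk1, neg_neg] at h1 h2 h3 h4 h5 h6 h7
  refine ⟨2 * k - α, 2 * k - β, h2, h1, h4, h3, ?_, ?_, ?_⟩
  · intro x hx
    have := h6 (2 * k - x) (by
      have e : 2 * k - (2 * k - x) = x := by ring
      rw [e]; exact hx)
    omega
  · intro x hx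
    have := h5 (2 * k - x) (by
      have e : 2 * k - (2 * k - x) = x := by ring
      rw [e]; exact hx)
    omega
  · rcases h7 with h7 | ⟨h7, h8⟩
    · left; exact h7
    · right
      exact ⟨by omega, hG.symm _ _ h8⟩

end std

section general

variable {R : Pt → Prop} {E : Pt → Pt → Prop} {W : ℕ} {v d d' : Pt}

/-- the vertex following a middle vertex is a vertex -/
theorem Mid.next (h : Mid E W v d) (hE : Cpx R E) (hW : 1 ≤ W) : ∃ q, E (v + d) q := by
  obtain ⟨u, hd⟩ := h.prim.exists_det
  have h0 : Mid0 E W (v + (0 : ℤ) • d) d := by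
    rw [zero_smul, add_zero]; exact h.toMid0
  have hv : aff v d u (0, 0) = v := by unfold aff; simp
  have hv1 : aff v d u (0 + 1, 0) = v + d := by unfold aff; simp
  obtain ⟨α, β, _, _, h3, _⟩ := (h0.std hd).right_step (hE.pull hd) hW (by
    obtain ⟨q, hq⟩ := h.ne
    refine ⟨unaff v d u q, ?_⟩
    rw [aff_unaff hd, hv]
    exact hq)
  rw [hv1] at h3
  exact ⟨_, h3⟩

theorem Mid.prev (h : Mid E W v d) (hE : Cpx R E) (hW : 1 ≤ W) : ∃ q, E (v - d) q := by
  have := (h.neg hE.symm).next hE hW
  rwa [← sub_eq_add_neg] at this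

/-- in a window of `Mid0` points around a vertex all points are middle vertices -/
theorem window {B : ℕ} (hE : Cpx R E) (hW : 1 ≤ W)
    (h : ∀ x : ℤ, |x| ≤ B → Mid0 E W (v + x • d) d) (hne : ∃ q, E v q) :
    ∀ x : ℤ, |x| ≤ B → Mid E W (v + x • d) d := by
  have up : ∀ i : ℕ, i ≤ B → Mid E W (v + (i : ℤ) • d) d := by
    intro i
    induction i with
    | zero =>
      intro _
      refine ⟨h 0 (by simp), ?_⟩
      simpa using hne
    | succ i ih =>
      intro hi
      refine ⟨h _ (by rw [abs_le]; push_cast; constructor <;> omega), ?_⟩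
      have := (ih (by omega)).next hE hW
      have e : v + (i : ℤ) • d + d = v + ((i + 1 : ℕ) : ℤ) • d := by
        push_cast; rw [add_smul, one_smul, add_assoc]
      rwa [e] at this
  have down : ∀ i : ℕ, i ≤ B → Mid E W (v + (-(i : ℤ)) • d) d := by
    intro i
    induction i with
    | zero =>
      intro _
      refine ⟨h _ (by simp), ?_⟩
      simpa using hne
    | succ i ih =>
      intro hi
      refine ⟨h _ (by rw [abs_le]; push_cast; constructor <;> omega), ?_⟩
      have := (ih (by omega)).prev hE hW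
      have e : v + (-(i : ℤ)) • d - d = v + (-((i + 1 : ℕ) : ℤ)) • d := by
        push_cast
        rw [neg_add, add_smul, neg_smul, neg_smul, one_smul]
        abel
      rwa [e] at this
  intro x hx
  rw [abs_le] at hx
  rcases le_total 0 x with h0 | h0
  · have := up x.toNat (by omega)
    rwa [Int.toNat_of_nonneg h0] at this
  · have := down (-x).toNat (by omega)
    rwa [Int.toNat_of_nonneg (by omega), neg_neg] at this

theorem Good.mid0 {B : ℕ} {u : Pt} (h : Good E (B + 1) W v d u) {x : ℤ} (hx : |x| ≤ B) :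
    Mid0 E W (v + x • d) d := by
  have hdet : ∀ q, MP01b126.det d (q - (v + x • d)) = MP01b126.det d (q - v) := by
    intro q
    have : q - (v + x • d) = (q - v) - x • d := by abel
    rw [this, det_sub_right, det_smul_right, det_self]
    ring
  rw [abs_le] at hx
  have hx0 : |x| ≤ ((B + 1 : ℕ) : ℤ) := by rw [abs_le]; push_cast; constructor <;> omega
  have hx1 : |x - 1| ≤ ((B + 1 : ℕ) : ℤ) := by rw [abs_le]; push_cast; constructor <;> omega
  refine ⟨prim_of_det h.det, ?_, h.star x hx0, ?_, ?_, ?_⟩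
  · intro q hq
    rw [hdet]
    exact h.row x hx0 q hq
  · intro q hq hn
    rw [hdet] at hn
    exact h.stop x hx0 q hq hn
  · intro p q hpq hs hn
    rw [hdet] at hn
    rcases hs with hs | hs
    · refine h.stop' x hx0 p q hpq ?_ hn
      rw [hs, add_smul, one_smul, mul_smul, two_smul]
      abel
    · refine h.stop' (x - 1) hx1 p q hpq ?_ hn
      rw [hs]
      have e : (2 * (x - 1) + 1 : ℤ) = x + x - 1 := by ring
      rw [e, sub_smul, add_smul, one_smul]
      abel
  · intro q hq hn j h1 h2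
    rw [hdet] at hn
    exact h.wall x hx0 q hq hn j (by rw [abs_le]; constructor <;> omega)

/-- a middle vertex with direction `d` is not a wall vertex with another direction -/
theorem Mid0.adj {u u' : Pt} (h1 : Mid0 E W u d) (h2 : Mid0 E W u' d') (hE : E u' u)
    (hr : det d' (u - u') ≠ 0) (hW : 2 ≤ W) : det d d' = 0 := by
  by_contra hne
  have w0 := h2.wall _ hE hr 0 (by omega) (by omega)
  have w1 := h2.wall _ hE hr 1 (by omega) (by omega)
  simp only [zero_smul, add_zero, zero_add, one_smul] at w0 w1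
  have e : u + d' - u = d' := by abel
  apply h1.stop _ w0 (by rw [e]; exact hne)
  rw [e]
  have e2 : u + (1 + 1 : ℤ) • d' = u + d' + d' := by
    rw [add_smul, one_smul, add_assoc]
  rwa [e2] at w1

/-- a middle vertex close to a missing row edge is not a wall vertex -/
theorem Mid0.not_wall {u u' : Pt} (h1 : Mid0 E W u d) (h2 : Mid0 E W u' d') (hE : E u' u)
    (hs : ∀ a b, E a b → E b a)
    (hr : det d' (u - u') ≠ 0) (hW : 2 ≤ W) {j : ℤ} (hj1 : -W ≤ j) (hj2 : j < W)
    (hn : ¬ E (u + j • d) (u + (j + 1) • d)) : False := by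
  have h0 := h1.adj h2 hE hr hW
  rcases h1.prim.eq_or_neg h2.prim h0 with rfl | rfl
  · exact hn (h2.wall _ hE hr j hj1 hj2)
  · have := h2.wall _ hE hr (-(j + 1)) (by omega) (by omega)
    apply hn
    apply hs
    have e1 : u + -(j + 1) • -d = u + (j + 1) • d := by rw [smul_neg, neg_smul, neg_neg]
    have e2 : u + (-(j + 1) + 1) • -d = u + j • d := by
      rw [smul_neg, ← neg_smul]; congr 2; ring
    rwa [e1, e2] at this

theorem no_common_aux (hE : Cpx R E) {z : Pt} (h : Mid0 E W v d) (hp : Mid0 E W (v + d) d)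
    (hm : Mid0 E W (v - d) d) (h' : Mid0 E W v d') (hW : 2 ≤ W) (hz : E v z)
    (h1 : det d (z - v) = 1) (h2 : det d' (z - v) ≠ 0) (hq : 0 < det d d') : False := by
  set u := z - v with hu
  have hd : det d u = 1 := h1
  set q := det d d' with hqd
  set p := det d' u with hpd
  have hd' : d' = p • d + q • u := expand hd d'
  have hp1 : p = -1 ∨ p = 0 ∨ p = 1 := h'.row z hz
  have hpne : p ≠ 0 := h2
  have w0 := h'.wall z hz h2 0 (by omega) (by omega)
  have w1 := h'.wall z hz h2 (-1) (by omega) (by omega)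
  simp only [zero_smul, add_zero, zero_add, one_smul, neg_add_cancel, neg_smul] at w0 w1
  have zc : aff v d u (0, 1) = z := by unfold aff; simp [hu]
  have zp : aff v d u (p, 1 + q) = z + d' := by
    unfold aff; rw [hd']; simp only [add_smul, one_smul]; rw [hu]; abel
  have zm : aff v d u (-p, 1 - q) = z + -d' := by
    unfold aff; rw [hd']; simp only [sub_smul, one_smul, neg_smul]; rw [hu]; abel
  have vc : aff v d u (0, 0) = v := by unfold aff; simp
  have hG := hE.pull (o := v) hd
  set G : Pt → Pt → Prop := fun x y => E (aff v d u x) (aff v d u y) with hGd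
  have g0 : G (0, 1) (p, 1 + q) := by simp only [hGd, zc, zp]; exact w0
  have g1 : G (-p, 1 - q) (0, 1) := by simp only [hGd, zc, zm]; exact w1
  have m0 : MidS0 G W 0 := Mid0.std hd (by rw [zero_smul, add_zero]; exact h)
  have m1 : MidS0 G W 1 := Mid0.std hd (by rw [one_smul]; exact hp)
  have m2 : MidS0 G W (-1) := Mid0.std hd (by rw [neg_smul, one_smul, ← sub_eq_add_neg]; exact hm)
  have gz : G (0, 0) (0, 1) := by simp only [hGd, zc, vc]; exact hz
  clear_value G
  rcases (show q = 1 ∨ q = 2 ∨ 3 ≤ q by omega) with h3 | h3 | h3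
  · rw [h3] at g0 g1
    norm_num at g0 g1
    rcases hp1 with hp1 | hp1 | hp1
    · rw [hp1] at g0 g1
      have := m1.stop 0 1 (by simpa using g1) (by norm_num)
      apply this
      simpa using g0
    · exact hpne hp1
    · rw [hp1] at g0 g1
      have := m2.stop 0 1 g1 (by norm_num)
      apply this
      simpa using g0
  · rw [h3] at g0 g1
    norm_num at g0 g1
    have := m0.stop' _ _ _ _ g1 (by norm_num) (by omega) (by norm_num)
    apply this
    have e : ((2 * 0 - -p, 2 * 1 - -1) : Pt) = (p, 3) := by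
      simp only [Prod.mk.injEq]; constructor <;> ring
    rw [e]; exact g0
  · rcases hp1 with hp1 | hp1 | hp1
    · -- passes on the right
      obtain ⟨⟨c1, c2⟩, hc⟩ := hG.star' m0.star gz
      have hdet := hc.det'
      simp only [det, Prod.mk_sub_mk] at hdet
      have hr := m0.row _ _ hc.1
      rw [hp1] at g1
      apply hG.ncr _ _ _ _ hc.1 g1
      have hc1 : c1 = 1 := by linarith
      constructor
      · simp only [det, Prod.mk_sub_mk]
        rw [hc1]
        rcases hr with hr | hr | hr <;> rw [hr] <;> nlinarith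
      · simp only [det, Prod.mk_sub_mk]
        rw [hc1]
        rcases hr with hr | hr | hr <;> rw [hr] <;> nlinarith
    · exact hpne hp1
    · obtain ⟨⟨c1, c2⟩, hc⟩ := m0.star _ gz
      have hdet := hc.det'
      simp only [det, Prod.mk_sub_mk] at hdet
      have hr := m0.row _ _ (hG.symm _ _ hc.2.2.1)
      rw [hp1] at g1
      apply hG.ncr _ _ _ _ (hG.symm _ _ hc.2.2.1) g1
      have hc1 : c1 = -1 := by linarith
      constructor
      · simp only [det, Prod.mk_sub_mk]
        rw [hc1]
        rcases hr with hr | hr | hr <;> rw [hr] <;> nlinarith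
      · simp only [det, Prod.mk_sub_mk]
        rw [hc1]
        rcases hr with hr | hr | hr <;> rw [hr] <;> nlinarith

theorem no_common (hE : Cpx R E) {z : Pt} (h : Mid0 E W v d) (hp : Mid0 E W (v + d) d)
    (hm : Mid0 E W (v - d) d) (h' : Mid0 E W v d') (hW : 2 ≤ W) (hz : E v z)
    (h1 : det d (z - v) ≠ 0) (h2 : det d' (z - v) ≠ 0) (hq : det d d' ≠ 0) : False := by
  have key : ∀ e e' : Pt, Mid0 E W v e → Mid0 E W (v + e) e → Mid0 E W (v - e) e →
      Mid0 E W v e' → det e (z - v) = 1 → det e' (z - v) ≠ 0 → det e e' ≠ 0 → False := by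
    intro e e' g1 g2 g3 g4 g5 g6 g7
    rcases lt_or_gt_of_ne g7 with g8 | g8
    · refine no_common_aux hE g1 g2 g3 (g4.neg hE.symm) hW hz g5 ?_ ?_
      · rw [det_neg_left]; exact neg_ne_zero.mpr g6
      · rw [det_neg_right]; linarith
    · exact no_common_aux hE g1 g2 g3 g4 hW hz g5 g6 g8
  rcases h.row z hz with h3 | h3 | h3
  · refine key (-d) d' (h.neg hE.symm) ?_ ?_ h' ?_ h2 ?_
    · rw [← sub_eq_add_neg]; exact hm.neg hE.symm
    · rw [sub_neg_eq_add]; exact hp.neg hE.symm
    · rw [det_neg_left, h3]; norm_num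
    · rw [det_neg_left]; exact neg_ne_zero.mpr hq
  · exact h1 h3
  · exact key d d' h hp hm h' h3 h2 hq

/-- UNIQUE DIRECTION -/
theorem unique_dir (hE : Cpx R E) (h : Mid E W v d) (hp : Mid0 E W (v + d) d)
    (hm : Mid0 E W (v - d) d) (h' : Mid0 E W v d') (hW : 2 ≤ W) : d' = d ∨ d' = -d := by
  by_contra hcon
  have hq : det d d' ≠ 0 := fun h0 => hcon (h.prim.eq_or_neg h'.prim h0)
  have hq' : det d' d ≠ 0 := by rw [det_swap]; exact neg_ne_zero.mpr hq
  have key : ¬ E v (v + d) := by
    intro he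
    have e : v + d - v = d := by abel
    have := hp.adj h' he (by rw [e]; exact hq') hW
    exact hq this
  obtain ⟨u, hd⟩ := h.prim.exists_det
  have h0 : Mid0 E W (v + (0 : ℤ) • d) d := by
    rw [zero_smul, add_zero]; exact h.toMid0
  have hv : aff v d u (0, 0) = v := by unfold aff; simp
  have hv1 : aff v d u (0 + 1, 0) = v + d := by unfold aff; simp
  have hG := hE.pull (o := v) hd
  obtain ⟨α, β, h1, h2, _, _, _, _, h7⟩ := (h0.std hd).right_step hG (by omega) (by
    obtain ⟨q, hq⟩ := h.ne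
    refine ⟨unaff v d u q, ?_⟩
    rw [aff_unaff hd, hv]
    exact hq)
  rw [hv, hv1] at h7
  rw [hv] at h1 h2
  rcases h7 with h7 | ⟨h7, _⟩
  · exact key h7
  have hdet : ∀ x y : ℤ, det d (aff v d u (x, y) - v) = y := by
    intro x y
    have : aff v d u (x, y) - v = x • d + y • u := by
      unfold aff; simp only; abel
    rw [this, det_add_right, det_smul_right, det_smul_right, det_self, hd]
    ring
  have a1 : det d' (aff v d u (α, 1) - v) = 0 := by
    by_contra hc
    exact no_common hE h.toMid0 hp hm h' hW h1 (by rw [hdet]; norm_num) hc hq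
  have a2 : det d' (aff v d u (β, -1) - v) = 0 := by
    by_contra hc
    exact no_common hE h.toMid0 hp hm h' hW h2 (by rw [hdet]; norm_num) hc hq
  have e : aff v d u (α, 1) - v + (aff v d u (β, -1) - v) = (α + β) • d := by
    unfold aff
    simp only [one_smul, neg_smul, add_smul]
    abel
  have a3 : det d' ((α + β) • d) = 0 := by
    rw [← e, det_add_right, a1, a2, add_zero]
  rw [det_smul_right, h7] at a3
  apply hq'
  omega

end general

end Pool.Agent.MP01b126
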