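import Pool.Agent.Lib.MP_01b126_co.Cnt.GDefs
import Pool.Agent.Lib.MP_01b126_co.Cnt.Mid

/-!
# MP_01b126_co, COUNTING: blocks
-/

namespace Pool.Agent.MP01b126

/-- marked flip: a missing row edge `v, v+d` in a window of middle vertices -/
structure MFlip (E : Pt → Pt → Prop) (W B : ℕ) (v d : Pt) : Prop where
  lex : LexPos d
  win : ∀ j : ℤ, |j| ≤ B → Mid E W (v + j • d) d
  not : ¬ E v (v + d)

/-- `v` lies between two marked flips at distance at most `K1` -/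
def InBlk (E : Pt → Pt → Prop) (W B K1 : ℕ) (v d : Pt) : Prop :=
  ∃ i j : ℕ, i + j < K1 ∧ MFlip E W B (v - ((i : ℤ) + 1) • d) d ∧ MFlip E W B (v + (j : ℤ) • d) d

/-- blocks: maximal intervals of `InBlk` vertices, with the shape given by the two end flips -/
structure IsBlk (E : Pt → Pt → Prop) (W B K1 : ℕ) (S : Shp) : Prop where
  lex : LexPos S.d
  det : MP01b126.det S.d S.u = 1
  l1 : 1 ≤ S.l
  inb : ∀ k : ℤ, 0 ≤ k → k < S.l → InBlk E W B K1 (S.o + k • S.d) S.d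
  nl : ¬ InBlk E W B K1 (S.o - S.d) S.d
  nr : ¬ InBlk E W B K1 (S.o + (S.l : ℤ) • S.d) S.d
  e1 : S.pull E (0, 1) (-1, -1)
  e2 : S.pull E ((S.a : ℤ), 1) (2 * S.l - 1 - S.a, -1)

end Pool.Agent.MP01b126
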