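import Pool.Agent.Lib.MP_01b126_co.Cnt.BDefs

/-!
# MP_01b126_co, COUNTING: first properties of blocks
-/

namespace Pool.Agent.MP01b126

theorem InBlk.of_next {E : Pt → Pt → Prop} {W B K1 : ℕ} {v d : Pt} (h : InBlk E W B K1 v d) :
    MFlip E W B (v - d) d ∨ InBlk E W B K1 (v - d) d := by
  obtain ⟨i, j, hij, h1, h2⟩ := h
  rcases i with _ | i
  · left
    simpa using h1
  · right
    refine ⟨i, j + 1, by omega, ?_, ?_⟩
    · have e : v - d - ((i : ℤ) + 1) • d = v - (((i + 1 : ℕ) : ℤ) + 1) • d := by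
        push_cast; simp only [add_smul, one_smul]; abel
      rw [e]; exact h1
    · have e : v - d + ((j + 1 : ℕ) : ℤ) • d = v + (j : ℤ) • d := by
        push_cast; simp only [add_smul, one_smul]; abel
      rw [e]; exact h2

theorem InBlk.of_prev {E : Pt → Pt → Prop} {W B K1 : ℕ} {v d : Pt} (h : InBlk E W B K1 v d) :
    MFlip E W B v d ∨ InBlk E W B K1 (v + d) d := by
  obtain ⟨i, j, hij, h1, h2⟩ := h
  rcases j with _ | j
  · left
    simpa using h2
  · right
    refine ⟨i + 1, j, by omega, ?_, ?_⟩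
    · have e : v + d - (((i + 1 : ℕ) : ℤ) + 1) • d = v - ((i : ℤ) + 1) • d := by
        push_cast; simp only [add_smul, one_smul]; abel
      rw [e]; exact h1
    · have e : v + d + (j : ℤ) • d = v + ((j + 1 : ℕ) : ℤ) • d := by
        push_cast; simp only [add_smul, one_smul]; abel
      rw [e]; exact h2

theorem InBlk.lex {E : Pt → Pt → Prop} {W B K1 : ℕ} {v d : Pt} (h : InBlk E W B K1 v d) :
    LexPos d := by
  obtain ⟨i, j, hij, h1, h2⟩ := h
  exact h1.lex

theorem InBlk.mid {E : Pt → Pt → Prop} {W B K1 : ℕ} {v d : Pt} (h : InBlk E W B K1 v d)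
    (hK : K1 ≤ B) : Mid E W v d := by
  obtain ⟨i, j, hij, h1, h2⟩ := h
  have := h2.win (-(j : ℤ)) (by rw [abs_le]; constructor <;> omega)
  have e : v + (j : ℤ) • d + (-(j : ℤ)) • d = v := by rw [neg_smul]; abel
  rwa [e] at this

theorem IsBlk.lflip {E : Pt → Pt → Prop} {W B K1 : ℕ} {S : Shp} (h : IsBlk E W B K1 S) :
    MFlip E W B (S.o - S.d) S.d := by
  have h0 := h.inb 0 le_rfl (by have := h.l1; omega)
  rw [zero_smul, add_zero] at h0
  rcases h0.of_next with h1 | h1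
  · exact h1
  · exact absurd h1 h.nl

theorem IsBlk.rflip {E : Pt → Pt → Prop} {W B K1 : ℕ} {S : Shp} (h : IsBlk E W B K1 S) :
    MFlip E W B (S.o + ((S.l : ℤ) - 1) • S.d) S.d := by
  have h0 := h.inb ((S.l : ℤ) - 1) (by have := h.l1; omega) (by omega)
  rcases h0.of_prev with h1 | h1
  · exact h1
  · exfalso
    apply h.nr
    have e : S.o + ((S.l : ℤ) - 1) • S.d + S.d = S.o + (S.l : ℤ) • S.d := by
      rw [sub_smul, one_smul]; abel
    rwa [e] at h1

/-- all vertices of the row of the block, up to distance `B` from the block, are middle vertices -/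
theorem IsBlk.mids {E : Pt → Pt → Prop} {W B K1 : ℕ} {S : Shp} (h : IsBlk E W B K1 S)
    (hK : K1 ≤ B) {k : ℤ} (h1 : -1 - (B : ℤ) ≤ k) (h2 : k ≤ S.l - 1 + B) :
    Mid E W (S.o + k • S.d) S.d := by
  rcases lt_or_ge k 0 with h3 | h3
  · have := h.lflip.win (k + 1) (by rw [abs_le]; constructor <;> omega)
    have e : S.o - S.d + (k + 1) • S.d = S.o + k • S.d := by
      rw [add_smul, one_smul]; abel
    rwa [e] at this
  rcases lt_or_ge k S.l with h4 | h4
  · exact (h.inb k h3 h4).mid hK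
  · have := h.rflip.win (k - (S.l - 1)) (by rw [abs_le]; constructor <;> omega)
    have e : S.o + ((S.l : ℤ) - 1) • S.d + (k - (S.l - 1)) • S.d = S.o + k • S.d := by
      rw [add_assoc, ← add_smul]; congr 2; ring
    rwa [e] at this

/-- there is a missing row edge close to every middle vertex of the block -/
theorem IsBlk.near {E : Pt → Pt → Prop} {W B K1 : ℕ} {S : Shp} (h : IsBlk E W B K1 S)
    {v : Pt} (hv : v ∈ S.mid) :
    ∃ j : ℤ, 0 ≤ j ∧ j < K1 ∧ ¬ E (v + j • S.d) (v + (j + 1) • S.d) := by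
  obtain ⟨k, hk0, hkl, rfl⟩ := hv
  obtain ⟨i, j, hij, h1, h2⟩ := h.inb k hk0 hkl
  refine ⟨j, by omega, by omega, ?_⟩
  have := h2.not
  rwa [add_smul, one_smul, ← add_assoc]

/-- in the frame of the block: `MidS0` (Mid.lean) and a neighbour -/
theorem IsBlk.midS {E : Pt → Pt → Prop} {W B K1 : ℕ} {S : Shp} (h : IsBlk E W B K1 S)
    (hK : K1 ≤ B) {k : ℤ} (h1 : -1 - (B : ℤ) ≤ k) (h2 : k ≤ S.l - 1 + B) :
    MidS0 (S.pull E) W k ∧ ∃ q, S.pull E (k, 0) q := by
  have hm := h.mids hK h1 h2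
  refine ⟨hm.toMid0.std h.det, ?_⟩
  obtain ⟨q, hq⟩ := hm.ne
  refine ⟨unaff S.o S.d S.u q, ?_⟩
  show E (aff S.o S.d S.u (k, 0)) (aff S.o S.d S.u (unaff S.o S.d S.u q))
  rw [aff_unaff h.det]
  have e : aff S.o S.d S.u (k, 0) = S.o + k • S.d := by unfold aff; simp
  rw [e]; exact hq

end Pool.Agent.MP01b126
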