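import Pool.Agent.Lib.MP_01b126_co.Cnt.Mid

/-!
# MP_01b126_co, COUNTING: the walls of a strip of width two
-/

namespace Pool.Agent.MP01b126

namespace Chain

variable {R : Pt → Prop} {G : Pt → Pt → Prop} {W : ℕ} {k : ℤ}

theorem sail_top (hG : Cpx R G) {x z t : ℤ} (h1 : G (k, 0) (x, 1)) (h2 : G (k, 0) (z, 1))
    (h3 : x ≤ t) (h4 : t ≤ z) : G (k, 0) (t, 1) := by
  have hd : det ((1, 0) : Pt) ((0, 1) : Pt) = 1 := by simp [det]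
  have e : ∀ i : ℤ, ((k, 0) : Pt) + (0, 1) + (i - k) • ((1, 0) : Pt) = (i, 1) := by
    intro i
    ext <;> simp
  have := hG.sail (k, 0) (1, 0) (0, 1) hd (x - k) (z - k) (t - k) (by rw [e]; exact h1)
    (by rw [e]; exact h2) (by omega) (by omega)
  rwa [e] at this

theorem sail_bot (hG : Cpx R G) {x z t : ℤ} (h1 : G (k, 0) (x, -1)) (h2 : G (k, 0) (z, -1))
    (h3 : x ≤ t) (h4 : t ≤ z) : G (k, 0) (t, -1) := by
  have hd : det ((-1, 0) : Pt) ((0, -1) : Pt) = 1 := by simp [det]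
  have e : ∀ i : ℤ, ((k, 0) : Pt) + (0, -1) + (k - i) • ((-1, 0) : Pt) = (i, -1) := by
    intro i
    ext <;> simp
  have := hG.sail (k, 0) (-1, 0) (0, -1) hd (k - z) (k - x) (k - t) (by rw [e]; exact h2)
    (by rw [e]; exact h1) (by omega) (by omega)
  rwa [e] at this

/-- one step to the right, with the wall edges and the neighbours between the old and the new
common neighbours -/
theorem step (hG : Cpx R G) (hW : 1 ≤ W) (hm : MidS0 G W k) {α₀ β₀ : ℤ}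
    (h0 : G (k, 0) (α₀, 1)) (h1 : G (k, 0) (β₀, -1)) :
    ∃ α β : ℤ, α₀ ≤ α ∧ β₀ ≤ β ∧ G (k, 0) (α, 1) ∧ G (k, 0) (β, -1) ∧
      G (k + 1, 0) (α, 1) ∧ G (k + 1, 0) (β, -1) ∧
      (G (k, 0) (k + 1, 0) ∨ (α + β = 2 * k + 1 ∧ G (α, 1) (β, -1))) ∧
      (∀ j : ℤ, α₀ ≤ j → j < α → G (j, 1) (j + 1, 1)) ∧
      (∀ j : ℤ, β₀ ≤ j → j < β → G (j, -1) (j + 1, -1)) ∧
      (∀ j : ℤ, α₀ ≤ j → j ≤ α → G (k, 0) (j, 1)) ∧
      (∀ j : ℤ, β₀ ≤ j → j ≤ β → G (k, 0) (j, -1)) := by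
  obtain ⟨α, β, g1, g2, g3, g4, g5, g6, g7⟩ := hm.right_step hG hW ⟨_, h0⟩
  have t1 : ∀ j : ℤ, α₀ ≤ j → j ≤ α → G (k, 0) (j, 1) := fun j hj1 hj2 =>
    sail_top hG h0 g1 hj1 hj2
  have t2 : ∀ j : ℤ, β₀ ≤ j → j ≤ β → G (k, 0) (j, -1) := fun j hj1 hj2 =>
    sail_bot hG h1 g2 hj1 hj2
  refine ⟨α, β, g5 _ h0, g6 _ h1, g1, g2, g3, g4, g7, ?_, ?_, t1, t2⟩
  · intro j hj1 hj2
    have := hm.wall j 1 (t1 j hj1 hj2.le) (by norm_num) 0 (by omega) (by omega)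
    simpa using this
  · intro j hj1 hj2
    have := hm.wall j (-1) (t2 j hj1 hj2.le) (by norm_num) 0 (by omega) (by omega)
    simpa using this

end Chain

open Chain in
/-- the walls of a strip between a flip and the `k`-th middle vertex: `(α,1)` and `(β,-1)` are common
neighbours of `(k-1,0)` and `(k,0)`, all wall edges from the left corners up to them are edges and
all wall vertices up to them are neighbours of middle vertices -/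
theorem chain {R : Pt → Prop} {G : Pt → Pt → Prop} {W l : ℕ} (hG : Cpx R G) (hW : 1 ≤ W)
    (hm : ∀ k : ℤ, 0 ≤ k → k < l → MidS0 G W k) (h0 : G (0, 0) (0, 1)) (h1 : G (0, 0) (-1, -1))
    (k : ℕ) (hk1 : 1 ≤ k) (hk : k ≤ l) :
    ∃ α β : ℤ, 0 ≤ α ∧ -1 ≤ β ∧ G (k - 1, 0) (α, 1) ∧ G (k - 1, 0) (β, -1) ∧
      G (k, 0) (α, 1) ∧ G (k, 0) (β, -1) ∧
      (G (k - 1, 0) (k, 0) ∨ (α + β = 2 * k - 1 ∧ G (α, 1) (β, -1))) ∧
      (∀ j : ℤ, 0 ≤ j → j < α → G (j, 1) (j + 1, 1)) ∧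
      (∀ j : ℤ, -1 ≤ j → j < β → G (j, -1) (j + 1, -1)) ∧
      (∀ j : ℤ, 0 ≤ j → j ≤ α → ∃ i : ℤ, 0 ≤ i ∧ i < k ∧ G (i, 0) (j, 1)) ∧
      (∀ j : ℤ, -1 ≤ j → j ≤ β → ∃ i : ℤ, 0 ≤ i ∧ i < k ∧ G (i, 0) (j, -1)) := by
  have main : ∀ κ : ℕ, κ < l → ∃ α β : ℤ, 0 ≤ α ∧ -1 ≤ β ∧ G (κ, 0) (α, 1) ∧ G (κ, 0) (β, -1) ∧
      G ((κ : ℤ) + 1, 0) (α, 1) ∧ G ((κ : ℤ) + 1, 0) (β, -1) ∧
      (G (κ, 0) ((κ : ℤ) + 1, 0) ∨ (α + β = 2 * κ + 1 ∧ G (α, 1) (β, -1))) ∧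
      (∀ j : ℤ, 0 ≤ j → j < α → G (j, 1) (j + 1, 1)) ∧
      (∀ j : ℤ, -1 ≤ j → j < β → G (j, -1) (j + 1, -1)) ∧
      (∀ j : ℤ, 0 ≤ j → j ≤ α → ∃ i : ℤ, 0 ≤ i ∧ i < κ + 1 ∧ G (i, 0) (j, 1)) ∧
      (∀ j : ℤ, -1 ≤ j → j ≤ β → ∃ i : ℤ, 0 ≤ i ∧ i < κ + 1 ∧ G (i, 0) (j, -1)) := by
    intro κ
    induction κ with
    | zero =>
      intro hl
      have hm0 := hm 0 le_rfl (by exact_mod_cast hl)
      obtain ⟨α, β, g1, g2, g3, g4, g5, g6, g7, g8, g9, g10, g11⟩ := step hG hW hm0 h0 h1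
      refine ⟨α, β, g1, g2, by simpa using g3, by simpa using g4, by simpa using g5,
        by simpa using g6, by simpa using g7, g8, g9, ?_, ?_⟩
      · intro j hj1 hj2
        exact ⟨0, le_rfl, by norm_num, g10 j hj1 hj2⟩
      · intro j hj1 hj2
        exact ⟨0, le_rfl, by norm_num, g11 j hj1 hj2⟩
    | succ κ ih =>
      intro hl
      obtain ⟨α₀, β₀, f1, f2, f3, f4, f5, f6, f7, f8, f9, f10, f11⟩ := ih (by omega)
      have hm0 := hm ((κ : ℤ) + 1) (by omega) (by omega)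
      obtain ⟨α, β, g1, g2, g3, g4, g5, g6, g7, g8, g9, g10, g11⟩ := step hG hW hm0 f5 f6
      push_cast
      refine ⟨α, β, by omega, by omega, g3, g4, g5, g6, g7, ?_, ?_, ?_, ?_⟩
      · intro j hj1 hj2
        by_cases hj : j < α₀
        · exact f8 j hj1 hj
        · exact g8 j (by omega) hj2
      · intro j hj1 hj2
        by_cases hj : j < β₀
        · exact f9 j hj1 hj
        · exact g9 j (by omega) hj2
      · intro j hj1 hj2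
        by_cases hj : j ≤ α₀
        · obtain ⟨i, i1, i2, i3⟩ := f10 j hj1 hj
          exact ⟨i, i1, by omega, i3⟩
        · exact ⟨(κ : ℤ) + 1, by omega, by omega, g10 j (by omega) hj2⟩
      · intro j hj1 hj2
        by_cases hj : j ≤ β₀
        · obtain ⟨i, i1, i2, i3⟩ := f11 j hj1 hj
          exact ⟨i, i1, by omega, i3⟩
        · exact ⟨(κ : ℤ) + 1, by omega, by omega, g11 j (by omega) hj2⟩
  obtain ⟨κ, rfl⟩ : ∃ κ, k = κ + 1 := ⟨k - 1, by omega⟩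
  obtain ⟨α, β, f1, f2, f3, f4, f5, f6, f7, f8, f9, f10, f11⟩ := main κ (by omega)
  push_cast
  have e1 : (κ : ℤ) + 1 - 1 = κ := by ring
  have e2 : 2 * ((κ : ℤ) + 1) - 1 = 2 * κ + 1 := by ring
  rw [e1, e2]
  exact ⟨α, β, f1, f2, f3, f4, f5, f6, f7, f8, f9, f10, f11⟩

end Pool.Agent.MP01b126
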