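import Pool.Agent.Lib.MP_01b126_co.Cnt.Blk1
import Pool.Agent.Lib.MP_01b126_co.Cnt.Chain

/-!
# MP_01b126_co, COUNTING: the shape of a block, existence of blocks
-/

namespace Pool.Agent.MP01b126

private theorem aff_row3 (o d u : Pt) (k : ℤ) : aff o d u (k, 0) = o + k • d := by
  unfold aff; simp

/-- the apexes of the left end flip -/
theorem IsBlk.left3 {m n : ℕ} {E : Pt → Pt → Prop} {W B K1 : ℕ} {S : Shp} (hE : IsTri m n E)
    (h : IsBlk E W B K1 S) (hK : K1 ≤ B) (hW : 1 ≤ W) :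
    S.pull E (0, 0) (0, 1) ∧ S.pull E (0, 0) (-1, -1) ∧
      S.pull E (-1, 0) (0, 1) ∧ S.pull E (-1, 0) (-1, -1) := by
  have hG : Cpx (fun x => InR m n (aff S.o S.d S.u x)) (S.pull E) := hE.cpx.pull h.det
  obtain ⟨hm, hne⟩ := h.midS hK (k := -1) (by omega) (by have := h.l1; omega)
  obtain ⟨α, β, g1, g2, g3, g4, g5, g6, g7⟩ := hm.right_step hG hW hne
  have e0 : (-1 : ℤ) + 1 = 0 := by norm_num
  rw [e0] at g3 g4 g7
  rcases g7 with g7 | ⟨g7, g8⟩
  · exfalso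
    apply h.lflip.not
    have g9 : E (aff S.o S.d S.u (-1, 0)) (aff S.o S.d S.u (0, 0)) := g7
    rw [aff_row3, aff_row3] at g9
    have e1 : S.o + (-1 : ℤ) • S.d = S.o - S.d := by rw [neg_smul, one_smul]; abel
    have e2 : S.o + (0 : ℤ) • S.d = S.o - S.d + S.d := by rw [zero_smul]; abel
    rwa [e1, e2] at g9
  · have hs : ((α, 1) : Pt) + (β, -1) = (0, 1) + (-1, -1) := by
      refine Prod.ext ?_ rfl
      show α + β = 0 + -1
      linarith
    have ha : α = 0 ∧ β = -1 := by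
      rcases hG.toPre.mid g8 h.e1 hs with ⟨h1, h2⟩ | ⟨h1, h2⟩
      · simp only [Prod.mk.injEq] at h1 h2
        exact ⟨h1.1.symm, h2.1.symm⟩
      · simp only [Prod.mk.injEq] at h1
        have := h1.2
        norm_num at this
    obtain ⟨rfl, rfl⟩ := ha
    exact ⟨g3, g4, g1, g2⟩

/-- the walls and the apexes of the right end flip -/
theorem IsBlk.right3 {m n : ℕ} {E : Pt → Pt → Prop} {W B K1 : ℕ} {S : Shp} (hE : IsTri m n E)
    (h : IsBlk E W B K1 S) (hK : K1 ≤ B) (hW : 1 ≤ W) :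
    (S.a ≤ 2 * S.l) ∧
    (S.pull E ((S.l : ℤ) - 1, 0) (S.a, 1) ∧ S.pull E ((S.l : ℤ) - 1, 0) (2 * S.l - 1 - S.a, -1) ∧
      S.pull E ((S.l : ℤ), 0) (S.a, 1) ∧ S.pull E ((S.l : ℤ), 0) (2 * S.l - 1 - S.a, -1)) ∧
      (∀ j : ℤ, 0 ≤ j → j < S.a → S.pull E (j, 1) (j + 1, 1)) ∧
      (∀ j : ℤ, -1 ≤ j → j < 2 * S.l - 1 - S.a → S.pull E (j, -1) (j + 1, -1)) ∧
      (∀ j : ℤ, 0 ≤ j → j ≤ S.a → ∃ i : ℤ, 0 ≤ i ∧ i < S.l ∧ S.pull E (i, 0) (j, 1)) ∧
      (∀ j : ℤ, -1 ≤ j → j ≤ 2 * S.l - 1 - S.a →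
        ∃ i : ℤ, 0 ≤ i ∧ i < S.l ∧ S.pull E (i, 0) (j, -1)) := by
  have hG : Cpx (fun x => InR m n (aff S.o S.d S.u x)) (S.pull E) := hE.cpx.pull h.det
  obtain ⟨a1, a2, a3, a4⟩ := h.left3 hE hK hW
  obtain ⟨α, β, f1, f2, f3, f4, f5, f6, f7, f8, f9, f10, f11⟩ := chain (l := S.l) hG hW
    (fun k h1 h2 => (h.midS hK (k := k) (by omega) (by omega)).1) a1 a2 S.l h.l1 le_rfl
  rcases f7 with f7 | ⟨f7, f12⟩
  · exfalso
    apply h.rflip.not
    have g9 : E (aff S.o S.d S.u ((S.l : ℤ) - 1, 0)) (aff S.o S.d S.u (S.l, 0)) := f7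
    rw [aff_row3, aff_row3] at g9
    have e2 : S.o + ((S.l : ℕ) : ℤ) • S.d = S.o + ((S.l : ℤ) - 1) • S.d + S.d := by
      rw [sub_smul, one_smul]; abel
    rwa [e2] at g9
  · have hs : ((α, 1) : Pt) + (β, -1) = ((S.a : ℤ), 1) + (2 * (S.l : ℤ) - 1 - S.a, -1) := by
      refine Prod.ext ?_ rfl
      show α + β = (S.a : ℤ) + (2 * (S.l : ℤ) - 1 - S.a)
      linarith
    have ha : α = S.a ∧ β = 2 * (S.l : ℤ) - 1 - S.a := by
      rcases hG.toPre.mid f12 h.e2 hs with ⟨h1, h2⟩ | ⟨h1, h2⟩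
      · simp only [Prod.mk.injEq] at h1 h2
        exact ⟨h1.1.symm, h2.1.symm⟩
      · simp only [Prod.mk.injEq] at h1
        have := h1.2
        norm_num at this
    obtain ⟨rfl, rfl⟩ := ha
    exact ⟨by omega, ⟨f3, f4, f5, f6⟩, f8, f9, f10, f11⟩

theorem IsBlk.bd {m n : ℕ} {E : Pt → Pt → Prop} {W B K1 : ℕ} {S : Shp} (hE : IsTri m n E)
    (h : IsBlk E W B K1 S) (hK : K1 ≤ B) (hW : 1 ≤ W) : BdS S.l S.a (S.pull E) := by
  obtain ⟨f1, f2, f3, f4, f5, f6⟩ := h.right3 hE hK hW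
  exact ⟨h.l1, f1, h.e1, h.e2, f3, f4⟩

/-- the two apexes of the end flips -/
theorem IsBlk.ends {m n : ℕ} {E : Pt → Pt → Prop} {W B K1 : ℕ} {S : Shp} (hE : IsTri m n E)
    (h : IsBlk E W B K1 S) (hK : K1 ≤ B) (hW : 1 ≤ W) :
    (S.pull E (0, 0) (0, 1) ∧ S.pull E (0, 0) (-1, -1) ∧
      S.pull E (-1, 0) (0, 1) ∧ S.pull E (-1, 0) (-1, -1)) ∧
    (S.pull E ((S.l : ℤ) - 1, 0) (S.a, 1) ∧ S.pull E ((S.l : ℤ) - 1, 0) (2 * S.l - 1 - S.a, -1) ∧
      S.pull E ((S.l : ℤ), 0) (S.a, 1) ∧ S.pull E ((S.l : ℤ), 0) (2 * S.l - 1 - S.a, -1)) :=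
  ⟨h.left3 hE hK hW, (h.right3 hE hK hW).2.1⟩

/-- wall vertices are neighbours of middle vertices -/
theorem IsBlk.wallnbr {m n : ℕ} {E : Pt → Pt → Prop} {W B K1 : ℕ} {S : Shp} (hE : IsTri m n E)
    (h : IsBlk E W B K1 S) (hK : K1 ≤ B) (hW : 1 ≤ W) {j y : ℤ} (hj : InS S.l S.a (j, y))
    (hy : y ≠ 0) : ∃ k : ℤ, 0 ≤ k ∧ k < S.l ∧ S.pull E (k, 0) (j, y) := by
  obtain ⟨f1, f2, f3, f4, f5, f6⟩ := h.right3 hE hK hW
  rcases hj with ⟨h1, h2, h3⟩ | ⟨h1, h2, h3⟩ | ⟨h1, h2, h3⟩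
  · simp only at h1 h2 h3
    subst h1
    exact f5 j h2 h3
  · exact absurd h1 hy
  · simp only at h1 h2 h3
    subst h1
    exact f6 j h2 h3

/-- existence of blocks -/
theorem blk_ex {m n : ℕ} {E : Pt → Pt → Prop} {W B K1 : ℕ} (hE : IsTri m n E) (hK : K1 ≤ B)
    (hW : 1 ≤ W) {v d : Pt} (hv : InBlk E W B K1 v d) :
    ∃ S, IsBlk E W B K1 S ∧ v ∈ S.mid ∧ S.d = d := by
  classical
  have hlex := hv.lex
  have hd0 : d ≠ 0 := by
    rintro rfl
    rcases hlex with h | ⟨h1, h2⟩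
    · exact absurd h (by norm_num)
    · exact absurd h2 (by norm_num)
  -- the set of block positions on the row is finite
  have hfin : {k : ℤ | InBlk E W B K1 (v + k • d) d}.Finite := by
    have hinj : Function.Injective (fun k : ℤ => v + k • d) := by
      intro a b hab
      simp only [add_right_inj] at hab
      exact smul_left_injective ℤ hd0 hab
    refine Set.Finite.of_finite_image (f := fun k : ℤ => v + k • d) ?_ hinj.injOn
    refine (hE.edges_finite.image Prod.fst).subset ?_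
    rintro _ ⟨k, hk, rfl⟩
    have hk : InBlk E W B K1 (v + k • d) d := hk
    obtain ⟨q, hq⟩ := (hk.mid hK).ne
    exact ⟨(v + k • d, q), hq, rfl⟩
  obtain ⟨M, hM⟩ : ∃ M : ℤ, ∀ k : ℤ, InBlk E W B K1 (v + k • d) d → |k| ≤ M := by
    obtain ⟨b1, hb1⟩ := hfin.bddAbove
    obtain ⟨b2, hb2⟩ := hfin.bddBelow
    refine ⟨max b1 (-b2), fun k hk => ?_⟩
    have h1 := hb1 hk
    have h2 := hb2 hk
    rw [abs_le]
    constructor
    · have := le_max_right b1 (-b2)
      omega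
    · exact h1.trans (le_max_left _ _)
  have exR : ∃ b : ℕ, ¬ InBlk E W B K1 (v + ((b : ℤ) + 1) • d) d := by
    refine ⟨M.toNat, fun hcon => ?_⟩
    have := hM _ hcon
    rw [abs_le] at this
    omega
  have exL : ∃ b : ℕ, ¬ InBlk E W B K1 (v - ((b : ℤ) + 1) • d) d := by
    refine ⟨M.toNat, fun hcon => ?_⟩
    have e : v - ((M.toNat : ℤ) + 1) • d = v + (-((M.toNat : ℤ) + 1)) • d := by
      rw [neg_smul]; abel
    rw [e] at hcon
    have := hM _ hcon
    rw [abs_le] at this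
    omega
  let b := Nat.find exR
  let a := Nat.find exL
  have hb1 : ¬ InBlk E W B K1 (v + ((b : ℤ) + 1) • d) d := Nat.find_spec exR
  have ha1 : ¬ InBlk E W B K1 (v - ((a : ℤ) + 1) • d) d := Nat.find_spec exL
  have hb2 : ∀ i : ℕ, i < b → InBlk E W B K1 (v + ((i : ℤ) + 1) • d) d := by
    intro i hi
    by_contra hc
    exact Nat.find_min exR hi hc
  have ha2 : ∀ i : ℕ, i < a → InBlk E W B K1 (v - ((i : ℤ) + 1) • d) d := by
    intro i hi
    by_contra hc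
    exact Nat.find_min exL hi hc
  clear_value a b
  set o := v - (a : ℤ) • d with ho
  set l := a + b + 1 with hl
  have inb : ∀ k : ℤ, 0 ≤ k → k < l → InBlk E W B K1 (o + k • d) d := by
    intro k h0 h1
    have e : o + k • d = v + (k - a) • d := by rw [ho, sub_smul]; abel
    rw [e]
    rcases lt_trichotomy (k - a) 0 with h2 | h2 | h2
    · have := ha2 ((a : ℤ) - k - 1).toNat (by omega)
      have e2 : (((a : ℤ) - k - 1).toNat : ℤ) + 1 = -(k - a) := by omega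
      rw [e2, neg_smul, sub_neg_eq_add] at this
      exact this
    · rw [h2, zero_smul, add_zero]; exact hv
    · have := hb2 (k - a - 1).toNat (by omega)
      have e2 : ((k - a - 1).toNat : ℤ) + 1 = k - a := by omega
      rw [e2] at this
      exact this
  have nl : ¬ InBlk E W B K1 (o - d) d := by
    have e : o - d = v - ((a : ℤ) + 1) • d := by rw [ho, add_smul, one_smul]; abel
    rw [e]; exact ha1
  have nr : ¬ InBlk E W B K1 (o + (l : ℤ) • d) d := by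
    have e : o + (l : ℤ) • d = v + ((b : ℤ) + 1) • d := by
      rw [ho, hl]; push_cast; simp only [add_smul, one_smul]; abel
    rw [e]; exact hb1
  have hl1 : 1 ≤ l := by omega
  -- the two flips
  have lfl : MFlip E W B (o - d) d := by
    have h0 := inb 0 le_rfl (by omega)
    rw [zero_smul, add_zero] at h0
    rcases h0.of_next with h1 | h1
    · exact h1
    · exact absurd h1 nl
  have rfl' : MFlip E W B (o + ((l : ℤ) - 1) • d) d := by
    have h0 := inb ((l : ℤ) - 1) (by omega) (by omega)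
    rcases h0.of_prev with h1 | h1
    · exact h1
    · exfalso
      apply nr
      have e : o + ((l : ℤ) - 1) • d + d = o + (l : ℤ) • d := by
        rw [sub_smul, one_smul]; abel
      rwa [e] at h1
  obtain ⟨u0, hu0⟩ := (hv.mid hK).prim.exists_det
  -- left flip in the frame `u0`
  have hml : Mid E W (o + (-1 : ℤ) • d) d := by
    have := lfl.win 0 (by simp)
    have e : o - d + (0 : ℤ) • d = o + (-1 : ℤ) • d := by
      rw [zero_smul, neg_smul, one_smul]; abel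
    rwa [e] at this
  have hG0 := hE.cpx.pull (o := o) hu0
  obtain ⟨α, β, g1, g2, g3, g4, -, -, g7⟩ := (hml.toMid0.std hu0).right_step hG0 hW (by
    obtain ⟨q, hq⟩ := hml.ne
    refine ⟨unaff o d u0 q, ?_⟩
    rw [aff_unaff hu0, aff_row3]
    exact hq)
  have e0 : (-1 : ℤ) + 1 = 0 := by norm_num
  rw [e0] at g3 g4 g7
  rcases g7 with g7 | ⟨g7, g8⟩
  · exfalso
    apply lfl.not
    rw [aff_row3, aff_row3] at g7
    have e1 : o + (-1 : ℤ) • d = o - d := by rw [neg_smul, one_smul]; abel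
    have e2 : o + (0 : ℤ) • d = o - d + d := by rw [zero_smul]; abel
    rwa [e1, e2] at g7
  -- the new frame
  set u := u0 + α • d with hu
  have hdet : det d u = 1 := by
    rw [hu, det_add_right, det_smul_right, det_self, hu0]; ring
  have fr : ∀ x y : ℤ, aff o d u (x, y) = aff o d u0 (x + y * α, y) := by
    intro x y
    unfold aff
    simp only [hu, smul_add, add_smul, mul_smul]
    abel
  have hβ : β = -1 - α := by omega
  have k1 : E (aff o d u (0, 1)) (aff o d u (-1, -1)) := by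
    rw [fr, fr]
    have e1 : (0 : ℤ) + 1 * α = α := by ring
    have e2 : (-1 : ℤ) + -1 * α = β := by rw [hβ]; ring
    rw [e1, e2]; exact g8
  have k2 : E (aff o d u (0, 0)) (aff o d u (0, 1)) := by
    rw [fr, fr]
    have e1 : (0 : ℤ) + 1 * α = α := by ring
    have e2 : (0 : ℤ) + 0 * α = 0 := by ring
    rw [e1, e2]; exact g3
  have k3 : E (aff o d u (0, 0)) (aff o d u (-1, -1)) := by
    rw [fr, fr]
    have e1 : (-1 : ℤ) + -1 * α = β := by rw [hβ]; ring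
    have e2 : (0 : ℤ) + 0 * α = 0 := by ring
    rw [e1, e2]; exact g4
  have hG := hE.cpx.pull (o := o) hdet
  have hms : ∀ k : ℤ, 0 ≤ k → k < l →
      MidS0 (fun x y => E (aff o d u x) (aff o d u y)) W k := fun k h1 h2 =>
    ((inb k h1 h2).mid hK).toMid0.std hdet
  obtain ⟨α', β', f1, f2, f3, f4, f5, f6, f7, -⟩ := chain (l := l) hG hW hms k2 k3 l hl1 le_rfl
  rcases f7 with f7 | ⟨f7, f8⟩
  · exfalso
    apply rfl'.not
    rw [aff_row3, aff_row3] at f7
    have e2 : o + (l : ℤ) • d = o + ((l : ℤ) - 1) • d + d := by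
      rw [sub_smul, one_smul]; abel
    rwa [e2] at f7
  refine ⟨⟨o, d, u, l, α'.toNat⟩, ⟨hlex, hdet, hl1, inb, nl, nr, k1, ?_⟩, ?_, rfl⟩
  · show E (aff o d u ((α'.toNat : ℤ), 1)) (aff o d u (2 * (l : ℤ) - 1 - (α'.toNat : ℤ), -1))
    have e1 : (α'.toNat : ℤ) = α' := Int.toNat_of_nonneg f1
    have e2 : 2 * (l : ℤ) - 1 - α' = β' := by omega
    rw [e1, e2]
    exact f8
  · refine ⟨a, by omega, by show (a : ℤ) < (l : ℤ); omega, ?_⟩
    show v = o + (a : ℤ) • d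
    rw [ho]; abel

end Pool.Agent.MP01b126
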