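import Pool.Agent.Lib.MP_01b126_co.Cnt.Blk1

/-!
# MP_01b126_co, COUNTING: blocks are determined by their middle vertices, few blocks
-/

namespace Pool.Agent.MP01b126

private theorem lex_not4 {d : Pt} (h : LexPos d) (h' : LexPos (-d)) : False := by
  unfold LexPos at h h'
  simp only [Prod.fst_neg, Prod.snd_neg] at h'
  omega

private theorem lex_eq4 {d d' : Pt} (h : LexPos d) (h' : LexPos d') (he : d' = d ∨ d' = -d) :
    d' = d := by
  rcases he with he | he
  · exact he
  · exact absurd (lex_not4 h (he ▸ h')) id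

/-- two blocks with a common vertex in their rows (close to the blocks) have the same direction -/
private theorem dir_eq4 {m n : ℕ} {E : Pt → Pt → Prop} {W B K1 : ℕ} (hE : IsTri m n E)
    (hK : K1 ≤ B) (hW : 2 ≤ W) {S S' : Shp} (h : IsBlk E W B K1 S)
    (h' : IsBlk E W B K1 S') {k k' : ℤ} (h1 : -(B : ℤ) ≤ k) (h2 : k + 1 ≤ S.l - 1 + B)
    (h3 : -1 - (B : ℤ) ≤ k') (h4 : k' ≤ S'.l - 1 + B)
    (he : S.o + k • S.d = S'.o + k' • S'.d) : S'.d = S.d := by
  have m1 := h.mids hK (k := k) (by omega) (by omega)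
  have m2 := h.mids hK (k := k + 1) (by omega) (by omega)
  have m3 := h.mids hK (k := k - 1) (by omega) (by omega)
  have m4 := h'.mids hK (k := k') (by omega) (by omega)
  have e2 : S.o + (k + 1) • S.d = S.o + k • S.d + S.d := by rw [add_smul, one_smul, add_assoc]
  have e3 : S.o + (k - 1) • S.d = S.o + k • S.d - S.d := by
    rw [sub_smul, one_smul]; abel
  rw [e2] at m2
  rw [e3] at m3
  rw [← he] at m4
  exact lex_eq4 h.lex h'.lex (unique_dir hE.cpx m1 m2.toMid0 m3.toMid0 m4.toMid0 hW)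

private theorem off_eq4 {E : Pt → Pt → Prop} {W B K1 : ℕ} {S S' : Shp} (h : IsBlk E W B K1 S)
    (h' : IsBlk E W B K1 S') {k k' : ℤ} (h0 : 0 ≤ k') (h2 : k < S.l) (hd : S'.d = S.d)
    (he : S.o + k • S.d = S'.o + k' • S'.d) : k ≤ k' := by
  by_contra hc
  push Not at hc
  have := h.inb (k - k' - 1) (by omega) (by omega)
  apply h'.nl
  rw [hd] at he ⊢
  have e : S'.o - S.d = S.o + (k - k' - 1) • S.d := by
    have : S'.o = S.o + k • S.d - k' • S.d := by rw [he]; abel
    rw [this]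
    simp only [sub_smul, one_smul]
    abel
  rw [e]
  exact this

private theorem smul_inj4 {d : Pt} (hd : LexPos d) {a b : ℤ} (h : a • d = b • d) : a = b := by
  have hd0 : d ≠ 0 := by
    rintro rfl
    unfold LexPos at hd
    simp at hd
  have h1 : (a - b) • d = 0 := by rw [sub_smul, h, sub_self]
  rcases smul_eq_zero.mp h1 with h2 | h2
  · omega
  · exact absurd h2 hd0

private theorem len_le4 {E : Pt → Pt → Prop} {W B K1 : ℕ} {S S' : Shp} (h : IsBlk E W B K1 S)
    (h' : IsBlk E W B K1 S') (hd : S'.d = S.d) (ho : S'.o = S.o) : S.l ≤ S'.l := by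
  by_contra hc
  push Not at hc
  have := h.inb (S'.l : ℤ) (by omega) (by omega)
  apply h'.nr
  rw [hd, ho]
  exact this

theorem blk_uniq {m n : ℕ} {E : Pt → Pt → Prop} {W B K1 : ℕ} (hE : IsTri m n E) (hK : K1 + 2 ≤ B)
    (hW : K1 + 2 ≤ W) {S S' : Shp} (h : IsBlk E W B K1 S) (h' : IsBlk E W B K1 S') {v : Pt}
    (hv : v ∈ S.mid) (hv' : v ∈ S'.mid) : S = S' := by
  obtain ⟨k, hk0, hk1, rfl⟩ := hv
  obtain ⟨k', hk0', hk1', he⟩ := hv'
  have hd : S'.d = S.d := dir_eq4 hE (by omega) (by omega) h h' (by omega) (by omega) (by omega)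
    (by omega) he
  have hkk : k = k' := le_antisymm (off_eq4 h h' hk0' hk1 hd he)
    (off_eq4 h' h hk0 hk1' hd.symm he.symm)
  subst hkk
  have ho : S'.o = S.o := by
    rw [hd] at he
    exact (add_right_cancel he).symm
  have hl : S.l = S'.l := le_antisymm (len_le4 h h' hd ho) (len_le4 h' h hd.symm ho.symm)
  have hdet := h.det
  have hdet' := h'.det
  rw [hd] at hdet'
  -- the vector `u`
  have e1 := h.e1
  have e1' := h'.e1
  unfold Shp.pull aff at e1 e1'
  simp only [zero_smul, add_zero, one_smul, neg_smul] at e1 e1'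
  rw [hd, ho] at e1'
  have hu : S'.u = S.u := by
    rcases hE.pre.mid e1 e1' (by abel) with ⟨h3, _⟩ | ⟨h3, _⟩
    · exact add_left_cancel h3
    · exfalso
      have h4 : S'.u = - S.d - S.u := by
        have h5 : S.o + S'.u - S.o = S.o + -S.d + -S.u - S.o := by rw [h3]
        have h6 : S.o + S'.u - S.o = S'.u := by abel
        rw [← h6, h5]; abel
      rw [h4, det_sub_right, det_neg_right, det_self, hdet] at hdet'
      norm_num at hdet'
  -- the number `a`
  have e2 := h.e2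
  have e2' := h'.e2
  unfold Shp.pull aff at e2 e2'
  simp only [one_smul, neg_smul] at e2 e2'
  rw [hd, ho, hu, ← hl] at e2'
  have ha : S'.a = S.a := by
    rcases hE.pre.mid e2 e2' (by simp only [sub_smul, mul_smul, two_smul]; abel) with
      ⟨h3, _⟩ | ⟨h3, _⟩
    · have h4 : (S'.a : ℤ) • S.d = (S.a : ℤ) • S.d := add_left_cancel (add_right_cancel h3)
      have := smul_inj4 h.lex h4
      omega
    · exfalso
      have h5 : det S.d (S.o + (S'.a : ℤ) • S.d + S.u - S.o) =
          det S.d (S.o + (2 * (S.l : ℤ) - 1 - S.a) • S.d + -S.u - S.o) := by rw [h3]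
      have h6 : S.o + (S'.a : ℤ) • S.d + S.u - S.o = (S'.a : ℤ) • S.d + S.u := by abel
      have h7 : S.o + (2 * (S.l : ℤ) - 1 - S.a) • S.d + -S.u - S.o =
          (2 * (S.l : ℤ) - 1 - S.a) • S.d - S.u := by abel
      rw [h6, h7, det_add_right, det_sub_right, det_smul_right, det_smul_right, det_self,
        hdet] at h5
      norm_num at h5
  cases S
  cases S'
  simp only [Shp.mk.injEq]
  exact ⟨ho.symm, hd.symm, hu.symm, hl, ha.symm⟩

/-- a middle vertex of a block is not a wall vertex -/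
theorem blk_not_wall {m n : ℕ} {E : Pt → Pt → Prop} {W B K1 : ℕ} (hE : IsTri m n E)
    (hK : K1 + 2 ≤ B) (hW : K1 + 2 ≤ W) {S : Shp} (h : IsBlk E W B K1 S) {v w e : Pt}
    (hv : v ∈ S.mid) (hw : Mid0 E W w e) (hwv : E w v) : MP01b126.det e (v - w) = 0 := by
  by_contra hc
  obtain ⟨j, hj0, hj1, hj⟩ := h.near hv
  obtain ⟨k, hk0, hk1, rfl⟩ := hv
  exact (h.mids (by omega) (k := k) (by omega) (by omega)).toMid0.not_wall hw hwv hE.symm hc
    (by omega) (by omega) (by omega) hj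

/-- adjacent middle vertices belong to the same block -/
theorem blk_adj {m n : ℕ} {E : Pt → Pt → Prop} {W B K1 : ℕ} (hE : IsTri m n E) (hK : K1 + 2 ≤ B)
    (hW : K1 + 2 ≤ W) {S S' : Shp} (h : IsBlk E W B K1 S) (h' : IsBlk E W B K1 S') {v v' : Pt}
    (hv : v ∈ S.mid) (hv' : v' ∈ S'.mid) (hvv : E v v') : S = S' := by
  obtain ⟨k, hk0, hk1, rfl⟩ := hv
  have m1 := h.mids (by omega) (k := k) (by omega) (by omega)
  have h0 := blk_not_wall hE hK hW h' hv' m1.toMid0 hvv
  obtain ⟨t, ht1, ht2, ht⟩ : ∃ t : ℤ, k - 1 ≤ t ∧ t ≤ k + 1 ∧ v' = S.o + t • S.d := by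
    rcases m1.prim.eq_or_neg (hE.prim _ _ hvv) h0 with h1 | h1
    · refine ⟨k + 1, by omega, by omega, ?_⟩
      rw [add_smul, one_smul, ← add_assoc]
      exact sub_eq_iff_eq_add'.mp h1
    · refine ⟨k - 1, by omega, by omega, ?_⟩
      rw [sub_smul, one_smul, sub_eq_add_neg, ← add_assoc]
      exact sub_eq_iff_eq_add'.mp h1
  obtain ⟨k', hk0', hk1', hkk⟩ := hv'
  have hd : S'.d = S.d := dir_eq4 hE (by omega) (by omega) h h' (k := t) (k' := k') (by omega)
    (by omega) (by omega) (by omega) (by rw [← ht, hkk])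
  have hin := h'.inb k' hk0' hk1'
  rw [← hkk, ht, hd] at hin
  have ht0 : 0 ≤ t := by
    by_contra hc
    have : t = -1 := by omega
    apply h.nl
    rw [this, neg_smul, one_smul, ← sub_eq_add_neg] at hin
    exact hin
  have ht3 : t < S.l := by
    by_contra hc
    have : t = S.l := by omega
    apply h.nr
    rw [this] at hin
    exact hin
  exact blk_uniq hE hK hW h h' (v := v') ⟨t, ht0, ht3, ht⟩ ⟨k', hk0', hk1', hkk⟩

private theorem rect_ncard4 (m n : ℕ) :
    ({p | InR m n p} : Set Pt).Finite ∧ ({p | InR m n p} : Set Pt).ncard = (m + 1) * (n + 1) := by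
  have e : ({p | InR m n p} : Set Pt) = ((Finset.Icc (0 : ℤ) m ×ˢ Finset.Icc (0 : ℤ) n :
      Finset (ℤ × ℤ)) : Set Pt) := by
    ext ⟨x, y⟩
    simp only [Set.mem_ofPred_eq, InR, Finset.coe_product, Finset.coe_Icc, Set.mem_prod,
      Set.mem_Icc]
    tauto
  rw [e]
  refine ⟨Finset.finite_toSet _, ?_⟩
  rw [Set.ncard_coe_finset, Finset.card_product, Int.card_Icc, Int.card_Icc]
  congr 1

theorem blk_fin {m n : ℕ} {E : Pt → Pt → Prop} {W B K1 : ℕ} (hE : IsTri m n E) (hK : K1 + 2 ≤ B)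
    (hW : K1 + 2 ≤ W) : {S | IsBlk E W B K1 S}.Finite := by
  have hmid : ∀ S, IsBlk E W B K1 S → S.o ∈ S.mid := by
    intro S h
    exact ⟨0, le_refl _, by have := h.l1; omega, by rw [zero_smul, add_zero]⟩
  refine Set.Finite.of_finite_image (f := fun S : Shp => S.o) ?_ ?_
  · refine (rect_ncard4 m n).1.subset ?_
    rintro _ ⟨S, h, rfl⟩
    have h : IsBlk E W B K1 S := h
    obtain ⟨q, hq⟩ := (h.mids (k := 0) (by omega) (by omega) (by omega)).ne
    rw [zero_smul, add_zero] at hq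
    exact hE.inR _ _ hq
  · intro S h S' h' he
    simp only at he
    exact blk_uniq hE hK hW h h' (hmid S h) (he ▸ hmid S' h')

/-- few blocks -/
theorem blk_count {m n : ℕ} {E : Pt → Pt → Prop} {W B K1 : ℕ} (hE : IsTri m n E)
    (hK : K1 + 2 ≤ B) (hW : K1 + 2 ≤ W) :
    K1 * ({S | IsBlk E W B K1 S} : Set Shp).ncard ≤ (m + 1) * (n + 1) := by
  let f : Shp × ℕ → Pt := fun p => p.1.o + ((p.1.l : ℤ) + p.2) • p.1.d
  have key : ∀ S S' : Shp, IsBlk E W B K1 S → IsBlk E W B K1 S' → ∀ i i' : ℕ, i < K1 → i' < K1 →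
      f (S, i) = f (S', i') → S'.d = S.d → i < i' → False := by
    intro S S' h h' i i' hi hi' he hd hlt
    simp only [f] at he
    have r := h.rflip
    have r' := h'.rflip
    apply h'.nr
    rw [hd] at he r' ⊢
    refine ⟨0, i' - i - 1, by omega, ?_, ?_⟩
    · have e : S'.o + (S'.l : ℤ) • S.d - (((0 : ℕ) : ℤ) + 1) • S.d =
          S'.o + ((S'.l : ℤ) - 1) • S.d := by
        simp only [Nat.cast_zero, zero_add, sub_smul, one_smul]
        abel
      rw [e]
      exact r'
    · have e : S'.o + (S'.l : ℤ) • S.d + ((i' - i - 1 : ℕ) : ℤ) • S.d =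
          S.o + ((S.l : ℤ) - 1) • S.d := by
        have h1 : ((i' - i - 1 : ℕ) : ℤ) = (i' : ℤ) - i - 1 := by omega
        have h2 : S'.o = S.o + ((S.l : ℤ) + i) • S.d - ((S'.l : ℤ) + i') • S.d := by
          rw [he]; abel
        rw [h1, h2]
        simp only [sub_smul, add_smul, one_smul]
        abel
      rw [e]
      exact r
  have hinj : Set.InjOn f (({S | IsBlk E W B K1 S} : Set Shp) ×ˢ (Set.Iio K1 : Set ℕ)) := by
    rintro ⟨S, i⟩ ⟨hS, hi⟩ ⟨S', i'⟩ ⟨hS', hi'⟩ he
    simp only [Set.mem_ofPred_eq, Set.mem_Iio] at hS hi hS' hi'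
    have hd : S'.d = S.d := dir_eq4 hE (by omega) (by omega) hS hS' (k := (S.l : ℤ) + i)
      (k' := (S'.l : ℤ) + i') (by omega) (by omega) (by omega) (by omega) he
    rcases lt_trichotomy i i' with hlt | rfl | hgt
    · exact absurd (key S S' hS hS' i i' hi hi' he hd hlt) id
    · have e : S.o + ((S.l : ℤ) - 1) • S.d = S'.o + ((S'.l : ℤ) - 1) • S'.d := by
        simp only [f] at he
        rw [hd] at he ⊢
        have h2 : S'.o = S.o + ((S.l : ℤ) + i) • S.d - ((S'.l : ℤ) + i) • S.d := by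
          rw [he]; abel
        rw [h2]
        simp only [sub_smul, add_smul, one_smul]
        abel
      have hl := hS.l1
      have hl' := hS'.l1
      have := blk_uniq hE hK hW hS hS' (v := S.o + ((S.l : ℤ) - 1) • S.d)
        ⟨(S.l : ℤ) - 1, by omega, by omega, rfl⟩ ⟨(S'.l : ℤ) - 1, by omega, by omega, e⟩
      rw [this]
    · exact absurd (key S' S hS' hS i' i hi' hi he.symm hd.symm hgt) id
  have hsub : f '' (({S | IsBlk E W B K1 S} : Set Shp) ×ˢ (Set.Iio K1 : Set ℕ)) ⊆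
      {p | InR m n p} := by
    rintro _ ⟨⟨S, i⟩, ⟨hS, hi⟩, rfl⟩
    simp only [Set.mem_ofPred_eq, Set.mem_Iio] at hS hi
    obtain ⟨q, hq⟩ := (hS.mids (k := (S.l : ℤ) + i) (by omega) (by omega) (by omega)).ne
    exact hE.inR _ _ hq
  have h1 := Set.ncard_le_ncard hsub (rect_ncard4 m n).1
  rw [hinj.ncard_image, (rect_ncard4 m n).2, Set.ncard_prod] at h1
  have h2 : (Set.Iio K1 : Set ℕ).ncard = K1 := by
    rw [← Finset.coe_Iio, Set.ncard_coe_finset, Nat.card_Iio]
  rw [h2, mul_comm] at h1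
  exact h1

end Pool.Agent.MP01b126
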