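import Pool.Agent.Lib.MP_01b126_co.Cnt.CDefs
import Pool.Agent.Lib.MP_01b126_co.RareB
import Pool.Agent.Lib.MP_01b126_co.RareP

/-!
# MP_01b126_co, COUNTING, piece C3: ends of long runs and fans, hubs
-/

namespace Pool.Agent.MP01b126

variable {m n : ℕ} {E : Pt → Pt → Prop}

/-! ## positions -/

theorem pos_set (m n : ℕ) : ({s | InR2 m n s ∧ ¬ (Even s.1 ∧ Even s.2)} : Set Pt) =
    (((Finset.Icc (0 : ℤ) (2 * m) ×ˢ Finset.Icc (0 : ℤ) (2 * n)).filter
      fun s : Pt => ¬ (Even s.1 ∧ Even s.2) : Finset Pt) : Set Pt) := by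
  ext ⟨x, y⟩
  simp only [Set.mem_ofPred_eq, Finset.coe_filter, Finset.mem_product, Finset.mem_Icc, InR2]
  tauto

theorem pos_finite (m n : ℕ) :
    ({s | InR2 m n s ∧ ¬ (Even s.1 ∧ Even s.2)} : Set Pt).Finite := by
  rw [pos_set]; exact Finset.finite_toSet _

theorem npos_card (m n : ℕ) :
    ({s | InR2 m n s ∧ ¬ (Even s.1 ∧ Even s.2)} : Set Pt).ncard = npos m n := by
  rw [pos_set, Set.ncard_coe_finset, card_odd]
  rfl

theorem IsTri.pos_mem (h : IsTri m n E) {a b : Pt} (hE : E a b) :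
    a + b ∈ ({s | InR2 m n s ∧ ¬ (Even s.1 ∧ Even s.2)} : Set Pt) := by
  obtain ⟨ha1, ha1', ha2, ha2'⟩ := h.inR _ _ hE
  obtain ⟨hb1, hb1', hb2, hb2'⟩ := h.inR' hE
  have hp := (h.prim _ _ hE).not_even
  refine ⟨⟨?_, ?_, ?_, ?_⟩, ?_⟩
  · simp only [Prod.fst_add]; omega
  · simp only [Prod.fst_add]; omega
  · simp only [Prod.snd_add]; omega
  · simp only [Prod.snd_add]; omega
  · rintro ⟨⟨x, hx⟩, ⟨y, hy⟩⟩
    simp only [Prod.fst_add] at hx
    simp only [Prod.snd_add] at hy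
    exact hp ⟨⟨x - a.1, by simp only [Prod.fst_sub]; omega⟩,
      ⟨y - a.2, by simp only [Prod.snd_sub]; omega⟩⟩

/-! ## lexicographic order -/

theorem LexPos.neg_not {d : Pt} (h : LexPos d) : ¬ LexPos (-d) := by
  unfold LexPos at *
  simp only [Prod.fst_neg, Prod.snd_neg]
  omega

/-- an edge has only one lexicographically positive orientation -/
theorem IsTri.pos_orient (h : IsTri m n E) {a d a' d' : Pt} (h1 : E a (a + d))
    (h2 : E a' (a' + d')) (hd : LexPos d) (hd' : LexPos d')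
    (hs : a + (a + d) = a' + (a' + d')) : a' = a ∧ d' = d := by
  rcases h.mid_unique h1 h2 hs with ⟨e1, e2⟩ | ⟨e1, e2⟩
  · refine ⟨e1, ?_⟩
    rw [e1] at e2
    exact add_left_cancel e2
  · exfalso
    have : d' = -d := by
      rw [e1] at e2
      have : d' = (a + d + d') - (a + d) := by abel
      rw [this, e2]; abel
    rw [this] at hd'
    exact hd.neg_not hd'

/-! ## a counting principle -/

theorem mul_ncard_le {α β : Type*} {S : Set α} {T : Set β} (K : ℕ) (hT : T.Finite)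
    (f : α → ℕ → β) (hf : ∀ x ∈ S, ∀ j, j < K → f x j ∈ T)
    (hinj : ∀ x ∈ S, ∀ j, j < K → ∀ x' ∈ S, ∀ j', j' < K → f x j = f x' j' → x = x' ∧ j = j') :
    K * S.ncard ≤ T.ncard := by
  classical
  rcases Nat.eq_zero_or_pos K with rfl | hK
  · simp
  have hS : S.Finite := by
    refine Set.Finite.of_finite_image (f := fun x => f x 0) (hT.subset ?_) ?_
    · rintro _ ⟨x, hx, rfl⟩
      exact hf x hx 0 hK
    · intro x hx x' hx' he
      exact (hinj x hx 0 hK x' hx' 0 hK he).1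
  rw [Set.ncard_eq_toFinset_card _ hS, Set.ncard_eq_toFinset_card _ hT]
  have h1 : K * hS.toFinset.card = (hS.toFinset ×ˢ Finset.range K).card := by
    rw [Finset.card_product, Finset.card_range, mul_comm]
  rw [h1]
  refine Finset.card_le_card_of_injOn (fun p => f p.1 p.2) ?_ ?_
  · rintro ⟨x, j⟩ hp
    have hp' := Finset.mem_coe.mp hp
    rw [Finset.mem_product, Set.Finite.mem_toFinset, Finset.mem_range] at hp'
    rw [Finset.mem_coe, Set.Finite.mem_toFinset]
    exact hf x hp'.1 j hp'.2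
  · rintro ⟨x, j⟩ hp ⟨x', j'⟩ hp' he
    have hp1 := Finset.mem_coe.mp hp
    have hp2 := Finset.mem_coe.mp hp'
    rw [Finset.mem_product, Set.Finite.mem_toFinset, Finset.mem_range] at hp1 hp2
    obtain ⟨h1, h2⟩ := hinj x hp1.1 j hp1.2 x' hp2.1 j' hp2.2 he
    exact Prod.ext h1 h2

/-! ## runs -/

private theorem shift1 (x d : Pt) (j : ℤ) : x + (j + 1) • d = (x + j • d) + d := by
  rw [add_smul, one_smul, add_assoc]

private theorem shift_eq {x x' d : Pt} {j j' : ℤ} (he : x' + j' • d = x + j • d) :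
    x = x' + (j' - j) • d := by
  have : x = (x + j • d) - j • d := by abel
  rw [this, ← he, sub_smul]; abel

theorem run_ends (h : IsTri m n E) (K : ℕ) :
    K * ({x | LexPos x.2 ∧
      (∀ j : ℕ, j < K → E (x.1 + (j : ℤ) • x.2) (x.1 + ((j : ℤ) + 1) • x.2)) ∧
      ¬ E (x.1 - x.2) x.1} : Set (Pt × Pt)).ncard ≤ npos m n := by
  rw [← npos_card]
  refine mul_ncard_le K (pos_finite m n)
    (fun x j => (x.1 + (j : ℤ) • x.2) + (x.1 + ((j : ℤ) + 1) • x.2)) ?_ ?_
  · rintro x ⟨-, h2, -⟩ j hj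
    exact h.pos_mem (h2 j hj)
  · have key : ∀ x ∈ ({x | LexPos x.2 ∧
        (∀ j : ℕ, j < K → E (x.1 + (j : ℤ) • x.2) (x.1 + ((j : ℤ) + 1) • x.2)) ∧
        ¬ E (x.1 - x.2) x.1} : Set (Pt × Pt)), ∀ j, j < K → ∀ x' ∈ ({x | LexPos x.2 ∧
        (∀ j : ℕ, j < K → E (x.1 + (j : ℤ) • x.2) (x.1 + ((j : ℤ) + 1) • x.2)) ∧
        ¬ E (x.1 - x.2) x.1} : Set (Pt × Pt)), ∀ j', j' < K → x.2 = x'.2 →
        x'.1 + (j' : ℤ) • x.2 = x.1 + (j : ℤ) • x.2 → ¬ j < j' := by
      rintro x ⟨-, -, h3⟩ j hj x' ⟨-, h2', -⟩ j' hj' he hs hlt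
      have e1 := shift_eq hs
      apply h3
      have h4 := h2' (j' - j - 1) (by omega)
      rw [← he] at h4
      have e2 : ((j' - j - 1 : ℕ) : ℤ) = (j' : ℤ) - j - 1 := by omega
      rw [e2] at h4
      have e3 : x.1 - x.2 = x'.1 + ((j' : ℤ) - j - 1) • x.2 := by
        rw [e1]
        simp only [sub_smul, one_smul]; abel
      have e4 : x'.1 + ((j' : ℤ) - j - 1 + 1) • x.2 = x.1 := by
        rw [sub_add_cancel]; exact e1.symm
      rw [e3]
      rw [e4] at h4
      exact h4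
    rintro x hx j hj x' hx' j' hj' he
    simp only [shift1] at he
    have hx1 := hx.2.1 j hj
    have hx2 := hx'.2.1 j' hj'
    rw [shift1] at hx1 hx2
    obtain ⟨e1, e2⟩ := h.pos_orient hx1 hx2 hx.1 hx'.1 he
    rw [e2] at e1
    have a1 := key x hx j hj x' hx' j' hj' e2.symm e1
    have a2 := key x' hx' j' hj' x hx j hj e2 (by rw [e2]; exact e1.symm)
    have hjj : j = j' := by omega
    subst hjj
    exact ⟨Prod.ext (add_right_cancel e1).symm e2.symm, rfl⟩

theorem run_ends' (h : IsTri m n E) (K : ℕ) :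
    K * ({x | LexPos x.2 ∧
      (∀ j : ℕ, j < K → E (x.1 + (j : ℤ) • x.2) (x.1 + ((j : ℤ) + 1) • x.2)) ∧
      ¬ E (x.1 + (K : ℤ) • x.2) (x.1 + ((K : ℤ) + 1) • x.2)} : Set (Pt × Pt)).ncard
      ≤ npos m n := by
  rw [← npos_card]
  refine mul_ncard_le K (pos_finite m n)
    (fun x j => (x.1 + (j : ℤ) • x.2) + (x.1 + ((j : ℤ) + 1) • x.2)) ?_ ?_
  · rintro x ⟨-, h2, -⟩ j hj
    exact h.pos_mem (h2 j hj)
  · have key : ∀ x ∈ ({x | LexPos x.2 ∧
        (∀ j : ℕ, j < K → E (x.1 + (j : ℤ) • x.2) (x.1 + ((j : ℤ) + 1) • x.2)) ∧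
        ¬ E (x.1 + (K : ℤ) • x.2) (x.1 + ((K : ℤ) + 1) • x.2)} : Set (Pt × Pt)),
        ∀ j, j < K → ∀ x' ∈ ({x | LexPos x.2 ∧
        (∀ j : ℕ, j < K → E (x.1 + (j : ℤ) • x.2) (x.1 + ((j : ℤ) + 1) • x.2)) ∧
        ¬ E (x.1 + (K : ℤ) • x.2) (x.1 + ((K : ℤ) + 1) • x.2)} : Set (Pt × Pt)),
        ∀ j', j' < K → x.2 = x'.2 →
        x'.1 + (j' : ℤ) • x.2 = x.1 + (j : ℤ) • x.2 → ¬ j' < j := by
      rintro x ⟨-, h2, h3⟩ j hj x' ⟨-, h2', h3'⟩ j' hj' he hs hlt
      have e1 := shift_eq hs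
      apply h3
      have h4 := h2' (K - (j - j')) (by omega)
      have e2 : ((K - (j - j') : ℕ) : ℤ) = (K : ℤ) - (j - j') := by omega
      rw [e2, ← he] at h4
      have e3 : x.1 + (K : ℤ) • x.2 = x'.1 + ((K : ℤ) - (j - j')) • x.2 := by
        rw [e1, add_assoc, ← add_smul]
        congr 2
        ring
      have e4 : x.1 + ((K : ℤ) + 1) • x.2 = x'.1 + ((K : ℤ) - (j - j') + 1) • x.2 := by
        rw [shift1, e3, shift1]
      rw [e3, e4]
      exact h4
    rintro x hx j hj x' hx' j' hj' he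
    simp only [shift1] at he
    have hx1 := hx.2.1 j hj
    have hx2 := hx'.2.1 j' hj'
    rw [shift1] at hx1 hx2
    obtain ⟨e1, e2⟩ := h.pos_orient hx1 hx2 hx.1 hx'.1 he
    rw [e2] at e1
    have a1 := key x hx j hj x' hx' j' hj' e2.symm e1
    have a2 := key x' hx' j' hj' x hx j hj e2 (by rw [e2]; exact e1.symm)
    have hjj : j = j' := by omega
    subst hjj
    exact ⟨Prod.ext (add_right_cancel e1).symm e2.symm, rfl⟩

/-! ## unimodular pairs of neighbours -/

/-- pairs of neighbours at a common vertex spanning a unimodular triangle, ordered -/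
def UP (E : Pt → Pt → Prop) : Set (Pt × Pt × Pt) :=
  {x | E x.1 x.2.1 ∧ E x.1 x.2.2 ∧ |det (x.2.1 - x.1) (x.2.2 - x.1)| = 1 ∧
    LexPos (x.2.2 - x.2.1)}

theorem UP_finite (h : IsTri m n E) : (UP E).Finite := by
  refine ((rectE_finite m n).prod ((rectE_finite m n).prod (rectE_finite m n))).subset ?_
  rintro ⟨y, a, b⟩ ⟨h1, h2, -, -⟩
  exact ⟨h.inR _ _ h1, h.inR' h1, h.inR' h2⟩

theorem pairs_lex_le (A : Finset Pt) (hA : ∀ w ∈ A, Prim w)
    [DecidablePred fun p : Pt × Pt => |det p.1 p.2| = 1 ∧ LexPos (p.2 - p.1)] :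
    ((A ×ˢ A).filter (fun p => |det p.1 p.2| = 1 ∧ LexPos (p.2 - p.1))).card ≤ 6 * A.card := by
  classical
  have h1 := pairs_le A hA
  set T := (A ×ˢ A).filter (fun p => |det p.1 p.2| = 1 ∧ LexPos (p.2 - p.1)) with hT
  have h2 : Disjoint T (T.image Prod.swap) := by
    rw [Finset.disjoint_left]
    intro p hp hp'
    rw [Finset.mem_image] at hp'
    obtain ⟨q, hq, rfl⟩ := hp'
    rw [hT, Finset.mem_filter] at hp hq
    have := hp.2.2
    simp only [Prod.fst_swap, Prod.snd_swap] at this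
    refine hq.2.2.neg_not ?_
    rw [neg_sub]
    exact this
  have h3 : T ∪ T.image Prod.swap ⊆ (A ×ˢ A).filter (fun p => |det p.1 p.2| = 1) := by
    intro p hp
    rw [Finset.mem_union, Finset.mem_image] at hp
    rcases hp with hp | ⟨q, hq, rfl⟩
    · rw [hT, Finset.mem_filter] at hp
      rw [Finset.mem_filter]
      exact ⟨hp.1, hp.2.1⟩
    · rw [hT, Finset.mem_filter, Finset.mem_product] at hq
      rw [Finset.mem_filter, Finset.mem_product]
      refine ⟨⟨hq.1.2, hq.1.1⟩, ?_⟩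
      simp only [Prod.fst_swap, Prod.snd_swap]
      rw [det_swap, abs_neg]
      exact hq.2.1
  have h4 := Finset.card_le_card h3
  rw [Finset.card_union_of_disjoint h2, Finset.card_image_of_injective _ Prod.swap_injective] at h4
  omega

theorem UP_card (h : IsTri m n E) : (UP E).ncard ≤ 12 * npos m n := by
  classical
  have hfin := DE_finite h
  have hfin' := UP_finite h
  have hDE : (DE E).ncard = 2 * npos m n := card_DE h
  have : (UP E).ncard ≤ 6 * (DE E).ncard := by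
    rw [Set.ncard_eq_toFinset_card _ hfin, Set.ncard_eq_toFinset_card _ hfin']
    set F := hfin.toFinset with hF
    set G := hfin'.toFinset with hG
    set R := F.image Prod.fst with hR
    have h1 : F.card = ∑ y ∈ R, (F.filter (fun e => e.1 = y)).card :=
      Finset.card_eq_sum_card_fiberwise (fun e he => Finset.mem_image_of_mem _ he)
    have h2 : G.card = ∑ y ∈ R, (G.filter (fun e => e.1 = y)).card := by
      refine Finset.card_eq_sum_card_fiberwise (fun e he => ?_)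
      have he' : e ∈ G := he
      rw [hG, Set.Finite.mem_toFinset] at he'
      have : (e.1, e.2.1) ∈ F := by
        rw [hF, Set.Finite.mem_toFinset]
        exact he'.1
      exact Finset.mem_image_of_mem Prod.fst this
    rw [h1, h2, Finset.mul_sum]
    refine Finset.sum_le_sum fun y _ => ?_
    set A := (F.filter (fun e => e.1 = y)).image (fun e => e.2 - y) with hA
    have hAc : A.card = (F.filter (fun e => e.1 = y)).card := by
      refine Finset.card_image_of_injOn ?_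
      intro e he e' he' hee
      have h3 := (Finset.mem_filter.mp (Finset.mem_coe.mp he)).2
      have h4 := (Finset.mem_filter.mp (Finset.mem_coe.mp he')).2
      exact Prod.ext (h3.trans h4.symm) (sub_left_injective hee)
    have hmemA : ∀ w, w ∈ A ↔ E y (y + w) := by
      intro w
      rw [hA, Finset.mem_image]
      constructor
      · rintro ⟨e, he, rfl⟩
        rw [Finset.mem_filter, hF, Set.Finite.mem_toFinset] at he
        obtain ⟨he1, he2⟩ := he
        have : y + (e.2 - y) = e.2 := by abel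
        rw [this, ← he2]
        exact he1
      · intro hw
        refine ⟨(y, y + w), ?_, by simp⟩
        rw [Finset.mem_filter, hF, Set.Finite.mem_toFinset]
        exact ⟨hw, rfl⟩
    have hAprim : ∀ w ∈ A, Prim w := by
      intro w hw
      have := h.prim _ _ ((hmemA w).mp hw)
      simpa using this
    rw [← hAc]
    refine le_trans ?_ (pairs_lex_le A hAprim)
    refine Finset.card_le_card_of_injOn (fun e => (e.2.1 - y, e.2.2 - y)) ?_ ?_
    · intro e he
      obtain ⟨he1, he2⟩ := Finset.mem_filter.mp (Finset.mem_coe.mp he)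
      rw [hG, Set.Finite.mem_toFinset] at he1
      obtain ⟨g1, g2, g3, g4⟩ := he1
      rw [he2] at g1 g2 g3
      rw [Finset.mem_coe, Finset.mem_filter, Finset.mem_product]
      refine ⟨⟨(hmemA _).mpr ?_, (hmemA _).mpr ?_⟩, g3, ?_⟩
      · have : y + (e.2.1 - y) = e.2.1 := by abel
        rw [this]; exact g1
      · have : y + (e.2.2 - y) = e.2.2 := by abel
        rw [this]; exact g2
      · have : (e.2.1 - y, e.2.2 - y).2 - (e.2.1 - y, e.2.2 - y).1 = e.2.2 - e.2.1 := by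
          simp only; abel
        rw [this]; exact g4
    · intro e he e' he' hee
      have h3 := (Finset.mem_filter.mp (Finset.mem_coe.mp he)).2
      have h4 := (Finset.mem_filter.mp (Finset.mem_coe.mp he')).2
      simp only [Prod.mk.injEq, sub_left_inj] at hee
      exact Prod.ext (h3.trans h4.symm) (Prod.ext hee.1 hee.2)
  omega

/-! ## fans -/

private theorem det_fan {h v d : Pt} (j : ℤ)
    (hd : det d (v - h) = 1 ∨ det d (v - h) = -1) :
    |det (v + j • d - h) (v + (j + 1) • d - h)| = 1 := by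
  have e : det (v + j • d - h) (v + (j + 1) • d - h) = - det d (v - h) := by
    simp only [det, Prod.fst_sub, Prod.snd_sub, Prod.fst_add, Prod.snd_add, Prod.smul_fst,
      Prod.smul_snd, smul_eq_mul]
    ring
  rw [e]
  rcases hd with h1 | h1 <;> rw [h1] <;> simp

theorem fan_pair {K : ℕ} {x : Pt × Pt × Pt} (h1 : LexPos x.2.2)
    (h2 : det x.2.2 (x.2.1 - x.1) = 1 ∨ det x.2.2 (x.2.1 - x.1) = -1)
    (h3 : ∀ j : ℕ, j ≤ K → E x.1 (x.2.1 + (j : ℤ) • x.2.2)) {j : ℕ} (hj : j < K) :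
    (x.1, x.2.1 + (j : ℤ) • x.2.2, x.2.1 + ((j : ℤ) + 1) • x.2.2) ∈ UP E := by
  refine ⟨h3 j hj.le, ?_, det_fan _ h2, ?_⟩
  · have := h3 (j + 1) hj
    push_cast at this
    exact this
  · have : (x.1, x.2.1 + (j : ℤ) • x.2.2, x.2.1 + ((j : ℤ) + 1) • x.2.2).2.2 -
        (x.1, x.2.1 + (j : ℤ) • x.2.2, x.2.1 + ((j : ℤ) + 1) • x.2.2).2.1 = x.2.2 := by
      simp only [shift1]; abel
    rw [this]; exact h1

theorem fan_ends (h : IsTri m n E) (K : ℕ) :
    K * ({x | LexPos x.2.2 ∧ (det x.2.2 (x.2.1 - x.1) = 1 ∨ det x.2.2 (x.2.1 - x.1) = -1) ∧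
      (∀ j : ℕ, j ≤ K → E x.1 (x.2.1 + (j : ℤ) • x.2.2)) ∧
      ¬ E x.1 (x.2.1 - x.2.2)} : Set (Pt × Pt × Pt)).ncard ≤ 12 * npos m n := by
  refine le_trans ?_ (UP_card h)
  refine mul_ncard_le K (UP_finite h)
    (fun x j => (x.1, x.2.1 + (j : ℤ) • x.2.2, x.2.1 + ((j : ℤ) + 1) • x.2.2)) ?_ ?_
  · rintro x ⟨h1, h2, h3, -⟩ j hj
    exact fan_pair h1 h2 h3 hj
  · have key : ∀ x ∈ ({x | LexPos x.2.2 ∧ (det x.2.2 (x.2.1 - x.1) = 1 ∨
        det x.2.2 (x.2.1 - x.1) = -1) ∧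
        (∀ j : ℕ, j ≤ K → E x.1 (x.2.1 + (j : ℤ) • x.2.2)) ∧
        ¬ E x.1 (x.2.1 - x.2.2)} : Set (Pt × Pt × Pt)), ∀ j, j < K →
        ∀ x' ∈ ({x | LexPos x.2.2 ∧ (det x.2.2 (x.2.1 - x.1) = 1 ∨
        det x.2.2 (x.2.1 - x.1) = -1) ∧
        (∀ j : ℕ, j ≤ K → E x.1 (x.2.1 + (j : ℤ) • x.2.2)) ∧
        ¬ E x.1 (x.2.1 - x.2.2)} : Set (Pt × Pt × Pt)), ∀ j', j' < K → x.1 = x'.1 →
        x.2.2 = x'.2.2 →
        x'.2.1 + (j' : ℤ) • x.2.2 = x.2.1 + (j : ℤ) • x.2.2 → ¬ j < j' := by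
      rintro x ⟨-, -, -, h3⟩ j hj x' ⟨-, -, h2', -⟩ j' hj' he0 he hs hlt
      have e1 := shift_eq hs
      apply h3
      have h4 := h2' (j' - j - 1) (by omega)
      rw [← he, ← he0] at h4
      have e2 : ((j' - j - 1 : ℕ) : ℤ) = (j' : ℤ) - j - 1 := by omega
      rw [e2] at h4
      have e3 : x.2.1 - x.2.2 = x'.2.1 + ((j' : ℤ) - j - 1) • x.2.2 := by
        rw [e1]
        simp only [sub_smul, one_smul]; abel
      rw [e3]
      exact h4
    rintro x hx j hj x' hx' j' hj' he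
    simp only [shift1, Prod.mk.injEq] at he
    obtain ⟨e0, e1, e2⟩ := he
    rw [e1] at e2
    have e3 := add_left_cancel e2
    rw [← e3] at e1
    have a1 := key x hx j hj x' hx' j' hj' e0 e3 e1.symm
    have a2 := key x' hx' j' hj' x hx j hj e0.symm e3.symm (by rw [← e3]; exact e1)
    have hjj : j = j' := by omega
    subst hjj
    exact ⟨Prod.ext e0 (Prod.ext (add_right_cancel e1) e3), rfl⟩

theorem fan_ends' (h : IsTri m n E) (K : ℕ) :
    K * ({x | LexPos x.2.2 ∧ (det x.2.2 (x.2.1 - x.1) = 1 ∨ det x.2.2 (x.2.1 - x.1) = -1) ∧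
      (∀ j : ℕ, j ≤ K → E x.1 (x.2.1 + (j : ℤ) • x.2.2)) ∧
      ¬ E x.1 (x.2.1 + ((K : ℤ) + 1) • x.2.2)} : Set (Pt × Pt × Pt)).ncard
      ≤ 12 * npos m n := by
  refine le_trans ?_ (UP_card h)
  refine mul_ncard_le K (UP_finite h)
    (fun x j => (x.1, x.2.1 + (j : ℤ) • x.2.2, x.2.1 + ((j : ℤ) + 1) • x.2.2)) ?_ ?_
  · rintro x ⟨h1, h2, h3, -⟩ j hj
    exact fan_pair h1 h2 h3 hj
  · have key : ∀ x ∈ ({x | LexPos x.2.2 ∧ (det x.2.2 (x.2.1 - x.1) = 1 ∨
        det x.2.2 (x.2.1 - x.1) = -1) ∧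
        (∀ j : ℕ, j ≤ K → E x.1 (x.2.1 + (j : ℤ) • x.2.2)) ∧
        ¬ E x.1 (x.2.1 + ((K : ℤ) + 1) • x.2.2)} : Set (Pt × Pt × Pt)), ∀ j, j < K →
        ∀ x' ∈ ({x | LexPos x.2.2 ∧ (det x.2.2 (x.2.1 - x.1) = 1 ∨
        det x.2.2 (x.2.1 - x.1) = -1) ∧
        (∀ j : ℕ, j ≤ K → E x.1 (x.2.1 + (j : ℤ) • x.2.2)) ∧
        ¬ E x.1 (x.2.1 + ((K : ℤ) + 1) • x.2.2)} : Set (Pt × Pt × Pt)), ∀ j', j' < K →
        x.1 = x'.1 → x.2.2 = x'.2.2 →
        x'.2.1 + (j' : ℤ) • x.2.2 = x.2.1 + (j : ℤ) • x.2.2 → ¬ j' < j := by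
      rintro x ⟨-, -, -, h3⟩ j hj x' ⟨-, -, h2', -⟩ j' hj' he0 he hs hlt
      have e1 := shift_eq hs
      apply h3
      have h4 := h2' (K + 1 - (j - j')) (by omega)
      rw [← he, ← he0] at h4
      have e2 : ((K + 1 - (j - j') : ℕ) : ℤ) = (K : ℤ) + 1 - (j - j') := by omega
      rw [e2] at h4
      have e3 : x.2.1 + ((K : ℤ) + 1) • x.2.2 = x'.2.1 + ((K : ℤ) + 1 - (j - j')) • x.2.2 := by
        rw [e1, add_assoc, ← add_smul]
        congr 2
        ring
      rw [e3]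
      exact h4
    rintro x hx j hj x' hx' j' hj' he
    simp only [shift1, Prod.mk.injEq] at he
    obtain ⟨e0, e1, e2⟩ := he
    rw [e1] at e2
    have e3 := add_left_cancel e2
    rw [← e3] at e1
    have a1 := key x hx j hj x' hx' j' hj' e0 e3 e1.symm
    have a2 := key x' hx' j' hj' x hx j hj e0.symm e3.symm (by rw [← e3]; exact e1)
    have hjj : j = j' := by omega
    subst hjj
    exact ⟨Prod.ext e0 (Prod.ext (add_right_cancel e1) e3), rfl⟩

/-! ## hubs -/

theorem hub_count (h : IsTri m n E) (L : ℕ) :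
    L * ({v | L ≤ deg E v} : Set Pt).ncard ≤ 2 * npos m n := by
  classical
  rcases Nat.eq_zero_or_pos L with rfl | hL
  · simp
  have hfin := DE_finite h
  have hDE : (DE E).ncard = 2 * npos m n := card_DE h
  rw [← hDE]
  have hnf : ∀ v, {w | E v w}.Finite := fun v =>
    (rectE_finite m n).subset fun w hw => h.inR' hw
  have hHf : ({v | L ≤ deg E v} : Set Pt).Finite := by
    refine (rectE_finite m n).subset fun v hv => ?_
    have h1 : 0 < deg E v := lt_of_lt_of_le hL hv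
    obtain ⟨w, hw⟩ := Set.nonempty_of_ncard_ne_zero (s := {w | E v w}) (by
      unfold deg at h1; omega)
    exact h.inR _ _ hw
  rw [Set.ncard_eq_toFinset_card _ hfin, Set.ncard_eq_toFinset_card _ hHf]
  set H := hHf.toFinset with hH
  set F := hfin.toFinset with hF
  have h1 : ∀ v ∈ H, L ≤ (F.filter (fun e => e.1 = v)).card := by
    intro v hv
    rw [hH, Set.Finite.mem_toFinset] at hv
    have hv' : L ≤ deg E v := hv
    refine hv'.trans ?_
    unfold deg
    rw [Set.ncard_eq_toFinset_card _ (hnf v)]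
    refine Finset.card_le_card_of_injOn (fun w => (v, w)) ?_ ?_
    · intro w hw
      have hw' := (hnf v).mem_toFinset.mp (Finset.mem_coe.mp hw)
      rw [Finset.mem_coe, Finset.mem_filter, hF, Set.Finite.mem_toFinset]
      exact ⟨hw', rfl⟩
    · intro w _ w' _ he
      exact (Prod.mk.inj he).2
  have h2 : H.card * L ≤ ∑ v ∈ H, (F.filter (fun e => e.1 = v)).card := by
    have := Finset.card_nsmul_le_sum H _ L h1
    rwa [smul_eq_mul] at this
  rw [mul_comm]
  refine h2.trans ?_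
  rw [← Finset.card_biUnion]
  · refine Finset.card_le_card ?_
    intro e he
    rw [Finset.mem_biUnion] at he
    obtain ⟨v, -, hv⟩ := he
    exact (Finset.mem_filter.mp hv).1
  · intro v _ v' _ hne
    rw [Function.onFun, Finset.disjoint_left]
    intro e he he'
    exact hne ((Finset.mem_filter.mp he).2.symm.trans (Finset.mem_filter.mp he').2)

end Pool.Agent.MP01b126
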