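import Pool.Agent.Lib.MP_01b126_co.Cnt.GDefs
import Pool.Agent.Lib.MP_01b126_co.Cone
import Pool.Agent.Lib.MP_01b126_co.Apex
import Pool.Agent.Lib.MP_01b126_co.Cnt.Ends

/-!
# MP_01b126_co, COUNTING, piece G6: the shapes of a family use six positions per middle vertex
-/

namespace Pool.Agent.MP01b126

/-! ## positions of one shape -/

/-- all lattice points of a shape are in the rectangle -/
theorem shape_inR {m n : ℕ} {E : Pt → Pt → Prop} {o d u : Pt} {l a : ℕ}
    (h : IsTri m n E) (hd : det d u = 1)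
    (hb : BdS l a (fun x y => E (aff o d u x) (aff o d u y))) {z : Pt} (hz : InS l a z) :
    InR m n (aff o d u z) := by
  have hP : Pre (fun x y => E (aff o d u x) (aff o d u y)) := h.pre.pull hd
  have wallR : ∀ z, InS l a z → z.2 ≠ 0 → InR m n (aff o d u z) := by
    intro z hz hz2
    obtain ⟨w, hw⟩ := hb.walls hP hz hz2
    exact h.inR _ _ hw
  by_cases hz2 : z.2 = 0
  · obtain ⟨k, z2⟩ := z
    simp only at hz2
    subst hz2
    unfold InS at hz
    simp only at hz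
    have hk : 0 ≤ k ∧ k < l := by omega
    have hha := hb.ha
    obtain ⟨j, hj0, hja, hj1, hj2⟩ : ∃ j : ℤ, 0 ≤ j ∧ j ≤ a ∧ -1 ≤ 2 * k - j ∧
        2 * k - j ≤ 2 * l - 1 - a := by
      by_cases hc : 2 * k ≤ 2 * (l : ℤ) - 1 - a
      · exact ⟨0, le_refl _, by positivity, by omega, by omega⟩
      · exact ⟨2 * k - (2 * l - 1 - a), by omega, by omega, by omega, by omega⟩
    have r1 := wallR (j, 1) (Or.inl ⟨rfl, hj0, hja⟩) (by simp)
    have r2 := wallR (2 * k - j, -1) (Or.inr (Or.inr ⟨rfl, hj1, hj2⟩)) (by simp)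
    have e1 : (aff o d u (j, 1)).1 + (aff o d u (2 * k - j, -1)).1 =
        2 * (aff o d u (k, 0)).1 := by
      simp only [aff, Prod.fst_add, Prod.smul_fst, smul_eq_mul]; ring
    have e2 : (aff o d u (j, 1)).2 + (aff o d u (2 * k - j, -1)).2 =
        2 * (aff o d u (k, 0)).2 := by
      simp only [aff, Prod.snd_add, Prod.smul_snd, smul_eq_mul]; ring
    obtain ⟨a1, a2, a3, a4⟩ := r1
    obtain ⟨b1, b2, b3, b4⟩ := r2
    refine ⟨by omega, by omega, by omega, by omega⟩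
  · exact wallR z hz hz2

/-- an interior position is the sum of two points of the shape -/
theorem posS_split {l a : ℕ} (hl : 1 ≤ l) (ha : a ≤ 2 * l) {s : Pt} (hs : PosS l a s) :
    ∃ x y, InS l a x ∧ InS l a y ∧ x + y = s := by
  obtain ⟨t, r⟩ := s
  unfold PosS at hs
  simp only at hs
  rcases hs with ⟨rfl, ⟨k, rfl⟩, h1, h2⟩ | ⟨rfl, h1, h2⟩ | ⟨rfl, h1, h2⟩
  · refine ⟨(k, 0), (k + 1, 0), Or.inr (Or.inl ⟨rfl, ?_, ?_⟩), Or.inr (Or.inl ⟨rfl, ?_, ?_⟩), ?_⟩
    · show 0 ≤ k; omega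
    · show k < l; omega
    · show 0 ≤ k + 1; omega
    · show k + 1 < l; omega
    · ext
      · show k + (k + 1) = 2 * k + 1; ring
      · rfl
  · by_cases hc : t ≤ a
    · refine ⟨(0, 0), (t, 1), Or.inr (Or.inl ⟨rfl, le_refl _, ?_⟩), Or.inl ⟨rfl, h1, hc⟩, ?_⟩
      · show (0 : ℤ) < l; omega
      · ext <;> simp
    · refine ⟨(t - a, 0), ((a : ℤ), 1), Or.inr (Or.inl ⟨rfl, ?_, ?_⟩), Or.inl ⟨rfl, ?_, ?_⟩, ?_⟩
      · show 0 ≤ t - a; omega
      · show t - a < l; omega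
      · show (0 : ℤ) ≤ a; omega
      · show (a : ℤ) ≤ a; omega
      · ext <;> simp
  · by_cases hc : t ≤ 2 * l - 1 - a
    · refine ⟨(0, 0), (t, -1), Or.inr (Or.inl ⟨rfl, le_refl _, ?_⟩),
        Or.inr (Or.inr ⟨rfl, h1, hc⟩), ?_⟩
      · show (0 : ℤ) < l; omega
      · ext <;> simp
    · refine ⟨(t - (2 * l - 1 - a), 0), (2 * (l : ℤ) - 1 - a, -1), Or.inr (Or.inl ⟨rfl, ?_, ?_⟩),
        Or.inr (Or.inr ⟨rfl, ?_, ?_⟩), ?_⟩
      · show 0 ≤ t - (2 * l - 1 - a); omega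
      · show t - (2 * l - 1 - a) < l; omega
      · show -1 ≤ 2 * (l : ℤ) - 1 - a; omega
      · show 2 * (l : ℤ) - 1 - a ≤ 2 * l - 1 - a; omega
      · ext <;> simp

/-- absolute position -/
def Shp.phi (S : Shp) (s : Pt) : Pt := S.o + S.o + s.1 • S.d + s.2 • S.u

theorem Shp.phi_inj {S : Shp} (hd : det S.d S.u = 1) : Function.Injective S.phi :=
  fun _ _ h => aff_inj (o := S.o + S.o) hd h

theorem Shp.phi_add (S : Shp) (x y : Pt) :
    S.phi (x + y) = aff S.o S.d S.u x + aff S.o S.d S.u y := aff_add.symm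

theorem Shp.phi_odd {S : Shp} (hd : det S.d S.u = 1) {s : Pt} (hs : ¬ (Even s.1 ∧ Even s.2)) :
    ¬ (Even (S.phi s).1 ∧ Even (S.phi s).2) := by
  rintro ⟨⟨i, hi⟩, ⟨j, hj⟩⟩
  have e : unaff (S.o + S.o) S.d S.u (S.phi s) = s := unaff_aff (o := S.o + S.o) hd s
  apply hs
  rw [← e]
  unfold unaff det
  simp only [Prod.fst_sub, Prod.snd_sub, Prod.fst_add, Prod.snd_add, hi, hj]
  refine ⟨⟨(i - S.o.1) * S.u.2 - (j - S.o.2) * S.u.1, by ring⟩,
    ⟨S.d.1 * (j - S.o.2) - S.d.2 * (i - S.o.1), by ring⟩⟩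

theorem Shp.phi_pos {m n : ℕ} {E : Pt → Pt → Prop} {S : Shp} (h : IsTri m n E)
    (hd : det S.d S.u = 1) (hb : BdS S.l S.a (S.pull E)) {s : Pt} (hs : PosS S.l S.a s) :
    S.phi s ∈ ({s | InR2 m n s ∧ ¬ (Even s.1 ∧ Even s.2)} : Set Pt) := by
  refine ⟨?_, ?_⟩
  · obtain ⟨x, y, hx, hy, rfl⟩ := posS_split hb.hl hb.ha hs
    rw [S.phi_add]
    obtain ⟨a1, a2, a3, a4⟩ := shape_inR h hd hb hx
    obtain ⟨b1, b2, b3, b4⟩ := shape_inR h hd hb hy
    refine ⟨?_, ?_, ?_, ?_⟩ <;> simp only [Prod.fst_add, Prod.snd_add] <;> omega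
  · apply Shp.phi_odd hd
    rintro ⟨h1, h2⟩
    rcases hs with ⟨-, h3, -⟩ | ⟨h3, -⟩ | ⟨h3, -⟩
    · exact Int.not_even_iff_odd.mpr h3 h1
    · rw [h3] at h2; exact absurd h2 (by decide)
    · rw [h3] at h2; exact absurd h2 (by decide)

/-! ## the three finite sets of positions -/

/-- interior positions of a shape -/
noncomputable def posF (l a : ℕ) : Finset Pt :=
  ((Finset.Ico (0 : ℤ) (l - 1)).image fun k => ((2 * k + 1, 0) : Pt)) ∪
    (((Finset.Icc (0 : ℤ) (l - 1 + a)).image fun t => ((t, 1) : Pt)) ∪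
      ((Finset.Icc (-1 : ℤ) (3 * l - 2 - a)).image fun t => ((t, -1) : Pt)))

theorem mem_posF {l a : ℕ} {s : Pt} : s ∈ posF l a ↔ PosS l a s := by
  obtain ⟨t, r⟩ := s
  unfold posF PosS
  simp only [Finset.mem_union, Finset.mem_image, Finset.mem_Ico, Finset.mem_Icc, Prod.mk.injEq]
  constructor
  · rintro (⟨k, ⟨h1, h2⟩, rfl, rfl⟩ | ⟨k, ⟨h1, h2⟩, rfl, rfl⟩ | ⟨k, ⟨h1, h2⟩, rfl, rfl⟩)
    · left; exact ⟨rfl, ⟨k, rfl⟩, by omega, by omega⟩
    · right; left; exact ⟨rfl, h1, h2⟩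
    · right; right; exact ⟨rfl, h1, h2⟩
  · rintro (⟨rfl, ⟨k, rfl⟩, h1, h2⟩ | ⟨rfl, h1, h2⟩ | ⟨rfl, h1, h2⟩)
    · left; exact ⟨k, ⟨by omega, by omega⟩, rfl, rfl⟩
    · right; left; exact ⟨t, ⟨h1, h2⟩, rfl, rfl⟩
    · right; right; exact ⟨t, ⟨h1, h2⟩, rfl, rfl⟩

theorem card_posF {l a : ℕ} (hl : 1 ≤ l) (ha : a ≤ 2 * l) : (posF l a).card + 1 = 5 * l := by
  unfold posF
  rw [Finset.card_union_of_disjoint, Finset.card_union_of_disjoint,
    Finset.card_image_of_injective, Finset.card_image_of_injective, Finset.card_image_of_injective,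
    Int.card_Ico, Int.card_Icc, Int.card_Icc]
  · omega
  · intro x y hxy; simpa using hxy
  · intro x y hxy; simpa using hxy
  · intro x y hxy
    have := (Prod.mk.inj hxy).1
    omega
  · rw [Finset.disjoint_left]
    rintro s h1 h2
    rw [Finset.mem_image] at h1 h2
    obtain ⟨x, -, rfl⟩ := h1
    obtain ⟨y, -, hy⟩ := h2
    have := (Prod.mk.inj hy).2
    omega
  · rw [Finset.disjoint_left]
    rintro s h1 h2
    rw [Finset.mem_union, Finset.mem_image, Finset.mem_image] at h2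
    rw [Finset.mem_image] at h1
    obtain ⟨x, -, rfl⟩ := h1
    rcases h2 with ⟨y, -, hy⟩ | ⟨y, -, hy⟩
    · have := (Prod.mk.inj hy).2
      omega
    · have := (Prod.mk.inj hy).2
      omega

/-- top wall -/
noncomputable def topF (a : ℕ) : Finset Pt := (Finset.Ico (0 : ℤ) a).image fun j => ((2 * j + 1, 2) : Pt)

/-- bottom wall -/
noncomputable def botF (l a : ℕ) : Finset Pt :=
  (Finset.Ico (-1 : ℤ) (2 * l - 1 - a)).image fun j => ((2 * j + 1, -2) : Pt)

theorem card_topF (a : ℕ) : (topF a).card = a := by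
  unfold topF
  rw [Finset.card_image_of_injective, Int.card_Ico]
  · omega
  · intro x y hxy
    have := (Prod.mk.inj hxy).1
    omega

theorem card_botF {l a : ℕ} (ha : a ≤ 2 * l) : (botF l a).card + a = 2 * l := by
  unfold botF
  rw [Finset.card_image_of_injective, Int.card_Ico]
  · omega
  · intro x y hxy
    have := (Prod.mk.inj hxy).1
    omega

theorem topF_bd {l a : ℕ} {s : Pt} (hs : s ∈ topF a) : BdP l a s := by
  unfold topF at hs
  rw [Finset.mem_image] at hs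
  obtain ⟨j, hj, rfl⟩ := hs
  rw [Finset.mem_Ico] at hj
  right; left
  exact ⟨rfl, ⟨j, rfl⟩, by show 0 < 2 * j + 1; omega, by show 2 * j + 1 < 2 * a; omega⟩

theorem botF_bd {l a : ℕ} {s : Pt} (hs : s ∈ botF l a) : BdP l a s := by
  unfold botF at hs
  rw [Finset.mem_image] at hs
  obtain ⟨j, hj, rfl⟩ := hs
  rw [Finset.mem_Ico] at hj
  right; right
  exact ⟨rfl, ⟨j, rfl⟩, by show -2 < 2 * j + 1; omega,
    by show 2 * j + 1 < 2 * (2 * l - 1 - a); omega⟩

theorem bd_not_pos {l a : ℕ} {s : Pt} (hs : BdP l a s) : ¬ PosS l a s := by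
  obtain ⟨t, r⟩ := s
  unfold BdP PosS at *
  simp only at hs ⊢
  omega

/-! ## the face at a wall edge -/

/-- a vertex in the middle row which sees a top wall edge is a middle vertex -/
theorem top_face {l a : ℕ} {F : Pt → Pt → Prop} (hF : Pre F) (hb : BdS l a F) {j k : ℤ}
    (hj0 : 0 ≤ j) (hja : j < a) (h1 : F (j, 1) (k, 0)) (h2 : F (j + 1, 1) (k, 0)) :
    0 ≤ k ∧ k < l := by
  constructor
  · by_contra hc
    push Not at hc
    apply hF.ncr _ _ _ _ h2 hb.left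
    unfold Cross det
    simp only [Prod.fst_sub, Prod.snd_sub]
    constructor <;> nlinarith
  · by_contra hc
    push Not at hc
    apply hF.ncr _ _ _ _ h1 hb.right
    unfold Cross det
    simp only [Prod.fst_sub, Prod.snd_sub]
    constructor <;> nlinarith

theorem bot_face {l a : ℕ} {F : Pt → Pt → Prop} (hF : Pre F) (hb : BdS l a F) {j k : ℤ}
    (hj0 : -1 ≤ j) (hja : j < 2 * l - 1 - a) (h1 : F (j, -1) (k, 0))
    (h2 : F (j + 1, -1) (k, 0)) : 0 ≤ k ∧ k < l := by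
  constructor
  · by_contra hc
    push Not at hc
    apply hF.ncr _ _ _ _ h2 hb.left
    unfold Cross det
    simp only [Prod.fst_sub, Prod.snd_sub]
    constructor <;> nlinarith
  · by_contra hc
    push Not at hc
    apply hF.ncr _ _ _ _ h1 hb.right
    unfold Cross det
    simp only [Prod.fst_sub, Prod.snd_sub]
    constructor <;> nlinarith

/-- a point at height zero over a frame -/
theorem row_zero {o d u c : Pt} (hd : det d u = 1) (h : det d (c - o) = 0) :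
    ∃ k : ℤ, c = aff o d u (k, 0) := by
  refine ⟨det (c - o) u, ?_⟩
  have := aff_unaff (o := o) hd c
  unfold unaff at this
  rw [h] at this
  exact this.symm

theorem Shp.aff_step (S : Shp) (j r : ℤ) :
    aff S.o S.d S.u (j + 1, r) = aff S.o S.d S.u (j, r) + S.d := by
  unfold aff
  simp only [add_smul, one_smul]
  abel

/-- the face below a top wall edge -/
theorem Shp.top_apex {m n : ℕ} {E : Pt → Pt → Prop} {S : Shp} (h : IsTri m n E)
    (hd : det S.d S.u = 1) (hb : BdS S.l S.a (S.pull E)) {j : ℤ} (hj0 : 0 ≤ j) (hja : j < S.a)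
    {p c : Pt} (hp : p = aff S.o S.d S.u (j, 1)) (hc : Tr E (p + S.d) p c) : p + c ∈ S.pos := by
  have hP : Pre (S.pull E) := h.pre.pull hd
  have hdet := hc.det'
  have h0 : det S.d (c - S.o) = 0 := by
    rw [hp] at hdet
    unfold aff at hdet
    unfold det at hdet hd ⊢
    simp only [Prod.fst_sub, Prod.snd_sub, Prod.fst_add, Prod.snd_add, Prod.smul_fst,
      Prod.smul_snd, smul_eq_mul, one_mul] at hdet ⊢
    linear_combination hd - hdet
  obtain ⟨k, hk⟩ := row_zero hd h0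
  have e1 : S.pull E (j, 1) (k, 0) := by
    show E _ _
    rw [← hp, ← hk]; exact hc.2.1
  have e2 : S.pull E (j + 1, 1) (k, 0) := by
    show E _ _
    rw [S.aff_step, ← hp, ← hk]; exact h.symm _ _ hc.2.2.1
  obtain ⟨k0, kl⟩ := top_face hP hb hj0 hja e1 e2
  refine ⟨(j, 1) + (k, 0), Or.inr (Or.inl ⟨by simp, ?_, ?_⟩), ?_⟩
  · show 0 ≤ j + k; omega
  · show j + k ≤ S.l - 1 + S.a; omega
  · rw [hp, hk]; exact aff_add

/-- the face above a bottom wall edge -/
theorem Shp.bot_apex {m n : ℕ} {E : Pt → Pt → Prop} {S : Shp} (h : IsTri m n E)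
    (hd : det S.d S.u = 1) (hb : BdS S.l S.a (S.pull E)) {j : ℤ} (hj0 : -1 ≤ j)
    (hja : j < 2 * S.l - 1 - S.a)
    {p c : Pt} (hp : p = aff S.o S.d S.u (j, -1)) (hc : Tr E p (p + S.d) c) : p + c ∈ S.pos := by
  have hP : Pre (S.pull E) := h.pre.pull hd
  have hdet := hc.det'
  have h0 : det S.d (c - S.o) = 0 := by
    rw [hp] at hdet
    unfold aff at hdet
    unfold det at hdet hd ⊢
    simp only [Prod.fst_sub, Prod.snd_sub, Prod.fst_add, Prod.snd_add, Prod.smul_fst,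
      Prod.smul_snd, smul_eq_mul] at hdet ⊢
    linear_combination hdet - hd
  obtain ⟨k, hk⟩ := row_zero hd h0
  have e1 : S.pull E (j, -1) (k, 0) := by
    show E _ _
    rw [← hp, ← hk]; exact h.symm _ _ hc.2.2.1
  have e2 : S.pull E (j + 1, -1) (k, 0) := by
    show E _ _
    rw [S.aff_step, ← hp, ← hk]; exact hc.2.1
  obtain ⟨k0, kl⟩ := bot_face hP hb hj0 hja e1 e2
  refine ⟨(j, -1) + (k, 0), Or.inr (Or.inr ⟨by simp, ?_, ?_⟩), ?_⟩
  · show -1 ≤ j + k; omega
  · show j + k ≤ 3 * S.l - 2 - S.a; omega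
  · rw [hp, hk]; exact aff_add

theorem Shp.ends_inR {m n : ℕ} {E : Pt → Pt → Prop} {S : Shp} (h : IsTri m n E)
    (hb : BdS S.l S.a (S.pull E)) :
    InR m n (aff S.o S.d S.u (0, 1)) ∧ InR m n (aff S.o S.d S.u (-1, -1)) :=
  ⟨h.inR _ _ hb.left, h.inR' hb.left⟩

/-! ## families -/

variable {m n : ℕ} {E : Pt → Pt → Prop} {𝒮 : Finset Shp}

/-- top walls of different members are disjoint -/
theorem Fam.top_disj (h : IsTri m n E) (hF : Fam E 𝒮) {S S' : Shp} (hS : S ∈ 𝒮) (hS' : S' ∈ 𝒮)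
    (hne : S ≠ S') {s s' : Pt} (hs : s ∈ topF S.a) (hs' : s' ∈ topF S'.a)
    (he : S.phi s = S'.phi s') : False := by
  unfold topF at hs hs'
  rw [Finset.mem_image] at hs hs'
  obtain ⟨j, hj, rfl⟩ := hs
  obtain ⟨j', hj', rfl⟩ := hs'
  rw [Finset.mem_Ico] at hj hj'
  have hd := hF.det S hS
  have hd' := hF.det S' hS'
  have hb := hF.bd S hS
  have hb' := hF.bd S' hS'
  set p := aff S.o S.d S.u (j, 1) with hp
  set p' := aff S'.o S'.d S'.u (j', 1) with hp'
  have w : E p (p + S.d) := by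
    rw [hp, ← S.aff_step]; exact hb.top j hj.1 hj.2
  have w' : E p' (p' + S'.d) := by
    rw [hp', ← S'.aff_step]; exact hb'.top j' hj'.1 hj'.2
  have a1 : S.phi (2 * j + 1, 2) = p + (p + S.d) := by
    rw [hp, ← S.aff_step, ← S.phi_add]
    congr 1
    ext
    · show 2 * j + 1 = j + (j + 1); ring
    · rfl
  have a2 : S'.phi (2 * j' + 1, 2) = p' + (p' + S'.d) := by
    rw [hp', ← S'.aff_step, ← S'.phi_add]
    congr 1
    ext
    · show 2 * j' + 1 = j' + (j' + 1); ring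
    · rfl
  rw [a1, a2] at he
  obtain ⟨e1, e2⟩ := h.pos_orient w w' (hF.lex S hS) (hF.lex S' hS') he
  have hz := (Shp.ends_inR h hb).2
  have hpos : 0 < MP01b126.det (p - (p + S.d)) (aff S.o S.d S.u (-1, -1) - (p + S.d)) := by
    have : MP01b126.det (p - (p + S.d)) (aff S.o S.d S.u (-1, -1) - (p + S.d)) = 2 * MP01b126.det S.d S.u := by
      rw [hp]
      unfold aff MP01b126.det
      simp only [Prod.fst_sub, Prod.snd_sub, Prod.fst_add, Prod.snd_add, Prod.smul_fst,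
        Prod.smul_snd, smul_eq_mul]
      ring
    rw [this, hd]; norm_num
  obtain ⟨c, hc⟩ := h.apex_exists (h.symm _ _ w) hz hpos
  have m1 := Shp.top_apex h hd hb hj.1 hj.2 hp hc
  have hc' : Tr E (p' + S'.d) p' c := by rw [e1, e2]; exact hc
  have m2 := Shp.top_apex h hd' hb' hj'.1 hj'.2 hp' hc'
  rw [e1] at m2
  exact hF.disj S hS S' hS' hne _ m1 m2

/-- bottom walls of different members are disjoint -/
theorem Fam.bot_disj (h : IsTri m n E) (hF : Fam E 𝒮) {S S' : Shp} (hS : S ∈ 𝒮) (hS' : S' ∈ 𝒮)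
    (hne : S ≠ S') {s s' : Pt} (hs : s ∈ botF S.l S.a) (hs' : s' ∈ botF S'.l S'.a)
    (he : S.phi s = S'.phi s') : False := by
  unfold botF at hs hs'
  rw [Finset.mem_image] at hs hs'
  obtain ⟨j, hj, rfl⟩ := hs
  obtain ⟨j', hj', rfl⟩ := hs'
  rw [Finset.mem_Ico] at hj hj'
  have hd := hF.det S hS
  have hd' := hF.det S' hS'
  have hb := hF.bd S hS
  have hb' := hF.bd S' hS'
  set p := aff S.o S.d S.u (j, -1) with hp
  set p' := aff S'.o S'.d S'.u (j', -1) with hp'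
  have w : E p (p + S.d) := by
    rw [hp, ← S.aff_step]; exact hb.bot j hj.1 hj.2
  have w' : E p' (p' + S'.d) := by
    rw [hp', ← S'.aff_step]; exact hb'.bot j' hj'.1 hj'.2
  have a1 : S.phi (2 * j + 1, -2) = p + (p + S.d) := by
    rw [hp, ← S.aff_step, ← S.phi_add]
    congr 1
    ext
    · show 2 * j + 1 = j + (j + 1); ring
    · rfl
  have a2 : S'.phi (2 * j' + 1, -2) = p' + (p' + S'.d) := by
    rw [hp', ← S'.aff_step, ← S'.phi_add]
    congr 1
    ext
    · show 2 * j' + 1 = j' + (j' + 1); ring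
    · rfl
  rw [a1, a2] at he
  obtain ⟨e1, e2⟩ := h.pos_orient w w' (hF.lex S hS) (hF.lex S' hS') he
  have hz := (Shp.ends_inR h hb).1
  have hpos : 0 < MP01b126.det (p + S.d - p) (aff S.o S.d S.u (0, 1) - p) := by
    have : MP01b126.det (p + S.d - p) (aff S.o S.d S.u (0, 1) - p) = 2 * MP01b126.det S.d S.u := by
      rw [hp]
      unfold aff MP01b126.det
      simp only [Prod.fst_sub, Prod.snd_sub, Prod.fst_add, Prod.snd_add, Prod.smul_fst,
        Prod.smul_snd, smul_eq_mul]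
      ring
    rw [this, hd]; norm_num
  obtain ⟨c, hc⟩ := h.apex_exists w hz hpos
  have m1 := Shp.bot_apex h hd hb hj.1 hj.2 hp hc
  have hc' : Tr E p' (p' + S'.d) c := by rw [e1, e2]; exact hc
  have m2 := Shp.bot_apex h hd' hb' hj'.1 hj'.2 hp' hc'
  rw [e1] at m2
  exact hF.disj S hS S' hS' hne _ m1 m2

theorem Fam.top_mem (h : IsTri m n E) (hF : Fam E 𝒮) {S : Shp} (hS : S ∈ 𝒮) {s : Pt}
    (hs : s ∈ topF S.a) :
    S.phi s ∈ ({s | InR2 m n s ∧ ¬ (Even s.1 ∧ Even s.2)} : Set Pt) := by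
  unfold topF at hs
  rw [Finset.mem_image] at hs
  obtain ⟨j, hj, rfl⟩ := hs
  rw [Finset.mem_Ico] at hj
  have w := h.pos_mem ((hF.bd S hS).top j hj.1 hj.2)
  rw [← S.phi_add] at w
  convert w using 2
  ext
  · show 2 * j + 1 = j + (j + 1); ring
  · rfl

theorem Fam.bot_mem (h : IsTri m n E) (hF : Fam E 𝒮) {S : Shp} (hS : S ∈ 𝒮) {s : Pt}
    (hs : s ∈ botF S.l S.a) :
    S.phi s ∈ ({s | InR2 m n s ∧ ¬ (Even s.1 ∧ Even s.2)} : Set Pt) := by
  unfold botF at hs
  rw [Finset.mem_image] at hs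
  obtain ⟨j, hj, rfl⟩ := hs
  rw [Finset.mem_Ico] at hj
  have w := h.pos_mem ((hF.bd S hS).bot j hj.1 hj.2)
  rw [← S.phi_add] at w
  convert w using 2
  ext
  · show 2 * j + 1 = j + (j + 1); ring
  · rfl

/-- one family of walls -/
theorem Fam.count (h : IsTri m n E) (hF : Fam E 𝒮) (W : Shp → Finset Pt)
    (hbd : ∀ S, ∀ s ∈ W S, BdP S.l S.a s)
    (hmem : ∀ S ∈ 𝒮, ∀ s ∈ W S,
      S.phi s ∈ ({s | InR2 m n s ∧ ¬ (Even s.1 ∧ Even s.2)} : Set Pt))
    (hdisj : ∀ S ∈ 𝒮, ∀ S' ∈ 𝒮, S ≠ S' → ∀ s ∈ W S, ∀ s' ∈ W S', S.phi s ≠ S'.phi s') :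
    5 * ∑ S ∈ 𝒮, S.l + ∑ S ∈ 𝒮, (W S).card ≤ npos m n + 𝒮.card := by
  classical
  set A : Finset Pt := 𝒮.biUnion fun S => (posF S.l S.a).image S.phi with hA
  set T : Finset Pt := 𝒮.biUnion fun S => (W S).image S.phi with hT
  have hinj : ∀ S ∈ 𝒮, Function.Injective S.phi := fun S hS => Shp.phi_inj (hF.det S hS)
  have cA : A.card + 𝒮.card = 5 * ∑ S ∈ 𝒮, S.l := by
    have : A.card = ∑ S ∈ 𝒮, (posF S.l S.a).card := by
      rw [hA, Finset.card_biUnion]
      · exact Finset.sum_congr rfl fun S hS => Finset.card_image_of_injective _ (hinj S hS)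
      · intro S hS S' hS' hne
        rw [Function.onFun, Finset.disjoint_left]
        intro t ht ht'
        rw [Finset.mem_image] at ht ht'
        obtain ⟨s, hs, rfl⟩ := ht
        obtain ⟨s', hs', he⟩ := ht'
        exact hF.disj S hS S' hS' hne (S.phi s) ⟨s, mem_posF.mp hs, rfl⟩
          ⟨s', mem_posF.mp hs', he.symm⟩
    rw [this, Finset.mul_sum, Finset.card_eq_sum_ones, ← Finset.sum_add_distrib]
    exact Finset.sum_congr rfl fun S hS => card_posF (hF.bd S hS).hl (hF.bd S hS).ha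
  have cT : T.card = ∑ S ∈ 𝒮, (W S).card := by
    rw [hT, Finset.card_biUnion]
    · exact Finset.sum_congr rfl fun S hS => Finset.card_image_of_injective _ (hinj S hS)
    · intro S hS S' hS' hne
      rw [Function.onFun, Finset.disjoint_left]
      intro t ht ht'
      rw [Finset.mem_image] at ht ht'
      obtain ⟨s, hs, rfl⟩ := ht
      obtain ⟨s', hs', he⟩ := ht'
      exact hdisj S hS S' hS' hne s hs s' hs' he.symm
  have dAT : Disjoint A T := by
    rw [Finset.disjoint_left]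
    intro t ht ht'
    rw [hA, Finset.mem_biUnion] at ht
    rw [hT, Finset.mem_biUnion] at ht'
    obtain ⟨S, hS, ht⟩ := ht
    obtain ⟨S', hS', ht'⟩ := ht'
    rw [Finset.mem_image] at ht ht'
    obtain ⟨s, hs, rfl⟩ := ht
    obtain ⟨s', hs', he⟩ := ht'
    by_cases hSS : S' = S
    · subst hSS
      have := hinj S' hS' he
      subst this
      exact bd_not_pos (hbd S' _ hs') (mem_posF.mp hs)
    · exact hF.bdisj S' hS' S hS hSS (S'.phi s') ⟨s', hbd S' _ hs', rfl⟩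
        ⟨s, mem_posF.mp hs, he⟩
  have hsub : A ∪ T ⊆ (pos_finite m n).toFinset := by
    intro t ht
    rw [Set.Finite.mem_toFinset]
    rw [Finset.mem_union] at ht
    rcases ht with ht | ht
    · rw [hA, Finset.mem_biUnion] at ht
      obtain ⟨S, hS, ht⟩ := ht
      rw [Finset.mem_image] at ht
      obtain ⟨s, hs, rfl⟩ := ht
      exact Shp.phi_pos h (hF.det S hS) (hF.bd S hS) (mem_posF.mp hs)
    · rw [hT, Finset.mem_biUnion] at ht
      obtain ⟨S, hS, ht⟩ := ht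
      rw [Finset.mem_image] at ht
      obtain ⟨s, hs, rfl⟩ := ht
      exact hmem S hS s hs
  have hc := Finset.card_le_card hsub
  rw [Finset.card_union_of_disjoint dAT, ← Set.ncard_eq_toFinset_card _ (pos_finite m n),
    npos_card] at hc
  omega

/-- G6 -/
theorem Fam.six (h : IsTri m n E) (hF : Fam E 𝒮) :
    6 * ∑ S ∈ 𝒮, S.l ≤ npos m n + 𝒮.card := by
  have h1 := hF.count h (fun S => topF S.a) (fun S s hs => topF_bd hs)
    (fun S hS s hs => hF.top_mem h hS hs)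
    (fun S hS S' hS' hne s hs s' hs' he => hF.top_disj h hS hS' hne hs hs' he)
  have h2 := hF.count h (fun S => botF S.l S.a) (fun S s hs => botF_bd hs)
    (fun S hS s hs => hF.bot_mem h hS hs)
    (fun S hS S' hS' hne s hs s' hs' he => hF.bot_disj h hS hS' hne hs hs' he)
  have h3 : ∑ S ∈ 𝒮, (topF S.a).card + ∑ S ∈ 𝒮, (botF S.l S.a).card = 2 * ∑ S ∈ 𝒮, S.l := by
    rw [← Finset.sum_add_distrib, Finset.mul_sum]
    refine Finset.sum_congr rfl fun S hS => ?_
    rw [card_topF]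
    have := card_botF (hF.bd S hS).ha
    omega
  omega

end Pool.Agent.MP01b126
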