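import Pool.Agent.Lib.MP_01b126_co.Cnt.Blk3
import Pool.Agent.Lib.MP_01b126_co.Cnt.Blk4
import Pool.Agent.Lib.MP_01b126_co.Cnt.Six

/-!
# MP_01b126_co, COUNTING, piece H5: the blocks form an admissible family
-/

namespace Pool.Agent.MP01b126

variable {m n : ℕ} {E : Pt → Pt → Prop} {W B K1 : ℕ}

theorem Shp.aff_mid (S : Shp) (k : ℤ) : aff S.o S.d S.u (k, 0) = S.o + k • S.d := by
  unfold aff; simp

theorem Shp.det_row {S : Shp} (hd : det S.d S.u = 1) (k x y : ℤ) :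
    det S.d (aff S.o S.d S.u (x, y) - (S.o + k • S.d)) = y := by
  have : aff S.o S.d S.u (x, y) - (S.o + k • S.d) = (x - k) • S.d + y • S.u := by
    unfold aff; simp only [sub_smul]; abel
  rw [this, det_add_right, det_smul_right, det_smul_right, det_self, hd]
  ring

/-- the edges at the inner positions of a block -/
theorem blk_edge (hE : IsTri m n E) (hK : K1 + 2 ≤ B)
    (hW : K1 + 2 ≤ W) {S : Shp} (h : IsBlk E W B K1 S) {x y : Pt} (hxy : E x y)
    (hp : x + y ∈ S.pos) : x ∈ S.mid ∨ y ∈ S.mid ∨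
      ∃ k : ℤ, 0 ≤ k ∧ k + 1 < S.l ∧ x + y = S.o + k • S.d + (S.o + (k + 1) • S.d) ∧
        E (S.o + k • S.d) x ∧ E (S.o + k • S.d) y ∧
        E (S.o + (k + 1) • S.d) x ∧ E (S.o + (k + 1) • S.d) y ∧
        ((MP01b126.det S.d (x - (S.o + k • S.d)) = 1 ∧ MP01b126.det S.d (y - (S.o + k • S.d)) = -1) ∨
         (MP01b126.det S.d (x - (S.o + k • S.d)) = -1 ∧ MP01b126.det S.d (y - (S.o + k • S.d)) = 1))
    := by
  have hd := h.det
  have hb := h.bd hE (by omega) (by omega)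
  have hP : Pre (S.pull E) := hE.pre.pull hd
  have hC := hE.cpx.pull (o := S.o) hd
  obtain ⟨p, rfl⟩ : ∃ p, aff S.o S.d S.u p = x := ⟨_, aff_unaff hd x⟩
  obtain ⟨q, rfl⟩ : ∃ q, aff S.o S.d S.u q = y := ⟨_, aff_unaff hd y⟩
  obtain ⟨s, hs, he⟩ := hp
  have hpq : p + q = s := by
    rw [aff_add] at he
    exact aff_inj (o := S.o + S.o) hd he
  subst hpq
  have hpull : S.pull E p q := hxy
  obtain ⟨hpS, hqS⟩ := pos_in hP hb hpull hs
  by_cases hp0 : p.2 = 0
  · left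
    obtain ⟨p1, p2⟩ := p
    simp only at hp0
    subst hp0
    unfold InS at hpS
    simp only at hpS
    exact ⟨p1, by omega, by omega, S.aff_mid p1⟩
  by_cases hq0 : q.2 = 0
  · right; left
    obtain ⟨q1, q2⟩ := q
    simp only at hq0
    subst hq0
    unfold InS at hqS
    simp only at hqS
    exact ⟨q1, by omega, by omega, S.aff_mid q1⟩
  right; right
  obtain ⟨p1, p2⟩ := p
  obtain ⟨q1, q2⟩ := q
  simp only at hp0 hq0
  have hp2 : p2 = 1 ∨ p2 = -1 := by
    unfold InS at hpS; simp only at hpS; omega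
  have hq2 : q2 = 1 ∨ q2 = -1 := by
    unfold InS at hqS; simp only at hqS; omega
  unfold PosS at hs
  simp only [Prod.mk_add_mk] at hs
  have hs2 : p2 + q2 = 0 ∧ Odd (p1 + q1) ∧ 0 < p1 + q1 ∧ p1 + q1 < 2 * S.l - 1 := by
    rcases hs with hs | hs | hs
    · exact hs
    · omega
    · omega
  obtain ⟨hs0, ⟨k, hk⟩, hk1, hk2⟩ := hs2
  have hk0 : 0 ≤ k := by omega
  have hkl : k + 1 < S.l := by omega
  obtain ⟨hm, hne⟩ := h.midS (by omega) (k := k) (by omega) (by omega)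
  obtain ⟨α, β, g1, g2, g3, g4, -, -, g5⟩ := hm.right_step hC (by omega) hne
  have hG : ∀ z w, S.pull E z w ↔ E (aff S.o S.d S.u z) (aff S.o S.d S.u w) := fun _ _ => Iff.rfl
  rcases g5 with g5 | ⟨g5, g6⟩
  · exfalso
    have := hP.mid hpull g5 (by
      simp only [Prod.mk_add_mk, Prod.mk.injEq]; omega)
    simp only [Prod.mk.injEq] at this
    omega
  · have hmid := hP.mid g6 hpull (by
      simp only [Prod.mk_add_mk, Prod.mk.injEq]; omega)
    simp only [Prod.mk.injEq] at hmid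
    have hsum : aff S.o S.d S.u (p1, p2) + aff S.o S.d S.u (q1, q2) =
        S.o + k • S.d + (S.o + (k + 1) • S.d) := by
      rw [aff_add]
      simp only [Prod.mk_add_mk, hs0, hk, zero_smul, add_zero]
      simp only [add_smul, one_smul, two_mul]; abel
    have k1 := S.aff_mid k
    have k2 := S.aff_mid (k + 1)
    refine ⟨k, hk0, hkl, hsum, ?_⟩
    rw [hG, k1] at g1 g2
    rw [hG, k2] at g3 g4
    rcases hmid with ⟨⟨rfl, rfl⟩, rfl, rfl⟩ | ⟨⟨rfl, rfl⟩, rfl, rfl⟩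
    · exact ⟨g1, g2, g3, g4, Or.inl ⟨S.det_row hd k _ _, S.det_row hd k _ _⟩⟩
    · exact ⟨g2, g1, g4, g3, Or.inr ⟨S.det_row hd k _ _, S.det_row hd k _ _⟩⟩

/-- the two faces at a flip edge -/
theorem flip_tr {E : Pt → Pt → Prop} (hs : ∀ a b, E a b → E b a) {x y v d : Pt} (hxy : E x y)
    (he : x + y = v + (v + d)) (h1 : E v x) (h2 : E v y) (h3 : E (v + d) x) (h4 : E (v + d) y)
    (hd : det d (x - v) = 1) : Tr E y x v ∧ Tr E x y (v + d) := by
  have ey : y = v + (v + d) - x := by rw [← he]; abel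
  subst ey
  refine ⟨⟨hs _ _ hxy, hs _ _ h1, h2, ?_⟩, ⟨hxy, hs _ _ h4, h3, ?_⟩⟩
  · unfold det at hd ⊢
    simp only [Prod.fst_sub, Prod.snd_sub, Prod.fst_add, Prod.snd_add] at hd ⊢
    linear_combination hd
  · unfold det at hd ⊢
    simp only [Prod.fst_sub, Prod.snd_sub, Prod.fst_add, Prod.snd_add] at hd ⊢
    linear_combination hd

/-- an edge at an inner position of a block without middle vertices: the two faces -/
theorem blk_edge' (hE : IsTri m n E) (hK : K1 + 2 ≤ B)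
    (hW : K1 + 2 ≤ W) {S : Shp} (h : IsBlk E W B K1 S) {x y : Pt} (hxy : E x y)
    (hp : x + y ∈ S.pos) : x ∈ S.mid ∨ y ∈ S.mid ∨
      (∃ p ∈ S.mid, ∃ q ∈ S.mid, Tr E x y p ∧ Tr E y x q) ∧
      (∃ v ∈ S.mid, E v x ∧ E v y ∧ x + y = v + v + S.d ∧
        MP01b126.det S.d (x - v) ≠ 0 ∧ MP01b126.det S.d (y - v) ≠ 0) := by
  rcases blk_edge hE hK hW h hxy hp with h1 | h1 | ⟨k, k0, kl, he, e1, e2, e3, e4, h1⟩
  · exact Or.inl h1
  · exact Or.inr (Or.inl h1)
  · right; right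
    have hk1 : S.o + (k + 1) • S.d = S.o + k • S.d + S.d := by
      rw [add_smul, one_smul]; abel
    have m1 : S.o + k • S.d ∈ S.mid := ⟨k, k0, by omega, rfl⟩
    have m2 : S.o + k • S.d + S.d ∈ S.mid := ⟨k + 1, by omega, by omega, hk1.symm⟩
    rw [hk1] at he e3 e4
    refine ⟨?_, S.o + k • S.d, m1, e1, e2, ?_, ?_, ?_⟩
    · rcases h1 with ⟨h1, h2⟩ | ⟨h1, h2⟩
      · obtain ⟨t1, t2⟩ := flip_tr hE.symm hxy he e1 e2 e3 e4 h1
        exact ⟨_, m2, _, m1, t2, t1⟩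
      · obtain ⟨t1, t2⟩ := flip_tr hE.symm (hE.symm _ _ hxy) (by rw [add_comm]; exact he)
          e2 e1 e4 e3 h2
        exact ⟨_, m1, _, m2, t1, t2⟩
    · rw [he]; abel
    · rcases h1 with ⟨h1, h2⟩ | ⟨h1, h2⟩ <;> rw [h1] <;> norm_num
    · rcases h1 with ⟨h1, h2⟩ | ⟨h1, h2⟩ <;> rw [h2] <;> norm_num

/-- a wall vertex of a block is not a middle vertex of a block -/
theorem blk_wall_mid (hE : IsTri m n E) (hK : K1 + 2 ≤ B) (hW : K1 + 2 ≤ W) {S S' : Shp}
    (h : IsBlk E W B K1 S) (h' : IsBlk E W B K1 S') {j y : ℤ} (hj : InS S.l S.a (j, y))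
    (hy : y ≠ 0) : aff S.o S.d S.u (j, y) ∉ S'.mid := by
  intro hv
  obtain ⟨k, k0, kl, hk⟩ := h.wallnbr hE (by omega) (by omega) hj hy
  have hw := (h.mids (by omega) (k := k) (by omega) (by omega)).toMid0
  have hk' : E (S.o + k • S.d) (aff S.o S.d S.u (j, y)) := by
    rw [← S.aff_mid]; exact hk
  have := blk_not_wall hE hK hW h' hv hw hk'
  rw [S.det_row h.det] at this
  exact hy this

theorem IsBlk.mid_of {S : Shp} (h : IsBlk E W B K1 S) (hK : K1 + 2 ≤ B) {v : Pt}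
    (hv : v ∈ S.mid) : Mid E W v S.d ∧ Mid E W (v + S.d) S.d ∧ Mid E W (v - S.d) S.d := by
  obtain ⟨k, k0, kl, rfl⟩ := hv
  refine ⟨h.mids (by omega) (by omega) (by omega), ?_, ?_⟩
  · have := h.mids (by omega) (k := k + 1) (by omega) (by omega)
    rwa [add_smul, one_smul, ← add_assoc] at this
  · have := h.mids (by omega) (k := k - 1) (by omega) (by omega)
    have e : S.o + (k - 1) • S.d = S.o + k • S.d - S.d := by rw [sub_smul, one_smul]; abel
    rwa [e] at this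

/-- inner positions of different blocks -/
theorem blk_disj (hE : IsTri m n E) (hK : K1 + 2 ≤ B) (hW : K1 + 2 ≤ W) {S S' : Shp}
    (h : IsBlk E W B K1 S) (h' : IsBlk E W B K1 S') (hne : S ≠ S') {t : Pt} (ht : t ∈ S.pos)
    (ht' : t ∈ S'.pos) : False := by
  obtain ⟨x, y, hxy, rfl⟩ : ∃ x y, E x y ∧ x + y = t := by
    obtain ⟨s, hs, rfl⟩ := ht
    have := Shp.phi_pos hE h.det (h.bd hE (by omega) (by omega)) hs
    exact hE.full' this.1 this.2
  -- a middle vertex against an inner flip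
  have key : ∀ S S' : Shp, IsBlk E W B K1 S → IsBlk E W B K1 S' → ∀ x y : Pt, x ∈ S.mid →
      (∃ v ∈ S'.mid, E v x ∧ E v y ∧ x + y = v + v + S'.d ∧
        MP01b126.det S'.d (x - v) ≠ 0 ∧ MP01b126.det S'.d (y - v) ≠ 0) → False := by
    rintro S S' h h' x y hx ⟨v, hv, e1, -, -, e2, -⟩
    exact e2 (blk_not_wall hE hK hW h hx (h'.mid_of hK hv).1.toMid0 e1)
  have key' : ∀ S S' : Shp, IsBlk E W B K1 S → IsBlk E W B K1 S' → ∀ x y : Pt, y ∈ S.mid →
      (∃ v ∈ S'.mid, E v x ∧ E v y ∧ x + y = v + v + S'.d ∧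
        MP01b126.det S'.d (x - v) ≠ 0 ∧ MP01b126.det S'.d (y - v) ≠ 0) → False := by
    rintro S S' h h' x y hy ⟨v, hv, -, e1, -, -, e2⟩
    exact e2 (blk_not_wall hE hK hW h hy (h'.mid_of hK hv).1.toMid0 e1)
  rcases blk_edge' hE hK hW h hxy ht with h1 | h1 | ⟨⟨p, hp, q, hq, t1, t2⟩, h1⟩ <;>
    rcases blk_edge' hE hK hW h' hxy ht' with h2 | h2 | ⟨⟨p', hp', q', hq', t1', t2'⟩, h2⟩
  · exact hne (blk_uniq hE hK hW h h' h1 h2)
  · exact hne (blk_adj hE hK hW h h' h1 h2 hxy)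
  · exact key S S' h h' x y h1 h2
  · exact hne (blk_adj hE hK hW h h' h1 h2 (hE.symm _ _ hxy))
  · exact hne (blk_uniq hE hK hW h h' h1 h2)
  · exact key' S S' h h' x y h1 h2
  · exact key S' S h' h x y h2 h1
  · exact key' S' S h' h x y h2 h1
  · have := hE.pre.uniq t1 t1'
    subst this
    exact hne (blk_uniq hE hK hW h h' hp hp')

/-- boundary positions of a block are not inner positions of another block -/
theorem blk_bdisj (hE : IsTri m n E) (hK : K1 + 2 ≤ B) (hW : K1 + 2 ≤ W) {S S' : Shp}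
    (h : IsBlk E W B K1 S) (h' : IsBlk E W B K1 S') (hne : S ≠ S') {t : Pt} (ht : t ∈ S.bpos)
    (ht' : t ∈ S'.pos) : False := by
  have hd := h.det
  have hb := h.bd hE (by omega) (by omega)
  have hl := hb.hl
  have ha := hb.ha
  obtain ⟨⟨n1, n2, n3, n4⟩, ⟨n5, n6, n7, n8⟩⟩ := h.ends hE (by omega) (by omega)
  -- end flips
  have endf : ∀ p q o' : Pt, InS S.l S.a p → InS S.l S.a q → p.2 ≠ 0 → q.2 ≠ 0 →
      S.pull E p q → aff S.o S.d S.u o' ∈ S.mid →
      Tr (S.pull E) p q o' → aff S.o S.d S.u p + aff S.o S.d S.u q ∈ S'.pos → False := by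
    rintro ⟨p1, p2⟩ ⟨q1, q2⟩ o' i1 i2 e1 e2 w hm ht hp
    rcases blk_edge' hE hK hW h' w hp with h1 | h1 | ⟨⟨p, hp, q, hq, t1, t2⟩, h1⟩
    · exact blk_wall_mid hE hK hW h h' i1 e1 h1
    · exact blk_wall_mid hE hK hW h h' i2 e2 h1
    · have := hE.pre.uniq ((tr_pull hd).mp ht) t1
      rw [← this] at hp
      exact hne (blk_uniq hE hK hW h h' hm hp)
  -- wall edges
  have wallf : ∀ j y : ℤ, y ≠ 0 → InS S.l S.a (j, y) → InS S.l S.a (j + 1, y) →
      S.pull E (j, y) (j + 1, y) →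
      aff S.o S.d S.u (j, y) + aff S.o S.d S.u (j + 1, y) ∈ S'.pos → False := by
    intro j y hy i1 i2 w hp
    rcases blk_edge' hE hK hW h' w hp with h1 | h1 | ⟨-, v, hv, e1, e2, e3, e4, e5⟩
    · exact blk_wall_mid hE hK hW h h' i1 hy h1
    · exact blk_wall_mid hE hK hW h h' i2 hy h1
    · have hm := (h'.mid_of hK hv).1.toMid0
      have hst := hm.stop' _ _ w (Or.inl e3) e5
      apply hst
      obtain ⟨k, k0, kl, hk⟩ := h.wallnbr hE (by omega) (by omega) i1 hy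
      have hw := (h.mids (by omega) (k := k) (by omega) (by omega)).toMid0
      have hk' : E (S.o + k • S.d) (aff S.o S.d S.u (j, y)) := by
        rw [← S.aff_mid]; exact hk
      have := hw.wall _ hk' (by rw [S.det_row hd]; exact hy) 1 (by omega) (by omega)
      rw [S.aff_step]
      have f1 : aff S.o S.d S.u (j, y) + (1 : ℤ) • S.d = aff S.o S.d S.u (j, y) + S.d := by
        rw [one_smul]
      have f2 : aff S.o S.d S.u (j, y) + ((1 : ℤ) + 1) • S.d =
          aff S.o S.d S.u (j, y) + S.d + (aff S.o S.d S.u (j, y) + S.d -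
            aff S.o S.d S.u (j, y)) := by
        rw [add_smul, one_smul]; abel
      rw [f1, f2] at this
      exact this
  obtain ⟨s, hs, rfl⟩ := ht
  obtain ⟨s1, s2⟩ := s
  have hphi : ∀ x y : Pt, x + y = (s1, s2) →
      aff S.o S.d S.u x + aff S.o S.d S.u y ∈ S'.pos := by
    intro x y hxy
    rw [aff_add, hxy]; exact ht'
  unfold BdP at hs
  simp only at hs
  rcases hs with ⟨rfl, rfl | rfl⟩ | ⟨rfl, ⟨j, rfl⟩, j1, j2⟩ | ⟨rfl, ⟨j, rfl⟩, j1, j2⟩
  · refine endf (0, 1) (-1, -1) (0, 0) (Or.inl ⟨rfl, le_refl _, ?_⟩)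
      (Or.inr (Or.inr ⟨rfl, le_refl _, ?_⟩)) (by norm_num) (by norm_num) hb.left
      ⟨0, le_refl _, by omega, S.aff_mid 0⟩ ⟨hb.left, hE.symm _ _ n2, n1, ?_⟩
      (hphi _ _ (by simp))
    · show (0 : ℤ) ≤ S.a; omega
    · show -1 ≤ 2 * (S.l : ℤ) - 1 - S.a; omega
    · simp [MP01b126.det]
  · refine endf (2 * S.l - 1 - S.a, -1) (S.a, 1) ((S.l : ℤ) - 1, 0)
      (Or.inr (Or.inr ⟨rfl, ?_, le_refl _⟩)) (Or.inl ⟨rfl, ?_, le_refl _⟩)
      (by norm_num) (by norm_num) (hE.symm _ _ hb.right)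
      ⟨S.l - 1, by omega, by omega, S.aff_mid _⟩
      ⟨hE.symm _ _ hb.right, hE.symm _ _ n5, n6, ?_⟩
      (hphi _ _ (by simp only [Prod.mk_add_mk, Prod.mk.injEq]; constructor <;> ring))
    · show -1 ≤ 2 * (S.l : ℤ) - 1 - S.a; omega
    · show (0 : ℤ) ≤ S.a; omega
    · simp only [MP01b126.det, Prod.mk_sub_mk]; ring
  · refine wallf j 1 (by norm_num) (Or.inl ⟨rfl, ?_, ?_⟩) (Or.inl ⟨rfl, ?_, ?_⟩)
      (hb.top j (by omega) (by omega))
      (hphi _ _ (by simp only [Prod.mk_add_mk, Prod.mk.injEq]; constructor <;> ring))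
    · show 0 ≤ j; omega
    · show j ≤ S.a; omega
    · show 0 ≤ j + 1; omega
    · show j + 1 ≤ S.a; omega
  · refine wallf j (-1) (by norm_num) (Or.inr (Or.inr ⟨rfl, ?_, ?_⟩))
      (Or.inr (Or.inr ⟨rfl, ?_, ?_⟩))
      (hb.bot j (by omega) (by omega))
      (hphi _ _ (by simp only [Prod.mk_add_mk, Prod.mk.injEq]; constructor <;> ring))
    · show -1 ≤ j; omega
    · show j ≤ 2 * S.l - 1 - S.a; omega
    · show -1 ≤ j + 1; omega
    · show j + 1 ≤ 2 * S.l - 1 - S.a; omega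

/-- the vertex before a block is not in a block -/
theorem blk_prev_mid (hE : IsTri m n E) (hK : K1 + 2 ≤ B) (hW : K1 + 2 ≤ W) {S S' : Shp}
    (h : IsBlk E W B K1 S) (h' : IsBlk E W B K1 S') : S.o - S.d ∉ S'.mid := by
  intro hv
  obtain ⟨m0, m1, m2⟩ := h'.mid_of hK hv
  have e0 : S.o + (-1 : ℤ) • S.d = S.o - S.d := by rw [neg_smul, one_smul]; abel
  have hm := h.mids (by omega) (k := -1) (by omega) (by omega)
  rw [e0] at hm
  have hdir : S.d = S'.d := by
    rcases unique_dir hE.cpx m0 m1.toMid0 m2.toMid0 hm.toMid0 (by omega) with h1 | h1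
    · exact h1
    · exfalso
      have := h.lex
      rw [h1] at this
      exact h'.lex.neg_not this
  apply h.nl
  obtain ⟨k, k0, kl, hk⟩ := hv
  rw [hk, hdir]
  exact h'.inb k k0 kl

/-- the outer sides of the left end flip are not inner positions -/
theorem blk_outer (hE : IsTri m n E) (hK : K1 + 2 ≤ B) (hW : K1 + 2 ≤ W) {S S' : Shp}
    (h : IsBlk E W B K1 S) (h' : IsBlk E W B K1 S') {z : Pt} (hz : E (S.o - S.d) z)
    (hoz : E S.o z) (hdz : MP01b126.det S.d (z - S.o) ≠ 0) (hp : S.o - S.d + z ∈ S'.pos) :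
    False := by
  rcases blk_edge' hE hK hW h' hz hp with h1 | h1 | ⟨-, v, hv, e1, e2, e3, e4, e5⟩
  · exact blk_prev_mid hE hK hW h h' h1
  · have hm := h.mids (by omega) (k := 0) (by omega) (by omega)
    rw [zero_smul, add_zero] at hm
    exact hdz (blk_not_wall hE hK hW h' h1 hm.toMid0 hoz)
  · have hm := (h'.mid_of hK hv).1.toMid0
    have e0 : S.o + (-1 : ℤ) • S.d = S.o - S.d := by rw [neg_smul, one_smul]; abel
    have hm1 := h.mids (by omega) (k := -1) (by omega) (by omega)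
    rw [e0] at hm1
    refine hm1.toMid0.not_wall hm e1 hE.symm e4 (by omega) (j := 0) (by omega) (by omega) ?_
    rw [zero_smul, zero_add, one_smul, add_zero]
    exact h.lflip.not

theorem blk_fam (hE : IsTri m n E) (hK : K1 + 2 ≤ B)
    (hW : K1 + 2 ≤ W) (𝒮 : Finset Shp) (h𝒮 : ∀ S, S ∈ 𝒮 ↔ IsBlk E W B K1 S) : Fam E 𝒮 := by
  have ou : ∀ S : Shp, aff S.o S.d S.u (0, 1) = S.o + S.u := by
    intro S; unfold aff; simp
  have om : ∀ S : Shp, aff S.o S.d S.u (-1, 0) = S.o - S.d := by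
    intro S; unfold aff
    simp only [neg_smul, one_smul, zero_smul, add_zero]; abel
  have od : ∀ S : Shp, aff S.o S.d S.u (-1, -1) = S.o - S.d - S.u := by
    intro S; unfold aff
    simp only [neg_smul, one_smul]; abel
  have oo : ∀ S : Shp, aff S.o S.d S.u (0, 0) = S.o := by
    intro S; unfold aff; simp
  have top : ∀ S ∈ 𝒮, E (S.o - S.d) (S.o + S.u) := by
    intro S hS
    have := (((h𝒮 S).mp hS).ends hE (by omega) (by omega)).1.2.2.1
    rw [← om, ← ou]; exact this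
  have bot : ∀ S ∈ 𝒮, E (S.o - S.d) (S.o - S.d - S.u) := by
    intro S hS
    have := (((h𝒮 S).mp hS).ends hE (by omega) (by omega)).1.2.2.2
    rw [← od, ← om]; exact this
  refine ⟨?_, ?_, ?_, ?_, ?_, top, bot, ?_, ?_⟩
  · exact fun S hS => ((h𝒮 S).mp hS).lex
  · exact fun S hS => ((h𝒮 S).mp hS).det
  · exact fun S hS => ((h𝒮 S).mp hS).bd hE (by omega) (by omega)
  · exact fun S hS S' hS' hne t ht ht' =>
      blk_disj hE hK hW ((h𝒮 S).mp hS) ((h𝒮 S').mp hS') hne ht ht'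
  · exact fun S hS S' hS' hne t ht ht' =>
      blk_bdisj hE hK hW ((h𝒮 S).mp hS) ((h𝒮 S').mp hS') hne ht ht'
  · intro S hS S' hS' hp
    have hb := (h𝒮 S).mp hS
    refine blk_outer hE hK hW hb ((h𝒮 S').mp hS') (top S hS) ?_ ?_ hp
    · have := (hb.ends hE (by omega) (by omega)).1.1
      have h2 : E (aff S.o S.d S.u (0, 0)) (aff S.o S.d S.u (0, 1)) := this
      rwa [oo, ou] at h2
    · have : S.o + S.u - S.o = S.u := by abel
      rw [this, hb.det]; norm_num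
  · intro S hS S' hS' hp
    have hb := (h𝒮 S).mp hS
    refine blk_outer hE hK hW hb ((h𝒮 S').mp hS') (bot S hS) ?_ ?_ hp
    · have := (hb.ends hE (by omega) (by omega)).1.2.1
      have h2 : E (aff S.o S.d S.u (0, 0)) (aff S.o S.d S.u (-1, -1)) := this
      rwa [oo, od] at h2
    · have : S.o - S.d - S.u - S.o = - S.d - S.u := by abel
      rw [this, det_sub_right, det_neg_right, det_self, hb.det]; norm_num

end Pool.Agent.MP01b126
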