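import Pool.Agent.Lib.MP_01b126_co.Model

/-!
# MP_01b126_co, COUNTING: definitions for the code (positions, predictors)
-/

namespace Pool.Agent.MP01b126

/-- lexicographic positivity; `s` is before `t` iff `LexPos (t - s)` -/
def LexPos (d : Pt) : Prop := 0 < d.1 ∨ (d.1 = 0 ∧ 0 < d.2)

/-- number of positions (edges) -/
def npos (m n : ℕ) : ℕ := 3 * m * n + m + n

/-- the edge at position `s` has direction `d` (normalised to be lexicographically positive) -/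
def HasDir (E : Pt → Pt → Prop) (s d : Pt) : Prop :=
  LexPos d ∧ ∃ a, E a (a + d) ∧ a + (a + d) = s

/-- the edge at position `s` continues a straight run of `K` edges or a fan of `K` edges which lie
before `s` -/
def PCpos (K : ℕ) (E : Pt → Pt → Prop) (s : Pt) : Prop :=
  (∃ a d, LexPos d ∧ a + (a + d) = s ∧ E a (a + d) ∧
    ∀ j : ℕ, 1 ≤ j → j ≤ K → E (a - (j : ℤ) • d) (a - (j : ℤ) • d + d)) ∨
  (∃ h v d, LexPos d ∧ h + v = s ∧ E h v ∧ (det d (v - h) = 1 ∨ det d (v - h) = -1) ∧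
    ∀ j : ℕ, 1 ≤ j → j ≤ K → E h (v - (j : ℤ) • d))

/-- THE CODE THEOREM: triangulations all of whose positions except `X` are predicted -/
def CodeThm : Prop :=
  ∀ ε : ℝ, 0 < ε → ∃ K0 : ℕ, ∀ K, K0 ≤ K → ∀ m n : ℕ, 1 ≤ m → 1 ≤ n → ∀ X : ℕ,
    (({E | IsTri m n E ∧ npos m n ≤ X + ({s | PCpos K E s} : Set Pt).ncard} :
      Set (Pt → Pt → Prop)).ncard : ℝ) ≤ (2 : ℝ) ^ ((X : ℝ) + ε * m * n)

/-- `v` has a successor and `K` predecessors on a straight run -/
def RunGood (E : Pt → Pt → Prop) (K : ℕ) (v : Pt) : Prop :=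
  ∃ d, LexPos d ∧ E v (v + d) ∧ ∀ j : ℕ, j < K → E (v - ((j : ℤ) + 1) • d) (v - (j : ℤ) • d)

/-- `v` has two successors and `K + 2` predecessors in a fan -/
def FanGood (E : Pt → Pt → Prop) (K : ℕ) (v : Pt) : Prop :=
  ∃ h d, LexPos d ∧ (det d (v - h) = 1 ∨ det d (v - h) = -1) ∧
    ∀ j : ℤ, -2 ≤ j → j ≤ K + 2 → E h (v - j • d)

end Pool.Agent.MP01b126
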