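import Pool.Agent.Lib.MP_01b126_co.Cnt.GDefs

/-!
# MP_01b126_co, COUNTING: the canonical filling of a trapezoid
-/

namespace Pool.Agent.MP01b126

namespace Canon

/-- the shape of the canonical edges -/
def Ty (b c : ℤ) (x y : Pt) : Prop :=
  x.2 = 0 ∧ 0 ≤ x.1 ∧ (y.2 = 0 ∨ (y.2 = 1 ∧ y.1 ≤ b ∧ (x.1 = 0 ∨ y.1 = b)) ∨
    (y.2 = -1 ∧ y.1 ≤ c ∧ (x.1 = 0 ∨ y.1 = c)))

theorem can0_ty {l a : ℕ} {x y : Pt} (h : Can0 l a x y) : Ty a (2 * l - 1 - a) x y := by
  rcases h with ⟨k, h1, h2, rfl, rfl⟩ | ⟨k, h1, h2, rfl, rfl⟩ | ⟨k, h1, h2, rfl, rfl⟩ |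
    ⟨k, h1, h2, rfl, rfl⟩ | ⟨k, h1, h2, rfl, rfl⟩
  · exact ⟨rfl, h1, Or.inl rfl⟩
  · exact ⟨rfl, le_rfl, Or.inr (Or.inl ⟨rfl, h2, Or.inl rfl⟩)⟩
  · exact ⟨rfl, h1.le, Or.inr (Or.inl ⟨rfl, le_rfl, Or.inr rfl⟩)⟩
  · exact ⟨rfl, le_rfl, Or.inr (Or.inr ⟨rfl, h2, Or.inl rfl⟩)⟩
  · exact ⟨rfl, h1.le, Or.inr (Or.inr ⟨rfl, le_rfl, Or.inr rfl⟩)⟩

theorem ty_ncr {b c : ℤ} {x y z w : Pt} (h : Ty b c x y) (h' : Ty b c z w) : ¬ Cross x y z w := by
  obtain ⟨x1, x2⟩ := x
  obtain ⟨y1, y2⟩ := y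
  obtain ⟨z1, z2⟩ := z
  obtain ⟨w1, w2⟩ := w
  obtain ⟨h1, h2, h3⟩ := h
  obtain ⟨h1', h2', h3'⟩ := h'
  simp only at h1 h2 h3 h1' h2' h3'
  subst h1
  subst h1'
  rintro ⟨c1, c2⟩
  simp only [det, Prod.fst_sub, Prod.snd_sub] at c1 c2
  rcases h3 with rfl | ⟨rfl, h4, h5⟩ | ⟨rfl, h4, h5⟩
  · simp only [sub_zero, mul_zero, zero_mul, sub_self] at c1
    exact absurd c1 (lt_irrefl _)
  · rcases h3' with rfl | ⟨rfl, h4', h5'⟩ | ⟨rfl, h4', h5'⟩
    · simp only [sub_zero, mul_zero, zero_mul, sub_self] at c2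
      exact absurd c2 (lt_irrefl _)
    · have e : (x1 - z1) * (y1 - w1) < 0 := by
        have : ((y1 - x1) * (0 - 0) - (1 - 0) * (z1 - x1)) * ((y1 - x1) * (1 - 0) -
          (1 - 0) * (w1 - x1)) = (x1 - z1) * (y1 - w1) := by ring
        rw [← this]; exact c1
      rcases h5 with rfl | rfl
      · have := mul_nonneg h2' (sub_nonneg.2 h4)
        rcases h5' with rfl | rfl
        · simp at e
        · nlinarith [mul_nonneg h2' (sub_nonneg.2 h4)]
      · rcases h5' with rfl | rfl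
        · nlinarith [mul_nonneg h2 (sub_nonneg.2 h4')]
        · simp at e
    · nlinarith [sq_nonneg (x1 - z1)]
  · rcases h3' with rfl | ⟨rfl, h4', h5'⟩ | ⟨rfl, h4', h5'⟩
    · simp only [sub_zero, mul_zero, zero_mul, sub_self] at c2
      exact absurd c2 (lt_irrefl _)
    · nlinarith [sq_nonneg (x1 - z1)]
    · have e : (x1 - z1) * (y1 - w1) < 0 := by
        have : ((y1 - x1) * (0 - 0) - (-1 - 0) * (z1 - x1)) * ((y1 - x1) * (-1 - 0) -
          (-1 - 0) * (w1 - x1)) = (x1 - z1) * (y1 - w1) := by ring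
        rw [← this]; exact c1
      rcases h5 with rfl | rfl
      · rcases h5' with rfl | rfl
        · simp at e
        · nlinarith [mul_nonneg h2' (sub_nonneg.2 h4)]
      · rcases h5' with rfl | rfl
        · nlinarith [mul_nonneg h2 (sub_nonneg.2 h4')]
        · simp at e

theorem can0_prim {l a : ℕ} {x y : Pt} (h : Can0 l a x y) : Prim (y - x) := by
  unfold Prim
  rcases h with ⟨k, h1, h2, rfl, rfl⟩ | ⟨k, h1, h2, rfl, rfl⟩ | ⟨k, h1, h2, rfl, rfl⟩ |
    ⟨k, h1, h2, rfl, rfl⟩ | ⟨k, h1, h2, rfl, rfl⟩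
  · exact ⟨1, 0, by simp⟩
  · exact ⟨0, 1, by simp⟩
  · exact ⟨0, 1, by simp⟩
  · exact ⟨0, -1, by simp⟩
  · exact ⟨0, -1, by simp⟩

theorem can0_inS {l a : ℕ} (hl : 1 ≤ l) (ha : a ≤ 2 * l) {x y : Pt} (h : Can0 l a x y) :
    InS l a x ∧ InS l a y := by
  rcases h with ⟨k, h1, h2, rfl, rfl⟩ | ⟨k, h1, h2, rfl, rfl⟩ | ⟨k, h1, h2, rfl, rfl⟩ |
    ⟨k, h1, h2, rfl, rfl⟩ | ⟨k, h1, h2, rfl, rfl⟩
  · exact ⟨Or.inr (Or.inl ⟨rfl, by simp only; omega, by simp only; omega⟩),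
      Or.inr (Or.inl ⟨rfl, by simp only; omega, by simp only; omega⟩)⟩
  · exact ⟨Or.inr (Or.inl ⟨rfl, le_rfl, by simp only; omega⟩),
      Or.inl ⟨rfl, by simp only; omega, by simp only; omega⟩⟩
  · exact ⟨Or.inr (Or.inl ⟨rfl, by simp only; omega, by simp only; omega⟩),
      Or.inl ⟨rfl, by simp only; omega, le_rfl⟩⟩
  · exact ⟨Or.inr (Or.inl ⟨rfl, le_rfl, by simp only; omega⟩),
      Or.inr (Or.inr ⟨rfl, by simp only; omega, by simp only; omega⟩)⟩
  · exact ⟨Or.inr (Or.inl ⟨rfl, by simp only; omega, by simp only; omega⟩),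
      Or.inr (Or.inr ⟨rfl, by simp only; omega, le_rfl⟩)⟩

theorem can0_pos {l a : ℕ} (hl : 1 ≤ l) (ha : a ≤ 2 * l) {x y : Pt} (h : Can0 l a x y) :
    PosS l a (x + y) := by
  unfold PosS
  rcases h with ⟨k, h1, h2, rfl, rfl⟩ | ⟨k, h1, h2, rfl, rfl⟩ | ⟨k, h1, h2, rfl, rfl⟩ |
    ⟨k, h1, h2, rfl, rfl⟩ | ⟨k, h1, h2, rfl, rfl⟩ <;> simp only [Prod.mk_add_mk]
  · left
    exact ⟨by norm_num, ⟨k, by ring⟩, by omega, by omega⟩
  · right; left
    exact ⟨by norm_num, by omega, by omega⟩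
  · right; left
    exact ⟨by norm_num, by omega, by omega⟩
  · right; right
    exact ⟨by norm_num, by omega, by omega⟩
  · right; right
    exact ⟨by norm_num, by omega, by omega⟩

end Canon

open Canon

theorem can_fil {l a : ℕ} (hl : 1 ≤ l) (ha : a ≤ 2 * l) : Fil l a (Can l a) where
  symm x y h := Or.symm h
  prim x y h := by
    rcases h with h | h
    · exact can0_prim h
    · have := (can0_prim h).neg
      rwa [neg_sub] at this
  ncr x y z w h h' hc := by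
    rcases h with h | h
    · rcases h' with h' | h'
      · exact ty_ncr (can0_ty h) (can0_ty h') hc
      · exact ty_ncr (can0_ty h) (can0_ty h') hc.swap'
    · rcases h' with h' | h'
      · exact ty_ncr (can0_ty h) (can0_ty h') hc.swap
      · exact ty_ncr (can0_ty h) (can0_ty h') hc.swap.swap'
  ins x y h := by
    rcases h with h | h
    · exact (can0_inS hl ha h).1
    · exact (can0_inS hl ha h).2
  pos x y h := by
    rcases h with h | h
    · exact can0_pos hl ha h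
    · rw [add_comm]; exact can0_pos hl ha h
  full s hs := by
    obtain ⟨s1, s2⟩ := s
    unfold PosS at hs
    simp only at hs
    rcases hs with ⟨rfl, ⟨k, hk⟩, h1, h2⟩ | ⟨rfl, h1, h2⟩ | ⟨rfl, h1, h2⟩
    · refine ⟨(k, 0), (k + 1, 0), Or.inl (Or.inl ⟨k, by omega, by omega, rfl, rfl⟩), ?_⟩
      rw [Prod.mk_add_mk, hk]
      ext
      · simp only; ring
      · simp only; ring
    · by_cases hj : s1 ≤ a
      · exact ⟨(0, 0), (s1, 1), Or.inl (Or.inr (Or.inl ⟨s1, h1, hj, rfl, rfl⟩)), by simp⟩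
      · refine ⟨(s1 - a, 0), ((a : ℤ), 1), Or.inl (Or.inr (Or.inr (Or.inl
          ⟨s1 - a, by omega, by omega, rfl, rfl⟩))), by simp⟩
    · by_cases hj : s1 ≤ 2 * l - 1 - a
      · exact ⟨(0, 0), (s1, -1), Or.inl (Or.inr (Or.inr (Or.inr (Or.inl
          ⟨s1, h1, hj, rfl, rfl⟩)))), by simp⟩
      · refine ⟨(s1 - (2 * l - 1 - a), 0), (2 * (l : ℤ) - 1 - a, -1), Or.inl (Or.inr (Or.inr (Or.inr
          (Or.inr ⟨s1 - (2 * l - 1 - a), by omega, by omega, rfl, rfl⟩)))), by simp⟩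

namespace Canon

/-- all inner positions, as a finite set -/
def allP (l a : ℕ) : Finset Pt :=
  ((Finset.range (l - 1)).image fun k : ℕ => ((2 * (k : ℤ) + 1, 0) : Pt)) ∪
    (((Finset.range (l + a)).image fun k : ℕ => (((k : ℤ), 1) : Pt)) ∪
      ((Finset.range (3 * l - a)).image fun k : ℕ => (((k : ℤ) - 1, -1) : Pt)))

/-- the positions which are not predicted -/
def badP (K l a : ℕ) : Finset Pt :=
  ((Finset.range K).image fun k : ℕ => ((2 * (k : ℤ) + 1, 0) : Pt)) ∪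
    (((Finset.range K).image fun k : ℕ => (((k : ℤ), 1) : Pt)) ∪
      (((Finset.range K).image fun k : ℕ => (((a : ℤ) + k, 1) : Pt)) ∪
        (((Finset.range K).image fun k : ℕ => (((k : ℤ) - 1, -1) : Pt)) ∪
          ((Finset.range K).image fun k : ℕ => ((2 * (l : ℤ) - 1 - a + k, -1) : Pt)))))

theorem badP_card (K l a : ℕ) : (badP K l a).card ≤ 5 * K := by
  unfold badP
  have h : ∀ f : ℕ → Pt, ((Finset.range K).image f).card ≤ K := fun f =>
    Finset.card_image_le.trans (by simp)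
  refine (Finset.card_union_le _ _).trans ?_
  have h1 := h fun k : ℕ => ((2 * (k : ℤ) + 1, 0) : Pt)
  have h2 := h fun k : ℕ => (((k : ℤ), 1) : Pt)
  have h3 := h fun k : ℕ => (((a : ℤ) + k, 1) : Pt)
  have h4 := h fun k : ℕ => (((k : ℤ) - 1, -1) : Pt)
  have h5 := h fun k : ℕ => ((2 * (l : ℤ) - 1 - a + k, -1) : Pt)
  have c2 := Finset.card_union_le ((Finset.range K).image fun k : ℕ => (((k : ℤ), 1) : Pt))
    (((Finset.range K).image fun k : ℕ => (((a : ℤ) + k, 1) : Pt)) ∪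
        (((Finset.range K).image fun k : ℕ => (((k : ℤ) - 1, -1) : Pt)) ∪
          ((Finset.range K).image fun k : ℕ => ((2 * (l : ℤ) - 1 - a + k, -1) : Pt))))
  have c3 := Finset.card_union_le ((Finset.range K).image fun k : ℕ => (((a : ℤ) + k, 1) : Pt))
        (((Finset.range K).image fun k : ℕ => (((k : ℤ) - 1, -1) : Pt)) ∪
          ((Finset.range K).image fun k : ℕ => ((2 * (l : ℤ) - 1 - a + k, -1) : Pt)))
  have c4 := Finset.card_union_le ((Finset.range K).image fun k : ℕ => (((k : ℤ) - 1, -1) : Pt))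
          ((Finset.range K).image fun k : ℕ => ((2 * (l : ℤ) - 1 - a + k, -1) : Pt))
  omega

theorem allP_card {l a : ℕ} (hl : 1 ≤ l) (ha : a ≤ 2 * l) : (allP l a).card = 5 * l - 1 := by
  unfold allP
  rw [Finset.card_union_of_disjoint, Finset.card_union_of_disjoint, Finset.card_image_of_injective,
    Finset.card_image_of_injective, Finset.card_image_of_injective, Finset.card_range,
    Finset.card_range, Finset.card_range]
  · omega
  · intro x y h
    simp only [Prod.mk.injEq] at h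
    omega
  · intro x y h
    simp only [Prod.mk.injEq] at h
    omega
  · intro x y h
    simp only [Prod.mk.injEq] at h
    omega
  · rw [Finset.disjoint_left]
    intro x h1 h2
    simp only [Finset.mem_image, Finset.mem_range] at h1 h2
    obtain ⟨k, _, rfl⟩ := h1
    obtain ⟨j, _, h3⟩ := h2
    simp only [Prod.mk.injEq] at h3
    omega
  · rw [Finset.disjoint_left]
    intro x h1 h2
    simp only [Finset.mem_union, Finset.mem_image, Finset.mem_range] at h1 h2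
    obtain ⟨k, _, rfl⟩ := h1
    rcases h2 with ⟨j, _, h3⟩ | ⟨j, _, h3⟩ <;>
    · simp only [Prod.mk.injEq] at h3
      omega

theorem mem_allP {l a : ℕ} (hl : 1 ≤ l) (ha : a ≤ 2 * l) {s : Pt} : s ∈ allP l a ↔ PosS l a s := by
  obtain ⟨s1, s2⟩ := s
  unfold allP PosS
  simp only [Finset.mem_union, Finset.mem_image, Finset.mem_range, Prod.mk.injEq]
  constructor
  · rintro (⟨k, hk, rfl, rfl⟩ | ⟨k, hk, rfl, rfl⟩ | ⟨k, hk, rfl, rfl⟩)
    · exact Or.inl ⟨rfl, ⟨k, rfl⟩, by omega, by omega⟩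
    · exact Or.inr (Or.inl ⟨rfl, by omega, by omega⟩)
    · exact Or.inr (Or.inr ⟨rfl, by omega, by omega⟩)
  · rintro (⟨rfl, ⟨k, rfl⟩, h1, h2⟩ | ⟨rfl, h1, h2⟩ | ⟨rfl, h1, h2⟩)
    · exact Or.inl ⟨k.toNat, by omega, by omega, rfl⟩
    · exact Or.inr (Or.inl ⟨s1.toNat, by omega, by omega, rfl⟩)
    · exact Or.inr (Or.inr ⟨(s1 + 1).toNat, by omega, by omega, rfl⟩)

theorem aff_sub (o d u p : Pt) (j : ℤ) : aff o d u p - j • d = aff o d u (p.1 - j, p.2) := by
  unfold aff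
  simp only
  module

theorem aff_addd (o d u p : Pt) : aff o d u p + d = aff o d u (p.1 + 1, p.2) := by
  unfold aff
  simp only
  module

theorem det_dir {o d u : Pt} (hd : det d u = 1) (p q : Pt) :
    det d (aff o d u q - aff o d u p) = q.2 - p.2 := by
  have : aff o d u q - aff o d u p = (q.1 - p.1) • d + (q.2 - p.2) • u := by
    unfold aff; module
  rw [this, det_add_right, det_smul_right, det_smul_right, det_self, hd]
  ring

/-- the good positions are predicted -/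
theorem pc_of {K l a : ℕ} (hl : 1 ≤ l) (ha : a ≤ 2 * l) {o d u : Pt} (hlex : LexPos d) (hd : det d u = 1)
    {E' : Pt → Pt → Prop} (hE : ∀ p q, Can l a p q → E' (aff o d u p) (aff o d u q))
    {s : Pt} (hs : PosS l a s) (hb : s ∉ badP K l a) :
    PCpos K E' (o + o + s.1 • d + s.2 • u) := by
  obtain ⟨s1, s2⟩ := s
  have hb' : ∀ k : ℕ, k < K → ¬ ((s1 = 2 * (k : ℤ) + 1 ∧ s2 = 0) ∨ (s1 = k ∧ s2 = 1) ∨
      (s1 = a + k ∧ s2 = 1) ∨ (s1 = k - 1 ∧ s2 = -1) ∨ (s1 = 2 * (l : ℤ) - 1 - a + k ∧ s2 = -1)) := by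
    intro k hk hc
    apply hb
    unfold badP
    simp only [Finset.mem_union, Finset.mem_image, Finset.mem_range, Prod.mk.injEq]
    rcases hc with ⟨h1, h2⟩ | ⟨h1, h2⟩ | ⟨h1, h2⟩ | ⟨h1, h2⟩ | ⟨h1, h2⟩
    · exact Or.inl ⟨k, hk, h1.symm, h2.symm⟩
    · exact Or.inr (Or.inl ⟨k, hk, h1.symm, h2.symm⟩)
    · exact Or.inr (Or.inr (Or.inl ⟨k, hk, h1.symm, h2.symm⟩))
    · exact Or.inr (Or.inr (Or.inr (Or.inl ⟨k, hk, h1.symm, h2.symm⟩)))
    · exact Or.inr (Or.inr (Or.inr (Or.inr ⟨k, hk, h1.symm, h2.symm⟩)))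
  unfold PosS at hs
  simp only at hs ⊢
  rcases hs with ⟨rfl, ⟨k, rfl⟩, h1, h2⟩ | ⟨rfl, h1, h2⟩ | ⟨rfl, h1, h2⟩
  · -- row
    have hk : (K : ℤ) ≤ k := by
      by_contra hlt
      push Not at hlt
      exact hb' k.toNat (by omega) (Or.inl ⟨by omega, rfl⟩)
    left
    refine ⟨aff o d u (k, 0), d, hlex, ?_, ?_, ?_⟩
    · unfold aff; simp only; module
    · rw [aff_addd]
      exact hE _ _ (Or.inl (Or.inl ⟨k, by omega, by omega, rfl, rfl⟩))
    · intro j hj1 hj2
      rw [aff_sub, aff_addd]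
      exact hE _ _ (Or.inl (Or.inl ⟨k - j, by omega, by omega, rfl, rfl⟩))
  · -- top
    right
    by_cases hj : s1 ≤ a
    · have hk : (K : ℤ) ≤ s1 := by
        by_contra hlt
        push Not at hlt
        exact hb' s1.toNat (by omega) (Or.inr (Or.inl ⟨by omega, rfl⟩))
      refine ⟨aff o d u (0, 0), aff o d u (s1, 1), d, hlex, ?_, ?_, ?_, ?_⟩
      · unfold aff; simp only; module
      · exact hE _ _ (Or.inl (Or.inr (Or.inl ⟨s1, by omega, by omega, rfl, rfl⟩)))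
      · left; rw [det_dir hd]; norm_num
      · intro j hj1 hj2
        rw [aff_sub]
        exact hE _ _ (Or.inl (Or.inr (Or.inl ⟨s1 - j, by omega, by omega, rfl, rfl⟩)))
    · have hk : (K : ℤ) ≤ s1 - a := by
        by_contra hlt
        push Not at hlt
        exact hb' (s1 - a).toNat (by omega) (Or.inr (Or.inr (Or.inl ⟨by omega, rfl⟩)))
      refine ⟨aff o d u ((a : ℤ), 1), aff o d u (s1 - a, 0), d, hlex, ?_, ?_, ?_, ?_⟩
      · unfold aff; simp only; module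
      · exact hE _ _ (Or.inr (Or.inr (Or.inr (Or.inl ⟨s1 - a, by omega, by omega, rfl, rfl⟩))))
      · right; rw [det_dir hd]; norm_num
      · intro j hj1 hj2
        rw [aff_sub]
        by_cases h0 : s1 - a - j = 0
        · refine hE _ _ (Or.inr (Or.inr (Or.inl ⟨a, by omega, by omega, ?_, rfl⟩)))
          simp only [h0]
        · exact hE _ _ (Or.inr (Or.inr (Or.inr (Or.inl ⟨s1 - a - j, by omega, by omega, rfl, rfl⟩))))
  · -- bottom
    right
    by_cases hj : s1 ≤ 2 * l - 1 - a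
    · have hk : (K : ℤ) ≤ s1 + 1 := by
        by_contra hlt
        push Not at hlt
        exact hb' (s1 + 1).toNat (by omega) (Or.inr (Or.inr (Or.inr (Or.inl ⟨by omega, rfl⟩))))
      refine ⟨aff o d u (0, 0), aff o d u (s1, -1), d, hlex, ?_, ?_, ?_, ?_⟩
      · unfold aff; simp only; module
      · exact hE _ _ (Or.inl (Or.inr (Or.inr (Or.inr (Or.inl ⟨s1, by omega, by omega, rfl, rfl⟩)))))
      · right; rw [det_dir hd]; norm_num
      · intro j hj1 hj2
        rw [aff_sub]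
        exact hE _ _ (Or.inl (Or.inr (Or.inr (Or.inr (Or.inl
          ⟨s1 - j, by omega, by omega, rfl, rfl⟩)))))
    · have hk : (K : ℤ) ≤ s1 - (2 * l - 1 - a) := by
        by_contra hlt
        push Not at hlt
        exact hb' (s1 - (2 * l - 1 - a)).toNat (by omega)
          (Or.inr (Or.inr (Or.inr (Or.inr ⟨by omega, rfl⟩))))
      refine ⟨aff o d u (2 * (l : ℤ) - 1 - a, -1), aff o d u (s1 - (2 * l - 1 - a), 0), d, hlex,
        ?_, ?_, ?_, ?_⟩
      · unfold aff; simp only; module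
      · exact hE _ _ (Or.inr (Or.inr (Or.inr (Or.inr (Or.inr
          ⟨s1 - (2 * l - 1 - a), by omega, by omega, rfl, rfl⟩)))))
      · left; rw [det_dir hd]; norm_num
      · intro j hj1 hj2
        rw [aff_sub]
        by_cases h0 : s1 - (2 * l - 1 - a) - j = 0
        · refine hE _ _ (Or.inr (Or.inr (Or.inr (Or.inr (Or.inl
            ⟨2 * (l : ℤ) - 1 - a, by omega, by omega, ?_, rfl⟩)))))
          simp only [h0]
        · exact hE _ _ (Or.inr (Or.inr (Or.inr (Or.inr (Or.inr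
            ⟨s1 - (2 * l - 1 - a) - j, by omega, by omega, rfl, rfl⟩)))))

end Canon

/-- all but `5 K` inner positions are predicted -/
theorem can_pc (K : ℕ) {S : Shp} (hlex : LexPos S.d) (hd : det S.d S.u = 1) (hl : 1 ≤ S.l)
    (ha : S.a ≤ 2 * S.l) {E' : Pt → Pt → Prop} (hE : ∀ x y, S.push (Can S.l S.a) x y → E' x y) :
    5 * S.l ≤ ({t | t ∈ S.pos ∧ PCpos K E' t} : Set Pt).ncard + (5 * K + 1) := by
  classical
  set f : Pt → Pt := fun s => S.o + S.o + s.1 • S.d + s.2 • S.u with hf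
  have hinj : Function.Injective f := by
    intro x y h
    have h1 : x.1 • S.d + x.2 • S.u = y.1 • S.d + y.2 • S.u := by
      have : S.o + S.o + (x.1 • S.d + x.2 • S.u) = S.o + S.o + (y.1 • S.d + y.2 • S.u) := by
        simpa [hf, add_assoc] using h
      exact add_left_cancel this
    have h2 := congrArg (fun z => det z S.u) h1
    have h3 := congrArg (fun z => det S.d z) h1
    simp only [det_add_left, det_smul_left, det_self, hd] at h2
    simp only [det_add_right, det_smul_right, det_self, hd] at h3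
    ext <;> linarith
  have hE' : ∀ p q, Can S.l S.a p q → E' (aff S.o S.d S.u p) (aff S.o S.d S.u q) :=
    fun p q h => hE _ _ ⟨p, q, h, rfl, rfl⟩
  have hfin : ({t | t ∈ S.pos ∧ PCpos K E' t} : Set Pt).Finite := by
    refine ((allP S.l S.a).finite_toSet.image f).subset ?_
    rintro t ⟨⟨s, hs, rfl⟩, _⟩
    exact ⟨s, (mem_allP hl ha).2 hs, rfl⟩
  have hsub : (((allP S.l S.a \ badP K S.l S.a).image f : Finset Pt) : Set Pt) ⊆
      {t | t ∈ S.pos ∧ PCpos K E' t} := by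
    intro t ht
    rw [Finset.mem_coe, Finset.mem_image] at ht
    obtain ⟨s, hs, rfl⟩ := ht
    rw [Finset.mem_sdiff, mem_allP hl ha] at hs
    exact ⟨⟨s, hs.1, rfl⟩, pc_of hl ha hlex hd hE' hs.1 hs.2⟩
  have h1 := Set.ncard_le_ncard hsub hfin
  rw [Set.ncard_coe_finset, Finset.card_image_of_injective _ hinj] at h1
  have h2 := Finset.le_card_sdiff (badP K S.l S.a) (allP S.l S.a)
  have h3 := allP_card hl ha
  have h4 := badP_card K S.l S.a
  omega

end Pool.Agent.MP01b126
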