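import Mathlib

/-!
# MP_01b126_co, COUNTING: the weighted count of sequences with local predictors (piece C2)
-/

namespace Pool.Agent.MP01b126

open Classical in
/-- the factor of one coordinate -/
noncomputable def codeWt {α : Type*} {M : ℕ} (z : ℝ) (pr : (Fin M → α) → Fin M → Option α)
    (f : Fin M → α) (k : Fin M) : ℝ :=
  (if pr f k = none then (1 / 2 : ℝ) else 1) *
    (if ∃ c, pr f k = some c ∧ c ≠ f k then z else 1)

theorem codeWt_nonneg {α : Type*} {M : ℕ} {z : ℝ} (hz0 : 0 ≤ z)
    (pr : (Fin M → α) → Fin M → Option α) (f : Fin M → α) (k : Fin M) : 0 ≤ codeWt z pr f k := by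
  unfold codeWt
  refine mul_nonneg ?_ ?_
  · split_ifs <;> norm_num
  · split_ifs
    · exact hz0
    · norm_num

theorem codeWt_none {α : Type*} {M : ℕ} {z : ℝ}
    {pr : (Fin M → α) → Fin M → Option α} {f : Fin M → α} {k : Fin M} (h : pr f k = none) :
    codeWt z pr f k = 1 / 2 := by
  classical
  unfold codeWt
  rw [if_pos h, if_neg, mul_one]
  rintro ⟨c, hc, -⟩
  rw [h] at hc
  exact absurd hc (by simp)

open Classical in
theorem codeWt_some {α : Type*} {M : ℕ} {z : ℝ}
    {pr : (Fin M → α) → Fin M → Option α} {f : Fin M → α} {k : Fin M} {c : α}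
    (h : pr f k = some c) : codeWt z pr f k = if c ≠ f k then z else 1 := by
  unfold codeWt
  rw [if_neg (by rw [h]; simp), one_mul]
  congr 1
  apply propext
  constructor
  · rintro ⟨c', h1, h2⟩
    rw [h] at h1
    rw [Option.some.inj h1]
    exact h2
  · intro h2
    exact ⟨c, h, h2⟩

open Classical in
theorem code_prod {α : Type*} (z : ℝ) (hz0 : 0 ≤ z) (hz1 : z ≤ 1) (M : ℕ) :
    ∀ (F : Finset (Fin M → α)) (pr : (Fin M → α) → Fin M → Option α),
    (∀ f ∈ F, ∀ g ∈ F, ∀ k, (∀ j, j < k → f j = g j) → pr f k = pr g k) →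
    (∀ f ∈ F, ∀ g ∈ F, ∀ h ∈ F, ∀ k, (∀ j, j < k → f j = g j) →
      (∀ j, j < k → f j = h j) → f k = g k ∨ f k = h k ∨ g k = h k) →
    ∑ f ∈ F, ∏ k, codeWt z pr f k ≤ (1 + z) ^ M := by
  induction M with
  | zero =>
    intro F pr _ _
    simp only [Finset.univ_eq_empty, Finset.prod_empty, Finset.sum_const, nsmul_eq_mul, mul_one,
      pow_zero]
    exact_mod_cast Finset.card_le_one_of_subsingleton F
  | succ N ih =>
    intro F pr hloc h2
    -- agreement of the initial parts
    have hag : ∀ (f g : Fin (N + 1) → α), Fin.init f = Fin.init g → ∀ k : Fin (N + 1),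
        ∀ j, j < k → f j = g j := by
      intro f g hfg k j hj
      have hj' : (j : ℕ) < N := lt_of_lt_of_le hj (Nat.lt_succ_iff.mp k.2)
      have := congrFun hfg ⟨j, hj'⟩
      simpa [Fin.init] using this
    have hext : ∀ (f g : Fin (N + 1) → α), Fin.init f = Fin.init g →
        f (Fin.last N) = g (Fin.last N) → f = g := by
      intro f g h3 h4
      rw [← Fin.snoc_init_self f, ← Fin.snoc_init_self g, h3, h4]
    -- the last factor
    have hlast : ∀ y : Fin N → α,
        ∑ x ∈ F.filter (fun x => (Fin.init x : Fin N → α) = y), codeWt z pr x (Fin.last N)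
          ≤ 1 + z := by
      intro y
      set S := F.filter (fun x => (Fin.init x : Fin N → α) = y) with hS
      have hmem : ∀ x, x ∈ S ↔ x ∈ F ∧ (Fin.init x : Fin N → α) = y := by
        intro x; rw [hS, Finset.mem_filter]
      have hcard : S.card ≤ 2 := by
        by_contra hc
        push Not at hc
        obtain ⟨a, b, c, ha, hb, hc', hab, hac, hbc⟩ := Finset.two_lt_card_iff.mp hc
        rw [hmem] at ha hb hc'
        have e1 : (Fin.init a : Fin N → α) = Fin.init b := ha.2.trans hb.2.symm
        have e2 : (Fin.init a : Fin N → α) = Fin.init c := ha.2.trans hc'.2.symm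
        rcases h2 a ha.1 b hb.1 c hc'.1 (Fin.last N) (hag a b e1 _) (hag a c e2 _) with h | h | h
        · exact hab (hext a b e1 h)
        · exact hac (hext a c e2 h)
        · exact hbc (hext b c (e1.symm.trans e2) h)
      rcases S.eq_empty_or_nonempty with he | ⟨x0, hx0⟩
      · rw [he, Finset.sum_empty]; linarith
      have hP : ∀ x ∈ S, pr x (Fin.last N) = pr x0 (Fin.last N) := by
        intro x hx
        have h3 := (hmem x).mp hx
        have h4 := (hmem x0).mp hx0
        exact hloc x h3.1 x0 h4.1 _ (hag x x0 (h3.2.trans h4.2.symm) _)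
      rcases hp : pr x0 (Fin.last N) with _ | c
      · have : ∀ x ∈ S, codeWt z pr x (Fin.last N) = 1 / 2 := fun x hx =>
          codeWt_none (by rw [hP x hx, hp])
        rw [Finset.sum_congr rfl this, Finset.sum_const, nsmul_eq_mul]
        have : (S.card : ℝ) ≤ 2 := by exact_mod_cast hcard
        linarith
      · have : ∀ x ∈ S, codeWt z pr x (Fin.last N) = if c ≠ x (Fin.last N) then z else 1 :=
          fun x hx => codeWt_some (by rw [hP x hx, hp])
        rw [Finset.sum_congr rfl this, Finset.sum_ite, Finset.sum_const, Finset.sum_const,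
          nsmul_eq_mul, nsmul_eq_mul, mul_one]
        have hsum := Finset.card_filter_add_card_filter_not (s := S)
          (p := fun x => c ≠ x (Fin.last N))
        have hone : (S.filter (fun x => ¬ c ≠ x (Fin.last N))).card ≤ 1 := by
          rw [Finset.card_le_one]
          intro a ha b hb
          rw [Finset.mem_filter, not_not] at ha hb
          have h3 := (hmem a).mp ha.1
          have h4 := (hmem b).mp hb.1
          exact hext a b (h3.2.trans h4.2.symm) (ha.2.symm.trans hb.2)
        set p := (S.filter (fun x => c ≠ x (Fin.last N))).card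
        set q := (S.filter (fun x => ¬ c ≠ x (Fin.last N))).card
        have hpq : (p : ℝ) + q ≤ 2 := by
          have : p + q ≤ 2 := by omega
          exact_mod_cast this
        have hq : (q : ℝ) ≤ 1 := by exact_mod_cast hone
        have hq0 : (0 : ℝ) ≤ q := Nat.cast_nonneg q
        have h5 : (p : ℝ) * z ≤ (2 - q) * z := mul_le_mul_of_nonneg_right (by linarith) hz0
        have h6 : 0 ≤ (1 - (q : ℝ)) * (1 - z) := mul_nonneg (by linarith) (by linarith)
        nlinarith
    -- the initial parts
    set F' : Finset (Fin N → α) := F.image (fun x => (Fin.init x : Fin N → α)) with hF'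
    have hrep : ∀ y : Fin N → α, y ∈ F' → ∃ x ∈ F, (Fin.init x : Fin N → α) = y := by
      intro y hy
      rw [hF', Finset.mem_image] at hy
      exact hy
    choose rep hrepF hrepI using hrep
    let pr' : (Fin N → α) → Fin N → Option α := fun y k =>
      if h : y ∈ F' then pr (rep y h) k.castSucc else none
    have hpr' : ∀ x ∈ F, ∀ k : Fin N, pr' (Fin.init x) k = pr x k.castSucc := by
      intro x hx k
      have hy : (Fin.init x : Fin N → α) ∈ F' := Finset.mem_image_of_mem _ hx
      change (if h : (Fin.init x : Fin N → α) ∈ F' then pr (rep _ h) k.castSucc else none) = _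
      rw [dif_pos hy]
      exact hloc _ (hrepF _ hy) _ hx _ (hag _ _ (hrepI _ hy) _)
    have hagc : ∀ y (hy : y ∈ F') y' (hy' : y' ∈ F') (k : Fin N), (∀ j, j < k → y j = y' j) →
        ∀ j, j < k.castSucc → rep y hy j = rep y' hy' j := by
      intro y hy y' hy' k hk j hj
      have hj' : (j : ℕ) < k := hj
      have h3 := congrFun (hrepI y hy) ⟨j, hj'.trans k.2⟩
      have h4 := congrFun (hrepI y' hy') ⟨j, hj'.trans k.2⟩
      have h5 := hk ⟨j, hj'.trans k.2⟩ hj'
      have h6 : (⟨j, hj'.trans k.2⟩ : Fin N).castSucc = j := rfl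
      simp only [Fin.init] at h3 h4
      rw [h6] at h3 h4
      rw [h3, h4, h5]
    have hval : ∀ y (hy : y ∈ F') (k : Fin N), rep y hy k.castSucc = y k := by
      intro y hy k
      exact congrFun (hrepI y hy) k
    have hmain := ih F' pr' (by
      intro f hf g hg k hk
      change (if h : f ∈ F' then pr (rep _ h) k.castSucc else none) =
        (if h : g ∈ F' then pr (rep _ h) k.castSucc else none)
      rw [dif_pos hf, dif_pos hg]
      exact hloc _ (hrepF _ hf) _ (hrepF _ hg) _ (hagc f hf g hg k hk)) (by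
      intro f hf g hg h hh k hk1 hk2
      have := h2 _ (hrepF _ hf) _ (hrepF _ hg) _ (hrepF _ hh) k.castSucc
        (hagc f hf g hg k hk1) (hagc f hf h hh k hk2)
      rw [hval, hval, hval] at this
      exact this)
    have hprod : ∀ x ∈ F, ∏ k, codeWt z pr x k =
        (∏ k : Fin N, codeWt z pr' (Fin.init x) k) * codeWt z pr x (Fin.last N) := by
      intro x hx
      rw [Fin.prod_univ_castSucc]
      congr 1
      refine Finset.prod_congr rfl fun k _ => ?_
      unfold codeWt
      rw [hpr' x hx k]
      rfl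
    calc ∑ f ∈ F, ∏ k, codeWt z pr f k
        = ∑ f ∈ F, (∏ k : Fin N, codeWt z pr' (Fin.init f) k) * codeWt z pr f (Fin.last N) :=
          Finset.sum_congr rfl hprod
      _ = ∑ y ∈ F', ∑ f ∈ F with (Fin.init f : Fin N → α) = y,
            (∏ k : Fin N, codeWt z pr' (Fin.init f) k) * codeWt z pr f (Fin.last N) :=
          (Finset.sum_fiberwise_of_maps_to (fun x hx => Finset.mem_image_of_mem _ hx) _).symm
      _ = ∑ y ∈ F', (∏ k : Fin N, codeWt z pr' y k) *
            ∑ f ∈ F with (Fin.init f : Fin N → α) = y, codeWt z pr f (Fin.last N) := by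
          refine Finset.sum_congr rfl fun y _ => ?_
          rw [Finset.mul_sum]
          refine Finset.sum_congr rfl fun x hx => ?_
          rw [(Finset.mem_filter.mp hx).2]
      _ ≤ ∑ y ∈ F', (∏ k : Fin N, codeWt z pr' y k) * (1 + z) := by
          refine Finset.sum_le_sum fun y _ => ?_
          exact mul_le_mul_of_nonneg_left (hlast y)
            (Finset.prod_nonneg fun k _ => codeWt_nonneg hz0 _ _ _)
      _ = (∑ y ∈ F', ∏ k : Fin N, codeWt z pr' y k) * (1 + z) := by rw [Finset.sum_mul]
      _ ≤ (1 + z) ^ N * (1 + z) := mul_le_mul_of_nonneg_right hmain (by linarith)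
      _ = (1 + z) ^ (N + 1) := (pow_succ _ _).symm

open Classical in
theorem code_sum {α : Type*} (M : ℕ) (F : Finset (Fin M → α))
    (pr : (Fin M → α) → Fin M → Option α)
    (hloc : ∀ f ∈ F, ∀ g ∈ F, ∀ k, (∀ j, j < k → f j = g j) → pr f k = pr g k)
    (h2 : ∀ f ∈ F, ∀ g ∈ F, ∀ h ∈ F, ∀ k, (∀ j, j < k → f j = g j) →
      (∀ j, j < k → f j = h j) → f k = g k ∨ f k = h k ∨ g k = h k)
    (z : ℝ) (hz0 : 0 ≤ z) (hz1 : z ≤ 1) :
    ∑ f ∈ F, (1 / 2 : ℝ) ^ (Finset.univ.filter fun k => pr f k = none).card *
      z ^ (Finset.univ.filter fun k => ∃ c, pr f k = some c ∧ c ≠ f k).card ≤ (1 + z) ^ M := by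
  refine le_trans (le_of_eq ?_) (code_prod z hz0 hz1 M F pr hloc h2)
  refine Finset.sum_congr rfl fun f _ => ?_
  unfold codeWt
  rw [Finset.prod_mul_distrib, ← Finset.prod_const, ← Finset.prod_const, Finset.prod_filter,
    Finset.prod_filter]

end Pool.Agent.MP01b126
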