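import Pool.Agent.Lib.MP_01b126_co.Assembly
import Pool.Agent.Lib.MP_01b126_co.Cnt.Anclin
import Pool.Agent.Lib.MP_01b126_co.Cnt.Code
import Pool.Agent.Lib.MP_01b126_co.Cnt.Ends

/-!
# MP_01b126_co, COUNTING: the code theorem
-/

namespace Pool.Agent.MP01b126

namespace CT

variable {m n : ℕ} {E : Pt → Pt → Prop}

/-! ### positions in lexicographic order -/

theorem pos_finite (m n : ℕ) :
    {s : Lex (ℤ × ℤ) | InR2 m n (ofLex s) ∧ ¬ (Even (ofLex s).1 ∧ Even (ofLex s).2)}.Finite := by
  have h1 : {s : Pt | InR2 m n s}.Finite := by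
    refine ((Set.finite_Icc (0 : ℤ) (2 * m)).prod (Set.finite_Icc (0 : ℤ) (2 * n))).subset ?_
    rintro ⟨p1, p2⟩ ⟨h1, h2, h3, h4⟩
    exact ⟨⟨h1, h2⟩, ⟨h3, h4⟩⟩
  have h2 := h1.image (toLex : ℤ × ℤ → Lex (ℤ × ℤ))
  apply h2.subset
  rintro s ⟨hs, _⟩
  exact ⟨ofLex s, hs, rfl⟩

/-- the positions as a finset of the lexicographic order -/
noncomputable def PosF (m n : ℕ) : Finset (Lex (ℤ × ℤ)) := (pos_finite m n).toFinset

theorem mem_PosF {s : Lex (ℤ × ℤ)} : s ∈ PosF m n ↔
    InR2 m n (ofLex s) ∧ ¬ (Even (ofLex s).1 ∧ Even (ofLex s).2) := by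
  simp only [PosF, Set.Finite.mem_toFinset, Set.mem_ofPred_eq]

theorem card_PosF (m n : ℕ) : (PosF m n).card = npos m n := by
  rw [← npos_card, PosF, ← Set.ncard_eq_toFinset_card _ (pos_finite m n)]
  apply Set.ncard_congr (fun s _ => ofLex s)
  · intro s hs; exact hs
  · intro s t _ _ h; exact h
  · intro s hs; exact ⟨toLex s, hs, rfl⟩

/-- the `k`-th position -/
noncomputable def ps (m n : ℕ) (k : Fin (npos m n)) : Pt :=
  ofLex ((PosF m n).orderIsoOfFin (card_PosF m n) k : Lex (ℤ × ℤ))

theorem ps_mem (k : Fin (npos m n)) :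
    InR2 m n (ps m n k) ∧ ¬ (Even (ps m n k).1 ∧ Even (ps m n k).2) :=
  mem_PosF.mp ((PosF m n).orderIsoOfFin (card_PosF m n) k).2

theorem ps_surj {s : Pt} (h : InR2 m n s) (ho : ¬ (Even s.1 ∧ Even s.2)) : ∃ k, ps m n k = s := by
  have hs : toLex s ∈ PosF m n := mem_PosF.mpr ⟨h, ho⟩
  refine ⟨((PosF m n).orderIsoOfFin (card_PosF m n)).symm ⟨toLex s, hs⟩, ?_⟩
  simp [ps]

theorem lexPos_iff {s t : Pt} : LexPos (t - s) ↔ toLex s < toLex t := by
  rw [Prod.Lex.toLex_lt_toLex]
  simp only [LexPos, Prod.fst_sub, Prod.snd_sub]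
  constructor
  · rintro (h | ⟨h1, h2⟩)
    · left; omega
    · right; constructor <;> omega
  · rintro (h | ⟨h1, h2⟩)
    · left; omega
    · right; constructor <;> omega

theorem ps_lt {j k : Fin (npos m n)} : LexPos (ps m n k - ps m n j) ↔ j < k := by
  rw [lexPos_iff]
  simp only [ps, toLex_ofLex]
  rw [Subtype.coe_lt_coe, OrderIso.lt_iff_lt]

theorem ps_inj {j k : Fin (npos m n)} (h : ps m n j = ps m n k) : j = k := by
  have h1 : ((PosF m n).orderIsoOfFin (card_PosF m n) j : Lex (ℤ × ℤ)) =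
      (PosF m n).orderIsoOfFin (card_PosF m n) k := by
    simpa [ps] using h
  exact ((PosF m n).orderIsoOfFin (card_PosF m n)).injective (Subtype.ext h1)

/-! ### directions -/

theorem lexPos_or {d : Pt} (h : d ≠ 0) : LexPos d ∨ LexPos (-d) := by
  unfold LexPos
  simp only [Prod.fst_neg, Prod.snd_neg]
  by_contra hc
  push Not at hc
  obtain ⟨⟨h1, h2⟩, h3, h4⟩ := hc
  apply h
  have e1 : d.1 = 0 := by omega
  have e2 : d.2 = 0 := by
    have := h2 e1
    have := h4 (by omega)
    omega
  exact Prod.ext e1 e2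

theorem lexPos_not {d : Pt} (h : LexPos d) : ¬ LexPos (-d) := by
  unfold LexPos at *
  simp only [Prod.fst_neg, Prod.snd_neg]
  omega

theorem lexPos_smul {d : Pt} (h : LexPos d) {j : ℤ} (hj : 0 < j) : LexPos (j • d) := by
  unfold LexPos at *
  simp only [Prod.smul_fst, Prod.smul_snd, smul_eq_mul]
  rcases h with h | ⟨h1, h2⟩
  · left; exact mul_pos hj h
  · right; exact ⟨by rw [h1, mul_zero], mul_pos hj h2⟩

/-- the sum of the endpoints of an edge is a position -/
theorem sum_pos (h : IsTri m n E) {a b : Pt} (hab : E a b) :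
    InR2 m n (a + b) ∧ ¬ (Even (a + b).1 ∧ Even (a + b).2) := by
  obtain ⟨a1, a2, a3, a4⟩ := h.inR _ _ hab
  obtain ⟨b1, b2, b3, b4⟩ := h.inR' hab
  refine ⟨⟨?_, ?_, ?_, ?_⟩, ?_⟩
  · simp only [Prod.fst_add]; omega
  · simp only [Prod.fst_add]; omega
  · simp only [Prod.snd_add]; omega
  · simp only [Prod.snd_add]; omega
  · rintro ⟨h1, h2⟩
    apply (h.prim _ _ hab).not_even
    simp only [Prod.fst_add, Prod.snd_add] at h1 h2
    simp only [Prod.fst_sub, Prod.snd_sub]
    rw [Int.even_iff] at h1 h2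
    rw [Int.even_iff, Int.even_iff]
    constructor <;> omega

theorem hasDir_exists (h : IsTri m n E) {s : Pt} (hs : InR2 m n s) (ho : ¬ (Even s.1 ∧ Even s.2)) :
    ∃ d, HasDir E s d := by
  obtain ⟨a, b, hab, hsum⟩ := h.full' hs ho
  have hne : b - a ≠ 0 := sub_ne_zero.mpr (h.ne hab).symm
  rcases lexPos_or hne with h1 | h1
  · exact ⟨b - a, h1, a, by rw [add_sub_cancel]; exact hab, by rw [add_sub_cancel]; exact hsum⟩
  · refine ⟨-(b - a), h1, b, ?_, ?_⟩
    · have : b + -(b - a) = a := by abel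
      rw [this]; exact h.symm _ _ hab
    · have : b + -(b - a) = a := by abel
      rw [this, add_comm]; exact hsum

theorem hasDir_unique (h : IsTri m n E) {s d d' : Pt} (h1 : HasDir E s d) (h2 : HasDir E s d') :
    d = d' := by
  obtain ⟨p1, a, hE, hs⟩ := h1
  obtain ⟨p2, a', hE', hs'⟩ := h2
  rcases h.mid_unique hE hE' (by rw [hs, hs']) with ⟨e1, e2⟩ | ⟨e1, e2⟩
  · rw [e1] at e2; exact (add_left_cancel e2).symm
  · exfalso
    apply lexPos_not p1
    have : d' = -d := by
      have e3 : a + d + d' = a := by rw [← e1]; exact e2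
      have : d' = (a + d + d') - a - d := by abel
      rw [this, e3]; abel
    rw [← this]; exact p2

/-- an edge determines the direction at its position -/
theorem hasDir_of_edge {a b c : Pt} (hsym : ∀ a b, E a b → E b a) (hab : E a b) (hc : LexPos c)
    (h : c = b - a ∨ c = a - b) : HasDir E (a + b) c := by
  rcases h with rfl | rfl
  · exact ⟨hc, a, by rw [add_sub_cancel]; exact hab, by rw [add_sub_cancel]⟩
  · exact ⟨hc, b, by rw [add_sub_cancel]; exact hsym _ _ hab, by rw [add_sub_cancel, add_comm]⟩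

open Classical in
/-- the direction at a position -/
noncomputable def dirOf (E : Pt → Pt → Prop) (s : Pt) : Pt :=
  if h : ∃ d, HasDir E s d then h.choose else 0

theorem dirOf_spec (h : IsTri m n E) {s : Pt} (hs : InR2 m n s) (ho : ¬ (Even s.1 ∧ Even s.2)) :
    HasDir E s (dirOf E s) := by
  have hex := hasDir_exists h hs ho
  rw [dirOf, dif_pos hex]
  exact hex.choose_spec

/-- the code word -/
noncomputable def cw (m n : ℕ) (E : Pt → Pt → Prop) (k : Fin (npos m n)) : Pt := dirOf E (ps m n k)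

theorem cw_spec (h : IsTri m n E) (k : Fin (npos m n)) : HasDir E (ps m n k) (cw m n E k) :=
  dirOf_spec h (ps_mem k).1 (ps_mem k).2

/-- edges known from the history -/
def Kn (f : Fin (npos m n) → Pt) (k : Fin (npos m n)) (a b : Pt) : Prop :=
  ∃ j, j < k ∧ a + b = ps m n j ∧ (b - a = f j ∨ a - b = f j)

theorem kn_congr {f g : Fin (npos m n) → Pt} {k : Fin (npos m n)} (h : ∀ j, j < k → f j = g j) :
    Kn f k = Kn g k := by
  funext a b
  apply propext
  constructor
  · rintro ⟨j, hj, h1, h2⟩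
    exact ⟨j, hj, h1, by rw [← h j hj]; exact h2⟩
  · rintro ⟨j, hj, h1, h2⟩
    exact ⟨j, hj, h1, by rw [h j hj]; exact h2⟩

theorem kn_iff (h : IsTri m n E) {k : Fin (npos m n)} {a b : Pt} :
    Kn (cw m n E) k a b ↔ E a b ∧ LexPos (ps m n k - (a + b)) := by
  constructor
  · rintro ⟨j, hj, h1, h2⟩
    have hd := cw_spec h j
    obtain ⟨p1, c, hE, hs⟩ := hd
    refine ⟨?_, by rw [h1, ps_lt]; exact hj⟩
    rcases h2 with h2 | h2
    · -- `b = a + d`, `2 a + d = 2 c + d`
      have e1 : a + a = c + c := by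
        have e2 : b = a + cw m n E j := by rw [← h2]; abel
        have e3 : a + b = c + (c + cw m n E j) := by rw [h1, hs]
        rw [e2] at e3
        have : a + a + cw m n E j = c + c + cw m n E j := by
          calc a + a + cw m n E j = a + (a + cw m n E j) := by abel
            _ = c + (c + cw m n E j) := e3
            _ = c + c + cw m n E j := by abel
        exact add_right_cancel this
      have e4 : a = c := by
        have f1 := congrArg Prod.fst e1
        have f2 := congrArg Prod.snd e1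
        simp only [Prod.fst_add, Prod.snd_add] at f1 f2
        exact Prod.ext (by omega) (by omega)
      have e2 : b = a + cw m n E j := by rw [← h2]; abel
      rw [e2, e4]; exact hE
    · have e1 : b + b = c + c := by
        have e2 : a = b + cw m n E j := by rw [← h2]; abel
        have e3 : a + b = c + (c + cw m n E j) := by rw [h1, hs]
        rw [e2] at e3
        have : b + b + cw m n E j = c + c + cw m n E j := by
          calc b + b + cw m n E j = (b + cw m n E j) + b := by abel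
            _ = c + (c + cw m n E j) := e3
            _ = c + c + cw m n E j := by abel
        exact add_right_cancel this
      have e4 : b = c := by
        have f1 := congrArg Prod.fst e1
        have f2 := congrArg Prod.snd e1
        simp only [Prod.fst_add, Prod.snd_add] at f1 f2
        exact Prod.ext (by omega) (by omega)
      have e2 : a = b + cw m n E j := by rw [← h2]; abel
      rw [e2, e4]; exact h.symm _ _ hE
  · rintro ⟨hab, hl⟩
    obtain ⟨j, hj⟩ := ps_surj (sum_pos h hab).1 (sum_pos h hab).2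
    refine ⟨j, ?_, hj.symm, ?_⟩
    · rw [← ps_lt, hj]; exact hl
    · have hne : b - a ≠ 0 := sub_ne_zero.mpr (h.ne hab).symm
      have hd := cw_spec h j
      rw [hj] at hd
      rcases lexPos_or hne with h1 | h1
      · left
        exact hasDir_unique h (hasDir_of_edge h.symm hab h1 (Or.inl rfl)) hd
      · right
        have h2 : LexPos (a - b) := by
          have : a - b = -(b - a) := by abel
          rw [this]; exact h1
        exact hasDir_unique h (hasDir_of_edge h.symm hab h2 (Or.inr rfl)) hd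

/-! ### the predictor -/

/-- run instance -/
def RunI (K : ℕ) (f : Fin (npos m n) → Pt) (k : Fin (npos m n)) (a d : Pt) : Prop :=
  LexPos d ∧ a + (a + d) = ps m n k ∧
    ∀ j : ℕ, 1 ≤ j → j ≤ K → Kn f k (a - (j : ℤ) • d) (a - (j : ℤ) • d + d)

/-- fan instance -/
def FanI (K : ℕ) (f : Fin (npos m n) → Pt) (k : Fin (npos m n)) (h v d : Pt) : Prop :=
  LexPos d ∧ h + v = ps m n k ∧ (det d (v - h) = 1 ∨ det d (v - h) = -1) ∧
    ∀ j : ℕ, 1 ≤ j → j ≤ K → Kn f k h (v - (j : ℤ) • d)

/-- `c` is a possible prediction -/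
def Rule (K : ℕ) (f : Fin (npos m n) → Pt) (k : Fin (npos m n)) (c : Pt) : Prop :=
  (∃ a, RunI K f k a c) ∨ (∃ h v d, FanI K f k h v d ∧ LexPos c ∧ (c = v - h ∨ c = h - v))

theorem rule_congr {K : ℕ} {f g : Fin (npos m n) → Pt} {k : Fin (npos m n)}
    (h : ∀ j, j < k → f j = g j) : Rule K f k = Rule K g k := by
  unfold Rule RunI FanI
  rw [kn_congr h]

open Classical in
/-- the predictor -/
noncomputable def pred (K : ℕ) (f : Fin (npos m n) → Pt) (k : Fin (npos m n)) : Option Pt :=
  if h : ∃ c, Rule K f k c then some h.choose else none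

theorem pred_congr {K : ℕ} {f g : Fin (npos m n) → Pt} {k : Fin (npos m n)}
    (h : ∀ j, j < k → f j = g j) : pred K f k = pred K g k := by
  unfold pred
  rw [rule_congr h]

theorem pred_some {K : ℕ} {f : Fin (npos m n) → Pt} {k : Fin (npos m n)} {c : Pt}
    (h : pred K f k = some c) : Rule K f k c := by
  unfold pred at h
  split_ifs at h with h1
  · have := h1.choose_spec
    simp only [Option.some.injEq] at h
    rw [h] at this
    exact this

theorem pred_none {K : ℕ} {f : Fin (npos m n) → Pt} {k : Fin (npos m n)}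
    (h : pred K f k = none) : ¬ ∃ c, Rule K f k c := by
  unfold pred at h
  split_ifs at h with h1
  exact h1

theorem rule_of_PC (h : IsTri m n E) {K : ℕ} {k : Fin (npos m n)} (hp : PCpos K E (ps m n k)) :
    ∃ c, Rule K (cw m n E) k c := by
  rcases hp with ⟨a, d, hd, hs, _, hj⟩ | ⟨c, v, d, hd, hs, hE, hdet, hj⟩
  · refine ⟨d, Or.inl ⟨a, hd, hs, fun j h1 h2 => ?_⟩⟩
    rw [kn_iff h]
    refine ⟨hj j h1 h2, ?_⟩
    have : ps m n k - (a - (j : ℤ) • d + (a - (j : ℤ) • d + d)) = (2 * (j : ℤ)) • d := by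
      rw [← hs, two_mul, add_smul]; abel
    rw [this]
    exact lexPos_smul hd (by omega)
  · have hne : v - c ≠ 0 := by
      intro h0
      rw [h0] at hdet
      simp at hdet
    have hrule : FanI K (cw m n E) k c v d := by
      refine ⟨hd, hs, hdet, fun j h1 h2 => ?_⟩
      rw [kn_iff h]
      refine ⟨hj j h1 h2, ?_⟩
      have : ps m n k - (c + (v - (j : ℤ) • d)) = (j : ℤ) • d := by
        rw [← hs]; abel
      rw [this]
      exact lexPos_smul hd (by omega)
    rcases lexPos_or hne with h1 | h1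
    · exact ⟨v - c, Or.inr ⟨c, v, d, hrule, h1, Or.inl rfl⟩⟩
    · refine ⟨c - v, Or.inr ⟨c, v, d, hrule, ?_, Or.inr rfl⟩⟩
      have : c - v = -(v - c) := by abel
      rw [this]; exact h1

/-- ends of runs with `K` edges -/
def RE (E : Pt → Pt → Prop) (K : ℕ) : Set (Pt × Pt) :=
  {x | LexPos x.2 ∧ (∀ j : ℕ, j < K → E (x.1 + (j : ℤ) • x.2) (x.1 + ((j : ℤ) + 1) • x.2)) ∧
      ¬ E (x.1 + (K : ℤ) • x.2) (x.1 + ((K : ℤ) + 1) • x.2)}

/-- ends of fans with `K + 1` edges -/
def FE (E : Pt → Pt → Prop) (K : ℕ) : Set (Pt × Pt × Pt) :=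
  {x | LexPos x.2.2 ∧ (det x.2.2 (x.2.1 - x.1) = 1 ∨ det x.2.2 (x.2.1 - x.1) = -1) ∧
      (∀ j : ℕ, j ≤ K → E x.1 (x.2.1 + (j : ℤ) • x.2.2)) ∧
      ¬ E x.1 (x.2.1 + ((K : ℤ) + 1) • x.2.2)}

theorem RE_finite (h : IsTri m n E) {K : ℕ} (hK : 1 ≤ K) : (RE E K).Finite := by
  have hf := (InR_finite m n).prod (InR_finite m n)
  have h2 : ((fun y : Pt × Pt => (y.1, y.2 - y.1)) '' ({p : Pt | InR m n p} ×ˢ {p : Pt | InR m n p})).Finite :=
    hf.image _
  apply h2.subset
  rintro ⟨x, d⟩ ⟨_, h3, _⟩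
  have h4 := h3 0 hK
  simp only [Nat.cast_zero, zero_smul, add_zero, zero_add, one_smul] at h4
  exact ⟨(x, x + d), ⟨h.inR _ _ h4, h.inR' h4⟩, by simp⟩

theorem FE_finite (h : IsTri m n E) {K : ℕ} (hK : 1 ≤ K) : (FE E K).Finite := by
  have hf := ((InR_finite m n).prod ((InR_finite m n).prod (InR_finite m n)))
  have h2 : ((fun y : Pt × Pt × Pt => (y.1, y.2.1, y.2.2 - y.2.1)) ''
      ({p : Pt | InR m n p} ×ˢ ({p : Pt | InR m n p} ×ˢ {p : Pt | InR m n p}))).Finite :=
    hf.image _
  apply h2.subset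
  rintro ⟨x, v, d⟩ ⟨_, _, h3, _⟩
  have h4 := h3 0 (Nat.zero_le _)
  have h5 := h3 1 hK
  simp only [Nat.cast_zero, zero_smul, add_zero] at h4
  simp only [Nat.cast_one, one_smul] at h5
  exact ⟨(x, v, v + d), ⟨h.inR _ _ h4, h.inR' h4, h.inR' h5⟩, by simp⟩

open Classical in
/-- the number of wrong predictions is small -/
theorem wrong_le (h : IsTri m n E) {K : ℕ} (hK : 1 ≤ K) :
    (Finset.univ.filter fun k => ∃ c, pred (K + 1) (cw m n E) k = some c ∧ c ≠ cw m n E k).card
      ≤ (RE E (K + 1)).ncard + (FE E K).ncard := by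
  set W := Finset.univ.filter fun k => ∃ c, pred (K + 1) (cw m n E) k = some c ∧ c ≠ cw m n E k
    with hW
  set g1 : Pt × Pt → Pt := fun x => (x.1 + ((K : ℤ) + 1) • x.2) + (x.1 + ((K : ℤ) + 2) • x.2) with hg1
  set g2 : Pt × Pt × Pt → Pt := fun x => x.1 + (x.2.1 + ((K : ℤ) + 1) • x.2.2) with hg2
  have hsub : (fun k => ps m n k) '' (W : Set (Fin (npos m n))) ⊆ g1 '' RE E (K + 1) ∪ g2 '' FE E K := by
    rintro _ ⟨k, hk, rfl⟩
    simp only [hW, Finset.coe_filter, Finset.mem_univ, true_and, Set.mem_ofPred_eq] at hk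
    obtain ⟨c, hc, hne⟩ := hk
    rcases pred_some hc with ⟨a, hr⟩ | ⟨p, v, d, hr, hcl, hcc⟩
    · left
      obtain ⟨hd, hs, hj⟩ := hr
      refine ⟨(a - ((K : ℤ) + 1) • c, c), ⟨hd, ?_, ?_⟩, ?_⟩
      · intro j hjK
        simp only
        have hj' := hj (K + 1 - j) (by omega) (by omega)
        rw [kn_iff h] at hj'
        have e1 : ((K + 1 - j : ℕ) : ℤ) = (K : ℤ) + 1 - j := by omega
        rw [e1] at hj'
        have e2 : a - ((K : ℤ) + 1) • c + (j : ℤ) • c = a - ((K : ℤ) + 1 - j) • c := by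
          rw [sub_smul]; abel
        have e3 : a - ((K : ℤ) + 1) • c + ((j : ℤ) + 1) • c = a - ((K : ℤ) + 1 - j) • c + c := by
          rw [sub_smul _ (j : ℤ), add_smul (j : ℤ), one_smul]; abel
        rw [e2, e3]
        exact hj'.1
      · simp only
        intro hE
        apply hne
        have e2 : a - ((K : ℤ) + 1) • c + ((K + 1 : ℕ) : ℤ) • c = a := by push_cast; abel
        have e3 : a - ((K : ℤ) + 1) • c + (((K + 1 : ℕ) : ℤ) + 1) • c = a + c := by
          push_cast
          rw [add_smul ((K : ℤ) + 1) 1, one_smul]; abel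
        rw [e2, e3] at hE
        have hdir : HasDir E (ps m n k) c := ⟨hd, a, hE, hs⟩
        exact hasDir_unique h hdir (cw_spec h k)
      · simp only [hg1]
        rw [← hs]
        have e3 : a - ((K : ℤ) + 1) • c + ((K : ℤ) + 2) • c = a + c := by
          have : ((K : ℤ) + 2) = ((K : ℤ) + 1) + 1 := by ring
          rw [this, add_smul ((K : ℤ) + 1) 1, one_smul]; abel
        rw [e3]; abel
    · right
      obtain ⟨hd, hs, hdet, hj⟩ := hr
      refine ⟨(p, v - ((K : ℤ) + 1) • d, d), ⟨hd, ?_, ?_, ?_⟩, ?_⟩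
      · simp only
        have : det d (v - ((K : ℤ) + 1) • d - p) = det d (v - p) := by
          have e : v - ((K : ℤ) + 1) • d - p = (v - p) - ((K : ℤ) + 1) • d := by abel
          rw [e, det_sub_right, det_smul_right, det_self]; ring
        rw [this]; exact hdet
      · intro j hjK
        simp only
        have hj' := hj (K + 1 - j) (by omega) (by omega)
        rw [kn_iff h] at hj'
        have e1 : ((K + 1 - j : ℕ) : ℤ) = (K : ℤ) + 1 - j := by omega
        rw [e1] at hj'
        have e2 : v - ((K : ℤ) + 1) • d + (j : ℤ) • d = v - ((K : ℤ) + 1 - j) • d := by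
          rw [sub_smul]; abel
        rw [e2]
        exact hj'.1
      · simp only
        intro hE
        apply hne
        have e2 : v - ((K : ℤ) + 1) • d + ((K : ℤ) + 1) • d = v := by abel
        rw [e2] at hE
        have hdir : HasDir E (p + v) c := hasDir_of_edge h.symm hE hcl hcc
        rw [hs] at hdir
        exact hasDir_unique h hdir (cw_spec h k)
      · simp only [hg2]
        rw [← hs]
        abel
  have hfin : (g1 '' RE E (K + 1) ∪ g2 '' FE E K).Finite :=
    ((RE_finite h (by omega)).image _).union ((FE_finite h hK).image _)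
  calc W.card = ((fun k => ps m n k) '' (W : Set (Fin (npos m n)))).ncard := by
        rw [Set.ncard_image_of_injective _ (fun j k hjk => ps_inj hjk), Set.ncard_coe_finset]
    _ ≤ (g1 '' RE E (K + 1) ∪ g2 '' FE E K).ncard := Set.ncard_le_ncard hsub hfin
    _ ≤ (g1 '' RE E (K + 1)).ncard + (g2 '' FE E K).ncard := Set.ncard_union_le _ _
    _ ≤ (RE E (K + 1)).ncard + (FE E K).ncard :=
        Nat.add_le_add (Set.ncard_image_le (RE_finite h (by omega))) (Set.ncard_image_le (FE_finite h hK))

open Classical in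
/-- the number of unpredicted positions -/
theorem unpred_le (h : IsTri m n E) {K X : ℕ}
    (hX : npos m n ≤ X + ({s | PCpos K E s} : Set Pt).ncard) :
    (Finset.univ.filter fun k => pred K (cw m n E) k = none).card ≤ X := by
  set U := Finset.univ.filter fun k => pred K (cw m n E) k = none with hU
  have h1 : ({s | PCpos K E s} : Set Pt).ncard ≤ (Finset.univ.filter fun k => ¬ pred K (cw m n E) k = none).card := by
    have hsub : {s | PCpos K E s} ⊆ (fun k => ps m n k) ''
        ((Finset.univ.filter fun k => ¬ pred K (cw m n E) k = none : Finset (Fin (npos m n))) : Set _) := by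
      intro s hs
      have hE : ∃ a b, E a b ∧ a + b = s := by
        rcases hs with ⟨a, d, _, hs, hE, _⟩ | ⟨c, v, d, _, hs, hE, _⟩
        · exact ⟨a, a + d, hE, hs⟩
        · exact ⟨c, v, hE, hs⟩
      obtain ⟨a, b, hab, hsum⟩ := hE
      have hp := sum_pos h hab
      rw [hsum] at hp
      obtain ⟨k, hk⟩ := ps_surj hp.1 hp.2
      refine ⟨k, ?_, hk⟩
      simp only [Finset.coe_filter, Finset.mem_univ, true_and, Set.mem_ofPred_eq]
      intro hnone
      apply pred_none hnone
      apply rule_of_PC h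
      rw [hk]; exact hs
    calc ({s | PCpos K E s} : Set Pt).ncard ≤ ((fun k => ps m n k) ''
        ((Finset.univ.filter fun k => ¬ pred K (cw m n E) k = none : Finset (Fin (npos m n))) : Set _)).ncard :=
          Set.ncard_le_ncard hsub ((Finset.finite_toSet _).image _)
      _ = _ := by
          rw [Set.ncard_image_of_injective _ (fun j k hjk => ps_inj hjk), Set.ncard_coe_finset]
  have h2 := Finset.card_filter_add_card_filter_not (s := (Finset.univ : Finset (Fin (npos m n))))
    (fun k => pred K (cw m n E) k = none)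
  rw [Finset.card_univ, Fintype.card_fin] at h2
  have h3 : U.card = (Finset.univ.filter fun k => pred K (cw m n E) k = none).card := by
    rw [hU]
  omega

theorem cw_inj {E' : Pt → Pt → Prop} (h : IsTri m n E) (h' : IsTri m n E') (heq : cw m n E = cw m n E') :
    E = E' := by
  have key : ∀ E E' : Pt → Pt → Prop, IsTri m n E → IsTri m n E' → cw m n E = cw m n E' →
      ∀ a b, E a b → E' a b := by
    intro E E' h h' heq a b hab
    obtain ⟨k, hk⟩ := ps_surj (sum_pos h hab).1 (sum_pos h hab).2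
    have hd := cw_spec h' k
    rw [hk, ← heq] at hd
    have hd0 := cw_spec h k
    rw [hk] at hd0
    have hne : b - a ≠ 0 := sub_ne_zero.mpr (h.ne hab).symm
    obtain ⟨_, c, hE, hs⟩ := hd
    rcases lexPos_or hne with h1 | h1
    · have e1 := hasDir_unique h (hasDir_of_edge h.symm hab h1 (Or.inl rfl)) hd0
      rw [← e1] at hE hs
      have e2 : c = a := by
        have f1 := congrArg Prod.fst hs
        have f2 := congrArg Prod.snd hs
        simp only [Prod.fst_add, Prod.snd_add, Prod.fst_sub, Prod.snd_sub] at f1 f2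
        exact Prod.ext (by omega) (by omega)
      rw [e2, add_sub_cancel] at hE
      exact hE
    · have h2 : LexPos (a - b) := by
        have : a - b = -(b - a) := by abel
        rw [this]; exact h1
      have e1 := hasDir_unique h (hasDir_of_edge h.symm hab h2 (Or.inr rfl)) hd0
      rw [← e1] at hE hs
      have e2 : c = b := by
        have f1 := congrArg Prod.fst hs
        have f2 := congrArg Prod.snd hs
        simp only [Prod.fst_add, Prod.snd_add, Prod.fst_sub, Prod.snd_sub] at f1 f2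
        exact Prod.ext (by omega) (by omega)
      rw [e2, add_sub_cancel] at hE
      exact h'.symm _ _ hE
  funext a b
  exact propext ⟨key E E' h h' heq a b, key E' E h' h heq.symm a b⟩

/-- agreement of the histories means agreement of the edges before the position -/
theorem agree {E' : Pt → Pt → Prop} (h : IsTri m n E) (h' : IsTri m n E') {k : Fin (npos m n)}
    (heq : ∀ j, j < k → cw m n E j = cw m n E' j) (a b : Pt) (hl : LexPos (ps m n k - (a + b))) :
    E a b ↔ E' a b := by
  have h1 := kn_iff h (k := k) (a := a) (b := b)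
  have h2 := kn_iff h' (k := k) (a := a) (b := b)
  rw [kn_congr heq] at h1
  constructor
  · intro hE
    exact (h2.mp (h1.mpr ⟨hE, hl⟩)).1
  · intro hE
    exact (h1.mp (h2.mpr ⟨hE, hl⟩)).1

open Classical in
/-- the counting inequality -/
theorem count_ineq (m n : ℕ) {K X w : ℕ} (hK : 1 ≤ K) (z : ℝ) (hz0 : 0 < z) (hz1 : z ≤ 1)
    (hw : ∀ E, IsTri m n E → (RE E (K + 1)).ncard + (FE E K).ncard ≤ w) :
    (({E | IsTri m n E ∧ npos m n ≤ X + ({s | PCpos (K + 1) E s} : Set Pt).ncard} :
      Set (Pt → Pt → Prop)).ncard : ℝ) * ((1 / 2 : ℝ) ^ X * z ^ w) ≤ (1 + z) ^ npos m n := by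
  set A : Set (Pt → Pt → Prop) :=
    {E | IsTri m n E ∧ npos m n ≤ X + ({s | PCpos (K + 1) E s} : Set Pt).ncard} with hA
  have hAf : A.Finite := (TT_finite' m n).subset (fun E hE => hE.1)
  set F : Finset (Fin (npos m n) → Pt) := hAf.toFinset.image (cw m n) with hF
  have hFm : ∀ f ∈ F, ∃ E, E ∈ A ∧ cw m n E = f := by
    intro f hf
    obtain ⟨E, hE, rfl⟩ := Finset.mem_image.mp hf
    exact ⟨E, hAf.mem_toFinset.mp hE, rfl⟩
  have hcard : F.card = A.ncard := by
    rw [hF, Finset.card_image_of_injOn, Set.ncard_eq_toFinset_card _ hAf]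
    intro E hE E' hE' heq
    exact cw_inj (hAf.mem_toFinset.mp hE).1 (hAf.mem_toFinset.mp hE').1 heq
  have hsum := code_sum (npos m n) F (pred (K + 1))
    (fun f _ g _ k hfg => pred_congr hfg)
    (by
      intro f hf g hg h hh k h1 h2
      obtain ⟨E1, hE1, rfl⟩ := hFm f hf
      obtain ⟨E2, hE2, rfl⟩ := hFm g hg
      obtain ⟨E3, hE3, rfl⟩ := hFm h hh
      exact two_cand hE1.1 hE2.1 hE3.1 (s := ps m n k)
        (fun a b hl => agree hE1.1 hE2.1 h1 a b hl) (fun a b hl => agree hE1.1 hE3.1 h2 a b hl)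
        (cw_spec hE1.1 k) (cw_spec hE2.1 k) (cw_spec hE3.1 k))
    z hz0.le hz1
  refine le_trans ?_ hsum
  rw [← hcard, ← nsmul_eq_mul]
  apply Finset.card_nsmul_le_sum
  intro f hf
  obtain ⟨E, hE, rfl⟩ := hFm f hf
  have h1 := unpred_le hE.1 hE.2
  have h2 := (wrong_le hE.1 hK).trans (hw E hE.1)
  apply mul_le_mul
  · refine pow_le_pow_of_le_one (by norm_num) (by norm_num) (le_trans (le_of_eq ?_) h1)
    congr
  · refine pow_le_pow_of_le_one hz0.le hz1 (le_trans (le_of_eq ?_) h2)
    congr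
  · positivity
  · positivity

theorem wbound {K : ℕ} (hK : 1 ≤ K) (h : IsTri m n E) :
    (RE E (K + 1)).ncard + (FE E K).ncard ≤ 13 * npos m n / K := by
  have h1 := run_ends' h (K + 1)
  have h2 := fan_ends' h K
  have h1' : (K + 1) * (RE E (K + 1)).ncard ≤ npos m n := h1
  have h2' : K * (FE E K).ncard ≤ 12 * npos m n := h2
  rw [Nat.le_div_iff_mul_le hK]
  nlinarith

end CT

theorem codeThm : CodeThm := by
  intro ε hε
  -- choice of `z`
  set z : ℝ := min 1 ((2 : ℝ) ^ (ε / 10) - 1) with hz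
  have h2e : (1 : ℝ) < (2 : ℝ) ^ (ε / 10) := Real.one_lt_rpow (by norm_num) (by positivity)
  have hz0 : 0 < z := lt_min one_pos (by linarith)
  have hz1 : z ≤ 1 := min_le_left _ _
  have hz2 : 1 + z ≤ (2 : ℝ) ^ (ε / 10) := by
    have := min_le_right (1 : ℝ) ((2 : ℝ) ^ (ε / 10) - 1)
    linarith
  set Lg : ℝ := Real.logb 2 (1 / z) with hLg
  have hLg0 : 0 ≤ Lg := Real.logb_nonneg (by norm_num) (by rw [le_div_iff₀ hz0]; linarith)
  have hzL : z = (2 : ℝ) ^ (-Lg) := by
    rw [Real.rpow_neg (by norm_num), hLg, Real.rpow_logb (by norm_num) (by norm_num) (by positivity)]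
    field_simp
  obtain ⟨K1, hK1⟩ := exists_nat_ge (130 * Lg / ε)
  refine ⟨K1 + 2, fun K hK m n hm hn X => ?_⟩
  obtain ⟨J, rfl⟩ : ∃ J, K = J + 1 := ⟨K - 1, by omega⟩
  have hJ : 1 ≤ J := by omega
  have hJK : K1 ≤ J := by omega
  set w := 13 * npos m n / J with hw
  have hcount := CT.count_ineq m n (X := X) hJ z hz0 hz1 (fun E hE => CT.wbound hJ hE)
  have hmn : (1 : ℝ) ≤ (m : ℝ) * n := by
    have h1 : (1 : ℝ) ≤ m := by exact_mod_cast hm
    have h2 : (1 : ℝ) ≤ n := by exact_mod_cast hn
    nlinarith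
  have hnpos : (npos m n : ℝ) ≤ 5 * (m * n) := by
    have h1 : m ≤ m * n := Nat.le_mul_of_pos_right _ hn
    have h2 : n ≤ m * n := Nat.le_mul_of_pos_left _ hm
    have : npos m n ≤ 5 * (m * n) := by unfold npos; nlinarith
    exact_mod_cast this
  have hJR : (0 : ℝ) < J := by exact_mod_cast hJ
  -- bound of `w`
  have hwR : (w : ℝ) * Lg ≤ ε / 2 * (m * n) := by
    have h1 : (w : ℝ) ≤ 13 * npos m n / J := by
      have := Nat.cast_div_le (α := ℝ) (m := 13 * npos m n) (n := J)
      push_cast at this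
      exact this
    have h2 : (w : ℝ) ≤ 65 * (m * n) / J := by
      refine h1.trans ?_
      rw [div_le_div_iff_of_pos_right hJR]
      linarith
    have h3 : 130 * Lg ≤ ε * J := by
      have : 130 * Lg / ε ≤ J := hK1.trans (by exact_mod_cast hJK)
      rw [div_le_iff₀ hε] at this
      linarith
    calc (w : ℝ) * Lg ≤ (65 * (m * n) / J) * Lg := mul_le_mul_of_nonneg_right h2 hLg0
      _ = (m * n) * (130 * Lg) / (2 * J) := by field_simp; ring
      _ ≤ (m * n) * (ε * J) / (2 * J) := by
          rw [div_le_div_iff_of_pos_right (by positivity)]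
          exact mul_le_mul_of_nonneg_left h3 (by positivity)
      _ = ε / 2 * (m * n) := by field_simp
  -- bound of the right hand side
  have hrhs : (1 + z) ^ npos m n ≤ (2 : ℝ) ^ (ε / 2 * (m * n)) := by
    calc (1 + z) ^ npos m n ≤ ((2 : ℝ) ^ (ε / 10)) ^ npos m n :=
          pow_le_pow_left₀ (by positivity) hz2 _
      _ = (2 : ℝ) ^ (ε / 10 * npos m n) := by rw [Real.rpow_mul (by norm_num), Real.rpow_natCast]
      _ ≤ (2 : ℝ) ^ (ε / 2 * (m * n)) := by
          apply Real.rpow_le_rpow_of_exponent_le (by norm_num)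
          calc ε / 10 * npos m n ≤ ε / 10 * (5 * (m * n)) :=
                mul_le_mul_of_nonneg_left hnpos (by positivity)
            _ = ε / 2 * (m * n) := by ring
  -- the weight of one word
  have hweight : (1 / 2 : ℝ) ^ X * z ^ w = (2 : ℝ) ^ (-(X : ℝ) - w * Lg) := by
    have e1 : (1 / 2 : ℝ) ^ X = (2 : ℝ) ^ (-(X : ℝ)) := by
      rw [Real.rpow_neg (by norm_num), Real.rpow_natCast, one_div, inv_pow]
    have e2 : z ^ w = (2 : ℝ) ^ (-Lg * w) := by
      rw [Real.rpow_mul (by norm_num), ← hzL, Real.rpow_natCast]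
    rw [e1, e2, ← Real.rpow_add (by norm_num)]
    congr 1; ring
  rw [hweight] at hcount
  have hpos : (0 : ℝ) < (2 : ℝ) ^ (-(X : ℝ) - w * Lg) := Real.rpow_pos_of_pos (by norm_num) _
  have h5 := hcount.trans hrhs
  rw [← le_div_iff₀ hpos, ← Real.rpow_sub (by norm_num)] at h5
  refine h5.trans ?_
  apply Real.rpow_le_rpow_of_exponent_le (by norm_num)
  linarith

end Pool.Agent.MP01b126
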