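import Pool.Agent.Lib.MP_01b126_co.Cnt.Shape

/-!
# MP_01b126_co, COUNTING: the number of fillings of a trapezoid

Two fillings of the trapezoid `(l, a)` (the second one turned by a half-turn) fill the parallelogram
with corners `(0,0)`, `(2l,0)`, `(2l+1,2)`, `(1,2)`; the two remaining corner triangles of the
rectangle `[0, 2l+1] × [0, 2]` are triangulated in a fixed way.
-/

namespace Pool.Agent.MP01b126

namespace FilSq

/-- two segments weakly separated by a line do not cross -/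
theorem sep {v o a b c d : Pt} (hv : v ≠ 0) (ha : 0 ≤ det v (a - o)) (hb : 0 ≤ det v (b - o))
    (hc : det v (c - o) ≤ 0) (hd : det v (d - o) ≤ 0) : ¬ Cross a b c d := by
  rintro ⟨h1, h2⟩
  obtain ⟨v1, v2⟩ := v
  obtain ⟨o1, o2⟩ := o
  obtain ⟨a1, a2⟩ := a
  obtain ⟨b1, b2⟩ := b
  obtain ⟨c1, c2⟩ := c
  obtain ⟨d1, d2⟩ := d
  simp only [det, Prod.mk_sub_mk] at *
  set La := v1 * (a2 - o2) - v2 * (a1 - o1) with hLa
  set Lb := v1 * (b2 - o2) - v2 * (b1 - o1) with hLb
  set Lc := v1 * (c2 - o2) - v2 * (c1 - o1) with hLc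
  set Ld := v1 * (d2 - o2) - v2 * (d1 - o1) with hLd
  set D1 := (b1 - a1) * (c2 - a2) - (b2 - a2) * (c1 - a1) with hD1
  set D2 := (b1 - a1) * (d2 - a2) - (b2 - a2) * (d1 - a1) with hD2
  set D3 := (d1 - c1) * (a2 - c2) - (d2 - c2) * (a1 - c1) with hD3
  set D4 := (d1 - c1) * (b2 - c2) - (d2 - c2) * (b1 - c1) with hD4
  have key : D1 * Ld - D2 * Lc = D4 * La - D3 * Lb := by
    rw [hD1, hD2, hD3, hD4, hLa, hLb, hLc, hLd]; ring
  have e1 : D1 - D2 = D4 - D3 := by
    rw [hD1, hD2, hD3, hD4]; ring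
  have z : La = 0 ∧ Lb = 0 ∧ Lc = 0 ∧ Ld = 0 := by
    rcases mul_neg_iff.mp h1 with ⟨p1, p2⟩ | ⟨p1, p2⟩
    · have hp : 0 < D4 - D3 := by linarith
      rcases mul_neg_iff.mp h2 with ⟨p3, p4⟩ | ⟨p3, p4⟩
      · linarith
      · have x1 : D1 * Ld ≤ 0 := mul_nonpos_of_nonneg_of_nonpos p1.le hd
        have x2 : 0 ≤ D2 * Lc := mul_nonneg_of_nonpos_of_nonpos p2.le hc
        have x3 : 0 ≤ D4 * La := mul_nonneg p4.le ha
        have x4 : D3 * Lb ≤ 0 := mul_nonpos_of_nonpos_of_nonneg p3.le hb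
        have y1 : D1 * Ld = 0 := by linarith
        have y2 : D2 * Lc = 0 := by linarith
        have y3 : D4 * La = 0 := by linarith
        have y4 : D3 * Lb = 0 := by linarith
        refine ⟨?_, ?_, ?_, ?_⟩
        · rcases mul_eq_zero.mp y3 with h | h
          · omega
          · exact h
        · rcases mul_eq_zero.mp y4 with h | h
          · omega
          · exact h
        · rcases mul_eq_zero.mp y2 with h | h
          · omega
          · exact h
        · rcases mul_eq_zero.mp y1 with h | h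
          · omega
          · exact h
    · have hp : D4 - D3 < 0 := by linarith
      rcases mul_neg_iff.mp h2 with ⟨p3, p4⟩ | ⟨p3, p4⟩
      · have x1 : 0 ≤ D1 * Ld := mul_nonneg_of_nonpos_of_nonpos p1.le hd
        have x2 : D2 * Lc ≤ 0 := mul_nonpos_of_nonneg_of_nonpos p2.le hc
        have x3 : D4 * La ≤ 0 := mul_nonpos_of_nonpos_of_nonneg p4.le ha
        have x4 : 0 ≤ D3 * Lb := mul_nonneg p3.le hb
        have y1 : D1 * Ld = 0 := by linarith
        have y2 : D2 * Lc = 0 := by linarith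
        have y3 : D4 * La = 0 := by linarith
        have y4 : D3 * Lb = 0 := by linarith
        refine ⟨?_, ?_, ?_, ?_⟩
        · rcases mul_eq_zero.mp y3 with h | h
          · omega
          · exact h
        · rcases mul_eq_zero.mp y4 with h | h
          · omega
          · exact h
        · rcases mul_eq_zero.mp y2 with h | h
          · omega
          · exact h
        · rcases mul_eq_zero.mp y1 with h | h
          · omega
          · exact h
      · linarith
  obtain ⟨za, zb, zc, zd⟩ := z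
  -- all four points are on one line
  have w1 : v1 * D1 = (b1 - a1) * (Lc - La) - (c1 - a1) * (Lb - La) := by
    rw [hD1, hLa, hLb, hLc]; ring
  have w2 : v2 * D1 = (b2 - a2) * (Lc - La) - (c2 - a2) * (Lb - La) := by
    rw [hD1, hLa, hLb, hLc]; ring
  rw [za, zb, zc] at w1 w2
  have hD : D1 ≠ 0 := by
    intro h; rw [h] at h1; simp at h1
  apply hv
  have q1 : v1 = 0 := by
    have : v1 * D1 = 0 := by linarith
    rcases mul_eq_zero.mp this with h | h
    · exact h
    · exact absurd h hD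
  have q2 : v2 = 0 := by
    have : v2 * D1 = 0 := by linarith
    rcases mul_eq_zero.mp this with h | h
    · exact h
    · exact absurd h hD
  rw [q1, q2]; rfl

/-- both endpoints are weakly on one side of the line through `o` with direction `v` -/
def Sd (v o x y : Pt) : Prop :=
  (0 ≤ det v (x - o) ∧ 0 ≤ det v (y - o)) ∨ (det v (x - o) ≤ 0 ∧ det v (y - o) ≤ 0)

theorem sep_line {v o a b c d : Pt} (hv : v ≠ 0) (ha : det v (a - o) = 0) (hb : det v (b - o) = 0)
    (hs : Sd v o c d) : ¬ Cross a b c d := by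
  rcases hs with ⟨h1, h2⟩ | ⟨h1, h2⟩
  · intro h
    exact sep hv h1 h2 ha.le hb.le h.symm
  · exact sep hv ha.ge hb.ge h1 h2

/-- the fixed edges (directed): boundary of the rectangle, the three slanted sides, and the two
edges in the corner triangles -/
def G (l a : ℕ) (p q : Pt) : Prop :=
  (p.2 = 0 ∧ q.2 = 0 ∧ q.1 = p.1 + 1 ∧ 0 ≤ p.1 ∧ p.1 ≤ 2 * l) ∨
  (p.2 = 2 ∧ q.2 = 2 ∧ q.1 = p.1 + 1 ∧ 0 ≤ p.1 ∧ p.1 ≤ 2 * l) ∨
  (p.1 = 0 ∧ q.1 = 0 ∧ q.2 = p.2 + 1 ∧ 0 ≤ p.2 ∧ p.2 ≤ 1) ∨
  (p.1 = 2 * l + 1 ∧ q.1 = 2 * l + 1 ∧ q.2 = p.2 + 1 ∧ 0 ≤ p.2 ∧ p.2 ≤ 1) ∨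
  (p.1 = 0 ∧ p.2 = 0 ∧ q.1 = 1 ∧ q.2 = 2) ∨
  (p.1 = 2 * l - a ∧ p.2 = 0 ∧ q.1 = a + 1 ∧ q.2 = 2) ∨
  (p.1 = 2 * l ∧ p.2 = 0 ∧ q.1 = 2 * l + 1 ∧ q.2 = 2)

/-- the two fixed edges which are not on separating lines -/
def G' (l : ℕ) (p q : Pt) : Prop :=
  (p.1 = 0 ∧ p.2 = 1 ∧ q.1 = 1 ∧ q.2 = 2) ∨
  (p.1 = 2 * l ∧ p.2 = 0 ∧ q.1 = 2 * l + 1 ∧ q.2 = 1)

/-- the two transplanted fillings -/
def T1 (F : Pt → Pt → Prop) (p q : Pt) : Prop := F (p - (1, 1)) (q - (1, 1))

def T2 (l : ℕ) (F : Pt → Pt → Prop) (p q : Pt) : Prop :=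
  F (((2 * l : ℤ), (1 : ℤ)) - p) (((2 * l : ℤ), (1 : ℤ)) - q)

/-- the glued triangulation -/
def Glue (l a : ℕ) (F1 F2 : Pt → Pt → Prop) (p q : Pt) : Prop :=
  G l a p q ∨ G l a q p ∨ G' l p q ∨ G' l q p ∨ T1 F1 p q ∨ T2 l F2 p q

variable {l a : ℕ} {F1 F2 : Pt → Pt → Prop}

theorem T1_reg (h1 : Fil l a F1) {p q : Pt} (h : T1 F1 p q) :
    (p.2 = 2 ∧ 1 ≤ p.1 ∧ p.1 ≤ a + 1) ∨ (p.2 = 1 ∧ 1 ≤ p.1 ∧ p.1 < l + 1) ∨
    (p.2 = 0 ∧ 0 ≤ p.1 ∧ p.1 ≤ 2 * l - a) := by
  have := h1.ins _ _ h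
  unfold InS at this
  simp only [Prod.fst_sub, Prod.snd_sub] at this
  omega

theorem T2_reg (h2 : Fil l a F2) {p q : Pt} (h : T2 l F2 p q) :
    (p.2 = 0 ∧ p.1 ≤ 2 * l ∧ 2 * l - a ≤ p.1) ∨ (p.2 = 1 ∧ p.1 ≤ 2 * l ∧ l < p.1) ∨
    (p.2 = 2 ∧ p.1 ≤ 2 * l + 1 ∧ a + 1 ≤ p.1) := by
  have := h2.ins _ _ h
  unfold InS at this
  simp only [Prod.fst_sub, Prod.snd_sub] at this
  omega

theorem T1_symm (h1 : Fil l a F1) {p q : Pt} (h : T1 F1 p q) : T1 F1 q p := h1.symm _ _ h

theorem T2_symm (h2 : Fil l a F2) {p q : Pt} (h : T2 l F2 p q) : T2 l F2 q p := h2.symm _ _ h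

theorem glue_symm (h1 : Fil l a F1) (h2 : Fil l a F2) {p q : Pt} (h : Glue l a F1 F2 p q) :
    Glue l a F1 F2 q p := by
  rcases h with h | h | h | h | h | h
  · exact Or.inr (Or.inl h)
  · exact Or.inl h
  · exact Or.inr (Or.inr (Or.inr (Or.inl h)))
  · exact Or.inr (Or.inr (Or.inl h))
  · exact Or.inr (Or.inr (Or.inr (Or.inr (Or.inl (T1_symm h1 h)))))
  · exact Or.inr (Or.inr (Or.inr (Or.inr (Or.inr (T2_symm h2 h)))))

/-- `λ₀`: the left slanted side -/
theorem det_l0 (x : Pt) : det (1, 2) (x - (0, 0)) = x.2 - 2 * x.1 := by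
  simp only [det, Prod.fst_sub, Prod.snd_sub]; ring

theorem det_l1 (x : Pt) : det (1, 2) (x - ((2 * l : ℤ), (0 : ℤ))) = x.2 - 2 * x.1 + 4 * l := by
  simp only [det, Prod.fst_sub, Prod.snd_sub]; ring

theorem det_lm (x : Pt) : det ((2 * a + 1 - 2 * l : ℤ), (2 : ℤ)) (x - ((2 * l - a : ℤ), (0 : ℤ))) =
    (2 * a + 1 - 2 * l) * x.2 - 2 * x.1 + 4 * l - 2 * a := by
  simp only [det, Prod.fst_sub, Prod.snd_sub]; ring

/-- everything is on one side of a given side line -/
theorem sd_gen {v o x y : Pt} (h : (0 ≤ det v (x - o) ∧ 0 ≤ det v (y - o)) ∨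
    (det v (x - o) ≤ 0 ∧ det v (y - o) ≤ 0)) : Sd v o x y := h

theorem Sd.symm {v o x y : Pt} (h : Sd v o x y) : Sd v o y x := by
  rcases h with ⟨h1, h2⟩ | ⟨h1, h2⟩
  · exact Or.inl ⟨h2, h1⟩
  · exact Or.inr ⟨h2, h1⟩

theorem G_reg (ha : a ≤ 2 * l) {p q : Pt} (h : G l a p q) :
    (0 ≤ p.1 ∧ p.1 ≤ 2 * l + 1 ∧ 0 ≤ p.2 ∧ p.2 ≤ 2) ∧
    (0 ≤ q.1 ∧ q.1 ≤ 2 * l + 1 ∧ 0 ≤ q.2 ∧ q.2 ≤ 2) := by
  unfold G at h
  omega

theorem G'_reg {p q : Pt} (h : G' l p q) :
    (0 ≤ p.1 ∧ p.1 ≤ 2 * l + 1 ∧ 0 ≤ p.2 ∧ p.2 ≤ 2) ∧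
    (0 ≤ q.1 ∧ q.1 ≤ 2 * l + 1 ∧ 0 ≤ q.2 ∧ q.2 ≤ 2) := by
  unfold G' at h
  omega

theorem glue_reg (ha : a ≤ 2 * l) (h1 : Fil l a F1) (h2 : Fil l a F2) {p q : Pt}
    (h : Glue l a F1 F2 p q) : 0 ≤ p.1 ∧ p.1 ≤ 2 * l + 1 ∧ 0 ≤ p.2 ∧ p.2 ≤ 2 := by
  rcases h with h | h | h | h | h | h
  · exact (G_reg ha h).1
  · exact (G_reg ha h).2
  · exact (G'_reg h).1
  · exact (G'_reg h).2
  · have := T1_reg h1 h
    omega
  · have := T2_reg h2 h
    omega

/-- all edges are on one side of `λ₀` -/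
theorem glue_l0 (ha : a ≤ 2 * l) (h1 : Fil l a F1) (h2 : Fil l a F2) {p q : Pt}
    (h : Glue l a F1 F2 p q) : Sd (1, 2) (0, 0) p q := by
  unfold Sd
  rw [det_l0, det_l0]
  rcases h with h | h | h | h | h | h
  · unfold G at h
    omega
  · unfold G at h
    omega
  · unfold G' at h
    omega
  · unfold G' at h
    omega
  · have h3 := T1_reg h1 h
    have h4 := T1_reg h1 (T1_symm h1 h)
    omega
  · have h3 := T2_reg h2 h
    have h4 := T2_reg h2 (T2_symm h2 h)
    omega

theorem glue_l1 (ha : a ≤ 2 * l) (h1 : Fil l a F1) (h2 : Fil l a F2) {p q : Pt}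
    (h : Glue l a F1 F2 p q) : Sd (1, 2) ((2 * l : ℤ), (0 : ℤ)) p q := by
  unfold Sd
  rw [det_l1, det_l1]
  rcases h with h | h | h | h | h | h
  · unfold G at h
    omega
  · unfold G at h
    omega
  · unfold G' at h
    omega
  · unfold G' at h
    omega
  · have h3 := T1_reg h1 h
    have h4 := T1_reg h1 (T1_symm h1 h)
    omega
  · have h3 := T2_reg h2 h
    have h4 := T2_reg h2 (T2_symm h2 h)
    omega

theorem det_lm' {x : Pt} (h : 0 ≤ x.2 ∧ x.2 ≤ 2) :
    (x.2 = 0 ∧ det ((2 * a + 1 - 2 * l : ℤ), (2 : ℤ)) (x - ((2 * l - a : ℤ), (0 : ℤ))) =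
      4 * l - 2 * a - 2 * x.1) ∨
    (x.2 = 1 ∧ det ((2 * a + 1 - 2 * l : ℤ), (2 : ℤ)) (x - ((2 * l - a : ℤ), (0 : ℤ))) =
      2 * l + 1 - 2 * x.1) ∨
    (x.2 = 2 ∧ det ((2 * a + 1 - 2 * l : ℤ), (2 : ℤ)) (x - ((2 * l - a : ℤ), (0 : ℤ))) =
      2 * a + 2 - 2 * x.1) := by
  rw [det_lm]
  obtain ⟨h1, h2⟩ := h
  have : x.2 = 0 ∨ x.2 = 1 ∨ x.2 = 2 := by omega
  rcases this with h | h | h
  · left; refine ⟨h, ?_⟩; rw [h]; ring
  · right; left; refine ⟨h, ?_⟩; rw [h]; ring
  · right; right; refine ⟨h, ?_⟩; rw [h]; ring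

theorem glue_lm (ha : a ≤ 2 * l) (h1 : Fil l a F1) (h2 : Fil l a F2) {p q : Pt}
    (h : Glue l a F1 F2 p q) :
    Sd ((2 * a + 1 - 2 * l : ℤ), (2 : ℤ)) ((2 * l - a : ℤ), (0 : ℤ)) p q := by
  unfold Sd
  have r1 := glue_reg ha h1 h2 h
  have r2 := glue_reg ha h1 h2 (glue_symm h1 h2 h)
  have e1 := det_lm' (l := l) (a := a) (x := p) ⟨r1.2.2.1, r1.2.2.2⟩
  have e2 := det_lm' (l := l) (a := a) (x := q) ⟨r2.2.2.1, r2.2.2.2⟩
  rcases h with h | h | h | h | h | h
  · unfold G at h
    omega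
  · unfold G at h
    omega
  · unfold G' at h
    omega
  · unfold G' at h
    omega
  · have h3 := T1_reg h1 h
    have h4 := T1_reg h1 (T1_symm h1 h)
    omega
  · have h3 := T2_reg h2 h
    have h4 := T2_reg h2 (T2_symm h2 h)
    omega

/-- the special edges do not cross anything -/
theorem G_ncr (ha : a ≤ 2 * l) (h1 : Fil l a F1) (h2 : Fil l a F2) {p q x y : Pt}
    (h : G l a p q) (h' : Glue l a F1 F2 x y) : ¬ Cross p q x y := by
  have r1 := glue_reg ha h1 h2 h'
  have r2 := glue_reg ha h1 h2 (glue_symm h1 h2 h')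
  rcases h with h | h | h | h | h | h | h
  · apply sep_line (v := (1, 0)) (o := (0, 0)) (by decide)
    · simp only [det, Prod.fst_sub, Prod.snd_sub]; omega
    · simp only [det, Prod.fst_sub, Prod.snd_sub]; omega
    · unfold Sd
      simp only [det, Prod.fst_sub, Prod.snd_sub]; omega
  · apply sep_line (v := (1, 0)) (o := (0, 2)) (by decide)
    · simp only [det, Prod.fst_sub, Prod.snd_sub]; omega
    · simp only [det, Prod.fst_sub, Prod.snd_sub]; omega
    · unfold Sd
      simp only [det, Prod.fst_sub, Prod.snd_sub]; omega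
  · apply sep_line (v := (0, 1)) (o := (0, 0)) (by decide)
    · simp only [det, Prod.fst_sub, Prod.snd_sub]; omega
    · simp only [det, Prod.fst_sub, Prod.snd_sub]; omega
    · unfold Sd
      simp only [det, Prod.fst_sub, Prod.snd_sub]; omega
  · apply sep_line (v := (0, 1)) (o := ((2 * l + 1 : ℤ), (0 : ℤ))) (by decide)
    · simp only [det, Prod.fst_sub, Prod.snd_sub]; omega
    · simp only [det, Prod.fst_sub, Prod.snd_sub]; omega
    · unfold Sd
      simp only [det, Prod.fst_sub, Prod.snd_sub]; omega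
  · apply sep_line (v := (1, 2)) (o := (0, 0)) (by decide)
    · rw [det_l0]; omega
    · rw [det_l0]; omega
    · exact glue_l0 ha h1 h2 h'
  · apply sep_line (v := ((2 * a + 1 - 2 * l : ℤ), (2 : ℤ))) (o := ((2 * l - a : ℤ), (0 : ℤ)))
    · intro h
      have := congrArg Prod.snd h
      simp at this
    · rw [det_lm, h.1, h.2.1]; ring
    · rw [det_lm, h.2.2.1, h.2.2.2]; ring
    · exact glue_lm ha h1 h2 h'
  · apply sep_line (v := (1, 2)) (o := ((2 * l : ℤ), (0 : ℤ))) (by decide)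
    · rw [det_l1]; omega
    · rw [det_l1]; omega
    · exact glue_l1 ha h1 h2 h'

/-- the corner edges do not cross anything -/
theorem G'_ncr (ha : a ≤ 2 * l) (h1 : Fil l a F1) (h2 : Fil l a F2) {p q x y : Pt}
    (h : G' l p q) (h' : Glue l a F1 F2 x y) : ¬ Cross p q x y := by
  have hc := h'
  rcases h' with h' | h' | h' | h' | h' | h'
  · intro hx
    exact G_ncr (F1 := F1) (F2 := F2) ha h1 h2 h' (Or.inr (Or.inr (Or.inl h))) hx.symm
  · intro hx
    exact G_ncr (F1 := F1) (F2 := F2) ha h1 h2 h' (Or.inr (Or.inr (Or.inl h))) hx.symm.swap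
  · rcases h with h | h
    · rcases h' with h' | h'
      · rintro ⟨hx, -⟩
        obtain ⟨p1, p2⟩ := p
        obtain ⟨q1, q2⟩ := q
        obtain ⟨x1, x2⟩ := x
        obtain ⟨y1, y2⟩ := y
        simp only [det, Prod.mk_sub_mk] at *
        obtain ⟨rfl, rfl, rfl, rfl⟩ := h
        obtain ⟨rfl, rfl, rfl, rfl⟩ := h'
        norm_num at hx
      · apply sep (v := (1, 2)) (o := (0, 0)) (by decide)
        · rw [det_l0]; omega
        · rw [det_l0]; omega
        · rw [det_l0]; omega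
        · rw [det_l0]; omega
    · rcases h' with h' | h'
      · intro hx
        revert hx
        intro hx
        have hx := hx.symm
        revert hx
        apply sep (v := (1, 2)) (o := (0, 0)) (by decide)
        · rw [det_l0]; omega
        · rw [det_l0]; omega
        · rw [det_l0]; omega
        · rw [det_l0]; omega
      · rintro ⟨hx, -⟩
        obtain ⟨p1, p2⟩ := p
        obtain ⟨q1, q2⟩ := q
        obtain ⟨x1, x2⟩ := x
        obtain ⟨y1, y2⟩ := y
        simp only [det, Prod.mk_sub_mk] at *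
        obtain ⟨rfl, rfl, rfl, rfl⟩ := h
        obtain ⟨rfl, rfl, rfl, rfl⟩ := h'
        ring_nf at hx
        norm_num at hx
  · intro hx
    have hx := hx.swap'
    revert hx
    rcases h with h | h
    · rcases h' with h' | h'
      · rintro ⟨hx, -⟩
        obtain ⟨p1, p2⟩ := p
        obtain ⟨q1, q2⟩ := q
        obtain ⟨x1, x2⟩ := x
        obtain ⟨y1, y2⟩ := y
        simp only [det, Prod.mk_sub_mk] at *
        obtain ⟨rfl, rfl, rfl, rfl⟩ := h
        obtain ⟨rfl, rfl, rfl, rfl⟩ := h'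
        norm_num at hx
      · apply sep (v := (1, 2)) (o := (0, 0)) (by decide)
        · rw [det_l0]; omega
        · rw [det_l0]; omega
        · rw [det_l0]; omega
        · rw [det_l0]; omega
    · rcases h' with h' | h'
      · intro hx
        have hx := hx.symm
        revert hx
        apply sep (v := (1, 2)) (o := (0, 0)) (by decide)
        · rw [det_l0]; omega
        · rw [det_l0]; omega
        · rw [det_l0]; omega
        · rw [det_l0]; omega
      · rintro ⟨hx, -⟩
        obtain ⟨p1, p2⟩ := p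
        obtain ⟨q1, q2⟩ := q
        obtain ⟨x1, x2⟩ := x
        obtain ⟨y1, y2⟩ := y
        simp only [det, Prod.mk_sub_mk] at *
        obtain ⟨rfl, rfl, rfl, rfl⟩ := h
        obtain ⟨rfl, rfl, rfl, rfl⟩ := h'
        ring_nf at hx
        norm_num at hx
  · have h3 := T1_reg h1 h'
    have h4 := T1_reg h1 (T1_symm h1 h')
    rcases h with h | h
    · apply sep (v := (1, 2)) (o := (0, 0)) (by decide)
      · rw [det_l0]; omega
      · rw [det_l0]; omega
      · rw [det_l0]; omega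
      · rw [det_l0]; omega
    · intro hx
      have hx := hx.symm
      revert hx
      apply sep (v := (1, 2)) (o := ((2 * l : ℤ), (0 : ℤ))) (by decide)
      · rw [det_l1]; omega
      · rw [det_l1]; omega
      · rw [det_l1]; omega
      · rw [det_l1]; omega
  · have h3 := T2_reg h2 h'
    have h4 := T2_reg h2 (T2_symm h2 h')
    rcases h with h | h
    · apply sep (v := (1, 2)) (o := (0, 0)) (by decide)
      · rw [det_l0]; omega
      · rw [det_l0]; omega
      · rw [det_l0]; omega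
      · rw [det_l0]; omega
    · intro hx
      have hx := hx.symm
      revert hx
      apply sep (v := (1, 2)) (o := ((2 * l : ℤ), (0 : ℤ))) (by decide)
      · rw [det_l1]; omega
      · rw [det_l1]; omega
      · rw [det_l1]; omega
      · rw [det_l1]; omega

theorem cross_shift (c a b x y : Pt) : Cross (a - c) (b - c) (x - c) (y - c) ↔ Cross a b x y := by
  unfold Cross
  simp only [sub_sub_sub_cancel_right]

theorem cross_refl (c a b x y : Pt) : Cross (c - a) (c - b) (c - x) (c - y) ↔ Cross a b x y := by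
  unfold Cross
  have e : ∀ u v w z : Pt, det ((c - u) - (c - v)) ((c - w) - (c - z)) = det (u - v) (w - z) := by
    intro u v w z
    simp only [det, Prod.fst_sub, Prod.snd_sub]; ring
  simp only [e]

theorem glue_ncr (ha : a ≤ 2 * l) (h1 : Fil l a F1) (h2 : Fil l a F2) {p q x y : Pt}
    (h : Glue l a F1 F2 p q) (h' : Glue l a F1 F2 x y) : ¬ Cross p q x y := by
  intro hx
  rcases id h with k | k | k | k | k | k
  · exact G_ncr ha h1 h2 k h' hx
  · exact G_ncr ha h1 h2 k h' hx.swap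
  · exact G'_ncr ha h1 h2 k h' hx
  · exact G'_ncr ha h1 h2 k h' hx.swap
  · rcases h' with k' | k' | k' | k' | k' | k'
    · exact G_ncr ha h1 h2 k' h hx.symm
    · exact G_ncr ha h1 h2 k' h hx.symm.swap
    · exact G'_ncr ha h1 h2 k' h hx.symm
    · exact G'_ncr ha h1 h2 k' h hx.symm.swap
    · exact h1.ncr _ _ _ _ k k' ((cross_shift _ _ _ _ _).mpr hx)
    · have a1 := T1_reg h1 k
      have a2 := T1_reg h1 (T1_symm h1 k)
      have a3 := T2_reg h2 k'
      have a4 := T2_reg h2 (T2_symm h2 k')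
      have e1 := det_lm' (l := l) (a := a) (x := p) (by omega)
      have e2 := det_lm' (l := l) (a := a) (x := q) (by omega)
      have e3 := det_lm' (l := l) (a := a) (x := x) (by omega)
      have e4 := det_lm' (l := l) (a := a) (x := y) (by omega)
      revert hx
      apply sep (v := ((2 * a + 1 - 2 * l : ℤ), (2 : ℤ))) (o := ((2 * l - a : ℤ), (0 : ℤ)))
      · intro h
        have := congrArg Prod.snd h
        simp at this
      · omega
      · omega
      · omega
      · omega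
  · rcases h' with k' | k' | k' | k' | k' | k'
    · exact G_ncr ha h1 h2 k' h hx.symm
    · exact G_ncr ha h1 h2 k' h hx.symm.swap
    · exact G'_ncr ha h1 h2 k' h hx.symm
    · exact G'_ncr ha h1 h2 k' h hx.symm.swap
    · have a1 := T1_reg h1 k'
      have a2 := T1_reg h1 (T1_symm h1 k')
      have a3 := T2_reg h2 k
      have a4 := T2_reg h2 (T2_symm h2 k)
      have e1 := det_lm' (l := l) (a := a) (x := p) (by omega)
      have e2 := det_lm' (l := l) (a := a) (x := q) (by omega)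
      have e3 := det_lm' (l := l) (a := a) (x := x) (by omega)
      have e4 := det_lm' (l := l) (a := a) (x := y) (by omega)
      have hx := hx.symm
      revert hx
      apply sep (v := ((2 * a + 1 - 2 * l : ℤ), (2 : ℤ))) (o := ((2 * l - a : ℤ), (0 : ℤ)))
      · intro h
        have := congrArg Prod.snd h
        simp at this
      · omega
      · omega
      · omega
      · omega
    · exact h2.ncr _ _ _ _ k k' ((cross_refl _ _ _ _ _).mpr hx)

theorem G_prim {p q : Pt} (h : G l a p q) : Prim (q - p) := by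
  unfold Prim
  simp only [Prod.fst_sub, Prod.snd_sub]
  rcases h with h | h | h | h | h | h | h
  · rw [h.2.2.1]; refine ⟨1, 0, ?_⟩; ring
  · rw [h.2.2.1]; refine ⟨1, 0, ?_⟩; ring
  · rw [h.2.2.1]; refine ⟨0, 1, ?_⟩; ring
  · rw [h.2.2.1]; refine ⟨0, 1, ?_⟩; ring
  · obtain ⟨e1, e2, e3, e4⟩ := h
    rw [e1, e2, e3, e4]; refine ⟨1, 0, ?_⟩; ring
  · obtain ⟨e1, e2, e3, e4⟩ := h
    rw [e1, e2, e3, e4]; refine ⟨1, l - a, ?_⟩; ring
  · obtain ⟨e1, e2, e3, e4⟩ := h
    rw [e1, e2, e3, e4]; refine ⟨1, 0, ?_⟩; ring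

theorem G'_prim {p q : Pt} (h : G' l p q) : Prim (q - p) := by
  unfold Prim
  simp only [Prod.fst_sub, Prod.snd_sub]
  rcases h with h | h
  · obtain ⟨e1, e2, e3, e4⟩ := h
    rw [e1, e2, e3, e4]; refine ⟨1, 0, ?_⟩; ring
  · obtain ⟨e1, e2, e3, e4⟩ := h
    rw [e1, e2, e3, e4]; refine ⟨1, 0, ?_⟩; ring

theorem prim_comm {p q : Pt} (h : Prim (q - p)) : Prim (p - q) := by
  have := h.neg
  rwa [neg_sub] at this

theorem glue_prim (h1 : Fil l a F1) (h2 : Fil l a F2) {p q : Pt}
    (h : Glue l a F1 F2 p q) : Prim (q - p) := by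
  rcases h with k | k | k | k | k | k
  · exact G_prim k
  · exact prim_comm (G_prim k)
  · exact G'_prim k
  · exact prim_comm (G'_prim k)
  · have := h1.prim _ _ k
    rwa [sub_sub_sub_cancel_right] at this
  · have := h2.prim _ _ k
    rw [sub_sub_sub_cancel_left] at this
    exact prim_comm this

theorem glue_full (hl : 1 ≤ l) (ha : a ≤ 2 * l) (h1 : Fil l a F1) (h2 : Fil l a F2) {s : Pt}
    (s1 : 0 ≤ s.1) (s2 : s.1 ≤ 2 * (2 * l + 1)) (s3 : 0 ≤ s.2) (s4 : s.2 ≤ 4)
    (ho : ¬ (Even s.1 ∧ Even s.2)) : ∃ x y, Glue l a F1 F2 x y ∧ x + y = s := by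
  have hG : ∀ x y : Pt, G l a x y → x.1 + y.1 = s.1 → x.2 + y.2 = s.2 →
      ∃ x y, Glue l a F1 F2 x y ∧ x + y = s :=
    fun x y h e1 e2 => ⟨x, y, Or.inl h, Prod.ext e1 e2⟩
  have hG' : ∀ x y : Pt, G' l x y → x.1 + y.1 = s.1 → x.2 + y.2 = s.2 →
      ∃ x y, Glue l a F1 F2 x y ∧ x + y = s :=
    fun x y h e1 e2 => ⟨x, y, Or.inr (Or.inr (Or.inl h)), Prod.ext e1 e2⟩
  have hT1 : PosS l a (s - (2, 2)) → ∃ x y, Glue l a F1 F2 x y ∧ x + y = s := by
    intro h
    obtain ⟨x, y, hxy, he⟩ := h1.full _ h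
    refine ⟨x + (1, 1), y + (1, 1), Or.inr (Or.inr (Or.inr (Or.inr (Or.inl ?_)))), ?_⟩
    · unfold T1
      rwa [add_sub_cancel_right, add_sub_cancel_right]
    · have e1 := congrArg Prod.fst he
      have e2 := congrArg Prod.snd he
      simp only [Prod.fst_add, Prod.snd_add, Prod.fst_sub, Prod.snd_sub] at e1 e2
      apply Prod.ext
      · simp only [Prod.fst_add]; omega
      · simp only [Prod.snd_add]; omega
  have hT2 : PosS l a (((4 * l : ℤ), (2 : ℤ)) - s) →
      ∃ x y, Glue l a F1 F2 x y ∧ x + y = s := by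
    intro h
    obtain ⟨x, y, hxy, he⟩ := h2.full _ h
    refine ⟨((2 * l : ℤ), (1 : ℤ)) - x, ((2 * l : ℤ), (1 : ℤ)) - y,
      Or.inr (Or.inr (Or.inr (Or.inr (Or.inr ?_)))), ?_⟩
    · unfold T2
      rwa [sub_sub_cancel, sub_sub_cancel]
    · have e1 := congrArg Prod.fst he
      have e2 := congrArg Prod.snd he
      simp only [Prod.fst_add, Prod.snd_add, Prod.fst_sub, Prod.snd_sub] at e1 e2
      apply Prod.ext
      · simp only [Prod.fst_add, Prod.fst_sub]; omega
      · simp only [Prod.snd_add, Prod.snd_sub]; omega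
  simp only [Int.even_iff] at ho
  have hr : s.2 = 0 ∨ s.2 = 1 ∨ s.2 = 2 ∨ s.2 = 3 ∨ s.2 = 4 := by omega
  rcases hr with hr | hr | hr | hr | hr
  · -- bottom row
    apply hG ((s.1 - 1) / 2, 0) ((s.1 + 1) / 2, 0)
    · left
      and_intros <;> first | rfl | (simp only; omega)
    · simp only; omega
    · simp only; omega
  · -- row 1
    by_cases c1 : s.1 = 0
    · apply hG (0, 0) (0, 1)
      · right; right; left
        and_intros <;> first | rfl | (simp only; omega)
      · simp only; omega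
      · simp only; omega
    by_cases c2 : s.1 = 4 * l + 1
    · apply hG' ((2 * l : ℤ), 0) ((2 * l + 1 : ℤ), 1)
      · right
        and_intros <;> first | rfl | (simp only; omega)
      · simp only; omega
      · simp only; omega
    by_cases c3 : s.1 = 4 * l + 2
    · apply hG ((2 * l + 1 : ℤ), 0) ((2 * l + 1 : ℤ), 1)
      · right; right; right; left
        and_intros <;> first | rfl | (simp only; omega)
      · simp only; omega
      · simp only; omega
    by_cases c4 : s.1 ≤ 3 * l - a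
    · apply hT1
      unfold PosS
      simp only [Prod.fst_sub, Prod.snd_sub]
      right; right
      omega
    · apply hT2
      unfold PosS
      simp only [Prod.fst_sub, Prod.snd_sub]
      right; left
      omega
  · -- row 2
    have hod : s.1 % 2 = 1 := by omega
    by_cases c1 : s.1 = 1
    · apply hG (0, 0) (1, 2)
      · right; right; right; right; left
        and_intros <;> first | rfl | (simp only; omega)
      · simp only; omega
      · simp only; omega
    by_cases c2 : s.1 = 2 * l + 1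
    · apply hG ((2 * l - a : ℤ), 0) ((a + 1 : ℤ), 2)
      · right; right; right; right; right; left
        and_intros <;> first | rfl | (simp only; omega)
      · simp only; omega
      · simp only; omega
    by_cases c3 : s.1 = 4 * l + 1
    · apply hG ((2 * l : ℤ), 0) ((2 * l + 1 : ℤ), 2)
      · right; right; right; right; right; right
        and_intros <;> first | rfl | (simp only; omega)
      · simp only; omega
      · simp only; omega
    by_cases c4 : s.1 ≤ 2 * l + 1
    · apply hT1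
      unfold PosS
      simp only [Prod.fst_sub, Prod.snd_sub, Int.odd_iff]
      left
      omega
    · apply hT2
      unfold PosS
      simp only [Prod.fst_sub, Prod.snd_sub, Int.odd_iff]
      left
      omega
  · -- row 3
    by_cases c1 : s.1 = 0
    · apply hG (0, 1) (0, 2)
      · right; right; left
        and_intros <;> first | rfl | (simp only; omega)
      · simp only; omega
      · simp only; omega
    by_cases c2 : s.1 = 1
    · apply hG' (0, 1) (1, 2)
      · left
        and_intros <;> first | rfl | (simp only; omega)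
      · simp only; omega
      · simp only; omega
    by_cases c3 : s.1 = 4 * l + 2
    · apply hG ((2 * l + 1 : ℤ), 1) ((2 * l + 1 : ℤ), 2)
      · right; right; right; left
        and_intros <;> first | rfl | (simp only; omega)
      · simp only; omega
      · simp only; omega
    by_cases c4 : s.1 ≤ l + 1 + a
    · apply hT1
      unfold PosS
      simp only [Prod.fst_sub, Prod.snd_sub]
      right; left
      omega
    · apply hT2
      unfold PosS
      simp only [Prod.fst_sub, Prod.snd_sub]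
      right; right
      omega
  · -- top row
    apply hG ((s.1 - 1) / 2, 2) ((s.1 + 1) / 2, 2)
    · right; left
      and_intros <;> first | rfl | (simp only; omega)
    · simp only; omega
    · simp only; omega

theorem glue_isTri (hl : 1 ≤ l) (ha : a ≤ 2 * l) (h1 : Fil l a F1) (h2 : Fil l a F2) :
    IsTri (2 * l + 1) 2 (Glue l a F1 F2) where
  symm _ _ h := glue_symm h1 h2 h
  inR p q h := by
    have := glue_reg ha h1 h2 h
    unfold InR
    push_cast
    omega
  prim _ _ h := glue_prim h1 h2 h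
  ncr _ _ _ _ h h' := glue_ncr ha h1 h2 h h'
  full s s1 s2 s3 s4 ho := by
    apply glue_full hl ha h1 h2 s1 (by push_cast at s2; omega) s3 (by push_cast at s4; omega) ho

theorem rec1 (ha : a ≤ 2 * l) (h1 : Fil l a F1) (h2 : Fil l a F2) (x y : Pt) :
    F1 x y ↔ Glue l a F1 F2 (x + (1, 1)) (y + (1, 1)) ∧ PosS l a (x + y) := by
  constructor
  · intro h
    refine ⟨Or.inr (Or.inr (Or.inr (Or.inr (Or.inl ?_)))), h1.pos _ _ h⟩
    unfold T1
    rwa [add_sub_cancel_right, add_sub_cancel_right]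
  · rintro ⟨h, hp⟩
    unfold PosS at hp
    simp only [Prod.fst_add, Prod.snd_add, Int.odd_iff] at hp
    rcases h with k | k | k | k | k | k
    · exfalso
      unfold G at k
      simp only [Prod.fst_add, Prod.snd_add] at k
      omega
    · exfalso
      unfold G at k
      simp only [Prod.fst_add, Prod.snd_add] at k
      omega
    · exfalso
      unfold G' at k
      simp only [Prod.fst_add, Prod.snd_add] at k
      omega
    · exfalso
      unfold G' at k
      simp only [Prod.fst_add, Prod.snd_add] at k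
      omega
    · unfold T1 at k
      rwa [add_sub_cancel_right, add_sub_cancel_right] at k
    · exfalso
      have := h2.pos _ _ k
      unfold PosS at this
      simp only [Prod.fst_add, Prod.snd_add, Prod.fst_sub, Prod.snd_sub, Int.odd_iff] at this
      omega

theorem rec2 (ha : a ≤ 2 * l) (h1 : Fil l a F1) (h2 : Fil l a F2) (x y : Pt) :
    F2 x y ↔ Glue l a F1 F2 (((2 * l : ℤ), (1 : ℤ)) - x) (((2 * l : ℤ), (1 : ℤ)) - y) ∧
      PosS l a (x + y) := by
  constructor
  · intro h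
    refine ⟨Or.inr (Or.inr (Or.inr (Or.inr (Or.inr ?_)))), h2.pos _ _ h⟩
    unfold T2
    rwa [sub_sub_cancel, sub_sub_cancel]
  · rintro ⟨h, hp⟩
    unfold PosS at hp
    simp only [Prod.fst_add, Prod.snd_add, Int.odd_iff] at hp
    rcases h with k | k | k | k | k | k
    · exfalso
      unfold G at k
      simp only [Prod.fst_sub, Prod.snd_sub] at k
      omega
    · exfalso
      unfold G at k
      simp only [Prod.fst_sub, Prod.snd_sub] at k
      omega
    · exfalso
      unfold G' at k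
      simp only [Prod.fst_sub, Prod.snd_sub] at k
      omega
    · exfalso
      unfold G' at k
      simp only [Prod.fst_sub, Prod.snd_sub] at k
      omega
    · exfalso
      have := h1.pos _ _ k
      unfold PosS at this
      simp only [Prod.fst_add, Prod.snd_add, Prod.fst_sub, Prod.snd_sub, Int.odd_iff] at this
      omega
    · unfold T2 at k
      rwa [sub_sub_cancel, sub_sub_cancel] at k

theorem TT_fin (m n : ℕ) : (TT m n).Finite := by
  have hR : {p : Pt | InR m n p}.Finite := by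
    refine ((Set.finite_Icc (0 : ℤ) m).prod (Set.finite_Icc (0 : ℤ) n)).subset ?_
    rintro ⟨p1, p2⟩ ⟨h1, h2, h3, h4⟩
    exact ⟨⟨h1, h2⟩, ⟨h3, h4⟩⟩
  have h2 := (hR.prod hR).finite_subsets
  refine Set.Finite.of_finite_image (f := fun E : Pt → Pt → Prop => {e : Pt × Pt | E e.1 e.2})
    (h2.subset ?_) ?_
  · rintro _ ⟨E, hE, rfl⟩
    rintro ⟨x, y⟩ hxy
    exact ⟨hE.inR _ _ hxy, hE.inR' hxy⟩
  · intro E _ E' _ he
    funext x y
    have := congrArg (fun S : Set (Pt × Pt) => (x, y) ∈ S) he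
    simpa using this

end FilSq

open FilSq in
/-- two fillings of the trapezoid give a triangulation of the `(2l+1) × 2` rectangle -/
theorem fil_sq {l a : ℕ} (hl : 1 ≤ l) (ha : a ≤ 2 * l) :
    ({F | Fil l a F} : Set (Pt → Pt → Prop)).ncard ^ 2 ≤ (TT (2 * l + 1) 2).ncard := by
  rw [pow_two, ← Set.ncard_prod]
  refine Set.ncard_le_ncard_of_injOn (fun F : (Pt → Pt → Prop) × (Pt → Pt → Prop) =>
    Glue l a F.1 F.2) ?_ ?_ (TT_fin _ _)
  · rintro ⟨A, B⟩ ⟨hA, hB⟩
    exact glue_isTri hl ha hA hB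
  · rintro ⟨A, B⟩ ⟨hA, hB⟩ ⟨A', B'⟩ ⟨hA', hB'⟩ he
    change Fil l a A at hA
    change Fil l a B at hB
    change Fil l a A' at hA'
    change Fil l a B' at hB'
    simp only at he
    apply Prod.ext
    · funext x y
      apply propext
      show A x y ↔ A' x y
      rw [rec1 ha hA hB x y, rec1 ha hA' hB' x y, he]
    · funext x y
      apply propext
      show B x y ↔ B' x y
      rw [rec2 ha hA hB x y, rec2 ha hA' hB' x y, he]

end Pool.Agent.MP01b126
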