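import Pool.Agent.Lib.MP_01b126_co.Cnt.CDefs
import Pool.Agent.Lib.MP_01b126_co.Cnt.Shape
import Pool.Agent.Lib.MP_01b126_co.Cnt.Refill

/-!
# MP_01b126_co, COUNTING: families of trapezoids, interface of the geometric part
-/

namespace Pool.Agent.MP01b126

/-- a trapezoid of width two: `o` is the first middle vertex, `d` the direction, `u` the vector from
`o` to the top end of the left end flip, `l` the number of middle vertices, `a` the length of the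
top side -/
structure Shp where
  o : Pt
  d : Pt
  u : Pt
  l : ℕ
  a : ℕ

namespace Shp

/-- the edge relation in the coordinates of the shape -/
def pull (S : Shp) (E : Pt → Pt → Prop) : Pt → Pt → Prop :=
  fun x y => E (aff S.o S.d S.u x) (aff S.o S.d S.u y)

/-- back to absolute coordinates -/
def push (S : Shp) (F : Pt → Pt → Prop) : Pt → Pt → Prop :=
  fun x y => ∃ p q, F p q ∧ x = aff S.o S.d S.u p ∧ y = aff S.o S.d S.u q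

/-- the filling of the shape in `E`, in the coordinates of the shape -/
def fil (S : Shp) (E : Pt → Pt → Prop) : Pt → Pt → Prop :=
  fun x y => S.pull E x y ∧ PosS S.l S.a (x + y)

/-- interior positions -/
def pos (S : Shp) : Set Pt :=
  {t | ∃ s, PosS S.l S.a s ∧ t = S.o + S.o + s.1 • S.d + s.2 • S.u}

/-- position of the left end flip -/
def lft (S : Shp) : Pt := S.o + S.o - S.d

/-- position of the right end flip -/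
def rgt (S : Shp) : Pt := S.o + S.o + (2 * (S.l : ℤ) - 1) • S.d

/-- middle vertices -/
def mid (S : Shp) : Set Pt := {v | ∃ k : ℤ, 0 ≤ k ∧ k < S.l ∧ v = S.o + k • S.d}

end Shp

/-- boundary positions (doubled midpoints of the boundary edges) -/
def BdP (l a : ℕ) (s : Pt) : Prop :=
  (s.2 = 0 ∧ (s.1 = -1 ∨ s.1 = 2 * l - 1)) ∨
  (s.2 = 2 ∧ Odd s.1 ∧ 0 < s.1 ∧ s.1 < 2 * a) ∨
  (s.2 = -2 ∧ Odd s.1 ∧ -2 < s.1 ∧ s.1 < 2 * (2 * l - 1 - a))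

/-- boundary positions, absolute -/
def Shp.bpos (S : Shp) : Set Pt :=
  {t | ∃ s, BdP S.l S.a s ∧ t = S.o + S.o + s.1 • S.d + s.2 • S.u}

/-- admissible families of trapezoids -/
structure Fam (E : Pt → Pt → Prop) (𝒮 : Finset Shp) : Prop where
  lex : ∀ S ∈ 𝒮, LexPos S.d
  det : ∀ S ∈ 𝒮, MP01b126.det S.d S.u = 1
  bd : ∀ S ∈ 𝒮, BdS S.l S.a (S.pull E)
  /-- inner positions are disjoint -/
  disj : ∀ S ∈ 𝒮, ∀ S' ∈ 𝒮, S ≠ S' → ∀ t ∈ S.pos, t ∉ S'.pos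
  /-- boundary positions are not inner positions -/
  bdisj : ∀ S ∈ 𝒮, ∀ S' ∈ 𝒮, S ≠ S' → ∀ t ∈ S.bpos, t ∉ S'.pos
  /-- the outer triangle of the left end flip -/
  top : ∀ S ∈ 𝒮, E (S.o - S.d) (S.o + S.u)
  bot : ∀ S ∈ 𝒮, E (S.o - S.d) (S.o - S.d - S.u)
  top' : ∀ S ∈ 𝒮, ∀ S' ∈ 𝒮, S.o - S.d + (S.o + S.u) ∉ S'.pos
  bot' : ∀ S ∈ 𝒮, ∀ S' ∈ 𝒮, S.o - S.d + (S.o - S.d - S.u) ∉ S'.pos

/-- the canonical filling: `(k,0)-(k+1,0)`, the fan from `(0,0)` to the two walls, the fans from the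
right corners to the middle row -/
def Can0 (l a : ℕ) (x y : Pt) : Prop :=
  (∃ k : ℤ, 0 ≤ k ∧ k + 1 < l ∧ x = (k, 0) ∧ y = (k + 1, 0)) ∨
  (∃ j : ℤ, 0 ≤ j ∧ j ≤ a ∧ x = (0, 0) ∧ y = (j, 1)) ∨
  (∃ k : ℤ, 0 < k ∧ k < l ∧ x = (k, 0) ∧ y = ((a : ℤ), 1)) ∨
  (∃ j : ℤ, -1 ≤ j ∧ j ≤ 2 * l - 1 - a ∧ x = (0, 0) ∧ y = (j, -1)) ∨
  (∃ k : ℤ, 0 < k ∧ k < l ∧ x = (k, 0) ∧ y = (2 * (l : ℤ) - 1 - a, -1))

def Can (l a : ℕ) (x y : Pt) : Prop := Can0 l a x y ∨ Can0 l a y x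

/-- replace the inner edges of all trapezoids by the canonical filling -/
def refillAll (𝒮 : Finset Shp) (E : Pt → Pt → Prop) (x y : Pt) : Prop :=
  (E x y ∧ ∀ S ∈ 𝒮, x + y ∉ S.pos) ∨ ∃ S ∈ 𝒮, S.push (Can S.l S.a) x y

/-- THE GEOMETRIC PART of the counting -/
def GeoThm : Prop :=
  ∃ dec : (Pt → Pt → Prop) → Set Pt → Pt → Shp,
  ∀ η : ℝ, 0 < η → ∃ K0 : ℕ, ∀ K : ℕ, K0 ≤ K → ∃ D L B W : ℕ, ∃ δ : ℝ, 0 < δ ∧
    ∃ N : ℕ, ∀ m n : ℕ, N ≤ m → N ≤ n → ∀ E, IsTri m n E →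
    (({v | InR m n v ∧ Tame E D L v ∧ ¬ ∃ d u, Good E B W v d u} : Set Pt).ncard : ℝ)
        ≤ δ * m * n →
    ∃ (𝒮 : Finset Shp) (E' : Pt → Pt → Prop), IsTri m n E' ∧
      ((𝒮.card : ℝ) ≤ η * m * n) ∧
      ((npos m n : ℝ) ≤ 2 * m * n - 4 * (∑ S ∈ 𝒮, (S.l : ℝ)) + η * m * n +
        ({s | PCpos K E' s} : Set Pt).ncard) ∧
      (6 * ∑ S ∈ 𝒮, S.l ≤ npos m n + 𝒮.card) ∧
      (∀ S ∈ 𝒮, 1 ≤ S.l ∧ S.a ≤ 2 * S.l ∧ Fil S.l S.a (S.fil E) ∧ det S.d S.u = 1) ∧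
      (∀ x y, (∀ S ∈ 𝒮, x + y ∉ S.pos) → (E x y ↔ E' x y)) ∧
      (∀ S ∈ 𝒮, InR2 m n S.lft ∧ InR2 m n S.rgt ∧
        ¬ (Even S.lft.1 ∧ Even S.lft.2) ∧ ¬ (Even S.rgt.1 ∧ Even S.rgt.2) ∧
        S = dec E' {t | ∃ S' ∈ 𝒮, t = S'.rgt} S.lft)

end Pool.Agent.MP01b126
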