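import Pool.Agent.Lib.MP_01b126_co.RareB
import Pool.Agent.Lib.MP_01b126_co.Cnt.GDefs

/-!
# MP_01b126_co, COUNTING C12: final assembly

`codingThm_of_blocks` derives `CodingThm` from the code theorem (C3b), the count of fillings
(C9, C10) and an abstract form `BlockThm` of the block decomposition; `blockThm_of_geo` derives
`BlockThm` from `GeoThm`; `coding_of_geo` combines the two.
-/

namespace Pool.Agent.MP01b126

/-- the class of triangulations in `CodingThm` -/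
def Cls (D L B W : ℕ) (δ : ℝ) (m n : ℕ) : Set (Pt → Pt → Prop) :=
  {E | IsTri m n E ∧
    (({v | InR m n v ∧ Tame E D L v ∧ ¬ ∃ d u, Good E B W v d u} : Set Pt).ncard : ℝ)
      ≤ δ * m * n}

/-- all positions -/
noncomputable def AllPos (m n : ℕ) : Finset Pt :=
  (Finset.Icc (0 : ℤ) (2 * m) ×ˢ Finset.Icc (0 : ℤ) (2 * n)).filter
    fun s : Pt => ¬ (Even s.1 ∧ Even s.2)

/-- INTERFACE: `data E = (E', M, M', l)`: the triangulation `E'` with canonically refilled blocks,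
the positions of the left ends and of the right ends of the blocks, the total length of the
blocks -/
def BlockThm : Prop :=
  ∀ ε : ℝ, 0 < ε → ∀ K₀ : ℕ, ∃ K, K₀ ≤ K ∧ ∃ D L B W : ℕ, ∃ δ : ℝ, 0 < δ ∧ ∃ N : ℕ,
    ∀ m n : ℕ, N ≤ m → N ≤ n →
    ∃ data : (Pt → Pt → Prop) → (Pt → Pt → Prop) × Finset Pt × Finset Pt × ℕ,
      ∀ E ∈ Cls D L B W δ m n,
        IsTri m n (data E).1 ∧ (data E).2.1 ⊆ AllPos m n ∧ (data E).2.2.1 ⊆ AllPos m n ∧
        ((data E).2.1.card : ℝ) ≤ ε * m * n ∧ ((data E).2.2.1.card : ℝ) ≤ ε * m * n ∧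
        ((data E).2.2.2 : ℝ) ≤ (1 / 2 + ε) * m * n ∧
        (npos m n : ℝ) + 4 * (data E).2.2.2 ≤
          2 * m * n + ε * m * n + ({s | PCpos K (data E).1 s} : Set Pt).ncard ∧
        ∃ bl : List (ℕ × ℕ), (∀ p ∈ bl, 1 ≤ p.1 ∧ p.2 ≤ 2 * p.1) ∧
          (bl.map Prod.fst).sum = (data E).2.2.2 ∧ (bl.length : ℝ) ≤ ε * m * n ∧
          ({E₁ | E₁ ∈ Cls D L B W δ m n ∧ data E₁ = data E} : Set (Pt → Pt → Prop)).ncard ≤
            (bl.map fun p => ({F | Fil p.1 p.2 F} : Set (Pt → Pt → Prop)).ncard).prod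

/-- the number of small subsets -/
theorem small_subsets (η : ℝ) (hη : 0 < η) : ∃ ρ > (0 : ℝ), ∀ P : Finset Pt,
    ((P.powerset.filter (fun S => (S.card : ℝ) ≤ ρ * P.card)).card : ℝ) ≤
      (2 : ℝ) ^ (η * P.card) := by
  classical
  set z : ℝ := min (1 / 2) ((2 : ℝ) ^ (η / 2) - 1) with hz
  have h2 : (1 : ℝ) < (2 : ℝ) ^ (η / 2) := Real.one_lt_rpow (by norm_num) (by positivity)
  have hz0 : 0 < z := lt_min (by norm_num) (by linarith)
  have hz1 : z ≤ 1 / 2 := min_le_left _ _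
  have hz2 : 1 + z ≤ (2 : ℝ) ^ (η / 2) := by
    have : z ≤ (2 : ℝ) ^ (η / 2) - 1 := min_le_right _ _
    linarith
  have hlog : Real.logb 2 z < 0 := Real.logb_neg (by norm_num) hz0 (by linarith)
  set ρ : ℝ := η / 2 / (- Real.logb 2 z) with hρ
  have hρ0 : 0 < ρ := div_pos (by positivity) (by linarith)
  refine ⟨ρ, hρ0, fun P => ?_⟩
  set Q := P.powerset.filter (fun S => (S.card : ℝ) ≤ ρ * P.card) with hQ
  have hzρ : z ^ (ρ * (P.card : ℝ)) = (2 : ℝ) ^ (-(η / 2) * P.card) := by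
    have h1 : z = (2 : ℝ) ^ (Real.logb 2 z) :=
      (Real.rpow_logb (by norm_num) (by norm_num) hz0).symm
    conv_lhs => rw [h1]
    rw [← Real.rpow_mul (by norm_num)]
    congr 1
    have h3 : Real.logb 2 z * ρ = -(η / 2) := by
      have h4 : Real.logb 2 z ≠ 0 := hlog.ne
      rw [hρ, div_neg, mul_neg, mul_div_cancel₀ _ h4]
    rw [← mul_assoc, h3]
  have h1 : ∑ S ∈ Q, z ^ S.card ≤ (1 + z) ^ P.card := by
    have h3 : ∑ S ∈ P.powerset, z ^ S.card = (1 + z) ^ P.card := by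
      have h3 := Finset.sum_pow_mul_eq_add_pow z 1 P
      rw [add_comm, ← h3]
      refine Finset.sum_congr rfl (fun S _ => ?_)
      rw [one_pow, mul_one]
    rw [← h3]
    exact Finset.sum_le_sum_of_subset_of_nonneg (Finset.filter_subset _ _)
      (fun S _ _ => by positivity)
  have h3 : (Q.card : ℝ) * (2 : ℝ) ^ (-(η / 2) * P.card) ≤ ∑ S ∈ Q, z ^ S.card := by
    rw [← nsmul_eq_mul]
    refine Finset.card_nsmul_le_sum _ _ _ (fun S hS => ?_)
    rw [← hzρ, ← Real.rpow_natCast z S.card]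
    exact Real.rpow_le_rpow_of_exponent_ge hz0 (by linarith) (Finset.mem_filter.1 hS).2
  have h4 : (1 + z) ^ P.card ≤ (2 : ℝ) ^ (η / 2 * P.card) := by
    rw [Real.rpow_mul (by norm_num), Real.rpow_natCast]
    exact pow_le_pow_left₀ (by linarith) hz2 _
  have h5 : (0 : ℝ) < (2 : ℝ) ^ (-(η / 2) * P.card) := by positivity
  have h6 : (2 : ℝ) ^ (η * P.card) * (2 : ℝ) ^ (-(η / 2) * P.card) =
      (2 : ℝ) ^ (η / 2 * P.card) := by
    rw [← Real.rpow_add (by norm_num)]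
    congr 1; ring
  have h7 : (Q.card : ℝ) * (2 : ℝ) ^ (-(η / 2) * P.card) ≤
      (2 : ℝ) ^ (η * P.card) * (2 : ℝ) ^ (-(η / 2) * P.card) := by
    rw [h6]; exact h3.trans (h1.trans h4)
  exact le_of_mul_le_mul_right h7 h5

theorem fil_le
    (fil : ∀ l a : ℕ, 1 ≤ l → a ≤ 2 * l →
      ({F | Fil l a F} : Set (Pt → Pt → Prop)).ncard ^ 2 ≤ (TT (2 * l + 1) 2).ncard)
    (ts : ∃ C : ℝ, ∀ n : ℕ, ((TT n 2).ncard : ℝ) ≤ C * (17.35 : ℝ) ^ n) :
    ∃ κ : ℕ, ∀ l a : ℕ, 1 ≤ l → a ≤ 2 * l →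
      (({F | Fil l a F} : Set (Pt → Pt → Prop)).ncard : ℝ) ≤ 2 ^ κ * (17.35 : ℝ) ^ l := by
  obtain ⟨C, hC⟩ := ts
  obtain ⟨κ, hκ⟩ := pow_unbounded_of_one_lt (C * 17.35) (show (1 : ℝ) < 4 by norm_num)
  refine ⟨κ, fun l a hl ha => ?_⟩
  have h1 : ((({F | Fil l a F} : Set (Pt → Pt → Prop)).ncard : ℝ)) ^ 2 ≤
      C * (17.35 : ℝ) ^ (2 * l + 1) := by
    refine le_trans ?_ (hC (2 * l + 1))
    exact_mod_cast fil l a hl ha
  have h2 : C * (17.35 : ℝ) ^ (2 * l + 1) ≤ (2 ^ κ * (17.35 : ℝ) ^ l) ^ 2 := by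
    have e1 : C * (17.35 : ℝ) ^ (2 * l + 1) = (C * 17.35) * ((17.35 : ℝ) ^ l) ^ 2 := by
      rw [← pow_mul]; ring
    have e2 : ((2 : ℝ) ^ κ * (17.35 : ℝ) ^ l) ^ 2 = 4 ^ κ * ((17.35 : ℝ) ^ l) ^ 2 := by
      rw [mul_pow, ← pow_mul, mul_comm κ 2, pow_mul]; norm_num
    rw [e1, e2]
    exact mul_le_mul_of_nonneg_right hκ.le (by positivity)
  exact (sq_le_sq₀ (by positivity) (by positivity)).1 (h1.trans h2)

theorem prodFil_le {κ : ℕ} (hκ : ∀ l a : ℕ, 1 ≤ l → a ≤ 2 * l →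
      (({F | Fil l a F} : Set (Pt → Pt → Prop)).ncard : ℝ) ≤ 2 ^ κ * (17.35 : ℝ) ^ l)
    (bl : List (ℕ × ℕ)) (h : ∀ p ∈ bl, 1 ≤ p.1 ∧ p.2 ≤ 2 * p.1) :
    (((bl.map fun p => ({F | Fil p.1 p.2 F} : Set (Pt → Pt → Prop)).ncard).prod : ℕ) : ℝ) ≤
      (2 : ℝ) ^ (κ * bl.length) * (17.35 : ℝ) ^ (bl.map Prod.fst).sum := by
  induction bl with
  | nil => simp
  | cons p bl ih =>
    rw [List.map_cons, List.prod_cons, List.map_cons, List.sum_cons, List.length_cons,
      Nat.cast_mul]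
    have h1 := hκ p.1 p.2 (h p (by simp)).1 (h p (by simp)).2
    have h2 := ih (fun q hq => h q (by simp [hq]))
    calc _ ≤ (2 ^ κ * (17.35 : ℝ) ^ p.1) * ((2 : ℝ) ^ (κ * bl.length) *
          (17.35 : ℝ) ^ (bl.map Prod.fst).sum) :=
          mul_le_mul h1 h2 (Nat.cast_nonneg _) (by positivity)
      _ = _ := by
          rw [mul_add, mul_one, pow_add, pow_add]; ring

theorem log_small_c (ε : ℝ) (hε : 0 < ε) : ∃ n₀ : ℕ, ∀ x : ℝ, (n₀ : ℝ) ≤ x →
    Real.logb 2 (x + 1) + 1 ≤ ε * x := by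
  have h := (Real.isLittleO_log_id_atTop.def (c := ε / 4 * Real.log 2)
    (mul_pos (by positivity) (Real.log_pos (by norm_num))))
  obtain ⟨x₀, hx₀⟩ := Filter.eventually_atTop.1 h
  refine ⟨⌈max (max x₀ 1) (2 / ε)⌉₊, fun x hx => ?_⟩
  have hx1 : max (max x₀ 1) (2 / ε) ≤ x := (Nat.le_ceil _).trans hx
  have h1 : x₀ ≤ x := (le_max_left _ _).trans ((le_max_left _ _).trans hx1)
  have h2 : 1 ≤ x := (le_max_right _ _).trans ((le_max_left _ _).trans hx1)
  have h3 : 2 / ε ≤ x := (le_max_right _ _).trans hx1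
  have h4 := hx₀ (x + 1) (by linarith)
  have hl2 : (0 : ℝ) < Real.log 2 := Real.log_pos (by norm_num)
  simp only [id, Real.norm_eq_abs] at h4
  rw [abs_of_pos (by linarith : (0 : ℝ) < x + 1)] at h4
  have h5 := (le_abs_self _).trans h4
  have h6 : Real.logb 2 (x + 1) ≤ ε / 4 * (x + 1) := by
    unfold Real.logb
    rw [div_le_iff₀ hl2]
    calc Real.log (x + 1) ≤ ε / 4 * Real.log 2 * (x + 1) := h5
      _ = _ := by ring
  rw [div_le_iff₀ hε] at h3
  nlinarith

theorem codingThm_of_blocks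
    (fil : ∀ l a : ℕ, 1 ≤ l → a ≤ 2 * l →
      ({F | Fil l a F} : Set (Pt → Pt → Prop)).ncard ^ 2 ≤ (TT (2 * l + 1) 2).ncard)
    (ts : ∃ C : ℝ, ∀ n : ℕ, ((TT n 2).ncard : ℝ) ≤ C * (17.35 : ℝ) ^ n)
    (ct : CodeThm) (bt : BlockThm) : CodingThm := by
  classical
  obtain ⟨κ, hκ⟩ := fil_le fil ts
  obtain ⟨ρ, hρ, hsub⟩ := small_subsets (1 / 100000) (by norm_num)
  set ε : ℝ := min ρ (1 / (10000 * (κ + 10))) with hεdef
  have hε : 0 < ε := lt_min hρ (by positivity)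
  have hερ : ε ≤ ρ := min_le_left _ _
  have hεκ : ε * (κ + 10) ≤ 1 / 10000 := by
    have h1 : ε ≤ 1 / (10000 * (κ + 10)) := min_le_right _ _
    rw [le_div_iff₀ (by positivity)] at h1
    linarith
  have hε1 : ε ≤ 1 / 10000 := by
    have h2 : (0 : ℝ) ≤ ε * κ := by positivity
    nlinarith
  obtain ⟨K₀, hcode⟩ := ct ε hε
  obtain ⟨K, hK, D, L, B, W, δ, hδ, N, hbl⟩ := bt ε hε K₀
  obtain ⟨N₁, hN₁⟩ := log_small_c (3 / 10000) (by norm_num)
  refine ⟨D, L, B, W, δ, hδ, max N (max N₁ 1), ?_⟩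
  intro m n hm hn
  have hm1 : 1 ≤ m := (le_max_right _ _).trans ((le_max_right _ _).trans hm)
  have hn1 : 1 ≤ n := (le_max_right _ _).trans ((le_max_right _ _).trans hn)
  have hm2 : N₁ ≤ m := (le_max_left _ _).trans ((le_max_right _ _).trans hm)
  obtain ⟨data, hdata⟩ := hbl m n ((le_max_left _ _).trans hm) ((le_max_left _ _).trans hn)
  have hcode := hcode K hK m n hm1 hn1
  obtain ⟨M, hM⟩ : ∃ M : ℝ, M = (m : ℝ) * n := ⟨_, rfl⟩
  have hm1' : (1 : ℝ) ≤ m := by exact_mod_cast hm1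
  have hn1' : (1 : ℝ) ≤ n := by exact_mod_cast hn1
  have hMm : (m : ℝ) ≤ M := by rw [hM]; nlinarith
  have hMn : (n : ℝ) ≤ M := by rw [hM]; nlinarith
  have hM1 : 1 ≤ M := hm1'.trans hMm
  have hM0 : 0 ≤ M := by linarith
  have hMN : (N₁ : ℝ) ≤ M := by
    have : (N₁ : ℝ) ≤ m := by exact_mod_cast hm2
    linarith
  have hlogM := hN₁ M hMN
  change ((Cls D L B W δ m n).ncard : ℝ) ≤ _
  have hfin : (Cls D L B W δ m n).Finite := (TT_finite m n).subset (fun E hE => hE.1)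
  -- the sets
  set PS : Finset (Finset Pt) := (AllPos m n).powerset.filter
    (fun S => (S.card : ℝ) ≤ ρ * (AllPos m n).card) with hPS
  have hAllPos : ((AllPos m n).card : ℝ) = 3 * M + m + n := by
    have : (AllPos m n).card = 3 * m * n + m + n := card_odd m n
    rw [this, hM]; push_cast; ring
  have hPScard : (PS.card : ℝ) ≤ (2 : ℝ) ^ (1 / 20000 * M) := by
    refine (hsub (AllPos m n)).trans ?_
    apply Real.rpow_le_rpow_of_exponent_le (by norm_num)
    rw [hAllPos]; linarith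
  have hPSmem : ∀ S : Finset Pt, S ⊆ AllPos m n → (S.card : ℝ) ≤ ε * m * n → S ∈ PS := by
    intro S h1 h2
    rw [hPS, Finset.mem_filter, Finset.mem_powerset]
    refine ⟨h1, h2.trans ?_⟩
    rw [hAllPos, mul_assoc, ← hM]
    have : ε * M ≤ ρ * M := mul_le_mul_of_nonneg_right hερ hM0
    have h3 : ρ * M ≤ ρ * (3 * M + m + n) := mul_le_mul_of_nonneg_left (by linarith) hρ.le
    linarith
  set X : ℕ → ℕ := fun l => ⌈2 * M + ε * M - 4 * l⌉₊ with hX
  set FF : ℕ → Finset (Pt → Pt → Prop) := fun l => (TT_finite m n).toFinset.filter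
    (fun E => npos m n ≤ X l + ({s | PCpos K E s} : Set Pt).ncard) with hFF
  have hFFcard : ∀ l, ((FF l).card : ℝ) ≤ (2 : ℝ) ^ ((X l : ℝ) + ε * M) := by
    intro l
    have h1 := hcode (X l)
    rw [mul_assoc, ← hM] at h1
    refine le_trans (le_of_eq ?_) h1
    rw [← Set.ncard_coe_finset]
    congr 2
    ext E
    simp only [hFF, Finset.coe_filter, Set.Finite.mem_toFinset, Set.mem_ofPred_eq, TT]
  set Lm : ℕ := ⌊(1 / 2 + ε) * M⌋₊ with hLm
  set T : Finset ((Pt → Pt → Prop) × Finset Pt × Finset Pt × ℕ) :=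
    (Finset.range (Lm + 1)).biUnion (fun l => FF l ×ˢ (PS ×ˢ (PS ×ˢ ({l} : Finset ℕ)))) with hT
  have hmemT : ∀ E ∈ Cls D L B W δ m n, data E ∈ T := by
    intro E hE
    obtain ⟨h1, h2, h3, h4, h5, h6, h7, -⟩ := hdata E hE
    rw [hT, Finset.mem_biUnion]
    refine ⟨(data E).2.2.2, ?_, ?_⟩
    · rw [Finset.mem_range, Nat.lt_succ_iff, hLm]
      apply Nat.le_floor
      rw [mul_assoc, ← hM] at h6
      exact h6
    · rw [Finset.mem_product, Finset.mem_product, Finset.mem_product, Finset.mem_singleton]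
      refine ⟨?_, hPSmem _ h2 h4, hPSmem _ h3 h5, rfl⟩
      simp only [hFF, Finset.mem_filter, Set.Finite.mem_toFinset]
      refine ⟨h1, ?_⟩
      have h8 : 2 * M + ε * M - 4 * ((data E).2.2.2 : ℝ) ≤ X (data E).2.2.2 := Nat.le_ceil _
      have h9 : (npos m n : ℝ) ≤ (X (data E).2.2.2 : ℝ) +
          (({s | PCpos K (data E).1 s} : Set Pt).ncard : ℝ) := by
        rw [mul_assoc, mul_assoc ε, ← hM] at h7
        linarith
      exact_mod_cast h9
  set g : ℕ → ℝ := fun l => (2 : ℝ) ^ (κ * (ε * M)) * (17.35 : ℝ) ^ l with hg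
  have hg0 : ∀ l, 0 ≤ g l := fun l => by simp only [hg]; positivity
  have hfib : ∀ E ∈ Cls D L B W δ m n,
      ((({E₁ | E₁ ∈ Cls D L B W δ m n ∧ data E₁ = data E} : Set (Pt → Pt → Prop)).ncard : ℕ) : ℝ)
        ≤ g (data E).2.2.2 := by
    intro E hE
    obtain ⟨-, -, -, -, -, -, -, bl, hb1, hb2, hb3, hb4⟩ := hdata E hE
    have h1 := prodFil_le hκ bl hb1
    have h2 : ((({E₁ | E₁ ∈ Cls D L B W δ m n ∧ data E₁ = data E} :
        Set (Pt → Pt → Prop)).ncard : ℕ) : ℝ) ≤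
        (((bl.map fun p => ({F | Fil p.1 p.2 F} : Set (Pt → Pt → Prop)).ncard).prod : ℕ) : ℝ) := by
      exact_mod_cast hb4
    refine h2.trans (h1.trans ?_)
    rw [hb2]
    simp only [hg]
    apply mul_le_mul_of_nonneg_right _ (by positivity)
    rw [← Real.rpow_natCast]
    apply Real.rpow_le_rpow_of_exponent_le (by norm_num)
    push_cast
    rw [mul_assoc, ← hM] at hb3
    exact mul_le_mul_of_nonneg_left hb3 (Nat.cast_nonneg _)
  -- counting
  have hcount : ((Cls D L B W δ m n).ncard : ℝ) ≤ ∑ τ ∈ T, g τ.2.2.2 := by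
    rw [Set.ncard_eq_toFinset_card _ hfin]
    set Sf := hfin.toFinset with hSf
    have h1 : Sf.card = ∑ τ ∈ T, (Sf.filter (fun E => data E = τ)).card :=
      Finset.card_eq_sum_card_fiberwise (fun E hE => hmemT E ((Set.Finite.mem_toFinset _).1 hE))
    rw [h1]
    push_cast
    refine Finset.sum_le_sum (fun τ _ => ?_)
    rcases (Sf.filter (fun E => data E = τ)).eq_empty_or_nonempty with he | ⟨E, hE⟩
    · rw [he]; simpa using hg0 _
    · rw [Finset.mem_filter, hSf, Set.Finite.mem_toFinset] at hE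
      obtain ⟨hE1, hE2⟩ := hE
      have h2 := hfib E hE1
      rw [hE2] at h2
      refine le_trans (le_of_eq ?_) h2
      rw [← Set.ncard_coe_finset]
      congr 2
      ext E₁
      simp only [Finset.coe_filter, Set.mem_ofPred_eq, hSf, Set.Finite.mem_toFinset]
  have hsum : ∑ τ ∈ T, g τ.2.2.2 ≤
      ∑ l ∈ Finset.range (Lm + 1), ((FF l).card : ℝ) * (PS.card * PS.card) * g l := by
    rw [hT]
    have h1 : ∀ l : ℕ, ∑ τ ∈ FF l ×ˢ (PS ×ˢ (PS ×ˢ ({l} : Finset ℕ))), g τ.2.2.2 =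
        ((FF l).card : ℝ) * (PS.card * PS.card) * g l := by
      intro l
      rw [Finset.sum_congr rfl (g := fun _ => g l)]
      · rw [Finset.sum_const, Finset.card_product, Finset.card_product, Finset.card_product,
          Finset.card_singleton, nsmul_eq_mul]
        push_cast; ring
      · intro τ hτ
        rw [Finset.mem_product, Finset.mem_product, Finset.mem_product,
          Finset.mem_singleton] at hτ
        rw [hτ.2.2.2]
    rw [Finset.sum_biUnion]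
    · exact (Finset.sum_congr rfl (fun l _ => h1 l)).le
    · intro l _ l' _ hll
      rw [Function.onFun, Finset.disjoint_left]
      intro τ hτ hτ'
      rw [Finset.mem_product, Finset.mem_product, Finset.mem_product,
        Finset.mem_singleton] at hτ hτ'
      exact hll (hτ.2.2.2.symm.trans hτ'.2.2.2)
  have hLmM : (Lm : ℝ) ≤ (1 / 2 + ε) * M := Nat.floor_le (by positivity)
  have hratio : (17.35 : ℝ) ≤ (2 : ℝ) ^ (4 + 2 / 17 : ℝ) := by
    have h1 : (17.35 : ℝ) ^ (17 : ℕ) ≤ ((2 : ℝ) ^ (4 + 2 / 17 : ℝ)) ^ (17 : ℕ) := by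
      rw [← Real.rpow_natCast ((2 : ℝ) ^ (4 + 2 / 17 : ℝ)), ← Real.rpow_mul (by norm_num)]
      have : ((4 : ℝ) + 2 / 17) * ((17 : ℕ) : ℝ) = ((70 : ℕ) : ℝ) := by push_cast; norm_num
      rw [this, Real.rpow_natCast]
      norm_num
    exact (pow_le_pow_iff_left₀ (by norm_num) (by positivity) (by norm_num)).1 h1
  have hterm : ∀ l ∈ Finset.range (Lm + 1), ((FF l).card : ℝ) * (PS.card * PS.card) * g l ≤
      (2 : ℝ) ^ ((2 + 1 / 17 + 3 / 10000) * M + 1) := by
    intro l hl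
    rw [Finset.mem_range, Nat.lt_succ_iff] at hl
    have hlM : (l : ℝ) ≤ (1 / 2 + ε) * M := by
      have : (l : ℝ) ≤ Lm := by exact_mod_cast hl
      linarith
    have hXl : (X l : ℝ) ≤ 2 * M + 4 * ε * M - 4 * l + 1 := by
      by_cases h : 0 ≤ 2 * M + ε * M - 4 * (l : ℝ)
      · have := (Nat.ceil_lt_add_one h).le
        have h2 : 0 ≤ ε * M := by positivity
        simp only [hX]
        linarith
      · have : X l = 0 := by
          simp only [hX]
          exact Nat.ceil_eq_zero.2 (by linarith)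
        rw [this]
        push_cast
        nlinarith
    have h1 : ((FF l).card : ℝ) ≤ (2 : ℝ) ^ (2 * M + 5 * ε * M - 4 * l + 1) := by
      refine (hFFcard l).trans ?_
      apply Real.rpow_le_rpow_of_exponent_le (by norm_num)
      linarith
    have h2 : (PS.card * PS.card : ℝ) ≤ (2 : ℝ) ^ (1 / 10000 * M) := by
      calc (PS.card * PS.card : ℝ) ≤ (2 : ℝ) ^ (1 / 20000 * M) * (2 : ℝ) ^ (1 / 20000 * M) :=
            mul_le_mul hPScard hPScard (by positivity) (by positivity)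
        _ = _ := by
            rw [← Real.rpow_add (by norm_num)]; congr 1; ring
    have h3 : g l ≤ (2 : ℝ) ^ (κ * (ε * M) + (4 + 2 / 17) * l) := by
      simp only [hg]
      rw [Real.rpow_add (by norm_num)]
      apply mul_le_mul_of_nonneg_left _ (by positivity)
      rw [Real.rpow_mul (by norm_num), Real.rpow_natCast]
      exact pow_le_pow_left₀ (by norm_num) hratio _
    calc ((FF l).card : ℝ) * (PS.card * PS.card) * g l ≤
          (2 : ℝ) ^ (2 * M + 5 * ε * M - 4 * l + 1) * (2 : ℝ) ^ (1 / 10000 * M) *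
            (2 : ℝ) ^ (κ * (ε * M) + (4 + 2 / 17) * l) :=
          mul_le_mul (mul_le_mul h1 h2 (by positivity) (by positivity)) h3 (hg0 _)
            (by positivity)
      _ = (2 : ℝ) ^ (2 * M + 5 * ε * M + 1 + 1 / 10000 * M + κ * (ε * M) + 2 / 17 * l) := by
          rw [← Real.rpow_add (by norm_num), ← Real.rpow_add (by norm_num)]
          congr 1; ring
      _ ≤ _ := by
          apply Real.rpow_le_rpow_of_exponent_le (by norm_num)
          have h4 : ε * (κ + 10) * M ≤ 1 / 10000 * M := mul_le_mul_of_nonneg_right hεκ hM0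
          have h5 : 2 / 17 * (l : ℝ) ≤ 1 / 17 * M + 2 / 17 * (ε * M) := by
            have := mul_le_mul_of_nonneg_left hlM (show (0 : ℝ) ≤ 2 / 17 by norm_num)
            linarith
          have h6 : 0 ≤ ε * M := by positivity
          nlinarith
  have htotal : ((Cls D L B W δ m n).ncard : ℝ) ≤
      (M + 1) * (2 : ℝ) ^ ((2 + 1 / 17 + 3 / 10000) * M + 1) := by
    refine hcount.trans (hsum.trans ((Finset.sum_le_card_nsmul _ _ _ hterm).trans ?_))
    rw [Finset.card_range, nsmul_eq_mul]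
    apply mul_le_mul_of_nonneg_right _ (by positivity)
    push_cast
    have : (1 / 2 + ε) * M ≤ 1 * M := mul_le_mul_of_nonneg_right (by linarith) hM0
    linarith
  refine htotal.trans ?_
  have h417 : (2 : ℝ) ^ (2.06 : ℝ) ≤ 4.17 := by
    have h1 : ((2 : ℝ) ^ (2.06 : ℝ)) ^ (50 : ℕ) ≤ (4.17 : ℝ) ^ (50 : ℕ) := by
      rw [← Real.rpow_natCast ((2 : ℝ) ^ (2.06 : ℝ)), ← Real.rpow_mul (by norm_num)]
      have : (2.06 : ℝ) * ((50 : ℕ) : ℝ) = ((103 : ℕ) : ℝ) := by push_cast; norm_num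
      rw [this, Real.rpow_natCast]
      norm_num
    exact (pow_le_pow_iff_left₀ (by positivity) (by norm_num) (by norm_num)).1 h1
  have hM2 : (2 : ℝ) ^ (2.06 * M) ≤ (4.17 : ℝ) ^ (m * n) := by
    rw [Real.rpow_mul (by norm_num)]
    have : (4.17 : ℝ) ^ (m * n) = (4.17 : ℝ) ^ M := by
      rw [← Real.rpow_natCast, hM]; push_cast; rfl
    rw [this]
    exact Real.rpow_le_rpow (by positivity) h417 hM0
  refine le_trans ?_ hM2
  have h1 : M + 1 = (2 : ℝ) ^ (Real.logb 2 (M + 1)) :=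
    (Real.rpow_logb (by norm_num) (by norm_num) (by linarith)).symm
  rw [h1, ← Real.rpow_add (by norm_num)]
  apply Real.rpow_le_rpow_of_exponent_le (by norm_num)
  nlinarith

theorem fil_finite (l a : ℕ) : ({F | Fil l a F} : Set (Pt → Pt → Prop)).Finite := by
  have hb : ({z : Pt | InS l a z}).Finite := by
    refine (Set.finite_Icc ((-1 : ℤ), (-1 : ℤ)) ((2 * l + a : ℤ), (1 : ℤ))).subset ?_
    rintro ⟨x, y⟩ h
    rcases h with ⟨h1, h2, h3⟩ | ⟨h1, h2, h3⟩ | ⟨h1, h2, h3⟩ <;> simp only at h1 h2 h3 <;>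
      exact ⟨⟨by simp only; omega, by simp only; omega⟩, ⟨by simp only; omega, by simp only; omega⟩⟩
  refine Set.Finite.of_finite_image (f := fun F : Pt → Pt → Prop => {e : Pt × Pt | F e.1 e.2})
    ?_ ?_
  · refine ((hb.prod hb).finite_subsets).subset ?_
    rintro _ ⟨F, hF, rfl⟩
    rintro ⟨x, y⟩ hxy
    exact ⟨hF.ins x y hxy, hF.ins y x (hF.symm x y hxy)⟩
  · intro F _ F' _ hFF
    funext x y
    have := congrArg (fun s : Set (Pt × Pt) => (x, y) ∈ s) hFF
    exact this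

theorem fiber_le (𝒮 : Finset Shp) (E' : Pt → Pt → Prop) (hd : ∀ S ∈ 𝒮, det S.d S.u = 1)
    (X : Set (Pt → Pt → Prop))
    (hX : ∀ E ∈ X, (∀ S ∈ 𝒮, Fil S.l S.a (S.fil E)) ∧
      ∀ x y, (∀ S ∈ 𝒮, x + y ∉ S.pos) → (E x y ↔ E' x y)) :
    X.ncard ≤ ∏ S ∈ 𝒮, ({F | Fil S.l S.a F} : Set (Pt → Pt → Prop)).ncard := by
  classical
  set f : (Pt → Pt → Prop) → (∀ S ∈ 𝒮, Pt → Pt → Prop) := fun E S _ => S.fil E with hf
  set P := Finset.pi 𝒮 (fun S => (fil_finite S.l S.a).toFinset) with hP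
  have hinj : Set.InjOn f X := by
    intro E hE E₁ hE₁ hEE
    have key : ∀ S, ∀ hS : S ∈ 𝒮, S.fil E = S.fil E₁ := fun S hS =>
      congrFun (congrFun hEE S) hS
    funext x y
    apply propext
    by_cases h : ∀ S ∈ 𝒮, x + y ∉ S.pos
    · exact ((hX E hE).2 x y h).trans ((hX E₁ hE₁).2 x y h).symm
    · push Not at h
      obtain ⟨S, hS, s, hs, hxy⟩ := h
      have hx := aff_unaff (o := S.o) (hd S hS) x
      have hy := aff_unaff (o := S.o) (hd S hS) y
      have hsum : unaff S.o S.d S.u x + unaff S.o S.d S.u y = s := by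
        have h1 : aff (S.o + S.o) S.d S.u (unaff S.o S.d S.u x + unaff S.o S.d S.u y) =
            aff (S.o + S.o) S.d S.u s := by
          have e1 : aff (S.o + S.o) S.d S.u (unaff S.o S.d S.u x + unaff S.o S.d S.u y) =
              x + y := by
            conv_rhs => rw [← hx, ← hy]
            unfold aff
            simp only [Prod.fst_add, Prod.snd_add, add_smul]
            abel
          rw [e1, hxy]; rfl
        rw [← unaff_aff (o := S.o + S.o) (hd S hS)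
          (unaff S.o S.d S.u x + unaff S.o S.d S.u y), h1, unaff_aff (hd S hS)]
      have h2 : ∀ G : Pt → Pt → Prop, (G x y ↔
          S.fil G (unaff S.o S.d S.u x) (unaff S.o S.d S.u y)) := by
        intro G
        unfold Shp.fil Shp.pull
        rw [hx, hy, hsum]
        exact ⟨fun h => ⟨h, hs⟩, fun h => h.1⟩
      rw [h2 E, h2 E₁, key S hS]
  have hmem : f '' X ⊆ (P : Set (∀ S ∈ 𝒮, Pt → Pt → Prop)) := by
    rintro _ ⟨E, hE, rfl⟩
    rw [Finset.mem_coe, hP, Finset.mem_pi]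
    intro S hS
    rw [Set.Finite.mem_toFinset]
    exact (hX E hE).1 S hS
  rw [← hinj.ncard_image]
  refine (Set.ncard_le_ncard hmem (Finset.finite_toSet _)).trans ?_
  rw [Set.ncard_coe_finset, hP, Finset.card_pi]
  refine le_of_eq (Finset.prod_congr rfl (fun S _ => ?_))
  rw [Set.ncard_eq_toFinset_card _ (fil_finite S.l S.a)]

theorem blockThm_of_geo (hG : GeoThm) : BlockThm := by
  classical
  obtain ⟨dec, hG⟩ := hG
  intro ε hε K₀
  obtain ⟨K0, hG⟩ := hG (ε / 2) (by positivity)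
  obtain ⟨D, L, B, W, δ, hδ, N, hG⟩ := hG (max K0 K₀) (le_max_left _ _)
  refine ⟨max K0 K₀, le_max_right _ _, D, L, B, W, δ, hδ, max N (⌈2 / ε⌉₊ + 1), ?_⟩
  intro m n hm hn
  have hmN : N ≤ m := (le_max_left _ _).trans hm
  have hnN : N ≤ n := (le_max_left _ _).trans hn
  have hmε : 2 / ε ≤ m := by
    have h1 : ⌈2 / ε⌉₊ + 1 ≤ m := (le_max_right _ _).trans hm
    exact (Nat.le_ceil _).trans (by exact_mod_cast (by omega : ⌈2 / ε⌉₊ ≤ m))
  have hnε : 2 / ε ≤ n := by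
    have h1 : ⌈2 / ε⌉₊ + 1 ≤ n := (le_max_right _ _).trans hn
    exact (Nat.le_ceil _).trans (by exact_mod_cast (by omega : ⌈2 / ε⌉₊ ≤ n))
  rw [div_le_iff₀ hε] at hmε hnε
  have hm0 : (0 : ℝ) ≤ m := Nat.cast_nonneg _
  have hn0 : (0 : ℝ) ≤ n := Nat.cast_nonneg _
  have hmn : ((m : ℝ) + n) * 2 ≤ 2 * (ε * (m * n)) := by nlinarith
  choose! SS EE h1 h2 h3 h4 h5 h6 h7 using
    (fun E (hE : E ∈ Cls D L B W δ m n) => hG m n hmN hnN E hE.1 hE.2)
  refine ⟨fun E => (EE E, (SS E).image Shp.lft, (SS E).image Shp.rgt, ∑ S ∈ SS E, S.l), ?_⟩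
  intro E hE
  have hposF : ∀ t : Pt, InR2 m n t → ¬ (Even t.1 ∧ Even t.2) → t ∈ AllPos m n := by
    intro t ht ho
    obtain ⟨t1, t2, t3, t4⟩ := ht
    rw [AllPos, Finset.mem_filter, Finset.mem_product, Finset.mem_Icc, Finset.mem_Icc]
    exact ⟨⟨⟨t1, t2⟩, ⟨t3, t4⟩⟩, ho⟩
  have hεmn : ε / 2 * m * n ≤ ε * m * n := by
    have : 0 ≤ ε * (m * n) := by positivity
    nlinarith
  have hc := h2 E hE
  have hs6 : (6 : ℝ) * ((∑ S ∈ SS E, S.l : ℕ) : ℝ) ≤ (3 * m * n + m + n) + (SS E).card := by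
    have := h4 E hE
    have h8 : ((6 * ∑ S ∈ SS E, S.l : ℕ) : ℝ) ≤ ((npos m n + (SS E).card : ℕ) : ℝ) := by
      exact_mod_cast this
    unfold npos at h8
    push_cast at h8 ⊢
    exact h8
  refine ⟨h1 E hE, ?_, ?_, ?_, ?_, ?_, ?_, ?_⟩
  · intro t ht
    simp only [Finset.mem_image] at ht
    obtain ⟨S, hS, rfl⟩ := ht
    exact hposF _ (h7 E hE S hS).1 (h7 E hE S hS).2.2.1
  · intro t ht
    simp only [Finset.mem_image] at ht
    obtain ⟨S, hS, rfl⟩ := ht
    exact hposF _ (h7 E hE S hS).2.1 (h7 E hE S hS).2.2.2.1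
  · have : (((SS E).image Shp.lft).card : ℝ) ≤ (SS E).card := by
      exact_mod_cast Finset.card_image_le
    simp only
    linarith
  · have : (((SS E).image Shp.rgt).card : ℝ) ≤ (SS E).card := by
      exact_mod_cast Finset.card_image_le
    simp only
    linarith
  · simp only
    have : 0 ≤ ε * (m * n) := by positivity
    nlinarith
  · simp only
    have h8 := h3 E hE
    have h9 : ((∑ S ∈ SS E, S.l : ℕ) : ℝ) = ∑ S ∈ SS E, (S.l : ℝ) := by push_cast; rfl
    rw [h9]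
    linarith
  · refine ⟨(SS E).toList.map (fun S => (S.l, S.a)), ?_, ?_, ?_, ?_⟩
    · intro p hp
      rw [List.mem_map] at hp
      obtain ⟨S, hS, rfl⟩ := hp
      rw [Finset.mem_toList] at hS
      exact ⟨(h5 E hE S hS).1, (h5 E hE S hS).2.1⟩
    · rw [List.map_map]
      simp only
      exact Finset.sum_map_toList _ _
    · rw [List.length_map, Finset.length_toList]
      linarith
    · rw [List.map_map]
      have e1 : (((SS E).toList.map ((fun p : ℕ × ℕ =>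
          ({F | Fil p.1 p.2 F} : Set (Pt → Pt → Prop)).ncard) ∘ fun S : Shp => (S.l, S.a))).prod) =
          ∏ S ∈ SS E, ({F | Fil S.l S.a F} : Set (Pt → Pt → Prop)).ncard :=
        Finset.prod_map_toList _ _
      rw [e1]
      refine fiber_le (SS E) (EE E) (fun S hS => (h5 E hE S hS).2.2.2) _ ?_
      rintro E₁ ⟨hE₁, hdata⟩
      simp only [Prod.mk.injEq] at hdata
      obtain ⟨d1, d2, d3, -⟩ := hdata
      have hset : {t | ∃ S' ∈ SS E₁, t = S'.rgt} = {t | ∃ S' ∈ SS E, t = S'.rgt} := by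
        ext t
        have := Finset.ext_iff.1 d3 t
        simp only [Finset.mem_image] at this
        constructor
        · rintro ⟨S', hS', rfl⟩
          obtain ⟨S, hS, h⟩ := this.1 ⟨S', hS', rfl⟩
          exact ⟨S, hS, h.symm⟩
        · rintro ⟨S', hS', rfl⟩
          obtain ⟨S, hS, h⟩ := this.2 ⟨S', hS', rfl⟩
          exact ⟨S, hS, h.symm⟩
      have hSS : SS E₁ = SS E := by
        ext S
        constructor
        · intro hS
          have h8 := (h7 E₁ hE₁ S hS).2.2.2.2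
          have h9 : S.lft ∈ (SS E).image Shp.lft := by
            rw [← d2]; exact Finset.mem_image_of_mem _ hS
          obtain ⟨S₂, hS₂, h10⟩ := Finset.mem_image.1 h9
          have h11 := (h7 E hE S₂ hS₂).2.2.2.2
          rw [d1, hset, ← h10, ← h11] at h8
          rw [h8]; exact hS₂
        · intro hS
          have h8 := (h7 E hE S hS).2.2.2.2
          have h9 : S.lft ∈ (SS E₁).image Shp.lft := by
            rw [d2]; exact Finset.mem_image_of_mem _ hS
          obtain ⟨S₂, hS₂, h10⟩ := Finset.mem_image.1 h9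
          have h11 := (h7 E₁ hE₁ S₂ hS₂).2.2.2.2
          rw [← d1, ← hset, ← h10, ← h11] at h8
          rw [h8]; exact hS₂
      refine ⟨fun S hS => ?_, fun x y hxy => ?_⟩
      · rw [← hSS] at hS
        exact (h5 E₁ hE₁ S hS).2.2.1
      · rw [← d1]
        refine h6 E₁ hE₁ x y ?_
        rw [hSS]; exact hxy

theorem coding_of_geo (hC : CodeThm)
    (h9 : ∀ l a : ℕ, 1 ≤ l → a ≤ 2 * l →
      ({F | Fil l a F} : Set (Pt → Pt → Prop)).ncard ^ 2 ≤ (TT (2 * l + 1) 2).ncard)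
    (h10 : ∃ C : ℝ, ∀ n : ℕ, ((TT n 2).ncard : ℝ) ≤ C * (17.35 : ℝ) ^ n)
    (hG : GeoThm) : CodingThm :=
  codingThm_of_blocks h9 h10 hC (blockThm_of_geo hG)

end Pool.Agent.MP01b126
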