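import Pool.Agent.Lib.MP_01b126_co.Model
import Pool.Agent.Lib.MP_01b126_co.Cone

/-!
# MP_01b126_co, COUNTING, piece C10: triangulations of the rectangle of width two

A triangulation of `{0..n} × {0..2}` is encoded by the apexes of the unit edges of the middle row in
the lower and in the upper strip and by the set of flipped middle edges; the count is bounded by a
potential.
-/

namespace Pool.Agent.MP01b126
namespace TwoStrip

open Finset

/-! ## the potential -/

/-- the potential -/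
noncomputable def pot (s : ℤ) : ℝ :=
  if 4 ≤ s then 100 * (201 / 500) ^ (s - 4).toNat
  else if s ≤ -6 then 122398 * (200 / 119) ^ (-6 - s).toNat
  else if s = 3 then 244 else if s = 2 then 619 else if s = 1 then 1456 else if s = 0 then 3980
  else if s = -1 then 7960 else if s = -2 then 14428 else if s = -3 then 25107
  else if s = -4 then 42886 else 72607

theorem pot_ge (k : ℕ) : pot (k + 4) = 100 * (201 / 500) ^ k := by
  have h1 : (4 : ℤ) ≤ k + 4 := by omega
  have h2 : ((k : ℤ) + 4 - 4).toNat = k := by omega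
  unfold pot
  rw [if_pos h1, h2]

theorem pot_le (k : ℕ) : pot (-6 - k) = 122398 * (200 / 119) ^ k := by
  have h1 : ¬ (4 : ℤ) ≤ -6 - k := by omega
  have h3 : (-6 - k : ℤ) ≤ -6 := by omega
  have h2 : (-6 - (-6 - (k : ℤ))).toNat = k := by omega
  unfold pot
  rw [if_neg h1, if_pos h3, h2]

theorem pot_pos (s : ℤ) : 0 < pot s := by
  unfold pot
  split_ifs <;> positivity

theorem tn2 : Int.toNat 2 = 2 := rfl

theorem tn3 : Int.toNat 3 = 3 := rfl

/-- the second difference -/
noncomputable def dd (s : ℤ) : ℝ := pot s - 2 * pot (s + 1) + pot (s + 2)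

theorem cases_range (s : ℤ) :
    (∃ k : ℕ, s = k + 6) ∨ (∃ k : ℕ, s = -8 - k) ∨ (-7 ≤ s ∧ s ≤ 5) := by
  by_cases h1 : 6 ≤ s
  · exact Or.inl ⟨(s - 6).toNat, by omega⟩
  by_cases h2 : s ≤ -8
  · exact Or.inr (Or.inl ⟨(-8 - s).toNat, by omega⟩)
  exact Or.inr (Or.inr ⟨by omega, by omega⟩)

theorem pot_anti (s : ℤ) : pot (s + 1) ≤ pot s := by
  rcases cases_range s with ⟨k, rfl⟩ | ⟨k, rfl⟩ | ⟨h1, h2⟩
  · have e1 : (k : ℤ) + 6 = ((k + 2 : ℕ) : ℤ) + 4 := by push_cast; ring
    have e2 : (k : ℤ) + 6 + 1 = ((k + 3 : ℕ) : ℤ) + 4 := by push_cast; ring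
    rw [e2, e1, pot_ge, pot_ge, pow_add, pow_add]
    have : (0 : ℝ) < (201 / 500) ^ k := by positivity
    nlinarith
  · have e1 : (-8 : ℤ) - k = -6 - ((k + 2 : ℕ) : ℤ) := by push_cast; ring
    have e2 : (-8 : ℤ) - k + 1 = -6 - ((k + 1 : ℕ) : ℤ) := by push_cast; ring
    rw [e2, e1, pot_le, pot_le, pow_add, pow_add]
    have : (0 : ℝ) < (200 / 119) ^ k := by positivity
    nlinarith
  · interval_cases s <;> norm_num [pot, tn2, tn3]

theorem pot_ineq (s : ℤ) : (if s = 0 then 2 else 1) * pot (s - 2) ≤ 17.35 * dd s := by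
  unfold dd
  rcases cases_range s with ⟨k, rfl⟩ | ⟨k, rfl⟩ | ⟨h1, h2⟩
  · have e0 : (k : ℤ) + 6 - 2 = ((k : ℕ) : ℤ) + 4 := by ring
    have e1 : (k : ℤ) + 6 = ((k + 2 : ℕ) : ℤ) + 4 := by push_cast; ring
    have e2 : (k : ℤ) + 6 + 1 = ((k + 3 : ℕ) : ℤ) + 4 := by push_cast; ring
    have e3 : (k : ℤ) + 6 + 2 = ((k + 4 : ℕ) : ℤ) + 4 := by push_cast; ring
    have hne : ¬ (k : ℤ) + 6 = 0 := by omega
    rw [if_neg hne, e3, e2, e0, e1, pot_ge, pot_ge, pot_ge, pot_ge, pow_add, pow_add, pow_add]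
    have : (0 : ℝ) < (201 / 500) ^ k := by positivity
    nlinarith
  · have e0 : (-8 : ℤ) - k - 2 = -6 - ((k + 4 : ℕ) : ℤ) := by push_cast; ring
    have e1 : (-8 : ℤ) - k = -6 - ((k + 2 : ℕ) : ℤ) := by push_cast; ring
    have e2 : (-8 : ℤ) - k + 1 = -6 - ((k + 1 : ℕ) : ℤ) := by push_cast; ring
    have e3 : (-8 : ℤ) - k + 2 = -6 - ((k : ℕ) : ℤ) := by ring
    have hne : ¬ (-8 : ℤ) - k = 0 := by omega
    rw [if_neg hne, e3, e2, e0, e1, pot_le, pot_le, pot_le, pot_le, pow_add, pow_add, pow_add]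
    have : (0 : ℝ) < (200 / 119) ^ k := by positivity
    nlinarith
  · interval_cases s <;> norm_num [pot, tn2, tn3]

theorem sum_dd (N : ℕ) (s : ℤ) :
    ∑ a ∈ range N, ∑ b ∈ range N, dd (s + a + b) ≤ pot s := by
  have tel : ∀ (f : ℤ → ℝ) (t : ℤ), ∑ b ∈ range N, (f (t + b) - f (t + b + 1)) =
      f t - f (t + N) := by
    intro f t
    have := Finset.sum_range_sub' (fun b : ℕ => f (t + b)) N
    simp only [Nat.cast_add, Nat.cast_one, Nat.cast_zero, add_zero] at this
    rw [← this]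
    refine Finset.sum_congr rfl fun b _ => ?_
    rw [add_assoc]
  have h1 : ∀ a ∈ range N, ∑ b ∈ range N, dd (s + a + b) ≤ pot (s + a) - pot (s + a + 1) := by
    intro a _
    have h2 := tel (fun t => pot t - pot (t + 1)) (s + a)
    have h3 : ∑ b ∈ range N, dd (s + a + b) = ∑ b ∈ range N,
        ((fun t => pot t - pot (t + 1)) (s + a + b) -
          (fun t => pot t - pot (t + 1)) (s + a + b + 1)) := by
      refine Finset.sum_congr rfl fun b _ => ?_
      simp only [dd]
      rw [show s + a + b + 1 + 1 = s + a + b + 2 by ring]; ring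
    rw [h3]
    beta_reduce
    rw [h2]
    have := pot_anti (s + a + N)
    linarith
  refine (Finset.sum_le_sum h1).trans ?_
  have h2 := tel pot s
  rw [h2]
  have := pot_pos (s + N)
  linarith

/-- the weight of a state -/
noncomputable def hh (s : ℤ) : ℝ := dd s / (if s = 0 then 2 else 1)

theorem pot_le_hh (s : ℤ) : pot (s - 2) ≤ 17.35 * hh s := by
  have := pot_ineq s
  unfold hh
  split_ifs with h0
  · rw [if_pos h0] at this; linarith
  · rw [if_neg h0] at this; linarith

theorem pot_anti' {s : ℤ} (k : ℕ) : pot (s + k) ≤ pot s := by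
  induction k with
  | zero => simp
  | succ k ih =>
    push_cast
    rw [← add_assoc]
    exact (pot_anti _).trans ih

theorem one_le_hh {s : ℤ} (hs : s ≤ 1) : 1 ≤ hh s := by
  have h1 := pot_le_hh s
  have h2 : pot (-1) ≤ pot (s - 2) := by
    have := pot_anti' (s := s - 2) (1 - s).toNat
    rwa [show s - 2 + ((1 - s).toNat : ℤ) = -1 by omega] at this
  have h3 : pot (-1) = 7960 := by norm_num [pot]
  rw [h3] at h2
  linarith

theorem hh_nonneg (s : ℤ) : 0 ≤ hh s := by
  have h1 := pot_le_hh s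
  have := pot_pos (s - 2)
  linarith

/-! ## words -/

/-- letters: two increments and a flag -/
abbrev Ltr := ℕ × ℕ × Bool

/-- a letter is allowed in a state -/
def ok (s : ℤ) (x : Ltr) : Prop := x.2.2 = true → s + x.1 + x.2.1 = 2

instance (s : ℤ) (x : Ltr) : Decidable (ok s x) := by unfold ok; infer_instance

/-- next state -/
def nxt (s : ℤ) (x : Ltr) : ℤ := s + x.1 + x.2.1 - 2

/-- the words of length `k` from the state `s` -/
def wrd (N : ℕ) : ℕ → ℤ → Finset (List Ltr)
  | 0, s => if s ≤ 1 then {[]} else ∅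
  | k + 1, s => (range N ×ˢ range N ×ˢ (univ : Finset Bool)).biUnion fun x =>
      if ok s x then (wrd N k (nxt s x)).image (List.cons x) else ∅

theorem card_wrd (N k : ℕ) (s : ℤ) : ((wrd N k s).card : ℝ) ≤ 17.35 ^ k * hh s := by
  induction k generalizing s with
  | zero =>
    unfold wrd
    split_ifs with h
    · simpa using one_le_hh h
    · simpa using hh_nonneg s
  | succ k ih =>
    have h1 : ((wrd N (k + 1) s).card : ℝ) ≤
        ∑ x ∈ range N ×ˢ range N ×ˢ (univ : Finset Bool),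
          (if ok s x then 17.35 ^ k * hh (nxt s x) else 0) := by
      rw [wrd]
      have h2 := Finset.card_biUnion_le (s := range N ×ˢ range N ×ˢ (univ : Finset Bool))
        (t := fun x => if ok s x then (wrd N k (nxt s x)).image (List.cons x) else ∅)
      refine (Nat.cast_le.2 h2).trans ?_
      push_cast
      refine Finset.sum_le_sum fun x _ => ?_
      split_ifs with hx
      · exact (Nat.cast_le.2 Finset.card_image_le).trans (ih _)
      · simp
    refine h1.trans ?_
    have h3 : ∑ x ∈ range N ×ˢ range N ×ˢ (univ : Finset Bool),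
          (if ok s x then (17.35 : ℝ) ^ k * hh (nxt s x) else 0) =
        ∑ a ∈ range N, ∑ b ∈ range N, 17.35 ^ k * dd (s - 2 + a + b) := by
      rw [Finset.sum_product]
      refine Finset.sum_congr rfl fun a _ => ?_
      rw [Finset.sum_product]
      refine Finset.sum_congr rfl fun b _ => ?_
      rw [Fintype.sum_bool]
      simp only [ok, nxt]
      have e : s + a + b - 2 = s - 2 + a + b := by ring
      rw [e]
      unfold hh
      by_cases hs : s - 2 + a + b = 0
      · have h' : s + a + b = 2 := by linarith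
        simp only [hs, h', implies_true, if_true]
        ring
      · have h' : ¬ s + a + b = 2 := fun hc => hs (by linarith)
        simp [hs, h']
    rw [h3]
    simp_rw [← Finset.mul_sum]
    have h4 := sum_dd N (s - 2)
    have h5 := pot_le_hh s
    have h6 : (0 : ℝ) ≤ 17.35 ^ k := by positivity
    calc (17.35 : ℝ) ^ k * ∑ a ∈ range N, ∑ b ∈ range N, dd (s - 2 + a + b)
        ≤ 17.35 ^ k * (17.35 * hh s) := mul_le_mul_of_nonneg_left (h4.trans h5) h6
      _ = 17.35 ^ (k + 1) * hh s := by ring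

theorem mem_wrd {N n : ℕ} {g : ℕ → Ltr} {S : ℕ → ℤ} (h1 : ∀ i, i < n → S (i + 1) = nxt (S i) (g i))
    (h2 : ∀ i, i < n → ok (S i) (g i)) (h3 : ∀ i, i < n → (g i).1 < N ∧ (g i).2.1 < N)
    (h4 : S n ≤ 1) (k i : ℕ) (hk : i + k = n) : (List.range' i k).map g ∈ wrd N k (S i) := by
  induction k generalizing i with
  | zero =>
    have : i = n := by omega
    subst this
    simp [wrd, h4]
  | succ k ih =>
    have hi : i < n := by omega
    rw [List.range'_succ, List.map_cons, wrd, Finset.mem_biUnion]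
    refine ⟨g i, ?_, ?_⟩
    · simp [h3 i hi]
    · rw [if_pos (h2 i hi), Finset.mem_image]
      exact ⟨_, h1 i hi ▸ ih (i + 1) (by omega), rfl⟩

/-! ## geometry of the two-strip -/

section geo

variable {n : ℕ} {E E' : Pt → Pt → Prop}

theorem crs {e p q p' q' : ℤ} (he : e = 1 ∨ e = -1) (h1 : p < p') (h2 : q' < q) :
    Cross (p, 1 - e) (q, 1) (p', 1 - e) (q', 1) := by
  have e2 : e * e = 1 := by rcases he with rfl | rfl <;> rfl
  unfold Cross det
  simp only [Prod.fst_sub, Prod.snd_sub]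
  have k1 : 0 < p' - p := by linarith
  have k2 : 0 < q - q' := by linarith
  have k3 := mul_pos k1 k2
  constructor
  · have : ((q - p) * (1 - e - (1 - e)) - (1 - (1 - e)) * (p' - p)) *
        ((q - p) * (1 - (1 - e)) - (1 - (1 - e)) * (q' - p)) =
        - (e * e) * ((p' - p) * (q - q')) := by ring
    rw [this, e2]; linarith
  · have : ((q' - p') * (1 - e - (1 - e)) - (1 - (1 - e)) * (p - p')) *
        ((q' - p') * (1 - (1 - e)) - (1 - (1 - e)) * (q - p')) =
        - (e * e) * ((p' - p) * (q - q')) := by ring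
    rw [this, e2]; linarith

theorem no_crs (h : IsTri n 2 E) {e p q p' q' : ℤ} (he : e = 1 ∨ e = -1)
    (h1 : E (p, 1 - e) (q, 1)) (h2 : E (p', 1 - e) (q', 1)) (hp : p < p') : q ≤ q' := by
  by_contra hc
  exact h.ncr _ _ _ _ h1 h2 (crs he hp (by linarith))

theorem flat (h : IsTri n 2 E) {a b r : ℤ} (h1 : E (a, r) (b, r)) : b = a + 1 ∨ b = a - 1 := by
  have := h.prim _ _ h1
  obtain ⟨x, y, hxy⟩ := this
  simp only [Prod.fst_sub, Prod.snd_sub, sub_self, mul_zero, add_zero] at hxy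
  have : IsUnit (b - a) := isUnit_of_dvd_one ⟨x, by linarith⟩
  rcases Int.isUnit_iff.1 this with h | h
  · left; linarith
  · right; linarith

theorem flip_odd (h : IsTri n 2 E) {p q : ℤ} (h1 : E (p, 0) (q, 2)) : ∃ c : ℤ, p + q = 2 * c + 1 := by
  have := (h.prim _ _ h1).not_even
  simp only [Prod.fst_sub, Prod.snd_sub] at this
  have h2 : ¬ Even (q - p) := fun hc => this ⟨hc, by decide⟩
  rw [Int.not_even_iff_odd] at h2
  obtain ⟨k, hk⟩ := h2
  exact ⟨k + p, by linarith⟩

theorem flip_nb (h : IsTri n 2 E) {p q c : ℤ} (h1 : E (p, 0) (q, 2)) (hc : p + q = 2 * c + 1) :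
    E (p, 0) (c, 1) ∧ E (p, 0) (c + 1, 1) ∧ E (q, 2) (c, 1) ∧ E (q, 2) (c + 1, 1) := by
  have hp := h.inR _ _ h1
  have hq := h.inR' h1
  simp only [InR] at hp hq
  push_cast at hp hq
  have z1 : InR n 2 (c, 1) := by
    unfold InR; refine ⟨?_, ?_, ?_, ?_⟩ <;> simp <;> omega
  have z2 : InR n 2 (c + 1, 1) := by
    unfold InR; refine ⟨?_, ?_, ?_, ?_⟩ <;> simp <;> omega
  obtain ⟨w, w1, w2, w3, w4⟩ := h.apex_exists h1 z1 (by
    unfold det; simp only [Prod.fst_sub, Prod.snd_sub]; linarith)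
  obtain ⟨v, v1, v2, v3, v4⟩ := h.apex_exists (h.symm _ _ h1) z2 (by
    unfold det; simp only [Prod.fst_sub, Prod.snd_sub]; linarith)
  have hw := h.inR' w2
  have hv := h.inR' v2
  obtain ⟨a, b⟩ := w
  obtain ⟨a', b'⟩ := v
  simp only [InR, det, Prod.fst_sub, Prod.snd_sub] at hw hv w4 v4
  push_cast at hw hv
  obtain ⟨_, _, w5, w6⟩ := hw
  obtain ⟨_, _, v5, v6⟩ := hv
  have hb : b = 1 := by
    interval_cases b
    · omega
    · rfl
    · omega
  have hb' : b' = 1 := by
    interval_cases b'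
    · omega
    · rfl
    · omega
  subst hb hb'
  have ha : a = c := by omega
  have ha' : a' = c + 1 := by omega
  subst ha ha'
  exact ⟨h.symm _ _ w3, v2, w2, h.symm _ _ v3⟩

theorem mid_cases (h : IsTri n 2 E) {c : ℤ} (h0 : 0 ≤ c) (hc : c < n) :
    E (c, 1) (c + 1, 1) ∨ ∃ p q, E (p, 0) (q, 2) ∧ p + q = 2 * c + 1 := by
  obtain ⟨⟨x1, x2⟩, ⟨y1, y2⟩, hxy, hs⟩ := h.full (2 * c + 1, 2) (by simp; omega) (by simp; omega)
    (by simp) (by simp) (by simp)
  have hx := h.inR _ _ hxy
  have hy := h.inR' hxy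
  simp only [InR, Prod.mk_add_mk, Prod.mk.injEq] at hx hy hs
  push_cast at hx hy
  obtain ⟨_, _, x5, x6⟩ := hx
  obtain ⟨_, _, y5, y6⟩ := hy
  interval_cases x2
  · have : y2 = 2 := by omega
    subst this
    exact Or.inr ⟨x1, y1, hxy, hs.1⟩
  · have : y2 = 1 := by omega
    subst this
    left
    rcases flat h hxy with h1 | h1
    · have e1 : x1 = c := by omega
      have e2 : y1 = c + 1 := by omega
      rw [e1, e2] at hxy
      exact hxy
    · have e1 : x1 = c + 1 := by omega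
      have e2 : y1 = c := by omega
      rw [e1, e2] at hxy
      exact h.symm _ _ hxy
  · have : y2 = 0 := by omega
    subst this
    exact Or.inr ⟨y1, x1, h.symm _ _ hxy, by linarith [hs.1]⟩

theorem ap (h : IsTri n 2 E) {e : ℤ} (he : e = 1 ∨ e = -1) {c : ℤ} (h0 : 0 ≤ c) (hc : c < n) :
    ∃ p, E (p, 1 - e) (c, 1) ∧ E (p, 1 - e) (c + 1, 1) := by
  rcases mid_cases h h0 hc with h1 | ⟨p, q, h1, h2⟩
  · rcases he with rfl | rfl
    · obtain ⟨⟨a, b⟩, w1, w2, w3, w4⟩ := h.apex_exists (h.symm _ _ h1) (z := (c, 0))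
        (by unfold InR; refine ⟨?_, ?_, ?_, ?_⟩ <;> simp <;> omega)
        (by unfold det; simp only [Prod.fst_sub, Prod.snd_sub]; linarith)
      simp only [det, Prod.fst_sub, Prod.snd_sub] at w4
      have hb : b = 0 := by linarith
      subst hb
      exact ⟨a, h.symm _ _ w2, w3⟩
    · obtain ⟨⟨a, b⟩, w1, w2, w3, w4⟩ := h.apex_exists h1 (z := (c, 2))
        (by unfold InR; refine ⟨?_, ?_, ?_, ?_⟩ <;> simp <;> omega)
        (by unfold det; simp only [Prod.fst_sub, Prod.snd_sub]; linarith)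
      simp only [det, Prod.fst_sub, Prod.snd_sub] at w4
      have hb : b = 2 := by linarith
      subst hb
      exact ⟨a, w3, h.symm _ _ w2⟩
  · obtain ⟨k1, k2, k3, k4⟩ := flip_nb h h1 h2
    rcases he with rfl | rfl
    · exact ⟨p, k1, k2⟩
    · exact ⟨q, k3, k4⟩

open Classical in
/-- first coordinate of the apex of the row edge `(c, c+1)` in row `1 - e` -/
noncomputable def P (E : Pt → Pt → Prop) (e : ℤ) : ℕ → ℤ
  | 0 => 0
  | c + 1 => if h : ∃ p, E (p, 1 - e) ((c : ℤ), 1) ∧ E (p, 1 - e) ((c : ℤ) + 1, 1) then h.choose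
      else 0

theorem P_spec (h : IsTri n 2 E) {e : ℤ} (he : e = 1 ∨ e = -1) {c : ℕ} (hc : c < n) :
    E (P E e (c + 1), 1 - e) ((c : ℤ), 1) ∧ E (P E e (c + 1), 1 - e) ((c : ℤ) + 1, 1) := by
  have h1 := ap h he (c := c) (by omega) (by omega)
  simp only [P]
  rw [dif_pos h1]
  exact h1.choose_spec

theorem P_uniq (h : IsTri n 2 E) {e : ℤ} (he : e = 1 ∨ e = -1) {c : ℕ} (hc : c < n) {p : ℤ}
    (h1 : E (p, 1 - e) ((c : ℤ), 1)) (h2 : E (p, 1 - e) ((c : ℤ) + 1, 1)) : P E e (c + 1) = p := by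
  obtain ⟨h3, h4⟩ := P_spec h he hc
  rcases lt_trichotomy (P E e (c + 1)) p with h5 | h5 | h5
  · have := no_crs h he h4 h1 h5
    omega
  · exact h5
  · have := no_crs h he h2 h3 h5
    omega

theorem P_bd (h : IsTri n 2 E) {e : ℤ} (he : e = 1 ∨ e = -1) {c : ℕ} (hc : c ≤ n) :
    0 ≤ P E e c ∧ P E e c ≤ n := by
  cases c with
  | zero => simp [P]
  | succ c =>
    have := h.inR _ _ (P_spec h he (c := c) (by omega)).1
    exact ⟨this.1, this.2.1⟩

theorem P_le_of (h : IsTri n 2 E) {e : ℤ} (he : e = 1 ∨ e = -1) {p : ℤ} {k : ℕ}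
    (h1 : E (p, 1 - e) ((k : ℤ), 1)) : P E e k ≤ p := by
  have hk := (h.inR' h1).2.1
  simp only at hk
  cases k with
  | zero =>
    have := (h.inR _ _ h1).1
    simpa [P] using this
  | succ k =>
    by_contra hc
    have := no_crs h he h1 (P_spec h he (c := k) (by omega)).1 (by linarith)
    push_cast at this
    omega

theorem le_P_of (h : IsTri n 2 E) {e : ℤ} (he : e = 1 ∨ e = -1) {p : ℤ} {k : ℕ} (hk : k < n)
    (h1 : E (p, 1 - e) ((k : ℤ), 1)) : p ≤ P E e (k + 1) := by
  by_contra hc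
  have := no_crs h he (P_spec h he hk).2 h1 (by linarith)
  omega

theorem P_mono (h : IsTri n 2 E) {e : ℤ} (he : e = 1 ∨ e = -1) {c : ℕ} (hc : c < n) :
    P E e c ≤ P E e (c + 1) := P_le_of h he (P_spec h he hc).1

theorem P_mono' (h : IsTri n 2 E) {e : ℤ} (he : e = 1 ∨ e = -1) {c d : ℕ} (hcd : c ≤ d)
    (hd : d ≤ n) : P E e c ≤ P E e d := by
  induction d, hcd using Nat.le_induction with
  | base => exact le_rfl
  | succ d _ ih => exact (ih (by omega)).trans (P_mono h he (by omega))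

theorem strip_aux (h : IsTri n 2 E) (h' : IsTri n 2 E') {e : ℤ} (he : e = 1 ∨ e = -1)
    (hP : ∀ i, i ≤ n → P E e i = P E' e i) {p q p' q' : ℤ} (h1 : E (p, 1 - e) (q, 1))
    (h2 : E' (p', 1 - e) (q', 1)) (hs : p + q = p' + q') : q' ≤ q := by
  by_contra hc
  push Not at hc
  have q0 := (h.inR' h1).1
  have q1 := (h'.inR' h2).2.1
  simp only at q0 q1
  obtain ⟨k, rfl⟩ := Int.eq_ofNat_of_zero_le q0
  obtain ⟨k', rfl⟩ := Int.eq_ofNat_of_zero_le (q0.trans hc.le)
  have a1 := le_P_of h he (k := k) (by omega) h1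
  have a2 := P_le_of h' he h2
  have a3 := P_mono' h' he (c := k + 1) (d := k') (by omega) (by omega)
  have a4 := hP (k + 1) (by omega)
  omega

theorem sub_of_data (h : IsTri n 2 E) (h' : IsTri n 2 E')
    (hP : ∀ e : ℤ, (e = 1 ∨ e = -1) → ∀ i, i ≤ n → P E e i = P E' e i)
    (hF : ∀ i : ℕ, i < n → (E ((i : ℤ), 1) ((i : ℤ) + 1, 1) ↔ E' ((i : ℤ), 1) ((i : ℤ) + 1, 1)))
    {x y : Pt} (hxy : E x y) (hle : x.2 ≤ y.2) : E' x y := by
  have hpr := (h.prim _ _ hxy).not_even
  have hx := h.inR _ _ hxy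
  have hy := h.inR' hxy
  have hodd : ¬ (Even (x + y).1 ∧ Even (x + y).2) := by
    rintro ⟨⟨a, ha⟩, ⟨b, hb⟩⟩
    refine hpr ⟨⟨a - x.1, ?_⟩, ⟨b - x.2, ?_⟩⟩
    · simp only [Prod.fst_add] at ha; simp only [Prod.fst_sub]; linarith
    · simp only [Prod.snd_add] at hb; simp only [Prod.snd_sub]; linarith
  have hfull : ∃ x' y' : Pt, E' x' y' ∧ x' + y' = x + y ∧ x'.2 ≤ y'.2 := by
    obtain ⟨x', y', h1, h2⟩ := h'.full (x + y) (by simp only [Prod.fst_add]; linarith [hx.1, hy.1])
      (by simp only [Prod.fst_add]; linarith [hx.2.1, hy.2.1])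
      (by simp only [Prod.snd_add]; linarith [hx.2.2.1, hy.2.2.1])
      (by simp only [Prod.snd_add]; linarith [hx.2.2.2, hy.2.2.2]) hodd
    rcases le_total x'.2 y'.2 with h3 | h3
    · exact ⟨x', y', h1, h2, h3⟩
    · exact ⟨y', x', h'.symm _ _ h1, by rw [add_comm]; exact h2, h3⟩
  obtain ⟨x', y', hxy', hs, hle'⟩ := hfull
  have hx' := h'.inR _ _ hxy'
  have hy' := h'.inR' hxy'
  obtain ⟨x1, x2⟩ := x
  obtain ⟨y1, y2⟩ := y
  obtain ⟨u1, u2⟩ := x'
  obtain ⟨v1, v2⟩ := y'
  simp only [InR, Prod.mk_add_mk, Prod.mk.injEq] at hx hy hx' hy' hs hle hle'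
  push_cast at hx hy hx' hy'
  obtain ⟨x3, x4, x5, x6⟩ := hx
  obtain ⟨y3, y4, y5, y6⟩ := hy
  obtain ⟨u3, u4, u5, u6⟩ := hx'
  obtain ⟨v3, v4, v5, v6⟩ := hy'
  obtain ⟨s1, s2⟩ := hs
  have row : x2 = y2 → u2 = x2 → v2 = x2 → E' (x1, x2) (y1, y2) := by
    rintro rfl rfl rfl
    rcases flat h hxy with h1 | h1 <;> rcases flat h' hxy' with h2 | h2
    · have e1 : u1 = x1 := by omega
      have e2 : v1 = y1 := by omega
      rw [e1, e2] at hxy'; exact hxy'
    · have e1 : u1 = y1 := by omega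
      have e2 : v1 = x1 := by omega
      rw [e1, e2] at hxy'; exact h'.symm _ _ hxy'
    · have e1 : u1 = y1 := by omega
      have e2 : v1 = x1 := by omega
      rw [e1, e2] at hxy'; exact h'.symm _ _ hxy'
    · have e1 : u1 = x1 := by omega
      have e2 : v1 = y1 := by omega
      rw [e1, e2] at hxy'; exact hxy'
  have str : ∀ {e p q p' q' : ℤ}, (e = 1 ∨ e = -1) → E (p, 1 - e) (q, 1) →
      E' (p', 1 - e) (q', 1) → p + q = p' + q' → E' (p, 1 - e) (q, 1) := by
    intro e p q p' q' he k1 k2 k3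
    have a1 := strip_aux h h' he (hP e he) k1 k2 k3
    have a2 := strip_aux h' h he (fun i hi => (hP e he i hi).symm) k2 k1 k3.symm
    have e1 : q' = q := le_antisymm a1 a2
    have e2 : p' = p := by omega
    rw [e1, e2] at k2; exact k2
  interval_cases x2
  · interval_cases y2
    · exact row rfl (by omega) (by omega)
    · have e1 : u2 = 0 := by omega
      have e2 : v2 = 1 := by omega
      subst e1 e2
      exact str (e := 1) (Or.inl rfl) hxy hxy' s1.symm
    · obtain ⟨c, hc⟩ := flip_odd h hxy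
      obtain ⟨k, rfl⟩ : ∃ k : ℕ, c = k := Int.eq_ofNat_of_zero_le (by omega)
      have hk : k < n := by omega
      interval_cases u2
      · have e2 : v2 = 2 := by omega
        subst e2
        obtain ⟨a1, a2, a3, a4⟩ := flip_nb h hxy hc
        obtain ⟨b1, b2, b3, b4⟩ := flip_nb h' hxy' (s1.trans hc)
        have p1 := P_uniq h (e := 1) (Or.inl rfl) hk a1 a2
        have p2 := P_uniq h' (e := 1) (Or.inl rfl) hk b1 b2
        have p3 := hP 1 (Or.inl rfl) (k + 1) (by omega)
        have e1 : u1 = x1 := by omega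
        have e2 : v1 = y1 := by omega
        rw [e1, e2] at hxy'; exact hxy'
      · have e2 : v2 = 1 := by omega
        subst e2
        exfalso
        have hE' : E' ((k : ℤ), 1) ((k : ℤ) + 1, 1) := by
          rcases flat h' hxy' with h2 | h2
          · have e1 : u1 = k := by omega
            have e2 : v1 = k + 1 := by omega
            rw [e1, e2] at hxy'; exact hxy'
          · have e1 : u1 = k + 1 := by omega
            have e2 : v1 = k := by omega
            rw [e1, e2] at hxy'; exact h'.symm _ _ hxy'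
        have hE := (hF k hk).2 hE'
        rcases h.mid_unique hxy hE (by simp only [Prod.mk_add_mk, Prod.mk.injEq]; omega) with
          ⟨h1, _⟩ | ⟨h1, _⟩ <;> simp at h1
      · omega
  · interval_cases y2
    · rcases flat h hxy with h1 | h1
      · obtain ⟨k, rfl⟩ : ∃ k : ℕ, x1 = k := Int.eq_ofNat_of_zero_le (by omega)
        rw [h1] at hxy ⊢
        exact (hF k (by omega)).1 hxy
      · obtain ⟨k, rfl⟩ : ∃ k : ℕ, y1 = k := Int.eq_ofNat_of_zero_le (by omega)
        have h2 : x1 = k + 1 := by omega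
        rw [h2] at hxy ⊢
        exact h'.symm _ _ ((hF k (by omega)).1 (h.symm _ _ hxy))
    · have e1 : u2 = 1 := by omega
      have e2 : v2 = 2 := by omega
      subst e1 e2
      exact h'.symm _ _ (str (e := -1) (Or.inr rfl) (h.symm _ _ hxy) (h'.symm _ _ hxy')
        (by linarith))
  · have e1 : y2 = 2 := by omega
    exact row e1.symm (by omega) (by omega)

theorem eq_of_data (h : IsTri n 2 E) (h' : IsTri n 2 E')
    (hP : ∀ e : ℤ, (e = 1 ∨ e = -1) → ∀ i, i ≤ n → P E e i = P E' e i)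
    (hF : ∀ i : ℕ, i < n → (E ((i : ℤ), 1) ((i : ℤ) + 1, 1) ↔ E' ((i : ℤ), 1) ((i : ℤ) + 1, 1))) :
    E = E' := by
  funext x y
  apply propext
  constructor
  · intro hxy
    rcases le_total x.2 y.2 with hl | hl
    · exact sub_of_data h h' hP hF hxy hl
    · exact h'.symm _ _ (sub_of_data h h' hP hF (h.symm _ _ hxy) hl)
  · intro hxy
    rcases le_total x.2 y.2 with hl | hl
    · exact sub_of_data h' h (fun e he i hi => (hP e he i hi).symm) (fun i hi => (hF i hi).symm)
        hxy hl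
    · exact h.symm _ _ (sub_of_data h' h (fun e he i hi => (hP e he i hi).symm)
        (fun i hi => (hF i hi).symm) (h'.symm _ _ hxy) hl)

open Classical in
/-- the letter of column `i` -/
noncomputable def gg (E : Pt → Pt → Prop) (i : ℕ) : Ltr :=
  ((P E 1 (i + 1) - P E 1 i).toNat, (P E (-1) (i + 1) - P E (-1) i).toNat,
    decide (¬ E ((i : ℤ), 1) ((i : ℤ) + 1, 1)))

/-- the state before column `i` -/
noncomputable def st (E : Pt → Pt → Prop) (i : ℕ) : ℤ := P E 1 i + P E (-1) i - 2 * i + 1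

theorem gg_ok (h : IsTri n 2 E) {i : ℕ} (hi : i < n) :
    st E (i + 1) = nxt (st E i) (gg E i) ∧ ok (st E i) (gg E i) ∧
      (gg E i).1 < n + 1 ∧ (gg E i).2.1 < n + 1 := by
  have a1 := P_mono h (e := 1) (Or.inl rfl) hi
  have a2 := P_mono h (e := -1) (Or.inr rfl) hi
  have b1 := P_bd h (e := 1) (Or.inl rfl) (c := i + 1) (by omega)
  have b2 := P_bd h (e := -1) (Or.inr rfl) (c := i + 1) (by omega)
  have b3 := P_bd h (e := 1) (Or.inl rfl) (c := i) (by omega)
  have b4 := P_bd h (e := -1) (Or.inr rfl) (c := i) (by omega)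
  refine ⟨?_, ?_, ?_, ?_⟩
  · simp only [st, nxt, gg]
    push_cast
    omega
  · simp only [ok, gg, decide_eq_true_eq, st]
    intro hF
    rcases mid_cases h (c := i) (by omega) (by omega) with h1 | ⟨p, q, h1, h2⟩
    · exact absurd h1 hF
    · obtain ⟨k1, k2, k3, k4⟩ := flip_nb h h1 h2
      have p1 := P_uniq h (e := 1) (Or.inl rfl) hi k1 k2
      have p2 := P_uniq h (e := -1) (Or.inr rfl) hi k3 k4
      omega
  · simp only [gg]; omega
  · simp only [gg]; omega

theorem code_mem (h : IsTri n 2 E) :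
    (List.range' 0 n).map (gg E) ∈ wrd (n + 1) n 1 := by
  have h0 : st E 0 = 1 := by simp [st, P]
  rw [← h0]
  refine mem_wrd (n := n) (fun i hi => (gg_ok h hi).1) (fun i hi => (gg_ok h hi).2.1)
    (fun i hi => (gg_ok h hi).2.2) ?_ n 0 (by omega)
  have b1 := P_bd h (e := 1) (Or.inl rfl) (c := n) le_rfl
  have b2 := P_bd h (e := -1) (Or.inr rfl) (c := n) le_rfl
  simp only [st]
  omega

theorem code_inj (h : IsTri n 2 E) (h' : IsTri n 2 E')
    (hc : (List.range' 0 n).map (gg E) = (List.range' 0 n).map (gg E')) : E = E' := by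
  have h1 : ∀ i, i < n → gg E i = gg E' i := by
    intro i hi
    exact (List.map_inj_left.1 hc) i (by simp [hi])
  refine eq_of_data h h' ?_ ?_
  · intro e he i hi
    induction i with
    | zero => rfl
    | succ i ih =>
      have := h1 i (by omega)
      have a1 := P_mono h he (c := i) (by omega)
      have a2 := P_mono h' he (c := i) (by omega)
      have a3 := ih (by omega)
      simp only [gg, Prod.mk.injEq] at this
      rcases he with rfl | rfl
      · omega
      · omega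
  · intro i hi
    have := h1 i hi
    simp only [gg, Prod.mk.injEq, decide_eq_decide] at this
    exact not_iff_not.1 this.2.2

end geo

end TwoStrip

open TwoStrip in
theorem two_strip : ∃ C : ℝ, ∀ n : ℕ, ((TT n 2).ncard : ℝ) ≤ C * (17.35 : ℝ) ^ n := by
  refine ⟨hh 1, fun n => ?_⟩
  have h1 : (TT n 2).ncard ≤ (wrd (n + 1) n 1).card := by
    rw [← Set.ncard_coe_finset]
    refine Set.ncard_le_ncard_of_injOn (fun E => (List.range' 0 n).map (gg E)) ?_ ?_
      (Finset.finite_toSet _)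
    · intro E hE
      exact code_mem hE
    · intro E hE E' hE' hc
      exact code_inj hE hE' hc
  calc ((TT n 2).ncard : ℝ) ≤ (wrd (n + 1) n 1).card := by exact_mod_cast h1
    _ ≤ 17.35 ^ n * hh 1 := card_wrd _ _ _
    _ = hh 1 * 17.35 ^ n := mul_comm _ _

end Pool.Agent.MP01b126
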