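import Pool.Agent.Lib.MP_01b126_co.Cnt.Geo
import Pool.Agent.Lib.MP_01b126_co.Cnt.Final
import Pool.Agent.Lib.MP_01b126_co.Cnt.CodeThm
import Pool.Agent.Lib.MP_01b126_co.Cnt.FilSq
import Pool.Agent.Lib.MP_01b126_co.Cnt.TwoStrip

/-!
# MP_01b126_co: the counting theorem
-/

namespace Pool.Agent.MP01b126

theorem codingThm : CodingThm :=
  coding_of_geo codeThm (fun _ _ hl ha => fil_sq hl ha) two_strip geoThm

end Pool.Agent.MP01b126
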