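import Pool.Agent.Lib.MP_01b126_co.Cnt.RefillAll
import Pool.Agent.Lib.MP_01b126_co.Cone

/-!
# MP_01b126_co, COUNTING: a trapezoid is determined by the refilled triangulation and the positions
of the end flips
-/

namespace Pool.Agent.MP01b126

/-- the decoding predicate -/
structure DecQ (E' : Pt → Pt → Prop) (Mr : Set Pt) (t : Pt) (S : Shp) : Prop where
  lex : LexPos S.d
  det : MP01b126.det S.d S.u = 1
  lft : S.lft = t
  flp : E' (S.o + S.u) (S.o - S.d - S.u)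
  e1 : E' S.o (S.o + S.u)
  e2 : E' S.o (S.o - S.d - S.u)
  e3 : E' (S.o - S.d) (S.o + S.u)
  e4 : E' (S.o - S.d) (S.o - S.d - S.u)
  hl : 1 ≤ S.l
  rgt : S.rgt ∈ Mr
  first : ∀ k : ℕ, 1 ≤ k → k < S.l → S.o + S.o + (2 * (k : ℤ) - 1) • S.d ∉ Mr
  rflp : E' (S.o + S.u + (S.a : ℤ) • S.d) (S.o - S.u + (2 * (S.l : ℤ) - 1 - S.a) • S.d)

theorem dq_lex_ne_zero {d : Pt} (h : LexPos d) : d ≠ 0 := by
  rintro rfl
  unfold LexPos at h
  simp at h

theorem dq_lex_neg {d : Pt} (h : LexPos d) : ¬ LexPos (-d) := by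
  intro h'
  unfold LexPos at h h'
  simp only [Prod.fst_neg, Prod.snd_neg] at h'
  omega

theorem dq_smul_inj {d : Pt} (h : d ≠ 0) {a b : ℤ} (e : a • d = b • d) : a = b := by
  have h1 := congrArg Prod.fst e
  have h2 := congrArg Prod.snd e
  simp only [Prod.smul_fst, Prod.smul_snd, smul_eq_mul] at h1 h2
  by_contra hne
  apply h
  have hne' : a - b ≠ 0 := sub_ne_zero.mpr hne
  ext
  · have : (a - b) * d.1 = 0 := by linear_combination h1
    simpa using (mul_eq_zero.mp this).resolve_left hne'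
  · have : (a - b) * d.2 = 0 := by linear_combination h2
    simpa using (mul_eq_zero.mp this).resolve_left hne'

/-- the two faces at the left end flip -/
theorem DecQ.tr1 {m n : ℕ} {E' : Pt → Pt → Prop} (h : IsTri m n E') {Mr : Set Pt} {t : Pt}
    {S : Shp} (hS : DecQ E' Mr t S) : Tr E' (S.o + S.u) (S.o - S.d - S.u) S.o := by
  refine ⟨hS.flp, h.symm _ _ hS.e2, hS.e1, ?_⟩
  have := hS.det
  simp only [MP01b126.det, Prod.fst_sub, Prod.snd_sub, Prod.fst_add, Prod.snd_add] at *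
  linear_combination this

theorem DecQ.tr2 {m n : ℕ} {E' : Pt → Pt → Prop} (h : IsTri m n E') {Mr : Set Pt} {t : Pt}
    {S : Shp} (hS : DecQ E' Mr t S) : Tr E' (S.o - S.d - S.u) (S.o + S.u) (S.o - S.d) := by
  refine ⟨h.symm _ _ hS.flp, h.symm _ _ hS.e3, hS.e4, ?_⟩
  have := hS.det
  simp only [MP01b126.det, Prod.fst_sub, Prod.snd_sub, Prod.fst_add, Prod.snd_add] at *
  linear_combination this

theorem DecQ.unique {m n : ℕ} {E' : Pt → Pt → Prop} (h : IsTri m n E') {Mr : Set Pt} {t : Pt}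
    {S S1 : Shp} (hS : DecQ E' Mr t S) (hS1 : DecQ E' Mr t S1) : S = S1 := by
  have hp : S.o + S.u + (S.o - S.d - S.u) = S1.o + S1.u + (S1.o - S1.d - S1.u) := by
    have a1 := hS.lft
    have a2 := hS1.lft
    unfold Shp.lft at a1 a2
    have : S.o + S.o - S.d = S1.o + S1.o - S1.d := a1.trans a2.symm
    calc S.o + S.u + (S.o - S.d - S.u) = S.o + S.o - S.d := by abel
      _ = S1.o + S1.o - S1.d := this
      _ = _ := by abel
  have hod : S.o = S1.o ∧ S.d = S1.d ∧ S.u = S1.u := by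
    rcases h.mid_unique hS.flp hS1.flp hp with ⟨c1, c2⟩ | ⟨c1, c2⟩
    · have t1 := hS.tr1 h
      have t2 := hS1.tr1 h
      rw [c1, c2] at t2
      have b1 := h.apex_unique t1 t2
      have t3 := hS.tr2 h
      have t4 := hS1.tr2 h
      rw [c1, c2] at t4
      have b2 := h.apex_unique t3 t4
      have b3 : S.d = S1.d := by
        rw [b1] at b2
        exact sub_right_injective b2
      refine ⟨b1, b3, ?_⟩
      rw [b1] at c1
      exact (add_left_cancel c1).symm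
    · exfalso
      have t1 := hS.tr1 h
      have t2 := hS1.tr2 h
      rw [c1, c2] at t2
      have b1 := h.apex_unique t1 t2
      have t3 := hS.tr2 h
      have t4 := hS1.tr1 h
      rw [c1, c2] at t4
      have b2 := h.apex_unique t3 t4
      have b3 : S1.d = - S.d := by
        calc S1.d = S1.o - (S1.o - S1.d) := by abel
          _ = (S.o - S.d) - S.o := by rw [← b1, ← b2]
          _ = - S.d := by abel
      have := hS1.lex
      rw [b3] at this
      exact dq_lex_neg hS.lex this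
  obtain ⟨ho, hd, hu⟩ := hod
  have hl : S.l = S1.l := by
    rcases lt_trichotomy S.l S1.l with hlt | heq | hlt
    · exfalso
      apply hS1.first S.l hS.hl hlt
      rw [← ho, ← hd]
      exact hS.rgt
    · exact heq
    · exfalso
      apply hS.first S1.l hS1.hl hlt
      rw [ho, hd]
      exact hS1.rgt
  have ha : S.a = S1.a := by
    have r1 := hS.rflp
    have r2 := hS1.rflp
    rw [← ho, ← hd, ← hu, ← hl] at r2
    have e : S.o + S.u + (S.a : ℤ) • S.d + (S.o - S.u + (2 * (S.l : ℤ) - 1 - S.a) • S.d) =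
        S.o + S.u + (S1.a : ℤ) • S.d + (S.o - S.u + (2 * (S.l : ℤ) - 1 - S1.a) • S.d) := by
      simp only [sub_smul]; abel
    rcases h.mid_unique r1 r2 e with ⟨c1, c2⟩ | ⟨c1, c2⟩
    · have := add_left_cancel c1
      have h3 := dq_smul_inj (dq_lex_ne_zero hS.lex) this
      exact_mod_cast h3.symm
    · exfalso
      have h4 := congrArg (MP01b126.det S.d) c1
      have hdet := hS.det
      simp only [det_add_right, det_sub_right, det_smul_right, det_self, mul_zero, add_zero] at h4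
      rw [hdet] at h4
      omega
  cases S
  cases S1
  simp only at ho hd hu hl ha
  subst ho hd hu hl ha
  rfl

/-- position of a coordinate pair is injective -/
theorem dq_pos_inj {d u c : Pt} (hd : det d u = 1) {s s' : Pt}
    (e : c + s.1 • d + s.2 • u = c + s'.1 • d + s'.2 • u) : s = s' := by
  exact aff_inj (o := c) hd e

theorem Shp.lft_bpos (S : Shp) : S.lft ∈ S.bpos := by
  refine ⟨(-1, 0), Or.inl ⟨rfl, Or.inl rfl⟩, ?_⟩
  unfold Shp.lft
  simp only [neg_smul, one_smul, zero_smul, add_zero]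
  abel

theorem Shp.rgt_bpos (S : Shp) : S.rgt ∈ S.bpos := by
  refine ⟨(2 * (S.l : ℤ) - 1, 0), Or.inl ⟨rfl, Or.inr rfl⟩, ?_⟩
  unfold Shp.rgt
  simp only [zero_smul, add_zero]

/-- boundary positions are not inner positions of the same shape -/
theorem Shp.bpos_not_pos {S : Shp} (hd : MP01b126.det S.d S.u = 1) {t : Pt} (ht : t ∈ S.bpos) :
    t ∉ S.pos := by
  rintro ⟨s, hs, e⟩
  obtain ⟨s', hs', e'⟩ := ht
  have : s = s' := dq_pos_inj hd (e.symm.trans e')
  subst this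
  unfold PosS at hs
  unfold BdP at hs'
  omega

theorem Fam.bpos_not_pos {E : Pt → Pt → Prop} {𝒮 : Finset Shp} (hF : Fam E 𝒮) {S : Shp}
    (hS : S ∈ 𝒮) {t : Pt} (ht : t ∈ S.bpos) : ∀ S' ∈ 𝒮, t ∉ S'.pos := by
  intro S' hS'
  by_cases h : S = S'
  · subst h
    exact Shp.bpos_not_pos (hF.det _ hS) ht
  · exact hF.bdisj _ hS _ hS' h _ ht

theorem DecQ.of_fam {E : Pt → Pt → Prop} {𝒮 : Finset Shp} (hF : Fam E 𝒮) {S : Shp}
    (hS : S ∈ 𝒮) : DecQ (refillAll 𝒮 E) {t | ∃ S' ∈ 𝒮, t = S'.rgt} S.lft S := by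
  have hb := hF.bd S hS
  have hl := hb.hl
  have ha := hb.ha
  have hd := hF.det S hS
  refine ⟨hF.lex S hS, hd, rfl, ?_, ?_, ?_, ?_, ?_, hl, ⟨S, hS, rfl⟩, ?_, ?_⟩
  · left
    have h1 := hb.left
    unfold Shp.pull aff at h1
    simp only [zero_smul, add_zero, one_smul, neg_smul] at h1
    have e : S.o + -S.d + -S.u = S.o - S.d - S.u := by abel
    rw [e] at h1
    refine ⟨h1, ?_⟩
    have e2 : S.o + S.u + (S.o - S.d - S.u) = S.lft := by unfold Shp.lft; abel
    rw [e2]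
    exact hF.bpos_not_pos hS S.lft_bpos
  · right
    refine ⟨S, hS, (0, 0), (0, 1), ?_, ?_, ?_⟩
    · left; right; left
      exact ⟨0, le_refl _, by positivity, rfl, rfl⟩
    · unfold aff; simp
    · unfold aff; simp
  · right
    refine ⟨S, hS, (0, 0), (-1, -1), ?_, ?_, ?_⟩
    · left; right; right; right; left
      exact ⟨-1, le_refl _, by omega, rfl, rfl⟩
    · unfold aff; simp
    · unfold aff
      simp only [neg_smul, one_smul]
      abel
  · left
    exact ⟨hF.top S hS, hF.top' S hS⟩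
  · left
    exact ⟨hF.bot S hS, hF.bot' S hS⟩
  · rintro k hk1 hk2 ⟨S', hS', e⟩
    have hpos : S.o + S.o + (2 * (k : ℤ) - 1) • S.d ∈ S.pos := by
      refine ⟨(2 * (k : ℤ) - 1, 0), Or.inl ⟨rfl, ⟨(k : ℤ) - 1, by ring⟩, ?_, ?_⟩, ?_⟩
      · show 0 < 2 * (k : ℤ) - 1
        omega
      · show 2 * (k : ℤ) - 1 < 2 * (S.l : ℤ) - 1
        omega
      · simp only [zero_smul, add_zero]
    rw [e] at hpos
    exact hF.bpos_not_pos hS' S'.rgt_bpos S hS hpos
  · left
    have h1 := hb.right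
    unfold Shp.pull aff at h1
    simp only [one_smul, neg_smul] at h1
    have e1 : S.o + (S.a : ℤ) • S.d + S.u = S.o + S.u + (S.a : ℤ) • S.d := by abel
    have e2 : S.o + (2 * (S.l : ℤ) - 1 - S.a) • S.d + -S.u =
        S.o - S.u + (2 * (S.l : ℤ) - 1 - S.a) • S.d := by abel
    rw [e1, e2] at h1
    refine ⟨h1, ?_⟩
    have e3 : S.o + S.u + (S.a : ℤ) • S.d + (S.o - S.u + (2 * (S.l : ℤ) - 1 - S.a) • S.d) =
        S.rgt := by
      unfold Shp.rgt
      simp only [sub_smul]; abel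
    rw [e3]
    exact hF.bpos_not_pos hS S.rgt_bpos

/-- the decoder -/
noncomputable def decS (E' : Pt → Pt → Prop) (Mr : Set Pt) (t : Pt) : Shp :=
  Classical.epsilon (h := ⟨⟨0, 0, 0, 0, 0⟩⟩) (DecQ E' Mr t)

theorem decS_spec {m n : ℕ} {E : Pt → Pt → Prop} {𝒮 : Finset Shp}
    (hE' : IsTri m n (refillAll 𝒮 E)) (hF : Fam E 𝒮) {S : Shp} (hS : S ∈ 𝒮) :
    S = decS (refillAll 𝒮 E) {t | ∃ S' ∈ 𝒮, t = S'.rgt} S.lft := by
  have h1 := DecQ.of_fam hF hS
  have h2 := Classical.epsilon_spec (p := DecQ (refillAll 𝒮 E) {t | ∃ S' ∈ 𝒮, t = S'.rgt} S.lft)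
    ⟨S, h1⟩
  exact h1.unique hE' h2

theorem dec_exists_of (hR : ∀ (m n : ℕ) (E : Pt → Pt → Prop) (𝒮 : Finset Shp), IsTri m n E →
    Fam E 𝒮 → IsTri m n (refillAll 𝒮 E)) :
    ∃ dec : (Pt → Pt → Prop) → Set Pt → Pt → Shp,
    ∀ (m n : ℕ) (E : Pt → Pt → Prop) (𝒮 : Finset Shp), IsTri m n E → Fam E 𝒮 →
      ∀ S ∈ 𝒮, S = dec (refillAll 𝒮 E) {t | ∃ S' ∈ 𝒮, t = S'.rgt} S.lft :=
  ⟨decS, fun m n E 𝒮 h hF _ hS => decS_spec (hR m n E 𝒮 h hF) hF hS⟩

theorem dec_exists : ∃ dec : (Pt → Pt → Prop) → Set Pt → Pt → Shp,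
    ∀ (m n : ℕ) (E : Pt → Pt → Prop) (𝒮 : Finset Shp), IsTri m n E → Fam E 𝒮 →
      ∀ S ∈ 𝒮, S = dec (refillAll 𝒮 E) {t | ∃ S' ∈ 𝒮, t = S'.rgt} S.lft :=
  dec_exists_of fun _ _ _ _ h hF => hF.refill h

end Pool.Agent.MP01b126
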