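import Pool.Agent.Lib.MP_01b126_co.Cnt.BDefs

/-!
# MP_01b126_co, COUNTING: tame good vertices lie in blocks (H6)
-/

namespace Pool.Agent.MP01b126

theorem gb_lexPos_or {d : Pt} (h : d ≠ 0) : LexPos d ∨ LexPos (-d) := by
  obtain ⟨a, b⟩ := d
  unfold LexPos
  simp only [Prod.fst_neg, Prod.snd_neg]
  by_contra hc
  apply h
  rw [Prod.mk_eq_zero]
  constructor <;> omega

theorem good_inBlk_aux {E : Pt → Pt → Prop} {L B W K1 : ℕ} (hL : 2 * L ≤ K1) (hL1 : 1 ≤ L)
    {v d : Pt} (hlex : LexPos d) (hwin : ∀ x : ℤ, |x| ≤ ((B + L : ℕ) : ℤ) → Mid E W (v + x • d) d)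
    (hr : ¬ OnRun E L v) : InBlk E W B K1 v d := by
  have h1 : ∃ j : ℕ, j < L ∧ ¬ E (v + (j : ℤ) • d) (v + ((j : ℤ) + 1) • d) := by
    by_contra hc
    push Not at hc
    exact hr ⟨v, d, hc, 0, by omega, by simp⟩
  have h2 : ∃ i : ℕ, i < L ∧ ¬ E (v - ((i : ℤ) + 1) • d) (v - ((i : ℤ) + 1) • d + d) := by
    by_contra hc
    push Not at hc
    refine hr ⟨v - (L : ℤ) • d, d, ?_, L, le_refl _, by abel⟩
    intro i hi
    have := hc (L - 1 - i) (by omega)
    have e : (((L - 1 - i : ℕ) : ℤ) + 1) = (L : ℤ) - i := by omega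
    rw [e] at this
    have e1 : v - (L : ℤ) • d + (i : ℤ) • d = v - ((L : ℤ) - i) • d := by
      rw [sub_smul]; abel
    have e2 : v - (L : ℤ) • d + ((i : ℤ) + 1) • d = v - ((L : ℤ) - i) • d + d := by
      rw [sub_smul, add_smul, one_smul]; abel
    rw [e1, e2]
    exact this
  obtain ⟨j, hj, hj1⟩ := h1
  obtain ⟨i, hi, hi1⟩ := h2
  refine ⟨i, j, by omega, ⟨hlex, ?_, hi1⟩, ⟨hlex, ?_, ?_⟩⟩
  · intro t ht
    rw [abs_le] at ht
    have := hwin (t - ((i : ℤ) + 1)) (by rw [abs_le]; push_cast; constructor <;> omega)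
    rwa [sub_smul, add_sub, add_sub_right_comm] at this
  · intro t ht
    rw [abs_le] at ht
    have := hwin ((j : ℤ) + t) (by rw [abs_le]; push_cast; constructor <;> omega)
    rwa [add_smul, ← add_assoc] at this
  · have e : v + (j : ℤ) • d + d = v + ((j : ℤ) + 1) • d := by
      rw [add_smul, one_smul, add_assoc]
    rw [e]
    exact hj1

theorem good_inBlk {m n : ℕ} (hm : 1 ≤ m) (hn : 1 ≤ n) {E : Pt → Pt → Prop} {D L B W K1 : ℕ}
    (hE : IsTri m n E) (hL : 2 * L ≤ K1) (hL1 : 1 ≤ L) (hW : 1 ≤ W) {v d u : Pt} (hv : InR m n v)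
    (ht : Tame E D L v) (hg : Good E (B + L + 1) W v d u) :
    ∃ d', InBlk E W B K1 v d' := by
  have hne : ∃ q, E v q := by
    have key : ∀ x : Pt, InR m n x → Prim (x - v) → ∃ q, E v q := by
      intro x hx hp
      rcases hE.dir_face hv hx hp with h | ⟨a, b, h, -, -⟩
      · exact ⟨_, h⟩
      · exact ⟨_, h.1⟩
    obtain ⟨v1, v2⟩ := v
    obtain ⟨h1, h2, h3, h4⟩ := hv
    simp only at h1 h2 h3 h4
    rcases lt_or_ge v1 (m : ℤ) with h | h
    · refine key (v1 + 1, v2) ⟨by simp only; omega, by simp only; omega, h3, h4⟩ ?_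
      have e : ((v1 + 1, v2) : Pt) - (v1, v2) = (1, 0) := by ext <;> simp
      rw [e]
      exact prim_of_det (v := (0, 1)) (by simp [MP01b126.det])
    · refine key (v1 - 1, v2) ⟨by simp only; omega, by simp only; omega, h3, h4⟩ ?_
      have e : ((v1 - 1, v2) : Pt) - (v1, v2) = (-1, 0) := by ext <;> simp
      rw [e]
      exact prim_of_det (v := (0, -1)) (by simp [MP01b126.det])
  have hwin := window hE.cpx hW (fun x hx => hg.mid0 hx) hne
  have hd0 : d ≠ 0 := by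
    intro h0
    have := hg.det
    rw [h0] at this
    simp [MP01b126.det] at this
  rcases gb_lexPos_or hd0 with h | h
  · exact ⟨d, good_inBlk_aux hL hL1 h hwin ht.2.1⟩
  · refine ⟨-d, good_inBlk_aux hL hL1 h ?_ ht.2.1⟩
    intro x hx
    have := (hwin (-x) (by rwa [abs_neg])).neg hE.cpx.symm
    rwa [neg_smul, ← smul_neg] at this

end Pool.Agent.MP01b126
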