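import Pool.Agent.Lib.MP_01b126_co.Cnt.Ends

/-!
# MP_01b126_co, COUNTING, C4: vertices on long runs and long fans which are not good
-/

namespace Pool.Agent.MP01b126

namespace Loss

/-- one dimensional combinatorics: going back to the start -/
theorem loss_back (P : ℤ → Prop) (L K : ℕ) (hP : ∀ i : ℤ, 0 ≤ i → i < L → P i) (a : ℤ)
    (ha : 0 ≤ a) (haL : a ≤ L) (hb : ∃ j : ℕ, j < K ∧ ¬ P (a - 1 - j)) :
    ∃ s : ℤ, ∃ j : ℕ, j < K ∧ a = s + j ∧ ¬ P (s - 1) ∧ ∀ t : ℤ, 0 ≤ t → t < L → P (s + t) := by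
  classical
  obtain ⟨j0, hj0, hb0⟩ := hb
  have hex : ∃ j : ℕ, ¬ P (a - 1 - j) := ⟨j0, hb0⟩
  set j := Nat.find hex with hj
  have h1 : ¬ P (a - 1 - j) := Nat.find_spec hex
  have h2 : ∀ i : ℕ, i < j → P (a - 1 - i) := fun i hi => not_not.mp (Nat.find_min hex hi)
  have h3 : j ≤ j0 := Nat.find_min' hex hb0
  have h4 : a ≤ j := by
    by_contra hc
    push Not at hc
    exact h1 (hP _ (by omega) (by omega))
  refine ⟨a - j, j, by omega, by ring, ?_, ?_⟩
  · rw [show a - (j : ℤ) - 1 = a - 1 - j by ring]; exact h1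
  · intro t ht0 htL
    by_cases hc : a - j + t ≤ a - 1
    · have := h2 (a - 1 - (a - j + t)).toNat (by omega)
      rwa [show a - 1 - (((a - 1 - (a - j + t)).toNat : ℕ) : ℤ) = a - j + t by omega] at this
    · exact hP _ (by omega) (by omega)

theorem lexPos_or {d : Pt} (hd : d ≠ 0) : LexPos d ∨ LexPos (-d) := by
  unfold LexPos
  rcases d with ⟨a, b⟩
  simp only [ne_eq, Prod.mk_eq_zero, not_and, Prod.neg_mk] at *
  omega

/-- a piece of a run can be taken in the positive direction -/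
theorem onRun_pos {m n : ℕ} {E : Pt → Pt → Prop} (h : IsTri m n E) {L : ℕ} (hL : 1 ≤ L) {v : Pt}
    (hv : OnRun E L v) : ∃ x d : Pt, LexPos d ∧
      (∀ i : ℤ, 0 ≤ i → i < L → E (x + i • d) (x + (i + 1) • d)) ∧
      ∃ a : ℤ, 0 ≤ a ∧ a ≤ L ∧ v = x + a • d := by
  obtain ⟨x, d, h1, i, hi, hv⟩ := hv
  have h1' : ∀ i : ℤ, 0 ≤ i → i < L → E (x + i • d) (x + (i + 1) • d) := by
    intro i hi0 hiL
    have := h1 i.toNat (by omega)
    rwa [show ((i.toNat : ℕ) : ℤ) = i by omega] at this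
  have hd : d ≠ 0 := by
    rintro rfl
    have := h1 0 (by omega)
    simp only [smul_zero, add_zero] at this
    exact h.ne this rfl
  rcases lexPos_or hd with hd | hd
  · exact ⟨x, d, hd, h1', i, by omega, by omega, hv⟩
  · refine ⟨x + (L : ℤ) • d, -d, hd, ?_, (L : ℤ) - i, by omega, by omega, ?_⟩
    · intro i hi0 hiL
      have := h.symm _ _ (h1' ((L : ℤ) - 1 - i) (by omega) (by omega))
      convert this using 1
      · module
      · module
    · rw [hv]; module

/-- a piece of a fan can be taken in the positive direction -/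
theorem onFan_pos {m n : ℕ} {E : Pt → Pt → Prop} (_h : IsTri m n E) {L : ℕ} {v : Pt}
    (hv : OnFan E L v) : ∃ p x d : Pt, LexPos d ∧ (det d (x - p) = 1 ∨ det d (x - p) = -1) ∧
      (∀ i : ℤ, 0 ≤ i → i < (L : ℤ) + 1 → E p (x + i • d)) ∧
      ∃ a : ℤ, 0 ≤ a ∧ a ≤ L ∧ v = x + a • d := by
  obtain ⟨p, x, d, h1, hdet, i, hi, hv⟩ := hv
  have h1' : ∀ i : ℤ, 0 ≤ i → i < (L : ℤ) + 1 → E p (x + i • d) := by
    intro i hi0 hiL
    have := h1 i.toNat (by omega)
    rwa [show ((i.toNat : ℕ) : ℤ) = i by omega] at this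
  have hd : d ≠ 0 := by
    rintro rfl
    simp at hdet
  rcases lexPos_or hd with hd | hd
  · exact ⟨p, x, d, hd, hdet, h1', i, by omega, by omega, hv⟩
  · refine ⟨p, x + (L : ℤ) • d, -d, hd, ?_, ?_, (L : ℤ) - i, by omega, by omega, ?_⟩
    · have e : det (-d) (x + (L : ℤ) • d - p) = - det d (x - p) := by
        simp only [det, Prod.fst_neg, Prod.snd_neg, Prod.fst_sub, Prod.snd_sub, Prod.fst_add,
          Prod.snd_add, Prod.smul_fst, Prod.smul_snd, smul_eq_mul]
        ring
      rw [e]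
      omega
    · intro i hi0 hiL
      have := h1' ((L : ℤ) - i) (by omega) (by omega)
      convert this using 1
      module
    · rw [hv]; module

/-- the starts of runs with `L` edges -/
def RS (E : Pt → Pt → Prop) (L : ℕ) : Set (Pt × Pt) :=
  {x | LexPos x.2 ∧
      (∀ j : ℕ, j < L → E (x.1 + (j : ℤ) • x.2) (x.1 + ((j : ℤ) + 1) • x.2)) ∧
      ¬ E (x.1 - x.2) x.1}

/-- the ends of runs with `L` edges -/
def RE (E : Pt → Pt → Prop) (L : ℕ) : Set (Pt × Pt) :=
  {x | LexPos x.2 ∧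
      (∀ j : ℕ, j < L → E (x.1 + (j : ℤ) • x.2) (x.1 + ((j : ℤ) + 1) • x.2)) ∧
      ¬ E (x.1 + (L : ℤ) • x.2) (x.1 + ((L : ℤ) + 1) • x.2)}

/-- the starts of fans -/
def FS (E : Pt → Pt → Prop) (L : ℕ) : Set (Pt × Pt × Pt) :=
  {x | LexPos x.2.2 ∧ (det x.2.2 (x.2.1 - x.1) = 1 ∨ det x.2.2 (x.2.1 - x.1) = -1) ∧
      (∀ j : ℕ, j ≤ L → E x.1 (x.2.1 + (j : ℤ) • x.2.2)) ∧
      ¬ E x.1 (x.2.1 - x.2.2)}

/-- the ends of fans -/
def FE (E : Pt → Pt → Prop) (L : ℕ) : Set (Pt × Pt × Pt) :=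
  {x | LexPos x.2.2 ∧ (det x.2.2 (x.2.1 - x.1) = 1 ∨ det x.2.2 (x.2.1 - x.1) = -1) ∧
      (∀ j : ℕ, j ≤ L → E x.1 (x.2.1 + (j : ℤ) • x.2.2)) ∧
      ¬ E x.1 (x.2.1 + ((L : ℤ) + 1) • x.2.2)}

theorem run_set_finite {m n : ℕ} {E : Pt → Pt → Prop} (h : IsTri m n E) {L : ℕ} (hL : 1 ≤ L)
    (S : Set (Pt × Pt))
    (hS : ∀ x ∈ S, ∀ j : ℕ, j < L → E (x.1 + (j : ℤ) • x.2) (x.1 + ((j : ℤ) + 1) • x.2)) :
    S.Finite := by
  refine Set.Finite.of_injOn (f := fun x : Pt × Pt => (x.1, x.1 + x.2)) ?_ ?_ h.edges_finite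
  · intro x hx
    have := hS x hx 0 (by omega)
    simpa using this
  · intro x _ y _ hxy
    simp only [Prod.mk.injEq] at hxy
    obtain ⟨h1, h2⟩ := hxy
    rw [h1] at h2
    exact Prod.ext h1 (add_left_cancel h2)

theorem fan_set_finite {m n : ℕ} {E : Pt → Pt → Prop} (h : IsTri m n E) {L : ℕ} (hL : 1 ≤ L)
    (S : Set (Pt × Pt × Pt))
    (hS : ∀ x ∈ S, ∀ j : ℕ, j ≤ L → E x.1 (x.2.1 + (j : ℤ) • x.2.2)) :
    S.Finite := by
  refine Set.Finite.of_injOn (f := fun x : Pt × Pt × Pt => ((x.1, x.2.1), (x.1, x.2.1 + x.2.2)))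
    ?_ ?_ (h.edges_finite.prod h.edges_finite)
  · intro x hx
    have h0 := hS x hx 0 (by omega)
    have h1 := hS x hx 1 hL
    simp only [Nat.cast_zero, zero_smul, add_zero] at h0
    simp only [Nat.cast_one, one_smul] at h1
    exact ⟨h0, h1⟩
  · intro x _ y _ hxy
    simp only [Prod.mk.injEq] at hxy
    obtain ⟨⟨h1, h2⟩, _, h3⟩ := hxy
    rw [h2] at h3
    exact Prod.ext h1 (Prod.ext h2 (add_left_cancel h3))

/-- counting through two families of parametrised vertices -/
theorem loss_count {α : Type*} {B : Set Pt} {S S' : Set α} (hS : S.Finite) (hS' : S'.Finite)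
    (f g : α × ℕ → Pt) (K K' L N : ℕ)
    (hB : ∀ v ∈ B, (∃ x ∈ S, ∃ j < K, v = f (x, j)) ∨ (∃ x ∈ S', ∃ j < K', v = g (x, j)))
    (h1 : L * S.ncard ≤ N) (h2 : L * S'.ncard ≤ N) : L * B.ncard ≤ (K + K') * N := by
  have hsub : B ⊆ f '' (S ×ˢ Set.Iio K) ∪ g '' (S' ×ˢ Set.Iio K') := by
    intro v hv
    rcases hB v hv with ⟨x, hx, j, hj, rfl⟩ | ⟨x, hx, j, hj, rfl⟩
    · exact Or.inl ⟨(x, j), ⟨hx, hj⟩, rfl⟩
    · exact Or.inr ⟨(x, j), ⟨hx, hj⟩, rfl⟩
  have hf1 : (S ×ˢ Set.Iio K).Finite := hS.prod (Set.finite_Iio K)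
  have hf2 : (S' ×ˢ Set.Iio K').Finite := hS'.prod (Set.finite_Iio K')
  have c1 : (f '' (S ×ˢ Set.Iio K)).ncard ≤ S.ncard * K := by
    refine (Set.ncard_image_le hf1).trans ?_
    rw [Set.ncard_prod, Set.ncard_eq_toFinset_card' (Set.Iio K)]
    simp
  have c2 : (g '' (S' ×ˢ Set.Iio K')).ncard ≤ S'.ncard * K' := by
    refine (Set.ncard_image_le hf2).trans ?_
    rw [Set.ncard_prod, Set.ncard_eq_toFinset_card' (Set.Iio K')]
    simp
  have c3 : B.ncard ≤ S.ncard * K + S'.ncard * K' := by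
    refine (Set.ncard_le_ncard hsub ((hf1.image f).union (hf2.image g))).trans ?_
    refine (Set.ncard_union_le _ _).trans ?_
    exact add_le_add c1 c2
  calc L * B.ncard ≤ L * (S.ncard * K + S'.ncard * K') := Nat.mul_le_mul_left _ c3
    _ = K * (L * S.ncard) + K' * (L * S'.ncard) := by ring
    _ ≤ K * N + K' * N := add_le_add (Nat.mul_le_mul_left _ h1) (Nat.mul_le_mul_left _ h2)
    _ = (K + K') * N := by ring

end Loss

open Loss

theorem onrun_loss {m n : ℕ} {E : Pt → Pt → Prop} (h : IsTri m n E) (K L : ℕ) (hL : 1 ≤ L) :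
    L * ({v | OnRun E L v ∧ ¬ RunGood E K v} : Set Pt).ncard ≤ (K + 1) * npos m n := by
  refine loss_count (S := RS E L) (S' := RE E L)
    (run_set_finite h hL _ fun x hx => hx.2.1) (run_set_finite h hL _ fun x hx => hx.2.1)
    (fun x => x.1.1 + (x.2 : ℤ) • x.1.2) (fun x => x.1.1 + (L : ℤ) • x.1.2) K 1 L (npos m n) ?_
    (run_ends h L) (run_ends' h L)
  rintro v ⟨hv, hg⟩
  obtain ⟨x, d, hd, hE, a, ha0, haL, rfl⟩ := onRun_pos h hL hv
  by_cases hb : ∃ j : ℕ, j < K ∧
      ¬ (fun i : ℤ => E (x + i • d) (x + (i + 1) • d)) (a - 1 - j)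
  · left
    obtain ⟨s, j, hj, has, hs1, hs2⟩ := loss_back _ L K hE a ha0 haL hb
    refine ⟨(x + s • d, d), ⟨hd, ?_, ?_⟩, j, hj, ?_⟩
    · intro i hi
      have := hs2 i (by omega) (by omega)
      simp only at this ⊢
      convert this using 1
      · module
      · module
    · simp only at hs1 ⊢
      convert hs1 using 2
      · module
      · module
    · simp only
      rw [has]; module
  · right
    push Not at hb
    have hn : ¬ E (x + a • d) (x + a • d + d) := by
      intro hc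
      apply hg
      refine ⟨d, hd, hc, fun j hj => ?_⟩
      have := hb j hj
      convert this using 1
      · module
      · module
    have haL' : a = L := by
      by_contra hne
      apply hn
      have := hE a ha0 (by omega)
      convert this using 1
      module
    refine ⟨(x, d), ⟨hd, ?_, ?_⟩, 0, by omega, ?_⟩
    · intro j hj
      exact hE j (by omega) (by omega)
    · simp only
      rw [haL'] at hn
      convert hn using 2
      module
    · simp only
      rw [haL']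

theorem onfan_loss {m n : ℕ} {E : Pt → Pt → Prop} (h : IsTri m n E) (K L : ℕ) (hL : 1 ≤ L) :
    L * ({v | OnFan E L v ∧ ¬ FanGood E K v} : Set Pt).ncard ≤ 12 * (K + 4) * npos m n := by
  have key : L * ({v | OnFan E L v ∧ ¬ FanGood E K v} : Set Pt).ncard ≤
      ((K + 2) + 2) * (12 * npos m n) := by
    refine loss_count (S := FS E L) (S' := FE E L)
      (fan_set_finite h hL _ fun x hx => hx.2.2.1) (fan_set_finite h hL _ fun x hx => hx.2.2.1)
      (fun x => x.1.2.1 + (x.2 : ℤ) • x.1.2.2)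
      (fun x => x.1.2.1 + ((L : ℤ) - x.2) • x.1.2.2) (K + 2) 2 L (12 * npos m n) ?_
      (fan_ends h L) (fan_ends' h L)
    rintro v ⟨hv, hg⟩
    obtain ⟨p, x, d, hd, hdet, hE, a, ha0, haL, rfl⟩ := onFan_pos h hv
    have hdet' : ∀ s : ℤ, det d (x + s • d - p) = det d (x - p) := by
      intro s
      simp only [det, Prod.fst_sub, Prod.snd_sub, Prod.fst_add,
          Prod.snd_add, Prod.smul_fst, Prod.smul_snd, smul_eq_mul]
      ring
    have hPa : E p (x + a • d) := hE a ha0 (by omega)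
    by_cases hb : ∃ j : ℕ, j < K + 2 ∧ ¬ (fun i : ℤ => E p (x + i • d)) (a - 1 - j)
    · left
      obtain ⟨s, j, hj, has, hs1, hs2⟩ := loss_back (fun i : ℤ => E p (x + i • d)) (L + 1) (K + 2)
        (fun i hi0 hiL => hE i hi0 (by push_cast at hiL; exact hiL)) a ha0
        (by push_cast; omega) hb
      refine ⟨(p, x + s • d, d), ⟨hd, ?_, ?_, ?_⟩, j, hj, ?_⟩
      · simp only
        rw [hdet']; exact hdet
      · intro i hi
        have := hs2 i (by omega) (by push_cast; omega)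
        simp only at this ⊢
        convert this using 1
        module
      · simp only at hs1 ⊢
        convert hs1 using 2
        module
      · simp only
        rw [has]; module
    · by_cases hb' : ∃ j : ℕ, j < 2 ∧ ¬ (fun i : ℤ => E p (x + ((L : ℤ) - i) • d))
          ((L : ℤ) - a - 1 - j)
      · right
        obtain ⟨s, j, hj, has, hs1, hs2⟩ := loss_back
          (fun i : ℤ => E p (x + ((L : ℤ) - i) • d)) (L + 1) 2
          (fun i hi0 hiL => hE _ (by push_cast at hiL; omega) (by push_cast at hiL; omega))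
          ((L : ℤ) - a) (by omega) (by push_cast; omega) hb'
        -- the end is `L - s`, the piece starts at `- s`
        refine ⟨(p, x + (-s) • d, d), ⟨hd, ?_, ?_, ?_⟩, j, hj, ?_⟩
        · simp only
          rw [hdet']; exact hdet
        · intro i hi
          have := hs2 ((L : ℤ) - i) (by omega) (by push_cast; omega)
          simp only at this ⊢
          convert this using 1
          module
        · simp only at hs1 ⊢
          convert hs1 using 2
          module
        · simp only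
          have : a = L - s - j := by omega
          rw [this]; module
      · exfalso
        push Not at hb hb'
        apply hg
        refine ⟨p, d, hd, by rw [hdet']; exact hdet, fun j hj1 hj2 => ?_⟩
        rcases lt_trichotomy j 0 with hj | hj | hj
        · have := hb' (-1 - j).toNat (by omega)
          rw [show (((-1 - j).toNat : ℕ) : ℤ) = -1 - j by omega] at this
          convert this using 1
          module
        · rw [hj, zero_smul, sub_zero]; exact hPa
        · have := hb (j - 1).toNat (by omega)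
          rw [show (((j - 1).toNat : ℕ) : ℤ) = j - 1 by omega] at this
          convert this using 1
          module
  calc _ ≤ _ := key
    _ = 12 * (K + 4) * npos m n := by ring

end Pool.Agent.MP01b126
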