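import Pool.Agent.Lib.MP_01b126_co.Cnt.Blk1
import Pool.Agent.Lib.MP_01b126_co.Cnt.Blk5

/-!
# MP_01b126_co, COUNTING: straight runs through vertices outside the blocks
-/

namespace Pool.Agent.MP01b126

private theorem LexPos.neg_not' {d : Pt} (h : LexPos d) : ¬ LexPos (-d) := by
  unfold LexPos at *
  simp only [Prod.fst_neg, Prod.snd_neg]
  omega

/-- a straight run through a vertex which is not in a block does not use inner positions -/
theorem out_run {m n : ℕ} {E : Pt → Pt → Prop} {W B K1 K : ℕ} (hE : IsTri m n E)
    (hK : K1 + 2 ≤ B) (hW : K1 + 2 ≤ W) (hK2 : 2 ≤ K) {v d : Pt} (hlex : LexPos d)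
    (hv : ∀ S, IsBlk E W B K1 S → v ∉ S.mid) (h0 : E v (v + d))
    (hr : ∀ j : ℕ, j < K → E (v - ((j : ℤ) + 1) • d) (v - (j : ℤ) • d)) :
    ∀ S, IsBlk E W B K1 S → v + (v + d) ∉ S.pos ∧
      ∀ j : ℕ, j < K → v - ((j : ℤ) + 1) • d + (v - (j : ℤ) • d) ∉ S.pos := by
  -- the edges of the run
  have run : ∀ i : ℤ, -(K : ℤ) ≤ i → i ≤ 0 → E (v + i • d) (v + (i + 1) • d) := by
    intro i h1 h2
    rcases eq_or_lt_of_le h2 with rfl | h3
    · simpa using h0
    · have := hr (-i - 1).toNat (by omega)
      rw [Int.toNat_of_nonneg (by omega)] at this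
      have e1 : v - (-i - 1 + 1) • d = v + i • d := by
        rw [sub_add_cancel, neg_smul, sub_neg_eq_add]
      have e2 : v - (-i - 1) • d = v + (i + 1) • d := by
        rw [show (-i - 1 : ℤ) = -(i + 1) by ring, neg_smul, sub_neg_eq_add]
      rwa [e1, e2] at this
  have hprim : Prim d := by
    have := hE.cpx.prim _ _ h0
    rwa [add_sub_cancel_left] at this
  intro S hS
  have hl1 := hS.l1
  have hmid : ∀ k : ℤ, 0 ≤ k → k < S.l → Mid0 E W (S.o + k • S.d) S.d := fun k h1 h2 =>
    (hS.mids (by omega) (by omega) (by omega)).toMid0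
  -- parallel directions are equal
  have hpar : MP01b126.det S.d d = 0 → d = S.d := by
    intro h
    rcases (prim_of_det hS.det).eq_or_neg hprim h with h1 | h1
    · exact h1
    · exfalso
      rw [h1] at hlex
      exact hS.lex.neg_not' hlex
  -- a vertex of the run before `v` in the block, parallel directions: impossible
  have hrow : ∀ i : ℤ, -(K : ℤ) ≤ i → i < 0 → v + i • d ∈ S.mid → MP01b126.det S.d d = 0 →
      False := by
    intro i h1 h2 h3 h4
    have hd := hpar h4
    obtain ⟨k, hk0, hkl, hk⟩ := h3
    rw [hd] at hk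
    have hvk : v = S.o + (k - i) • S.d := by
      rw [sub_smul, add_sub, ← hk]; abel
    have hge : (S.l : ℤ) ≤ k - i := by
      by_contra hc
      exact hv S hS ⟨k - i, by omega, by omega, hvk⟩
    have h5 := run (S.l - 1 - (k - i)) (by omega) (by omega)
    apply hS.rflip.not
    rw [hd, hvk, add_assoc, ← add_smul, add_assoc, ← add_smul] at h5
    have e1 : k - i + ((S.l : ℤ) - 1 - (k - i)) = (S.l : ℤ) - 1 := by ring
    have e2 : k - i + ((S.l : ℤ) - 1 - (k - i) + 1) = (S.l : ℤ) - 1 + 1 := by ring
    rw [e1, e2, add_smul ((S.l : ℤ) - 1) 1, one_smul, ← add_assoc] at h5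
    exact h5
  -- the main claim
  have key : ∀ i : ℤ, -(K : ℤ) ≤ i → i ≤ 0 → v + i • d + (v + (i + 1) • d) ∉ S.pos := by
    intro i h1 h2 hp
    have hxy := run i h1 h2
    have step : ∀ j : ℤ, v + (j + 1) • d - (v + j • d) = d := by
      intro j; rw [add_smul, one_smul]; abel
    have fwd : ∀ j : ℤ, v + (j + 1) • d + (v + (j + 1) • d - (v + j • d)) =
        v + (j + 1 + 1) • d := by
      intro j; rw [step, add_smul (j + 1) 1, one_smul, add_assoc]
    have bwd : ∀ j : ℤ, v + j • d + (v + j • d - (v + (j + 1) • d)) = v + (j - 1) • d := by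
      intro j
      rw [← neg_sub, step, sub_smul, one_smul]; abel
    rcases blk_edge hE hK hW hS hxy hp with h3 | h3 | ⟨k, hk0, hkl, hks, _, _, _, _, hdet⟩
    · -- `v + i d` is a middle vertex
      have hi : i < 0 := by
        rcases eq_or_lt_of_le h2 with rfl | h4
        · exfalso
          rw [zero_smul, add_zero] at h3
          exact hv S hS h3
        · exact h4
      by_cases hdd : MP01b126.det S.d d = 0
      · exact hrow i h1 hi h3 hdd
      · obtain ⟨k, hk0, hkl, hk⟩ := h3
        have hm := hmid k hk0 hkl
        rw [← hk] at hm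
        apply hm.stop _ hxy (by rw [step]; exact hdd)
        rw [fwd]
        exact run (i + 1) (by omega) (by omega)
    · -- `v + (i + 1) d` is a middle vertex
      by_cases hdd : MP01b126.det S.d d = 0
      · rcases lt_or_ge (i + 1) 0 with h4 | h4
        · exact hrow (i + 1) (by omega) h4 h3 hdd
        · rcases eq_or_lt_of_le h4 with h5 | h5
          · rw [← h5, zero_smul, add_zero] at h3
            exact hv S hS h3
          · have hi : i = 0 := by omega
            subst hi
            rw [zero_add, one_smul] at h3
            have hd := hpar hdd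
            obtain ⟨k, hk0, hkl, hk⟩ := h3
            rw [hd] at hk
            have hvk : v = S.o + (k - 1) • S.d := by
              rw [sub_smul, one_smul, add_sub, ← hk]; abel
            have hk1 : k = 0 := by
              by_contra hc
              exact hv S hS ⟨k - 1, by omega, by omega, hvk⟩
            subst hk1
            apply hS.lflip.not
            rw [hvk, hd] at h0
            rw [zero_sub, neg_smul, one_smul, ← sub_eq_add_neg] at h0
            exact h0
      · obtain ⟨k, hk0, hkl, hk⟩ := h3
        have hm := hmid k hk0 hkl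
        rw [← hk] at hm
        have hb : i = -K := by
          by_contra hc
          apply hm.stop _ (hE.cpx.symm _ _ hxy) (by
            rw [← neg_sub, step, det_neg_right]; exact neg_ne_zero.mpr hdd)
          rw [bwd]
          apply hE.cpx.symm
          have := run (i - 1) (by omega) (by omega)
          rwa [sub_add_cancel] at this
        have hf := run (i + 1) (by omega) (by omega)
        apply hm.stop _ hf (by rw [step]; exact hdd)
        rw [fwd]
        exact run (i + 1 + 1) (by omega) (by omega)
    · -- inner flip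
      have hm := hmid k hk0 (by omega)
      have hx : MP01b126.det S.d (v + i • d - (S.o + k • S.d)) ≠ 0 := by
        rcases hdet with h | h <;> rw [h.1] <;> norm_num
      have hy : MP01b126.det S.d (v + (i + 1) • d - (S.o + k • S.d)) ≠ 0 := by
        rcases hdet with h | h <;> rw [h.2] <;> norm_num
      have hs : v + i • d + (v + (i + 1) • d) =
          S.o + k • S.d + (S.o + k • S.d) + S.d := by
        rw [hks, add_smul, one_smul]; abel
      rcases eq_or_lt_of_le h2 with h4 | h4
      · -- `i = 0`: go backwards
        apply hm.stop' _ _ (hE.cpx.symm _ _ hxy) (Or.inl (by rw [add_comm, hs])) hx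
        rw [bwd]
        apply hE.cpx.symm
        have := run (i - 1) (by omega) (by omega)
        rwa [sub_add_cancel] at this
      · apply hm.stop' _ _ hxy (Or.inl hs) hy
        rw [fwd]
        exact run (i + 1) (by omega) (by omega)
  refine ⟨?_, ?_⟩
  · have := key 0 (by omega) le_rfl
    simpa using this
  · intro j hj
    have := key (-((j : ℤ) + 1)) (by omega) (by omega)
    have e1 : v + -((j : ℤ) + 1) • d = v - ((j : ℤ) + 1) • d := by
      rw [neg_smul, ← sub_eq_add_neg]
    have e2 : v + (-((j : ℤ) + 1) + 1) • d = v - (j : ℤ) • d := by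
      rw [show (-((j : ℤ) + 1) + 1) = -(j : ℤ) by ring, neg_smul, ← sub_eq_add_neg]
    rwa [e1, e2] at this

end Pool.Agent.MP01b126
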