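import Pool.Agent.Lib.MP_01b126_co.Cnt.Canon

/-!
# MP_01b126_co, COUNTING: refilling a family of trapezoids
-/

namespace Pool.Agent.MP01b126

variable {m n : ℕ} {E : Pt → Pt → Prop} {𝒮 : Finset Shp}

theorem mem_pos_iff {S : Shp} {t : Pt} :
    t ∈ S.pos ↔ ∃ s, PosS S.l S.a s ∧ t = S.o + S.o + s.1 • S.d + s.2 • S.u := Iff.rfl

theorem Fam.canFil (hF : Fam E 𝒮) {S : Shp} (hS : S ∈ 𝒮) : Fil S.l S.a (Can S.l S.a) :=
  can_fil (hF.bd S hS).hl (hF.bd S hS).ha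

/-- the position of an edge of the pushed canonical filling -/
theorem Fam.push_pos (hF : Fam E 𝒮) {S : Shp} (hS : S ∈ 𝒮) {x y : Pt}
    (h : S.push (Can S.l S.a) x y) : x + y ∈ S.pos := by
  obtain ⟨p, q, hpq, rfl, rfl⟩ := h
  exact ⟨p + q, (hF.canFil hS).pos _ _ hpq, aff_add⟩

/-- an edge of a relation with the boundary of `S` crossing a pushed canonical edge of `S` has its
position in `S.pos` -/
theorem cross_push {E1 : Pt → Pt → Prop} (hE1 : Pre E1) {S : Shp} (hd : det S.d S.u = 1)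
    (hb : BdS S.l S.a (S.pull E1)) (hf : Fil S.l S.a (Can S.l S.a)) {x y z w : Pt} (hxy : E1 x y)
    (h : S.push (Can S.l S.a) z w) (hc : Cross x y z w) : x + y ∈ S.pos := by
  obtain ⟨p, q, hpq, rfl, rfl⟩ := h
  have hP : Pre (S.pull E1) := hE1.pull hd
  rw [← aff_unaff (o := S.o) hd x, ← aff_unaff (o := S.o) hd y, cross_aff (Or.inl hd)] at hc
  have h3 := cross_in hP hb (p := unaff S.o S.d S.u x) (q := unaff S.o S.d S.u y)
    (by unfold Shp.pull; simp only [aff_unaff hd]; exact hxy) (hf.ins _ _ hpq)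
    (hf.ins _ _ (hf.symm _ _ hpq)) hc
  refine ⟨_, h3.2.2, ?_⟩
  rw [← aff_add, aff_unaff hd, aff_unaff hd]

/-- refilling one member of the family -/
theorem Fam.one (h : IsTri m n E) (hF : Fam E 𝒮) {S : Shp} (hS : S ∈ 𝒮) :
    IsTri m n (fun x y => (E x y ∧ x + y ∉ S.pos) ∨ S.push (Can S.l S.a) x y) :=
  refill_isTri h (hF.det S hS) (hF.bd S hS) (hF.canFil hS)

theorem bdS_of {S' : Shp} {E1 : Pt → Pt → Prop} (hb : BdS S'.l S'.a (S'.pull E))
    (H : ∀ x y, S'.pull E x y → BdP S'.l S'.a (x + y) → S'.pull E1 x y) :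
    BdS S'.l S'.a (S'.pull E1) where
  hl := hb.hl
  ha := hb.ha
  left := H _ _ hb.left (by unfold BdP; left; simp)
  right := H _ _ hb.right (by
    unfold BdP; left
    refine ⟨by simp, Or.inr ?_⟩
    simp only [Prod.mk_add_mk]; ring)
  top j h0 h1 := H _ _ (hb.top j h0 h1) (by
    unfold BdP; right; left
    simp only [Prod.mk_add_mk]
    exact ⟨by norm_num, ⟨j, by ring⟩, by omega, by omega⟩)
  bot j h0 h1 := H _ _ (hb.bot j h0 h1) (by
    unfold BdP; right; right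
    simp only [Prod.mk_add_mk]
    exact ⟨by norm_num, ⟨j, by ring⟩, by omega, by omega⟩)

/-- the boundary of `S'` survives the refilling of `S` -/
theorem Fam.bd_one (hF : Fam E 𝒮) {S S' : Shp} (hS : S ∈ 𝒮) (hS' : S' ∈ 𝒮) (hne : S ≠ S') :
    BdS S'.l S'.a (S'.pull (fun x y => (E x y ∧ x + y ∉ S.pos) ∨ S.push (Can S.l S.a) x y)) := by
  apply bdS_of (hF.bd S' hS')
  intro x y hxy hp
  left
  refine ⟨hxy, ?_⟩
  apply hF.bdisj S' hS' S hS (Ne.symm hne)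
  exact ⟨x + y, hp, aff_add⟩

theorem Fam.refill (h : IsTri m n E) (hF : Fam E 𝒮) : IsTri m n (refillAll 𝒮 E) := by
  have EF : ∀ x y z w, E x y → (∀ S ∈ 𝒮, x + y ∉ S.pos) →
      (∃ S ∈ 𝒮, S.push (Can S.l S.a) z w) → ¬ Cross x y z w := by
    rintro x y z w hxy hn ⟨S, hS, hp⟩ hc
    exact hn S hS (cross_push h.pre (hF.det S hS) (hF.bd S hS) (hF.canFil hS) hxy hp hc)
  refine ⟨?_, ?_, ?_, ?_, ?_⟩
  · rintro x y (⟨h1, h2⟩ | ⟨S, hS, p, q, h1, rfl, rfl⟩)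
    · left
      exact ⟨h.symm _ _ h1, fun S hS => by rw [add_comm]; exact h2 S hS⟩
    · right
      exact ⟨S, hS, q, p, (hF.canFil hS).symm _ _ h1, rfl, rfl⟩
  · rintro x y (⟨h1, h2⟩ | ⟨S, hS, h1⟩)
    · exact h.inR _ _ h1
    · exact (hF.one h hS).inR _ _ (Or.inr h1)
  · rintro x y (⟨h1, h2⟩ | ⟨S, hS, h1⟩)
    · exact h.prim _ _ h1
    · exact (hF.one h hS).prim _ _ (Or.inr h1)
  · rintro x y z w (⟨h1, h2⟩ | ⟨S, hS, h1⟩) (⟨h3, h4⟩ | ⟨S', hS', h3⟩)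
    · exact h.ncr _ _ _ _ h1 h3
    · exact EF _ _ _ _ h1 h2 ⟨S', hS', h3⟩
    · intro hc
      exact EF _ _ _ _ h3 h4 ⟨S, hS, h1⟩ hc.symm
    · by_cases hne : S = S'
      · subst hne
        exact (hF.one h hS).ncr _ _ _ _ (Or.inr h1) (Or.inr h3)
      · intro hc
        have h5 := cross_push (hF.one h hS).pre (hF.det S' hS') (hF.bd_one hS hS' hne)
          (hF.canFil hS') (Or.inr h1) h3 hc
        exact hF.disj S hS S' hS' hne _ (hF.push_pos hS h1) h5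
  · intro s h1 h2 h3 h4 h5
    by_cases hc : ∃ S ∈ 𝒮, s ∈ S.pos
    · obtain ⟨S, hS, s', hs', e⟩ := hc
      obtain ⟨p, q, hpq, hpq'⟩ := (hF.canFil hS).full s' hs'
      refine ⟨aff S.o S.d S.u p, aff S.o S.d S.u q, Or.inr ⟨S, hS, p, q, hpq, rfl, rfl⟩, ?_⟩
      rw [aff_add, hpq', ← e]
    · push Not at hc
      obtain ⟨x, y, hxy, hs⟩ := h.full s h1 h2 h3 h4 h5
      exact ⟨x, y, Or.inl ⟨hxy, fun S hS => by rw [hs]; exact hc S hS⟩, hs⟩

/-- the edge at an inner position -/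
theorem Fam.ex_edge (h : IsTri m n E) (hF : Fam E 𝒮) {S : Shp} (hS : S ∈ 𝒮) {s : Pt}
    (hs : PosS S.l S.a s) :
    ∃ x y, E x y ∧ x + y = S.o + S.o + s.1 • S.d + s.2 • S.u := by
  obtain ⟨p, q, hpq, hpq'⟩ := (hF.canFil hS).full s hs
  have h1 := hF.one h hS
  have he : (fun x y => (E x y ∧ x + y ∉ S.pos) ∨ S.push (Can S.l S.a) x y)
      (aff S.o S.d S.u p) (aff S.o S.d S.u q) := Or.inr ⟨p, q, hpq, rfl, rfl⟩
  have r1 := h1.inR _ _ he
  have r2 := h1.inR _ _ (h1.symm _ _ he)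
  have r3 := (h1.prim _ _ he).not_even
  have e : aff S.o S.d S.u p + aff S.o S.d S.u q = S.o + S.o + s.1 • S.d + s.2 • S.u := by
    rw [aff_add, hpq']
  rw [← e]
  obtain ⟨a1, a2, a3, a4⟩ := r1
  obtain ⟨b1, b2, b3, b4⟩ := r2
  apply h.full
  · simp only [Prod.fst_add]; omega
  · simp only [Prod.fst_add]; omega
  · simp only [Prod.snd_add]; omega
  · simp only [Prod.snd_add]; omega
  · rintro ⟨⟨c, hc⟩, ⟨c', hc'⟩⟩
    apply r3
    simp only [Prod.fst_add] at hc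
    simp only [Prod.snd_add] at hc'
    refine ⟨⟨c - (aff S.o S.d S.u p).1, ?_⟩, ⟨c' - (aff S.o S.d S.u p).2, ?_⟩⟩
    · simp only [Prod.fst_sub]; omega
    · simp only [Prod.snd_sub]; omega

theorem Fam.fil (h : IsTri m n E) (hF : Fam E 𝒮) {S : Shp} (hS : S ∈ 𝒮) :
    Fil S.l S.a (S.fil E) := by
  have hd := hF.det S hS
  have hP : Pre (S.pull E) := h.pre.pull hd
  have hb := hF.bd S hS
  refine ⟨?_, ?_, ?_, ?_, ?_, ?_⟩
  · rintro x y ⟨h1, h2⟩
    exact ⟨hP.symm _ _ h1, by rw [add_comm]; exact h2⟩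
  · rintro x y ⟨h1, h2⟩
    exact hP.prim _ _ h1
  · rintro x y z w ⟨h1, h2⟩ ⟨h3, h4⟩
    exact hP.ncr _ _ _ _ h1 h3
  · rintro x y ⟨h1, h2⟩
    exact (pos_in hP hb h1 h2).1
  · rintro x y ⟨h1, h2⟩
    exact h2
  · intro s hs
    obtain ⟨x, y, hxy, e⟩ := hF.ex_edge h hS hs
    have e2 : unaff S.o S.d S.u x + unaff S.o S.d S.u y = s := by
      apply aff_inj (o := S.o + S.o) hd
      have h3 : x + y = S.o + S.o + (unaff S.o S.d S.u x + unaff S.o S.d S.u y).1 • S.d +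
          (unaff S.o S.d S.u x + unaff S.o S.d S.u y).2 • S.u := by
        rw [← aff_add, aff_unaff hd, aff_unaff hd]
      unfold aff
      rw [← h3, e]
    refine ⟨unaff S.o S.d S.u x, unaff S.o S.d S.u y, ⟨?_, ?_⟩, e2⟩
    · unfold Shp.pull
      simp only [aff_unaff hd]
      exact hxy
    · rw [e2]; exact hs

theorem refillAll_iff (_h : IsTri m n E) (hF : Fam E 𝒮) {x y : Pt}
    (hxy : ∀ S ∈ 𝒮, x + y ∉ S.pos) : E x y ↔ refillAll 𝒮 E x y := by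
  constructor
  · intro h1
    exact Or.inl ⟨h1, hxy⟩
  · rintro (⟨h1, _⟩ | ⟨S, hS, h1⟩)
    · exact h1
    · exact absurd (hF.push_pos hS h1) (hxy S hS)

end Pool.Agent.MP01b126
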