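import Pool.Agent.Lib.MP_01b126_co.Cnt.OutFan
import Pool.Agent.Lib.MP_01b126_co.Cnt.OutRun
import Pool.Agent.Lib.MP_01b126_co.Cnt.GoodBlk
import Pool.Agent.Lib.MP_01b126_co.Cnt.Blk3
import Pool.Agent.Lib.MP_01b126_co.Cnt.Blk4
import Pool.Agent.Lib.MP_01b126_co.Cnt.Blk5
import Pool.Agent.Lib.MP_01b126_co.Cnt.Dec
import Pool.Agent.Lib.MP_01b126_co.Cnt.RefillAll
import Pool.Agent.Lib.MP_01b126_co.Cnt.Six
import Pool.Agent.Lib.MP_01b126_co.Cnt.PCcount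
import Pool.Agent.Lib.MP_01b126_co.Cnt.Losses
import Pool.Agent.Lib.MP_01b126_co.Cnt.Ends

/-!
# MP_01b126_co, COUNTING: the geometric part
-/

namespace Pool.Agent.MP01b126

/-- the vertices right of the blocks -/
def Rgt (E : Pt → Pt → Prop) (W B K K1 : ℕ) : Set Pt :=
  {v | ∃ S, IsBlk E W B K1 S ∧ ∃ i : ℕ, 1 ≤ i ∧ i ≤ K ∧ v = S.o + ((S.l : ℤ) - 1 + i) • S.d}

/-- vertices which are given up -/
def Lost (m n : ℕ) (E : Pt → Pt → Prop) (D L B W K K1 B0 : ℕ) : Set Pt :=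
  {v | D + 1 ≤ deg E v} ∪ ({v | OnRun E L v ∧ ¬ RunGood E K v} ∪
    ({v | OnFan E L v ∧ ¬ FanGood E K v} ∪
      ({v | InR m n v ∧ Tame E D L v ∧ ¬ ∃ d u, Good E B0 W v d u} ∪
        Rgt E W B K K1)))

theorem outer_of_runGood {m n : ℕ} {E : Pt → Pt → Prop} {W B K1 K : ℕ} (hE : IsTri m n E)
    (hK : K1 + 2 ≤ B) (hW : K1 + 2 ≤ W) (hK2 : 2 ≤ K) {𝒮 : Finset Shp}
    (h𝒮 : ∀ S, S ∈ 𝒮 ↔ IsBlk E W B K1 S) {v : Pt} (hv : ∀ S ∈ 𝒮, v ∉ S.mid)
    (h : RunGood E K v) : Outer K E 𝒮 v := by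
  obtain ⟨d, hlex, h1, h2⟩ := h
  have key := out_run hE hK hW hK2 hlex (fun S hS => hv S ((h𝒮 S).mpr hS)) h1 h2
  left
  exact ⟨d, hlex, h1, fun S hS => (key S ((h𝒮 S).mp hS)).1,
    fun j hj => ⟨h2 j hj, fun S hS => (key S ((h𝒮 S).mp hS)).2 j hj⟩⟩

theorem outer_all {m n : ℕ} {E : Pt → Pt → Prop} {D L W B K1 K : ℕ} (hm : 1 ≤ m) (hn : 1 ≤ n)
    (hE : IsTri m n E)
    (hK : K1 + 2 ≤ B) (hW : K1 + 2 ≤ W) (hKW : K + 2 ≤ W) (hK2 : 2 ≤ K) (hL : 2 * L ≤ K1)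
    (hL1 : 1 ≤ L) {𝒮 : Finset Shp} (h𝒮 : ∀ S, S ∈ 𝒮 ↔ IsBlk E W B K1 S) {v : Pt}
    (hR : InR m n v) (hX : v ∉ Lost m n E D L B W K K1 (B + L + 1)) (hv : ∀ S ∈ 𝒮, v ∉ S.mid) :
    Outer K E 𝒮 v := by
  simp only [Lost, Set.mem_union, Set.mem_ofPred_eq, not_or] at hX
  obtain ⟨x1, x2, x3, x4, x5⟩ := hX
  by_cases c1 : OnRun E L v
  · have : RunGood E K v := by
      by_contra hc; exact x2 ⟨c1, hc⟩
    exact outer_of_runGood hE hK hW hK2 h𝒮 hv this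
  by_cases c2 : OnFan E L v
  · have hf : FanGood E K v := by
      by_contra hc; exact x3 ⟨c2, hc⟩
    obtain ⟨h, d, hlex, hd, hj⟩ := hf
    by_cases c3 : ∀ j : ℤ, 0 ≤ j → j ≤ K → ∀ S ∈ 𝒮, h + (v - j • d) ∉ S.pos
    · right
      exact ⟨h, d, hlex, hd, hj, c3⟩
    · push Not at c3
      obtain ⟨j, hj0, hjK, S, hS, hp⟩ := c3
      rcases out_fan hE hK hW hKW hlex (fun S hS => hv S ((h𝒮 S).mpr hS)) hd hj hj0 hjK
        ((h𝒮 S).mp hS) hp with h1 | h1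
      · exact outer_of_runGood hE hK hW hK2 h𝒮 hv h1
      · exact absurd ⟨S, (h𝒮 S).mp hS, h1⟩ x5
  · exfalso
    have ht : Tame E D L v := ⟨by omega, c1, c2⟩
    have : ∃ d u, Good E (B + L + 1) W v d u := by
      by_contra hc; exact x4 ⟨hR, ht, hc⟩
    obtain ⟨d, u, hg⟩ := this
    obtain ⟨d', hd'⟩ := good_inBlk hm hn hE hL hL1 (by omega) hR ht hg
    obtain ⟨S, hS, hvS, _⟩ := blk_ex hE (by omega) (by omega) hd'
    exact hv S ((h𝒮 S).mpr hS) hvS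

theorem real_of_mul {a b c : ℕ} {x y : ℝ} (h : a * b ≤ c) (hc : (c : ℝ) ≤ x) (ha : 0 < (a : ℝ))
    (hx : x ≤ a * y) : (b : ℝ) ≤ y := by
  have h1 : (a : ℝ) * b ≤ c := by exact_mod_cast h
  have h2 : (a : ℝ) * b ≤ a * y := by linarith
  exact le_of_mul_le_mul_left h2 ha

theorem rgt_card {E : Pt → Pt → Prop} {W B K K1 : ℕ} {𝒮 : Finset Shp}
    (h𝒮 : ∀ S, S ∈ 𝒮 ↔ IsBlk E W B K1 S) :
    (Rgt E W B K K1).Finite ∧ (Rgt E W B K K1).ncard ≤ 𝒮.card * K := by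
  have hsub : Rgt E W B K K1 ⊆ (fun x : Shp × ℕ => x.1.o + ((x.1.l : ℤ) - 1 + x.2) • x.1.d) ''
      ((𝒮 ×ˢ Finset.Icc 1 K : Finset (Shp × ℕ)) : Set (Shp × ℕ)) := by
    rintro v ⟨S, hS, i, hi1, hiK, rfl⟩
    refine ⟨(S, i), ?_, rfl⟩
    simp only [Finset.coe_product, Set.mem_prod, Finset.mem_coe, Finset.mem_Icc]
    exact ⟨(h𝒮 S).mpr hS, hi1, hiK⟩
  have hfin : ((fun x : Shp × ℕ => x.1.o + ((x.1.l : ℤ) - 1 + x.2) • x.1.d) ''
      ((𝒮 ×ˢ Finset.Icc 1 K : Finset (Shp × ℕ)) : Set (Shp × ℕ))).Finite :=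
    (Finset.finite_toSet _).image _
  refine ⟨hfin.subset hsub, ?_⟩
  have h1 := Set.ncard_le_ncard hsub hfin
  have h2 := Set.ncard_image_le (f := fun x : Shp × ℕ => x.1.o + ((x.1.l : ℤ) - 1 + x.2) • x.1.d)
    (Finset.finite_toSet (𝒮 ×ˢ Finset.Icc 1 K : Finset (Shp × ℕ)))
  rw [Set.ncard_coe_finset, Finset.card_product, Nat.card_Icc] at h2
  have h3 : K + 1 - 1 = K := by omega
  rw [h3] at h2
  exact h1.trans h2

theorem lost_card {m n : ℕ} {E : Pt → Pt → Prop} {D L W B K1 K B0 : ℕ} (hE : IsTri m n E)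
    (hL : 1 ≤ L) {𝒮 : Finset Shp} (h𝒮 : ∀ S, S ∈ 𝒮 ↔ IsBlk E W B K1 S) :
    ({v | InR m n v ∧ v ∈ Lost m n E D L B W K K1 B0} : Set Pt).ncard ≤
      ({v | D + 1 ≤ deg E v} : Set Pt).ncard +
      (({v | OnRun E L v ∧ ¬ RunGood E K v} : Set Pt).ncard +
      (({v | OnFan E L v ∧ ¬ FanGood E K v} : Set Pt).ncard +
      (({v | InR m n v ∧ Tame E D L v ∧ ¬ ∃ d u, Good E B0 W v d u} : Set Pt).ncard +
      𝒮.card * K))) := by
  obtain ⟨f6, c6⟩ := rgt_card (K := K) h𝒮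
  have hRfin : {v : Pt | InR m n v}.Finite := by
    refine ((Set.finite_Icc (0 : ℤ) m).prod (Set.finite_Icc (0 : ℤ) n)).subset ?_
    rintro ⟨p1, p2⟩ ⟨h1, h2, h3, h4⟩
    exact ⟨⟨h1, h2⟩, ⟨h3, h4⟩⟩
  have hvert : ∀ {P : Pt → Prop}, (∀ v, P v → ∃ w, E v w) → {v | P v}.Finite := by
    intro P hP
    refine hRfin.subset ?_
    intro v hv
    obtain ⟨w, hw⟩ := hP v hv
    exact hE.inR _ _ hw
  have f1 : ({v | D + 1 ≤ deg E v} : Set Pt).Finite := by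
    apply hvert
    intro v hv
    by_contra hc
    push Not at hc
    have : {w | E v w} = ∅ := by
      ext w; simp [hc w]
    unfold deg at hv
    rw [this] at hv
    simp at hv
  have f3 : ({v | OnRun E L v ∧ ¬ RunGood E K v} : Set Pt).Finite := by
    apply hvert
    rintro v ⟨⟨x, d, h1, i, hi, rfl⟩, _⟩
    rcases i with _ | i
    · have := h1 0 (by omega)
      exact ⟨_, this⟩
    · have := h1 i (by omega)
      refine ⟨x + (i : ℤ) • d, hE.symm _ _ ?_⟩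
      push_cast
      exact this
  have f4 : ({v | OnFan E L v ∧ ¬ FanGood E K v} : Set Pt).Finite := by
    apply hvert
    rintro v ⟨⟨p, x, d, h1, _, i, hi, rfl⟩, _⟩
    exact ⟨p, hE.symm _ _ (h1 i hi)⟩
  have f5 : ({v | InR m n v ∧ Tame E D L v ∧ ¬ ∃ d u, Good E B0 W v d u} :
      Set Pt).Finite := hRfin.subset (fun v hv => hv.1)
  have hsub : {v | InR m n v ∧ v ∈ Lost m n E D L B W K K1 B0} ⊆
      Lost m n E D L B W K K1 B0 := fun v hv => hv.2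
  have u0 := Set.ncard_le_ncard hsub (f1.union (f3.union (f4.union (f5.union f6))))
  have u1 := Set.ncard_union_le ({v | D + 1 ≤ deg E v} : Set Pt)
    ({v | OnRun E L v ∧ ¬ RunGood E K v} ∪
      ({v | OnFan E L v ∧ ¬ FanGood E K v} ∪
        ({v | InR m n v ∧ Tame E D L v ∧ ¬ ∃ d u, Good E B0 W v d u} ∪ Rgt E W B K K1)))
  have u2 := Set.ncard_union_le ({v | OnRun E L v ∧ ¬ RunGood E K v} : Set Pt)
    ({v | OnFan E L v ∧ ¬ FanGood E K v} ∪
        ({v | InR m n v ∧ Tame E D L v ∧ ¬ ∃ d u, Good E B0 W v d u} ∪ Rgt E W B K K1))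
  have u3 := Set.ncard_union_le ({v | OnFan E L v ∧ ¬ FanGood E K v} : Set Pt)
    ({v | InR m n v ∧ Tame E D L v ∧ ¬ ∃ d u, Good E B0 W v d u} ∪ Rgt E W B K K1)
  have u4 := Set.ncard_union_le
    ({v | InR m n v ∧ Tame E D L v ∧ ¬ ∃ d u, Good E B0 W v d u} : Set Pt) (Rgt E W B K K1)
  unfold Lost at u0 ⊢
  omega

theorem arith_final {m n K c s pc lo hu : ℕ} {η : ℝ} (hη : 0 < η)
    (h1 : (m + 1) * (n + 1) + 4 * s ≤ pc + lo + hu + (5 * K + 1) * c)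
    (h2 : (lo : ℝ) ≤ 4 * (η / 8 * (m * n)) + c * K) (h3 : (hu : ℝ) ≤ η / 8 * (m * n))
    (h4 : (c : ℝ) * (6 * K + 2) ≤ η / 8 * (m * n)) :
    (npos m n : ℝ) ≤ 2 * m * n - 4 * s + η * m * n + pc := by
  have h1' : (((m + 1) * (n + 1) + 4 * s : ℕ) : ℝ) ≤
      ((pc + lo + hu + (5 * K + 1) * c : ℕ) : ℝ) := by exact_mod_cast h1
  push_cast at h1'
  have hnp2 : (npos m n : ℝ) ≤ 2 * m * n + (m + 1) * (n + 1) := by
    unfold npos; push_cast; linarith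
  have h3 : (0 : ℝ) ≤ c := by positivity
  have e1 : (c : ℝ) * (6 * K + 2) = (5 * K + 1) * c + c * K + c := by ring
  have e2 : η * m * n = 8 * (η / 8 * (m * n)) := by ring
  have h6 : 0 ≤ η / 8 * (m * n) := by positivity
  rw [e2]
  linarith

theorem arith_lost {a b c d k K : ℕ} {t : ℕ} {x : ℝ} (h : t ≤ a + (b + (c + (d + k * K))))
    (ha : (a : ℝ) ≤ x) (hb : (b : ℝ) ≤ x) (hc : (c : ℝ) ≤ x) (hd : (d : ℝ) ≤ x) :
    (t : ℝ) ≤ 4 * x + k * K := by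
  have h' : (t : ℝ) ≤ ((a + (b + (c + (d + k * K))) : ℕ) : ℝ) := by exact_mod_cast h
  push_cast at h'
  linarith

theorem geoThm : GeoThm := by
  obtain ⟨dec, hdec⟩ := dec_exists
  refine ⟨dec, ?_⟩
  intro η hη
  obtain ⟨K0, hK0⟩ := exists_nat_ge (64 / η)
  refine ⟨max 2 K0, ?_⟩
  intro K hK
  have hK2 : 2 ≤ K := le_trans (le_max_left _ _) hK
  have hKK : K0 ≤ K := le_trans (le_max_right _ _) hK
  obtain ⟨D, hD⟩ := exists_nat_ge (64 / η)
  obtain ⟨L0, hL0⟩ := exists_nat_ge (384 * (K + 4) / η)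
  obtain ⟨K1', hK1'⟩ := exists_nat_ge (32 * (6 * K + 2) / η)
  set L := L0 + 1 with hL
  set K1 := 2 * L + K1' with hK1
  set B := K1 + 2 with hB
  set W := K1 + K + 4 with hW
  refine ⟨D, L, B + L + 1, W, η / 8, by positivity, 2, ?_⟩
  intro m n hm hn E hE hbad
  have hfin := blk_fin hE (W := W) (B := B) (K1 := K1) (by omega) (by omega)
  set 𝒮 : Finset Shp := hfin.toFinset with h𝒮d
  have h𝒮 : ∀ S, S ∈ 𝒮 ↔ IsBlk E W B K1 S := by
    intro S; rw [h𝒮d, Set.Finite.mem_toFinset]; rfl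
  have hF : Fam E 𝒮 := blk_fam hE (by omega) (by omega) 𝒮 h𝒮
  have hcard : 𝒮.card = ({S | IsBlk E W B K1 S} : Set Shp).ncard := by
    rw [h𝒮d, Set.ncard_eq_toFinset_card _ hfin]
  have hcount : K1 * 𝒮.card ≤ (m + 1) * (n + 1) := by
    rw [hcard]; exact blk_count hE (by omega) (by omega)
  -- size estimates
  have hm' : (2 : ℝ) ≤ m := by exact_mod_cast hm
  have hn' : (2 : ℝ) ≤ n := by exact_mod_cast hn
  have hmn0 : (0 : ℝ) < (m : ℝ) * n := by positivity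
  have hnp : (npos m n : ℝ) ≤ 4 * (m * n) := by
    unfold npos; push_cast; nlinarith
  have hN : (((m + 1) * (n + 1) : ℕ) : ℝ) ≤ 4 * (m * n) := by
    push_cast; nlinarith
  have hr : (𝒮.card : ℝ) * (6 * K + 2) ≤ η / 8 * (m * n) := by
    have hpos : (0 : ℝ) < 6 * K + 2 := by positivity
    have h1 : (32 * (6 * K + 2) : ℝ) ≤ K1 * η := by
      have : (32 * (6 * K + 2) / η : ℝ) ≤ K1 := by
        refine hK1'.trans ?_
        rw [hK1]; push_cast
        have : (0 : ℝ) ≤ L := by positivity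
        linarith
      rwa [div_le_iff₀ hη] at this
    have h2 : (K1 : ℝ) * 𝒮.card ≤ 4 * (m * n) := by
      have : ((K1 * 𝒮.card : ℕ) : ℝ) ≤ ((m + 1) * (n + 1) : ℕ) := by exact_mod_cast hcount
      push_cast at this hN
      linarith
    have h3 : (0 : ℝ) ≤ 𝒮.card := by positivity
    have h4 : (32 * (6 * K + 2) : ℝ) * 𝒮.card ≤ K1 * η * 𝒮.card :=
      mul_le_mul_of_nonneg_right h1 h3
    have h5 : (K1 : ℝ) * η * 𝒮.card = η * (K1 * 𝒮.card) := by ring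
    have h6 : η * ((K1 : ℝ) * 𝒮.card) ≤ η * (4 * (m * n)) := mul_le_mul_of_nonneg_left h2 hη.le
    linarith
  have hLpos : (0 : ℝ) < (L : ℝ) := by rw [hL]; positivity
  have b1 : (({v | D + 1 ≤ deg E v} : Set Pt).ncard : ℝ) ≤ η / 8 * (m * n) := by
    refine real_of_mul (hub_count hE (D + 1)) (x := 8 * (m * n)) ?_ (by positivity) ?_
    · push_cast; linarith
    · rw [div_le_iff₀ hη] at hD
      have e : ((D + 1 : ℕ) : ℝ) * (η / 8 * (m * n)) = (((D : ℝ) + 1) * η / 8) * (m * n) := by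
        push_cast; ring
      rw [e]
      exact mul_le_mul_of_nonneg_right (by linarith) hmn0.le
  have b2 : (({v | K + 5 ≤ deg E v} : Set Pt).ncard : ℝ) ≤ η / 8 * (m * n) := by
    refine real_of_mul (hub_count hE (K + 5)) (x := 8 * (m * n)) ?_ (by positivity) ?_
    · push_cast; linarith
    · have h0 : (64 / η : ℝ) ≤ K := hK0.trans (by exact_mod_cast hKK)
      rw [div_le_iff₀ hη] at h0
      have e : ((K + 5 : ℕ) : ℝ) * (η / 8 * (m * n)) = (((K : ℝ) + 5) * η / 8) * (m * n) := by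
        push_cast; ring
      rw [e]
      exact mul_le_mul_of_nonneg_right (by linarith) hmn0.le
  have hLη : (384 * (K + 4) : ℝ) ≤ L * η := by
    have : (384 * (K + 4) / η : ℝ) ≤ L := hL0.trans (by rw [hL]; push_cast; linarith)
    rwa [div_le_iff₀ hη] at this
  have b3 : (({v | OnRun E L v ∧ ¬ RunGood E K v} : Set Pt).ncard : ℝ) ≤ η / 8 * (m * n) := by
    refine real_of_mul (onrun_loss hE K L (by omega)) (x := (K + 1) * (4 * (m * n))) ?_ hLpos ?_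
    · push_cast
      exact mul_le_mul_of_nonneg_left hnp (by positivity)
    · have h0 : (32 * (K + 1) : ℝ) ≤ L * η := by
        have : (0 : ℝ) ≤ K := by positivity
        linarith
      have e1 : (K + 1 : ℝ) * (4 * (m * n)) = (32 * (K + 1) / 8) * (m * n) := by ring
      have e2 : (L : ℝ) * (η / 8 * (m * n)) = (L * η / 8) * (m * n) := by ring
      rw [e1, e2]
      exact mul_le_mul_of_nonneg_right (by linarith) hmn0.le
  have b4 : (({v | OnFan E L v ∧ ¬ FanGood E K v} : Set Pt).ncard : ℝ) ≤ η / 8 * (m * n) := by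
    refine real_of_mul (onfan_loss hE K L (by omega)) (x := 12 * (K + 4) * (4 * (m * n))) ?_
      hLpos ?_
    · push_cast
      exact mul_le_mul_of_nonneg_left hnp (by positivity)
    · have e1 : (12 * (K + 4) : ℝ) * (4 * (m * n)) = (384 * (K + 4) / 8) * (m * n) := by ring
      have e2 : (L : ℝ) * (η / 8 * (m * n)) = (L * η / 8) * (m * n) := by ring
      rw [e1, e2]
      exact mul_le_mul_of_nonneg_right (by linarith) hmn0.le
  have b5 : (({v | InR m n v ∧ Tame E D L v ∧ ¬ ∃ d u, Good E (B + L + 1) W v d u} :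
      Set Pt).ncard : ℝ) ≤ η / 8 * (m * n) := by
    refine hbad.trans (le_of_eq (by ring))
  have hlost : (({v | InR m n v ∧ v ∈ Lost m n E D L B W K K1 (B + L + 1)} : Set Pt).ncard : ℝ) ≤
      4 * (η / 8 * (m * n)) + 𝒮.card * K :=
    arith_lost (lost_card hE (by omega) h𝒮) b1 b3 b4 b5
  have hpc := hF.pc hE K (Lost m n E D L B W K K1 (B + L + 1)) (fun v hR hX hv =>
    outer_all (by omega) (by omega) hE (by omega) (by omega) (by omega) hK2 (by omega) (by omega)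
      h𝒮 hR hX hv)
  refine ⟨𝒮, refillAll 𝒮 E, hF.refill hE, ?_, ?_, hF.six hE, ?_, ?_, ?_⟩
  · have h3 : (0 : ℝ) ≤ 𝒮.card := by positivity
    have h4 : (0 : ℝ) ≤ (K : ℝ) := by positivity
    have h5 : (𝒮.card : ℝ) * 1 ≤ 𝒮.card * (6 * K + 2) :=
      mul_le_mul_of_nonneg_left (by linarith) h3
    have h6 : 0 ≤ η * (m * n) := by positivity
    have e : η * m * n = η * (m * n) := by ring
    rw [e]
    linarith
  · rw [← Nat.cast_sum]
    exact arith_final hη hpc hlost b2 hr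
  · intro S hS
    have hb := hF.bd S hS
    exact ⟨hb.hl, hb.ha, hF.fil hE hS, hF.det S hS⟩
  · intro x y hxy
    exact refillAll_iff hE hF hxy
  · intro S hS
    have hb := (h𝒮 S).mp hS
    have p1 := hE.pos_mem hb.e1
    have p2 := hE.pos_mem hb.e2
    have e1 : aff S.o S.d S.u (0, 1) + aff S.o S.d S.u (-1, -1) = S.lft := by
      rw [aff_add]; unfold Shp.lft
      simp only [Prod.mk_add_mk, zero_add, neg_smul, one_smul, add_neg_cancel, zero_smul,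
        add_zero]
      abel
    have e2 : aff S.o S.d S.u ((S.a : ℤ), 1) + aff S.o S.d S.u (2 * S.l - 1 - S.a, -1) =
        S.rgt := by
      rw [aff_add]; unfold Shp.rgt
      simp only [Prod.mk_add_mk, add_neg_cancel, zero_smul, add_zero]
      congr 2; ring
    rw [e1] at p1
    rw [e2] at p2
    exact ⟨p1.1, p2.1, p1.2, p2.2, hdec m n E 𝒮 hE hF S hS⟩

end Pool.Agent.MP01b126
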