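import Pool.Agent.Lib.MP_01b126_co.Cnt.Blk5

/-!
# MP_01b126_co, COUNTING: fans around vertices outside of the blocks do not use inner positions
-/

namespace Pool.Agent.MP01b126

section std

variable {R : Pt → Prop} {G : Pt → Pt → Prop} {W : ℕ}

/-- the fan cannot continue below on the right -/
theorem fan_right (hG : Cpx R G) (hW : 1 ≤ W) (m0 : MidS0 G W 0) (h01 : G (0, 0) (0, 1)) {q : ℤ}
    (hq : 1 ≤ q) (e1 : G (0, 1) (1, -q)) (e2 : G (0, 1) (2, -2 * q)) : False := by
  obtain ⟨⟨c1, c2⟩, hc⟩ := hG.star' m0.star h01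
  have hdet := hc.det'
  simp only [det, Prod.mk_sub_mk] at hdet
  have hc1 : c1 = 1 := by linarith
  subst hc1
  have hr := m0.row _ _ hc.1
  by_cases hs : 0 < q + c2
  · apply hG.ncr _ _ _ _ e1 hc.1
    constructor
    · simp only [det, Prod.mk_sub_mk]
      nlinarith
    · simp only [det, Prod.mk_sub_mk]
      nlinarith
  have hc2 : c2 = -1 := by omega
  have hq1 : q = 1 := by omega
  subst hc2 hq1
  obtain ⟨α, β, h1, h2, h3, h4, _, _, h7⟩ := m0.right_step hG hW ⟨_, h01⟩
  rcases h7 with h7 | ⟨h7, h8⟩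
  · rcases hG.mid e1 h7 (by simp) with ⟨a1, a2⟩ | ⟨a1, a2⟩
    · simp at a1
    · simp at a1
  · rcases hG.mid e1 h8 (Prod.ext (by dsimp only [Prod.fst_add]; omega) rfl) with
      ⟨a1, a2⟩ | ⟨a1, a2⟩
    · simp only [Prod.mk.injEq] at a1 a2
      obtain ⟨rfl, _⟩ := a1
      obtain ⟨rfl, _⟩ := a2
      apply hG.ncr _ _ _ _ e2 h4
      constructor
      · simp only [det, Prod.mk_sub_mk]; norm_num
      · simp only [det, Prod.mk_sub_mk]; norm_num
    · simp at a1

/-- the fan cannot continue below on the left -/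
theorem fan_left (hG : Cpx R G) (hW : 1 ≤ W) (m0 : MidS0 G W 0) (h01 : G (0, 0) (0, 1)) {q : ℤ}
    (hq : 1 ≤ q) (e1 : G (0, 1) (-1, -q)) (e2 : G (0, 1) (-2, -2 * q)) : False := by
  obtain ⟨⟨c1, c2⟩, hc⟩ := m0.star _ h01
  have hdet := hc.det'
  simp only [det, Prod.mk_sub_mk] at hdet
  have hc1 : c1 = -1 := by linarith
  subst hc1
  have hc3 := hG.symm _ _ hc.2.2.1
  have hr := m0.row _ _ hc3
  by_cases hs : 0 < q + c2
  · apply hG.ncr _ _ _ _ e1 hc3
    constructor
    · simp only [det, Prod.mk_sub_mk]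
      nlinarith
    · simp only [det, Prod.mk_sub_mk]
      nlinarith
  have hc2 : c2 = -1 := by omega
  have hq1 : q = 1 := by omega
  subst hc2 hq1
  obtain ⟨α, β, h1, h2, h3, h4, _, _, h7⟩ := m0.left_step hG hW ⟨_, h01⟩
  rcases h7 with h7 | ⟨h7, h8⟩
  · rcases hG.mid e1 h7 (by simp) with ⟨a1, a2⟩ | ⟨a1, a2⟩
    · simp at a1
    · simp at a1
  · rcases hG.mid e1 h8 (Prod.ext (by dsimp only [Prod.fst_add]; omega) rfl) with
      ⟨a1, a2⟩ | ⟨a1, a2⟩
    · simp only [Prod.mk.injEq] at a1 a2
      obtain ⟨rfl, _⟩ := a1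
      obtain ⟨rfl, _⟩ := a2
      apply hG.ncr _ _ _ _ e2 h4
      constructor
      · simp only [det, Prod.mk_sub_mk]; norm_num
      · simp only [det, Prod.mk_sub_mk]; norm_num
    · simp at a1

/-- a spoke ending at a middle vertex -/
theorem fan_mid (hG : Cpx R G) (hW : 1 ≤ W) (m0 : MidS0 G W 0) (h01 : G (0, 0) (0, 1)) {p q : ℤ}
    (hp : p = 1 ∨ p = -1) (hq : q ≠ 0)
    (hf : ∀ t : ℤ, -2 ≤ t → t ≤ 2 → G (0, 1) (t * p, t * q)) : False := by
  have f1 := hf 1 (by norm_num) (by norm_num)
  have f2 := hf 2 (by norm_num) (by norm_num)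
  have g1 := hf (-1) (by norm_num) (by norm_num)
  have g2 := hf (-2) (by norm_num) (by norm_num)
  rcases lt_or_gt_of_ne hq with h0 | h0
  · rcases hp with rfl | rfl
    · apply fan_right hG hW m0 h01 (q := -q) (by omega)
      · have e : ((1 * 1, 1 * q) : Pt) = (1, - -q) := by
          exact Prod.ext (by dsimp only; ring) (by dsimp only; ring)
        rwa [e] at f1
      · have e : ((2 * 1, 2 * q) : Pt) = (2, -2 * -q) := by
          exact Prod.ext (by dsimp only; ring) (by dsimp only; ring)
        rwa [e] at f2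
    · apply fan_left hG hW m0 h01 (q := -q) (by omega)
      · have e : ((1 * -1, 1 * q) : Pt) = (-1, - -q) := by
          exact Prod.ext (by dsimp only; ring) (by dsimp only; ring)
        rwa [e] at f1
      · have e : ((2 * -1, 2 * q) : Pt) = (-2, -2 * -q) := by
          exact Prod.ext (by dsimp only; ring) (by dsimp only; ring)
        rwa [e] at f2
  · rcases hp with rfl | rfl
    · apply fan_left hG hW m0 h01 (q := q) (by omega)
      · have e : ((-1 * 1, -1 * q) : Pt) = (-1, -q) := by
          exact Prod.ext (by dsimp only; ring) (by dsimp only; ring)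
        rwa [e] at g1
      · have e : ((-2 * 1, -2 * q) : Pt) = (-2, -2 * q) := by
          exact Prod.ext (by norm_num) rfl
        rwa [e] at g2
    · apply fan_right hG hW m0 h01 (q := q) (by omega)
      · have e : ((-1 * -1, -1 * q) : Pt) = (1, -q) := by
          exact Prod.ext (by dsimp only; ring) (by dsimp only; ring)
        rwa [e] at g1
      · have e : ((-2 * -1, -2 * q) : Pt) = (2, -2 * q) := by
          exact Prod.ext (by norm_num) rfl
        rwa [e] at g2

/-- a spoke which is an inner flip -/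
theorem fan_flip_aux (hG : Pre G) (h1 : G (0, 0) (1, -1)) (h2 : G (1, 0) (1, -1)) {p q : ℤ}
    (hq : 1 ≤ q) (hpq : 2 * p - q = 1 ∨ 2 * p - q = -1) (e1 : G (0, 1) (1 + p, -1 - q)) :
    False := by
  rcases hpq with h | h
  · have hq : q = 2 * p - 1 := by omega
    subst hq
    apply hG.ncr _ _ _ _ e1 h2
    constructor
    · simp only [det, Prod.mk_sub_mk]
      have a1 : (1 + p - 0) * (0 - 1) - (-1 - (2 * p - 1) - 1) * (1 - 0) = p := by ring
      have a2 : (1 + p - 0) * (-1 - 1) - (-1 - (2 * p - 1) - 1) * (1 - 0) = -1 := by ring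
      rw [a1, a2]; linarith
    · simp only [det, Prod.mk_sub_mk]
      have a1 : (1 - 1) * (1 - 0) - (-1 - 0) * (0 - 1) = (-1 : ℤ) := by norm_num
      have a2 : (1 - 1) * (-1 - (2 * p - 1) - 0) - (-1 - 0) * (1 + p - 1) = p := by ring
      rw [a1, a2]; linarith
  · have hq : q = 2 * p + 1 := by omega
    subst hq
    apply hG.ncr _ _ _ _ e1 h1
    constructor
    · simp only [det, Prod.mk_sub_mk]
      have a1 : (1 + p - 0) * (0 - 1) - (-1 - (2 * p + 1) - 1) * (0 - 0) = -(1 + p) := by ring
      have a2 : (1 + p - 0) * (-1 - 1) - (-1 - (2 * p + 1) - 1) * (1 - 0) = 1 := by ring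
      rw [a1, a2]; linarith
    · simp only [det, Prod.mk_sub_mk]
      have a1 : (1 - 0) * (1 - 0) - (-1 - 0) * (0 - 0) = (1 : ℤ) := by norm_num
      have a2 : (1 - 0) * (-1 - (2 * p + 1) - 0) - (-1 - 0) * (1 + p - 0) = -(1 + p) := by ring
      rw [a1, a2]; linarith

theorem fan_flip (hG : Pre G) (h1 : G (0, 0) (1, -1)) (h2 : G (1, 0) (1, -1)) {p q : ℤ}
    (hpq : 2 * p + q = 1 ∨ 2 * p + q = -1)
    (hf : ∀ t : ℤ, -2 ≤ t → t ≤ 2 → G (0, 1) (1 + t * p, -1 + t * q)) : False := by
  have f1 := hf 1 (by norm_num) (by norm_num)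
  have g1 := hf (-1) (by norm_num) (by norm_num)
  rcases lt_trichotomy q 0 with h0 | h0 | h0
  · apply fan_flip_aux hG h1 h2 (p := p) (q := -q) (by omega) (by omega)
    have e : ((1 + 1 * p, -1 + 1 * q) : Pt) = (1 + p, -1 - -q) := by
      simp only [Prod.mk.injEq]; constructor <;> ring
    rwa [e] at f1
  · omega
  · apply fan_flip_aux hG h1 h2 (p := -p) (q := q) (by omega) (by omega)
    have e : ((1 + -1 * p, -1 + -1 * q) : Pt) = (1 + -p, -1 - q) := by
      simp only [Prod.mk.injEq]; constructor <;> ring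
    rwa [e] at g1

end std

/-- primitive lexicographically positive parallel vectors are equal -/
theorem of_lex_par {d D : Pt} (h1 : Prim d) (h2 : Prim D) (l1 : LexPos d) (l2 : LexPos D)
    (h : det D d = 0) : d = D := by
  rcases h2.eq_or_neg h1 h with h3 | h3
  · exact h3
  · exfalso
    rw [h3] at l1
    unfold LexPos at l1 l2
    simp only [Prod.fst_neg, Prod.snd_neg] at l1
    omega

variable {m n : ℕ} {E : Pt → Pt → Prop} {W : ℕ}

/-- spoke ending at a middle vertex, general position -/
theorem fan_mid_gen (hE : IsTri m n E) (hW : 1 ≤ W) {c h D d : Pt} (hm : Mid0 E W c D)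
    (hch : E c h) (hD : det D (h - c) = 1) (hd : det d (c - h) = 1 ∨ det d (c - h) = -1)
    (hDd : det D d ≠ 0) (hf : ∀ t : ℤ, -2 ≤ t → t ≤ 2 → E h (c + t • d)) : False := by
  set u := h - c with hu
  have hm' : Mid0 E W (c + (0 : ℤ) • D) D := by rw [zero_smul, add_zero]; exact hm
  have m0 := hm'.std hD
  have hG := hE.cpx.pull (o := c) hD
  have e0 : aff c D u (0, 0) = c := by unfold aff; simp
  have e1 : aff c D u (0, 1) = h := by unfold aff; simp [hu]
  refine fan_mid hG hW m0 (p := det d u) (q := det D d) ?_ ?_ hDd ?_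
  · show E (aff c D u (0, 0)) (aff c D u (0, 1))
    rw [e0, e1]; exact hch
  · have : det d (c - h) = - det d u := by
      rw [hu, ← det_neg_right]; congr 1; abel
    rw [this] at hd
    omega
  · intro t h1 h2
    show E (aff c D u (0, 1)) (aff c D u (t * det d u, t * det D d))
    have e2 : aff c D u (t * det d u, t * det D d) = c + t • d := by
      have := expand hD d
      unfold aff
      simp only
      conv_rhs => rw [this]
      rw [smul_add, mul_smul, mul_smul, add_assoc]
    rw [e1, e2]
    exact hf t h1 h2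

/-- spoke which is an inner flip, general position; `z`, `z + D` are the middle vertices -/
theorem fan_flip_gen (hE : IsTri m n E) {z h c D d : Pt} (hD : det D (h - z) = 1)
    (hs : h + c = z + (z + D)) (h1 : E z c) (h2 : E (z + D) c)
    (hd : det d (c - h) = 1 ∨ det d (c - h) = -1)
    (hf : ∀ t : ℤ, -2 ≤ t → t ≤ 2 → E h (c + t • d)) : False := by
  set u := h - z with hu
  have hG := hE.pre.pull (o := z) hD
  have e0 : aff z D u (0, 0) = z := by unfold aff; simp
  have e1 : aff z D u (0, 1) = h := by unfold aff; simp [hu]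
  have e2 : aff z D u (1, 0) = z + D := by unfold aff; simp
  have hc : c = z + D - u := by
    rw [hu]
    calc c = (h + c) - h := by abel
      _ = z + (z + D) - h := by rw [hs]
      _ = _ := by abel
  have e3 : aff z D u (1, -1) = c := by
    unfold aff
    simp only [one_smul, neg_smul]
    rw [hc]; abel
  refine fan_flip hG (p := det d u) (q := det D d) ?_ ?_ ?_ ?_
  · show E (aff z D u (0, 0)) (aff z D u (1, -1))
    rw [e0, e3]; exact h1
  · show E (aff z D u (1, 0)) (aff z D u (1, -1))
    rw [e2, e3]; exact h2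
  · have : det d (c - h) = - (2 * det d u + det D d) := by
      have e : c - h = D - u - u := by rw [hc, hu]; abel
      rw [e, det_sub_right, det_sub_right, det_swap d D]; ring
    rw [this] at hd
    omega
  · intro t g1 g2
    show E (aff z D u (0, 1)) (aff z D u (1 + t * det d u, -1 + t * det D d))
    have e4 : aff z D u (1 + t * det d u, -1 + t * det D d) = c + t • d := by
      have := expand hD d
      unfold aff
      simp only
      conv_rhs => rw [this]
      rw [hc, smul_add, add_smul, add_smul, one_smul, neg_smul, one_smul, mul_smul, mul_smul]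
      abel
    rw [e1, e4]
    exact hf t g1 g2

/-- the statement of `blk_edge` for one edge -/
def BlkEdge (E : Pt → Pt → Prop) (S : Shp) (x y : Pt) : Prop :=
  x ∈ S.mid ∨ y ∈ S.mid ∨
      ∃ k : ℤ, 0 ≤ k ∧ k + 1 < S.l ∧ x + y = S.o + k • S.d + (S.o + (k + 1) • S.d) ∧
        E (S.o + k • S.d) x ∧ E (S.o + k • S.d) y ∧
        E (S.o + (k + 1) • S.d) x ∧ E (S.o + (k + 1) • S.d) y ∧
        ((MP01b126.det S.d (x - (S.o + k • S.d)) = 1 ∧ MP01b126.det S.d (y - (S.o + k • S.d)) = -1) ∨
         (MP01b126.det S.d (x - (S.o + k • S.d)) = -1 ∧ MP01b126.det S.d (y - (S.o + k • S.d)) = 1))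

theorem out_fan_of {B K1 K : ℕ} (hE : IsTri m n E)
    (hK : K1 + 2 ≤ B) (hW : K1 + 2 ≤ W) (hKW : K + 2 ≤ W) {v h d : Pt} (hlex : LexPos d)
    (hv : ∀ S, IsBlk E W B K1 S → v ∉ S.mid) (hd : det d (v - h) = 1 ∨ det d (v - h) = -1)
    (hf : ∀ j : ℤ, -2 ≤ j → j ≤ K + 2 → E h (v - j • d)) {j : ℤ} (hj0 : 0 ≤ j) (hjK : j ≤ K)
    {S : Shp} (hS : IsBlk E W B K1 S) (hp : BlkEdge E S h (v - j • d)) :
    RunGood E K v ∨ ∃ i : ℕ, 1 ≤ i ∧ i ≤ K ∧ v = S.o + ((S.l : ℤ) - 1 + i) • S.d := by
  have hpd : Prim d := by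
    rcases hd with hd | hd
    · exact prim_of_det hd
    · have : det d (h - v) = 1 := by
        have e : h - v = -(v - h) := by abel
        rw [e, det_neg_right, hd]; norm_num
      exact prim_of_det this
  have hpD : Prim S.d := prim_of_det hS.det
  have hKB : K1 ≤ B := by omega
  have midm : ∀ {w : Pt}, w ∈ S.mid → Mid E W w S.d := by
    rintro w ⟨k, h0, h1, rfl⟩
    exact hS.mids hKB (by omega) (by omega)
  -- the hub is a middle vertex
  have case1 : h ∈ S.mid → RunGood E K v := by
    intro hh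
    have hm := midm hh
    have r1 := hm.row _ (hf (-2) (by norm_num) (by omega))
    have r2 := hm.row _ (hf 2 (by norm_num) (by omega))
    have e : ∀ i : ℤ, MP01b126.det S.d (v - i • d - h) =
        MP01b126.det S.d (v - h) - i * MP01b126.det S.d d := by
      intro i
      have : v - i • d - h = (v - h) - i • d := by abel
      rw [this, det_sub_right, det_smul_right]
    rw [e] at r1 r2
    have h0 : MP01b126.det S.d d = 0 := by omega
    have hdD := of_lex_par hpd hpD hlex hS.lex h0
    have f0 := hf 0 (by norm_num) (by omega)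
    rw [zero_smul, sub_zero] at f0
    have hne : MP01b126.det S.d (v - h) ≠ 0 := by
      rw [← hdD]
      rcases hd with hd | hd <;> rw [hd] <;> norm_num
    have wl := hm.wall v f0 hne
    refine ⟨S.d, hS.lex, ?_, ?_⟩
    · have := wl 0 (by omega) (by omega)
      simpa using this
    · intro i hi
      have := wl (-((i : ℤ) + 1)) (by omega) (by omega)
      have e1 : v + -((i : ℤ) + 1) • S.d = v - ((i : ℤ) + 1) • S.d := by
        rw [neg_smul]; abel
      have e2 : v + (-((i : ℤ) + 1) + 1) • S.d = v - (i : ℤ) • S.d := by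
        have : (-((i : ℤ) + 1) + 1) = -(i : ℤ) := by ring
        rw [this, neg_smul]; abel
      rwa [e1, e2] at this
  set c := v - j • d with hc
  have hvc : v = c + j • d := by rw [hc]; abel
  have hdc : det d (c - h) = 1 ∨ det d (c - h) = -1 := by
    have : det d (c - h) = det d (v - h) := by
      have e : c - h = (v - h) - j • d := by rw [hc]; abel
      rw [e, det_sub_right, det_smul_right, det_self, mul_zero, sub_zero]
    rwa [this]
  have hfc : ∀ t : ℤ, -2 ≤ t → t ≤ 2 → E h (c + t • d) := by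
    intro t h1 h2
    have := hf (j - t) (by omega) (by omega)
    have e : v - (j - t) • d = c + t • d := by rw [hc, sub_smul]; abel
    rwa [e] at this
  have hhc : E h c := by
    have := hfc 0 (by norm_num) (by norm_num)
    rwa [zero_smul, add_zero] at this
  have hch : E c h := hE.symm _ _ hhc
  rcases hp with hp | hp | ⟨k, hk0, hk1, hk2, hk3, hk4, hk5, hk6, hk7⟩
  · exact Or.inl (case1 hp)
  · -- the spoke ends at a middle vertex
    have hm := midm hp
    obtain ⟨k, hk0, hk1, hk2⟩ := hp
    rcases hm.row h hch with hr | hr | hr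
    · by_cases h0 : MP01b126.det S.d d = 0
      · have hdD := of_lex_par hpd hpD hlex hS.lex h0
        right
        have hvk : v = S.o + (k + j) • S.d := by
          rw [hvc, hk2, hdD, add_smul]; abel
        have hnot := hv S hS
        have hlt : (S.l : ℤ) ≤ k + j := by
          by_contra hcon
          exact hnot ⟨k + j, by omega, by omega, hvk⟩
        refine ⟨(k + j - (S.l - 1)).toNat, by omega, by omega, ?_⟩
        rw [hvk]
        congr 2
        omega
      · exfalso
        refine fan_mid_gen hE (W := W) (D := -S.d) (by omega) (hm.toMid0.neg hE.symm) hch ?_ hdc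
          ?_ hfc
        · rw [det_neg_left, hr]; norm_num
        · rw [det_neg_left]; exact neg_ne_zero.mpr h0
    · -- a row edge
      have hpr := hE.prim _ _ hch
      rcases hpD.eq_or_neg hpr hr with h3 | h3
      · have hh : h = S.o + (k + 1) • S.d := by
          calc h = c + (h - c) := by abel
            _ = _ := by rw [h3, hk2, add_smul, one_smul]; abel
        by_cases hkl : k + 1 < S.l
        · exact Or.inl (case1 ⟨k + 1, by omega, hkl, hh⟩)
        · exfalso
          have hkl' : k = (S.l : ℤ) - 1 := by omega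
          apply hS.rflip.not
          rw [← hkl', ← hk2]
          have e : c + S.d = h := by rw [← h3]; abel
          rw [e]; exact hch
      · have hh : h = S.o + (k - 1) • S.d := by
          calc h = c + (h - c) := by abel
            _ = _ := by rw [h3, hk2, sub_smul, one_smul]; abel
        by_cases hkl : 0 ≤ k - 1
        · exact Or.inl (case1 ⟨k - 1, hkl, by omega, hh⟩)
        · exfalso
          have hkl' : k = 0 := by omega
          subst hkl'
          apply hS.lflip.not
          have e1 : S.o - S.d = h := by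
            rw [hh, sub_smul, zero_smul, one_smul]; abel
          have e2 : S.o - S.d + S.d = c := by
            rw [hk2, zero_smul]; abel
          rw [e2, e1]; exact hhc
    · by_cases h0 : MP01b126.det S.d d = 0
      · have hdD := of_lex_par hpd hpD hlex hS.lex h0
        right
        have hvk : v = S.o + (k + j) • S.d := by
          rw [hvc, hk2, hdD, add_smul]; abel
        have hnot := hv S hS
        have hlt : (S.l : ℤ) ≤ k + j := by
          by_contra hcon
          exact hnot ⟨k + j, by omega, by omega, hvk⟩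
        refine ⟨(k + j - (S.l - 1)).toNat, by omega, by omega, ?_⟩
        rw [hvk]
        congr 2
        omega
      · exfalso
        exact fan_mid_gen hE (W := W) (by omega) hm.toMid0 hch hr hdc h0 hfc
  · -- an inner flip
    exfalso
    have ek : S.o + (k + 1) • S.d = S.o + k • S.d + S.d := by
      rw [add_smul, one_smul]; abel
    rcases hk7 with ⟨a1, a2⟩ | ⟨a1, a2⟩
    · refine fan_flip_gen hE (z := S.o + k • S.d) (D := S.d) a1 ?_ hk4 ?_ hdc hfc
      · rw [hk2, ek]
      · rw [← ek]; exact hk6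
    · refine fan_flip_gen hE (z := S.o + (k + 1) • S.d) (D := -S.d) ?_ ?_ hk6 ?_ hdc hfc
      · rw [det_neg_left]
        have e : h - (S.o + (k + 1) • S.d) = h - (S.o + k • S.d) - S.d := by rw [ek]; abel
        rw [e, det_sub_right, det_self, a1]; norm_num
      · rw [hk2, ek]; abel
      · have e : S.o + (k + 1) • S.d + -S.d = S.o + k • S.d := by rw [ek]; abel
        rw [e]; exact hk4

theorem out_fan {m n : ℕ} {E : Pt → Pt → Prop} {W B K1 K : ℕ} (hE : IsTri m n E)
    (hK : K1 + 2 ≤ B) (hW : K1 + 2 ≤ W) (hKW : K + 2 ≤ W) {v h d : Pt} (hlex : LexPos d)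
    (hv : ∀ S, IsBlk E W B K1 S → v ∉ S.mid) (hd : det d (v - h) = 1 ∨ det d (v - h) = -1)
    (hf : ∀ j : ℤ, -2 ≤ j → j ≤ K + 2 → E h (v - j • d)) {j : ℤ} (hj0 : 0 ≤ j) (hjK : j ≤ K)
    {S : Shp} (hS : IsBlk E W B K1 S) (hp : h + (v - j • d) ∈ S.pos) :
    RunGood E K v ∨ ∃ i : ℕ, 1 ≤ i ∧ i ≤ K ∧ v = S.o + ((S.l : ℤ) - 1 + i) • S.d :=
  out_fan_of hE hK hW hKW hlex hv hd hf hj0 hjK hS
    (blk_edge hE hK hW hS (hf j (by omega) (by omega)) hp)

end Pool.Agent.MP01b126
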