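import Pool.Agent.Lib.MP_01b126_co.Cnt.Canon
import Pool.Agent.Lib.MP_01b126_co.Cnt.RefillAll
import Pool.Agent.Lib.MP_01b126_co.Cnt.Ends

/-!
# MP_01b126_co, COUNTING, piece G7: the number of predicted positions after refilling
-/

namespace Pool.Agent.MP01b126

/-- the edge chosen for a vertex outside of the trapezoids -/
def Outer (K : ℕ) (E : Pt → Pt → Prop) (𝒮 : Finset Shp) (v : Pt) : Prop :=
  (∃ d, LexPos d ∧ E v (v + d) ∧ (∀ S ∈ 𝒮, v + (v + d) ∉ S.pos) ∧
    ∀ j : ℕ, j < K → E (v - ((j : ℤ) + 1) • d) (v - (j : ℤ) • d) ∧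
      ∀ S ∈ 𝒮, v - ((j : ℤ) + 1) • d + (v - (j : ℤ) • d) ∉ S.pos) ∨
  (∃ h d, LexPos d ∧ (det d (v - h) = 1 ∨ det d (v - h) = -1) ∧
    (∀ j : ℤ, -2 ≤ j → j ≤ K + 2 → E h (v - j • d)) ∧
    ∀ j : ℤ, 0 ≤ j → j ≤ K → ∀ S ∈ 𝒮, h + (v - j • d) ∉ S.pos)

/-- the position chosen for `v` -/
private def ChoiceR (E : Pt → Pt → Prop) (v s : Pt) : Prop :=
  ∃ d, LexPos d ∧ E v (v + d) ∧ v + (v + d) = s

private def ChoiceF (K : ℕ) (E : Pt → Pt → Prop) (v s : Pt) : Prop :=
  ∃ h d, LexPos d ∧ (∀ j : ℤ, -2 ≤ j → j ≤ K + 2 → E h (v - j • d)) ∧ h + v = s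

private theorem LexPos.ne_zero' {d : Pt} (h : LexPos d) : d ≠ 0 := by
  rintro rfl
  unfold LexPos at h
  simp at h

private theorem IsTri.nbr_finite {m n : ℕ} {E : Pt → Pt → Prop} (h : IsTri m n E) (v : Pt) :
    ({w | E v w} : Set Pt).Finite := by
  have h1 := h.edges_finite.image (fun e : Pt × Pt => e.2)
  refine h1.subset ?_
  intro w hw
  exact ⟨(v, w), hw, rfl⟩

/-- a long fan has a hub of large degree -/
private theorem deg_of_fan {m n : ℕ} {E : Pt → Pt → Prop} (h : IsTri m n E) (K : ℕ) {p v d : Pt}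
    (hd : LexPos d) (hf : ∀ j : ℤ, -2 ≤ j → j ≤ K + 2 → E p (v - j • d)) : K + 5 ≤ deg E p := by
  classical
  unfold deg
  rw [Set.ncard_eq_toFinset_card _ (h.nbr_finite p)]
  have h1 : ((Finset.Icc (-2 : ℤ) (K + 2)).image (fun j : ℤ => v - j • d)).card = K + 5 := by
    rw [Finset.card_image_of_injective]
    · simp
      omega
    · intro i j hij
      have h2 : (i - j) • d = 0 := by
        simp only [sub_right_inj] at hij
        rw [sub_smul, hij, sub_self]
      rcases smul_eq_zero.mp h2 with h3 | h3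
      · omega
      · exact absurd h3 hd.ne_zero'
  rw [← h1]
  apply Finset.card_le_card
  intro w hw
  obtain ⟨j, hj, rfl⟩ := Finset.mem_image.1 hw
  rw [Finset.mem_Icc] at hj
  rw [Set.Finite.mem_toFinset]
  exact hf j hj.1 hj.2

private theorem choice_inj {m n : ℕ} {E : Pt → Pt → Prop} (h : IsTri m n E) (K : ℕ)
    {v w s : Pt} (hv : deg E v < K + 5) (hw : deg E w < K + 5)
    (h1 : ChoiceR E v s ∨ ChoiceF K E v s) (h2 : ChoiceR E w s ∨ ChoiceF K E w s) :
    v = w := by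
  by_contra hne
  have e1 : E v (s - v) := by
    rcases h1 with ⟨d, _, h3, rfl⟩ | ⟨p, d, _, h3, rfl⟩
    · convert h3 using 1; abel
    · have := h3 0 (by norm_num) (by positivity)
      simp only [zero_smul, sub_zero] at this
      convert h.symm _ _ this using 1; abel
  have e2 : E w (s - w) := by
    rcases h2 with ⟨d, _, h3, rfl⟩ | ⟨p, d, _, h3, rfl⟩
    · convert h3 using 1; abel
    · have := h3 0 (by norm_num) (by positivity)
      simp only [zero_smul, sub_zero] at this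
      convert h.symm _ _ this using 1; abel
  have hsw : w = s - v := by
    rcases h.mid_unique e1 e2 (by abel) with ⟨h3, _⟩ | ⟨h3, _⟩
    · exact absurd h3.symm hne
    · exact h3
  have hs : s = v + w := by rw [hsw]; abel
  rcases h1 with ⟨d, hd, h3, h4⟩ | ⟨p, d, hd, h3, h4⟩
  · rcases h2 with ⟨d', hd', h3', h4'⟩ | ⟨p, d', hd', h3', h4'⟩
    · have h5 : w = v + d := by
        rw [hs] at h4
        exact (add_left_cancel h4).symm
      have h6 : v = w + d' := by
        rw [hs, add_comm v w] at h4'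
        exact (add_left_cancel h4').symm
      have h7 : d' = -d := by
        rw [h5] at h6
        have : d' = (v + d + d') - v - d := by abel
        rw [this, ← h6]; abel
      rw [h7] at hd'
      exact hd.neg_not hd'
    · have h5 : p = v := by
        rw [hs] at h4'
        exact add_right_cancel h4'
      rw [h5] at h3'
      have := deg_of_fan h K hd' h3'
      omega
  · have h5 : p = w := by
      rw [hs, add_comm v w] at h4
      exact add_right_cancel h4
    rw [h5] at h3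
    have := deg_of_fan h K hd h3
    omega

private theorem outer_choice {E : Pt → Pt → Prop} {𝒮 : Finset Shp} {K : ℕ} {v : Pt}
    (hv : Outer K E 𝒮 v) : ∃ s, (ChoiceR E v s ∨ ChoiceF K E v s) ∧
      PCpos K (refillAll 𝒮 E) s ∧ ∀ S ∈ 𝒮, s ∉ S.pos := by
  rcases hv with ⟨d, hd, h1, h2, h3⟩ | ⟨p, d, hd, h1, h2, h3⟩
  · refine ⟨v + (v + d), Or.inl ⟨d, hd, h1, rfl⟩, Or.inl ⟨v, d, hd, rfl, Or.inl ⟨h1, h2⟩, ?_⟩, h2⟩
    intro j hj hjK
    obtain ⟨h4, h5⟩ := h3 (j - 1) (by omega)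
    have e1 : (((j - 1 : ℕ) : ℤ) + 1) = (j : ℤ) := by omega
    have e2 : v - ((j - 1 : ℕ) : ℤ) • d = v - (j : ℤ) • d + d := by
      have : ((j - 1 : ℕ) : ℤ) = (j : ℤ) - 1 := by omega
      rw [this, sub_smul, one_smul]; abel
    rw [e1, e2] at h4 h5
    exact Or.inl ⟨h4, h5⟩
  · have h0 := h2 0 (by norm_num) (by positivity)
    have h0' := h3 0 (by norm_num) (by positivity)
    simp only [zero_smul, sub_zero] at h0 h0'
    refine ⟨p + v, Or.inr ⟨p, d, hd, h2, rfl⟩,
      Or.inr ⟨p, v, d, hd, rfl, Or.inl ⟨h0, h0'⟩, h1, ?_⟩, h0'⟩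
    intro j hj hjK
    exact Or.inl ⟨h2 j (by omega) (by omega), h3 j (by omega) (by omega)⟩

private theorem rect_ncard (m n : ℕ) : ({v | InR m n v} : Set Pt).ncard = (m + 1) * (n + 1) ∧
    ({v | InR m n v} : Set Pt).Finite := by
  have h1 : ({v | InR m n v} : Set Pt) =
      ((Finset.Icc (0 : ℤ) m ×ˢ Finset.Icc (0 : ℤ) n : Finset Pt) : Set Pt) := by
    ext ⟨x, y⟩
    simp only [Set.mem_ofPred_eq, Finset.coe_product, Set.mem_prod, Finset.mem_coe,
      Finset.mem_Icc, InR]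
    tauto
  rw [h1]
  refine ⟨?_, Finset.finite_toSet _⟩
  rw [Set.ncard_coe_finset, Finset.card_product, Int.card_Icc, Int.card_Icc]
  congr 1

private theorem mid_ncard (S : Shp) : S.mid.Finite ∧ S.mid.ncard ≤ S.l := by
  classical
  have h1 : S.mid ⊆ (((Finset.range S.l).image (fun k : ℕ => S.o + (k : ℤ) • S.d) : Finset Pt) :
      Set Pt) := by
    rintro v ⟨k, h0, h1, rfl⟩
    simp only [Finset.coe_image, Set.mem_image, Finset.coe_range, Set.mem_Iio]
    exact ⟨k.toNat, by omega, by rw [Int.toNat_of_nonneg h0]⟩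
  refine ⟨(Finset.finite_toSet _).subset h1, ?_⟩
  refine (Set.ncard_le_ncard h1 (Finset.finite_toSet _)).trans ?_
  rw [Set.ncard_coe_finset]
  exact Finset.card_image_le.trans (by simp)

private theorem PCpos.edge {K : ℕ} {E : Pt → Pt → Prop} {s : Pt} (h : PCpos K E s) :
    ∃ a b, E a b ∧ a + b = s := by
  rcases h with ⟨a, d, _, h1, h2, _⟩ | ⟨p, v, d, _, h1, h2, _⟩
  · exact ⟨a, a + d, h2, h1⟩
  · exact ⟨p, v, h2, h1⟩

theorem Fam.pc {m n : ℕ} {E : Pt → Pt → Prop} {𝒮 : Finset Shp} (h : IsTri m n E)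
    (hF : Fam E 𝒮) (K : ℕ) (X : Set Pt)
    (hX : ∀ v, InR m n v → v ∉ X → (∀ S ∈ 𝒮, v ∉ S.mid) → Outer K E 𝒮 v) :
    (m + 1) * (n + 1) + 4 * ∑ S ∈ 𝒮, S.l ≤
      ({s | PCpos K (refillAll 𝒮 E) s} : Set Pt).ncard + ({v | InR m n v ∧ v ∈ X} : Set Pt).ncard +
        ({v | K + 5 ≤ deg E v} : Set Pt).ncard + (5 * K + 1) * 𝒮.card := by
  classical
  have hE' := hF.refill h
  set E' := refillAll 𝒮 E with hE'def
  obtain ⟨hR, hRfin⟩ := rect_ncard m n
  -- the predicted positions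
  have hPfin : ({s | PCpos K E' s} : Set Pt).Finite := by
    refine (pos_finite m n).subset ?_
    intro s hs
    obtain ⟨a, b, h1, rfl⟩ := PCpos.edge hs
    exact hE'.pos_mem h1
  -- vertices of large degree
  have hDfin : ({v | K + 5 ≤ deg E v} : Set Pt).Finite := by
    refine hRfin.subset ?_
    intro v hv
    have hv' : 0 < ({w | E v w} : Set Pt).ncard := by
      have : K + 5 ≤ ({w | E v w} : Set Pt).ncard := hv
      omega
    obtain ⟨w, hw⟩ := (Set.ncard_pos (h.nbr_finite v)).1 hv'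
    exact h.inR _ _ hw
  have hXfin : ({v | InR m n v ∧ v ∈ X} : Set Pt).Finite := hRfin.subset fun v hv => hv.1
  -- the good vertices
  set G : Set Pt := {v | InR m n v ∧ v ∉ X ∧ (∀ S ∈ 𝒮, v ∉ S.mid) ∧ deg E v < K + 5} with hG
  have hGfin : G.Finite := hRfin.subset fun v hv => hv.1
  have hch : ∀ v, ∃ s, v ∈ G → (ChoiceR E v s ∨ ChoiceF K E v s) ∧
      PCpos K E' s ∧ ∀ S ∈ 𝒮, s ∉ S.pos := by
    intro v
    by_cases hv : v ∈ G
    · obtain ⟨s, hs⟩ := outer_choice (hX v hv.1 hv.2.1 hv.2.2.1)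
      exact ⟨s, fun _ => hs⟩
    · exact ⟨v, fun h => absurd h hv⟩
  choose φ hφ using hch
  have hφinj : Set.InjOn φ hGfin.toFinset := by
    intro v hv w hw hvw
    rw [Finset.mem_coe, Set.Finite.mem_toFinset] at hv hw
    have h1 := (hφ v hv).1
    have h2 := (hφ w hw).1
    rw [← hvw] at h2
    exact choice_inj h K hv.2.2.2 hw.2.2.2 h1 h2
  -- the predicted positions inside the trapezoids
  let Q : Shp → Finset Pt := fun S => hPfin.toFinset.filter (fun t => t ∈ S.pos)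
  have hQ : ∀ S ∈ 𝒮, 5 * S.l ≤ (Q S).card + (5 * K + 1) := by
    intro S hS
    have h1 := can_pc K (hF.lex S hS) (hF.det S hS) (hF.bd S hS).hl (hF.bd S hS).ha
      (E' := E') (fun x y hxy => Or.inr ⟨S, hS, hxy⟩)
    have h2 : ({t | t ∈ S.pos ∧ PCpos K E' t} : Set Pt) = ((Q S : Finset Pt) : Set Pt) := by
      ext t
      simp only [Q, Set.mem_ofPred_eq, Finset.coe_filter, Set.Finite.mem_toFinset]
      tauto
    rw [h2, Set.ncard_coe_finset] at h1
    exact h1
  have hdis : ∀ S ∈ 𝒮, ∀ S' ∈ 𝒮, S ≠ S' → Disjoint (Q S) (Q S') := by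
    intro S hS S' hS' hne
    rw [Finset.disjoint_left]
    intro t h1 h2
    exact hF.disj S hS S' hS' hne t (Finset.mem_filter.1 h1).2 (Finset.mem_filter.1 h2).2
  have hU : (𝒮.biUnion Q).card = ∑ S ∈ 𝒮, (Q S).card := Finset.card_biUnion hdis
  have hdis2 : Disjoint (hGfin.toFinset.image φ) (𝒮.biUnion Q) := by
    rw [Finset.disjoint_left]
    intro t h1 h2
    obtain ⟨v, hv, rfl⟩ := Finset.mem_image.1 h1
    obtain ⟨S, hS, h3⟩ := Finset.mem_biUnion.1 h2
    rw [Set.Finite.mem_toFinset] at hv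
    exact (hφ v hv).2.2 S hS (Finset.mem_filter.1 h3).2
  have hcount : hGfin.toFinset.card + ∑ S ∈ 𝒮, (Q S).card ≤
      ({s | PCpos K E' s} : Set Pt).ncard := by
    rw [← hU, ← Finset.card_image_of_injOn hφinj, ← Finset.card_union_of_disjoint hdis2,
      Set.ncard_eq_toFinset_card _ hPfin]
    apply Finset.card_le_card
    intro t ht
    rcases Finset.mem_union.1 ht with h1 | h1
    · obtain ⟨v, hv, rfl⟩ := Finset.mem_image.1 h1
      rw [Set.Finite.mem_toFinset] at hv ⊢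
      exact (hφ v hv).2.1
    · obtain ⟨S, hS, h3⟩ := Finset.mem_biUnion.1 h1
      exact (Finset.mem_filter.1 h3).1
  have hsum : 5 * ∑ S ∈ 𝒮, S.l ≤ ∑ S ∈ 𝒮, (Q S).card + (5 * K + 1) * 𝒮.card := by
    rw [Finset.mul_sum]
    refine (Finset.sum_le_sum hQ).trans ?_
    rw [Finset.sum_add_distrib, Finset.sum_const, smul_eq_mul, mul_comm (Finset.card 𝒮)]
  -- covering the rectangle
  have hcover : ({v | InR m n v} : Set Pt) ⊆ ((hGfin.toFinset ∪ hXfin.toFinset ∪
      hDfin.toFinset ∪ 𝒮.biUnion (fun S => (mid_ncard S).1.toFinset) : Finset Pt) : Set Pt) := by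
    intro v hv
    simp only [Finset.coe_union, Set.Finite.coe_toFinset, Finset.coe_biUnion, Set.mem_union,
      Set.mem_iUnion, Finset.mem_coe]
    by_cases h1 : v ∈ X
    · exact Or.inl (Or.inl (Or.inr ⟨hv, h1⟩))
    by_cases h2 : K + 5 ≤ deg E v
    · exact Or.inl (Or.inr h2)
    by_cases h3 : ∀ S ∈ 𝒮, v ∉ S.mid
    · exact Or.inl (Or.inl (Or.inl ⟨hv, h1, h3, by omega⟩))
    · push Not at h3
      obtain ⟨S, hS, h4⟩ := h3
      exact Or.inr ⟨S, hS, h4⟩
  have hrect := Set.ncard_le_ncard hcover (Finset.finite_toSet _)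
  rw [hR, Set.ncard_coe_finset] at hrect
  have h1 := Finset.card_union_le (hGfin.toFinset ∪ hXfin.toFinset ∪ hDfin.toFinset)
    (𝒮.biUnion (fun S => (mid_ncard S).1.toFinset))
  have h2 := Finset.card_union_le (hGfin.toFinset ∪ hXfin.toFinset) hDfin.toFinset
  have h3 := Finset.card_union_le hGfin.toFinset hXfin.toFinset
  have h4 : (𝒮.biUnion (fun S => (mid_ncard S).1.toFinset)).card ≤ ∑ S ∈ 𝒮, S.l := by
    refine Finset.card_biUnion_le.trans (Finset.sum_le_sum ?_)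
    intro S _
    rw [← Set.ncard_eq_toFinset_card _ (mid_ncard S).1]
    exact (mid_ncard S).2
  rw [Set.ncard_eq_toFinset_card _ hXfin, Set.ncard_eq_toFinset_card _ hDfin]
  omega

end Pool.Agent.MP01b126
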